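import Pool.Agent.WGT.HatB

/-!
# NFG/AvA: bending morphisms (coherence and zigzag)

`unb_bnd`: `unb c' (bnd e' x) = x ≫ (Y ◁ [(ρ_ A).inv ≫ (A ◁ c') ≫ α⁻¹ ≫ (e' ▷ A) ≫ (λ_ A).hom]) = x`.  `bnd_unb` in the same
way with the other zigzag.  `unb_bnb` and `av_term` are coherence: unfold everything; use `whisker_exchange`,
`associator_naturality_*`, `pentagon`, `triangle`, or `monoidal` after moving `p`, `j`, `T` by naturality.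
`av_term`: first `(p ≫ j) ▷ _ = (p ▷ _) ≫ (j ▷ _)` and
`(j ▷ (A ≫ W)) ≫ α.hom ≫ (A ◁ (B ◁ T)) = (Y ◁ T) ≫ (j ▷ (A ≫ W')) ≫ α.hom`, then
`(A ◁ ins c' W) ≫ α⁻¹ ≫ (p ▷ (A ≫ W)) = hat (unb c' p) W` and
`(j ▷ (A ≫ W')) ≫ α.hom ≫ (A ◁ del e W') = hab (bnb e j) W'`.
-/

set_option autoImplicit false
set_option linter.unusedSectionVars false

noncomputable section

open CategoryTheory Bicategory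

namespace Pool.Agent.WGT

open Pool.Agent.NFG

universe w₂ w₁ w₀ w

variable {K : Type w} [Field K] {B : Type w₀} [Bicategory.{w₂, w₁} B] [∀ a b : B, Preadditive (a ⟶ b)]
  [∀ a b : B, Linear K (a ⟶ b)] [AddBi B] [LinBi K B] {ι : B → B → Type} [∀ a b, Fintype (ι a b)]
  [∀ a b, DecidableEq (ι a b)] {O : Subring K}

/-- bending: `Hom (A, Y ≫ A) ⟶ Hom (A ≫ B, Y)` -/
def bnd {s₀ t₀ : B} {A : s₀ ⟶ t₀} {B : t₀ ⟶ s₀} {Y : s₀ ⟶ s₀} (e' : A ≫ B ⟶ 𝟙 s₀) (x : A ⟶ Y ≫ A) : A ≫ B ⟶ Y :=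
  (x ▷ B) ≫ (α_ Y A B).hom ≫ (Y ◁ e') ≫ (ρ_ Y).hom

/-- the inverse of `bnd` -/
def unb {s₀ t₀ : B} {A : s₀ ⟶ t₀} {B : t₀ ⟶ s₀} {Y : s₀ ⟶ s₀} (c' : 𝟙 t₀ ⟶ B ≫ A) (p : A ≫ B ⟶ Y) : A ⟶ Y ≫ A :=
  (ρ_ A).inv ≫ (A ◁ c') ≫ (α_ A B A).inv ≫ (p ▷ A)

/-- bending of `Y ⟶ A ≫ B` to `Y ≫ A ⟶ A` -/
def bnb {s₀ t₀ : B} {A : s₀ ⟶ t₀} {B : t₀ ⟶ s₀} {Y : s₀ ⟶ s₀} (e : B ≫ A ⟶ 𝟙 t₀) (j : Y ⟶ A ≫ B) : Y ≫ A ⟶ A :=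
  (j ▷ A) ≫ (α_ A B A).hom ≫ (A ◁ e) ≫ (ρ_ A).hom

theorem unb_bnd {s₀ t₀ : B} {A : s₀ ⟶ t₀} {B : t₀ ⟶ s₀} {Y : s₀ ⟶ s₀} (c' : 𝟙 t₀ ⟶ B ≫ A) (e' : A ≫ B ⟶ 𝟙 s₀)
    (zig' : A ◁ c' ≫ (α_ _ _ _).inv ≫ e' ▷ A = (ρ_ _).hom ≫ (λ_ _).inv) (x : A ⟶ Y ≫ A) : unb c' (bnd e' x) = x := by
  have h1 : unb c' (bnd e' x) = (ρ_ A).inv ≫ (A ◁ c') ≫ (x ▷ (B ≫ A)) ≫ (α_ Y A (B ≫ A)).hom ≫ (Y ◁ (α_ A B A).inv) ≫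
      (Y ◁ (e' ▷ A)) ≫ (Y ◁ (λ_ A).hom) := by
    simp only [unb, bnd]
    bicategory
  rw [h1, whisker_exchange_assoc, ← rightUnitor_inv_naturality_assoc]
  have h2 : (ρ_ (Y ≫ A)).inv ≫ (Y ≫ A) ◁ c' ≫ (α_ Y A (B ≫ A)).hom ≫ Y ◁ (α_ A B A).inv ≫ Y ◁ e' ▷ A ≫ Y ◁ (λ_ A).hom
      = (Y ◁ (ρ_ A).inv) ≫ (Y ◁ (A ◁ c' ≫ (α_ _ _ _).inv ≫ e' ▷ A)) ≫ Y ◁ (λ_ A).hom := by
    bicategory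
  rw [h2, zig', ← Bicategory.whiskerLeft_comp, ← Bicategory.whiskerLeft_comp]
  simp

theorem bnd_unb {s₀ t₀ : B} {A : s₀ ⟶ t₀} {B : t₀ ⟶ s₀} {Y : s₀ ⟶ s₀} (c' : 𝟙 t₀ ⟶ B ≫ A) (e' : A ≫ B ⟶ 𝟙 s₀)
    (zag' : c' ▷ B ≫ (α_ _ _ _).hom ≫ B ◁ e' = (λ_ _).hom ≫ (ρ_ _).inv) (p : A ≫ B ⟶ Y) : bnd e' (unb c' p) = p := by
  have h1 : bnd e' (unb c' p) = (A ◁ (λ_ B).inv) ≫ (A ◁ (c' ▷ B)) ≫ (A ◁ (α_ B A B).hom) ≫ (α_ A B (A ≫ B)).inv ≫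
      (p ▷ (A ≫ B)) ≫ (Y ◁ e') ≫ (ρ_ Y).hom := by
    simp only [unb, bnd]
    bicategory
  rw [h1, ← whisker_exchange_assoc, rightUnitor_naturality]
  have h2 : A ◁ (λ_ B).inv ≫ A ◁ c' ▷ B ≫ A ◁ (α_ B A B).hom ≫ (α_ A B (A ≫ B)).inv ≫ (A ≫ B) ◁ e' ≫ (ρ_ (A ≫ B)).hom
      = (A ◁ (λ_ B).inv) ≫ (A ◁ (c' ▷ B ≫ (α_ _ _ _).hom ≫ B ◁ e')) ≫ A ◁ (ρ_ B).hom := by
    bicategory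
  have h3 : ∀ {Z : s₀ ⟶ s₀} (q : A ≫ B ⟶ Z), A ◁ (λ_ B).inv ≫ A ◁ c' ▷ B ≫ A ◁ (α_ B A B).hom ≫ (α_ A B (A ≫ B)).inv ≫ (A ≫ B) ◁ e' ≫ (ρ_ (A ≫ B)).hom ≫ q = q := by
    intro Z q
    have := congrArg (· ≫ q) h2
    simp only [Category.assoc] at this
    rw [this, zag', ← Category.assoc, ← Category.assoc, ← Bicategory.whiskerLeft_comp, ← Bicategory.whiskerLeft_comp]
    simp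
  exact h3 p

theorem unb_bnb {s₀ t₀ : B} {A : s₀ ⟶ t₀} {B : t₀ ⟶ s₀} {Y : s₀ ⟶ s₀} (c' : 𝟙 t₀ ⟶ B ≫ A) (e : B ≫ A ⟶ 𝟙 t₀) (p : A ≫ B ⟶ Y) (j : Y ⟶ A ≫ B) :
    unb c' p ≫ bnb e j = rpt c' e (p ≫ j) := by
  simp only [unb, bnb, rpt]
  bicategory

/-- step 3, one term -/
theorem av_term {s₀ t₀ r₀ : B} {A : s₀ ⟶ t₀} {B : t₀ ⟶ s₀} {Y : s₀ ⟶ s₀} {W W' : t₀ ⟶ r₀} (c' : 𝟙 t₀ ⟶ B ≫ A) (e : B ≫ A ⟶ 𝟙 t₀) (p : A ≫ B ⟶ Y) (j : Y ⟶ A ≫ B)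
    (T : A ≫ W ⟶ A ≫ W') :
    (A ◁ ins c' W) ≫ (α_ A B (A ≫ W)).inv ≫ ((p ≫ j) ▷ (A ≫ W)) ≫ (α_ A B (A ≫ W)).hom ≫ (A ◁ (B ◁ T)) ≫
      (A ◁ del e W') = hat (unb c' p) W ≫ (Y ◁ T) ≫ hab (bnb e j) W' := by
  have h1 : hat (unb c' p) W = (A ◁ ins c' W) ≫ (α_ A B (A ≫ W)).inv ≫ (p ▷ (A ≫ W)) := by
    simp only [unb, ins, hat]
    bicategory
  have h2 : hab (bnb e j) W' = (j ▷ (A ≫ W')) ≫ (α_ A B (A ≫ W')).hom ≫ (A ◁ del e W') := by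
    simp only [bnb, del, hab]
    bicategory
  rw [h1, h2, comp_whiskerRight, Category.assoc, Category.assoc, Category.assoc]
  rw [← associator_naturality_right_assoc, whisker_exchange_assoc]

end Pool.Agent.WGT
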