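import Pool.Agent.WGT.Dua
import Pool.Agent.WGT.AvA

/-!
# NFG/AvB: the averaging formula

`bnd`, `unb`, `bnb` and the coherence statements are in `AvA`.

The bent basis `π y i = bnd (ev' a) (b y i)` is a basis of `Hom (S a ≫ S (st a), S y)`; `dual_basis'` gives the dual
basis `j y i`, with sum `π y i ≫ j y i = 𝟙`.  By `rpt_scalar` and `tr_rank` the bent dual elements are
`bnb (ev a) (j y i) = (d y / d a) • g y i`.  The averaging formula follows by inserting the identity
(`av_term`).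
-/

set_option autoImplicit false
set_option linter.unusedSectionVars false

noncomputable section

open CategoryTheory Bicategory

namespace Pool.Agent.WGT

open Pool.Agent.NFG

universe w₂ w₁ w₀ w

variable {K : Type w} [Field K] {B : Type w₀} [Bicategory.{w₂, w₁} B] [∀ a b : B, Preadditive (a ⟶ b)]
  [∀ a b : B, Linear K (a ⟶ b)] [AddBi B] [LinBi K B] {ι : B → B → Type} [∀ a b, Fintype (ι a b)]
  [∀ a b, DecidableEq (ι a b)] {O : Subring K}

/-- the scalar of an endomorphism of a simple object -/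
private lemma exists_sc (F : Fus K B ι) {p q : B} (m : ι p q) : ∃ s : (F.S m ⟶ F.S m) ≃ₗ[K] K, ∀ f, f = s f • 𝟙 (F.S m) := by
  have hinj : Function.Injective (LinearMap.toSpanSingleton K (F.S m ⟶ F.S m) (𝟙 (F.S m))) := by
    intro c c' h
    simp only [LinearMap.toSpanSingleton_apply] at h
    exact smul_one_inj F h
  have hsur : Function.Surjective (LinearMap.toSpanSingleton K (F.S m ⟶ F.S m) (𝟙 (F.S m))) := by
    intro f
    obtain ⟨c, hc⟩ := F.schur m f
    exact ⟨c, by rw [LinearMap.toSpanSingleton_apply, hc]⟩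
  refine ⟨(LinearEquiv.ofBijective _ ⟨hinj, hsur⟩).symm, fun f => ?_⟩
  exact ((LinearEquiv.ofBijective _ ⟨hinj, hsur⟩).apply_symm_apply f).symm

/-- morphisms which agree on a basis agree on everything -/
private lemma comp_eq_of_basis {s₀ t₀ : B} {A B Y : s₀ ⟶ t₀} {n : ℕ} (p : Module.Basis (Fin n) K (A ⟶ B)) {g g' : B ⟶ Y}
    (h : ∀ i, p i ≫ g = p i ≫ g') (f : A ⟶ B) : f ≫ g = f ≫ g' := by
  rw [← p.sum_repr f, Preadditive.sum_comp, Preadditive.sum_comp]
  refine Finset.sum_congr rfl fun i _ => ?_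
  rw [Linear.smul_comp, Linear.smul_comp, h]

private lemma comp_eq_of_basis' {s₀ t₀ : B} {A B Y : s₀ ⟶ t₀} {n : ℕ} (p : Module.Basis (Fin n) K (A ⟶ B)) {g g' : Y ⟶ A}
    (h : ∀ i, g ≫ p i = g' ≫ p i) (f : A ⟶ B) : g ≫ f = g' ≫ f := by
  rw [← p.sum_repr f, Preadditive.comp_sum, Preadditive.comp_sum]
  refine Finset.sum_congr rfl fun i _ => ?_
  rw [Linear.comp_smul, Linear.comp_smul, h]

/-- the dual of `dual_basis` -/
private lemma dual_basis' (F : Fus K B ι) {s₀ t₀ : B} (Z : s₀ ⟶ t₀) (n : ι s₀ t₀ → ℕ) (p : ∀ m, Module.Basis (Fin (n m)) K (Z ⟶ F.S m)) :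
    ∃ j : ∀ m, Fin (n m) → (F.S m ⟶ Z),
      (∀ m i k, j m i ≫ p m k = if i = k then 𝟙 (F.S m) else 0) ∧ ∑ m, ∑ i, p m i ≫ j m i = 𝟙 Z := by
  have hf : ∀ m, FiniteDimensional K (F.S m ⟶ Z) := fun m => fin_hom F Z m
  obtain ⟨e', he1, he2⟩ := dual_basis F Z (fun m => Module.finrank K (F.S m ⟶ Z)) (fun m => Module.finBasis K _)
  choose s hs using exists_sc F
  -- the dimension of `Hom (Z, S m)`
  have hle : ∀ m, n m ≤ Module.finrank K (F.S m ⟶ Z) := by
    intro m
    have hspan : Submodule.span K (Set.range (e' m)) = ⊤ := by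
      rw [eq_top_iff]
      intro g _
      have h1 : g = ∑ i, s m (Module.finBasis K (F.S m ⟶ Z) i ≫ g) • e' m i := by
        have h2 : g = (∑ m', ∑ i, e' m' i ≫ (Module.finBasis K (F.S m' ⟶ Z) i)) ≫ g := by
          rw [he2, Category.id_comp]
        conv_lhs => rw [h2]
        rw [Preadditive.sum_comp, Finset.sum_eq_single m]
        · rw [Preadditive.sum_comp]
          refine Finset.sum_congr rfl fun i _ => ?_
          rw [Category.assoc]
          conv_lhs => rw [hs m (Module.finBasis K (F.S m ⟶ Z) i ≫ g)]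
          rw [Linear.comp_smul, Category.comp_id]
        · intro m' _ hm'
          rw [Preadditive.sum_comp]
          refine Finset.sum_eq_zero fun i _ => ?_
          rw [Category.assoc, comp_zero' F hm', Limits.comp_zero]
        · intro h
          exact absurd (Finset.mem_univ m) h
      rw [h1]
      exact Submodule.sum_mem _ fun i _ => Submodule.smul_mem _ _ (Submodule.subset_span ⟨i, rfl⟩)
    have h3 := finrank_range_le_card (R := K) (e' m)
    rw [Set.finrank, hspan, finrank_top, Module.finrank_eq_card_basis (p m)] at h3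
    simpa using h3
  -- the pairing
  let Ψ : ∀ m, (F.S m ⟶ Z) →ₗ[K] (Fin (n m) → K) := fun m =>
    LinearMap.pi fun k => (s m).toLinearMap ∘ₗ Linear.rightComp K (F.S m) (p m k)
  have hΨ : ∀ m f k, Ψ m f k = s m (f ≫ p m k) := fun m f k => rfl
  have hinj : ∀ m, Function.Injective (Ψ m) := by
    intro m
    rw [injective_iff_map_eq_zero]
    intro f hf0
    apply nondeg F
    intro g
    have h1 : f ≫ g = (0 : F.S m ⟶ Z) ≫ g := by
      refine comp_eq_of_basis' (p m) (fun k => ?_) g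
      have h2 : s m (f ≫ p m k) = 0 := by
        rw [← hΨ, hf0]; rfl
      rw [hs m (f ≫ p m k), h2, zero_smul, Limits.zero_comp]
    rw [h1, Limits.zero_comp]
  have hdim : ∀ m, Module.finrank K (F.S m ⟶ Z) = Module.finrank K (Fin (n m) → K) := by
    intro m
    apply le_antisymm
    · exact LinearMap.finrank_le_finrank_of_injective (hinj m)
    · rw [Module.finrank_fin_fun]
      exact hle m
  have hsur : ∀ m, Function.Surjective (Ψ m) := fun m =>
    (LinearMap.injective_iff_surjective_of_finrank_eq_finrank (hdim m)).1 (hinj m)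
  choose j hj using fun m (i : Fin (n m)) => hsur m (Pi.single i 1)
  have hjp : ∀ m i k, j m i ≫ p m k = if i = k then 𝟙 (F.S m) else 0 := by
    intro m i k
    rw [hs m (j m i ≫ p m k), ← hΨ, hj]
    by_cases h : i = k
    · subst h
      simp
    · rw [if_neg h, Pi.single_eq_of_ne (Ne.symm h), zero_smul]
  refine ⟨j, hjp, ?_⟩
  apply ext_right F
  intro m g
  refine comp_eq_of_basis' (p m) (fun k => ?_) g
  rw [Category.id_comp, Preadditive.sum_comp, Finset.sum_eq_single m]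
  · rw [Preadditive.sum_comp, Finset.sum_eq_single k]
    · rw [Category.assoc, hjp, if_pos rfl, Category.comp_id]
    · intro i _ hi
      rw [Category.assoc, hjp, if_neg hi, Limits.comp_zero]
    · intro h
      exact absurd (Finset.mem_univ k) h
  · intro m' _ hm'
    rw [Preadditive.sum_comp]
    refine Finset.sum_eq_zero fun i _ => ?_
    rw [Category.assoc, comp_zero' F hm', Limits.comp_zero]
  · intro h
    exact absurd (Finset.mem_univ m) h

private lemma bnd_add {s₀ t₀ : B} {A : s₀ ⟶ t₀} {B : t₀ ⟶ s₀} {Y : s₀ ⟶ s₀} (e' : A ≫ B ⟶ 𝟙 s₀) (x y : A ⟶ Y ≫ A) : bnd e' (x + y) = bnd e' x + bnd e' y := by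
  simp only [bnd, wr_add, Preadditive.add_comp]

private lemma bnd_smul {s₀ t₀ : B} {A : s₀ ⟶ t₀} {B : t₀ ⟶ s₀} {Y : s₀ ⟶ s₀} (e' : A ≫ B ⟶ 𝟙 s₀) (c : K) (x : A ⟶ Y ≫ A) : bnd e' (c • x) = c • bnd e' x := by
  simp only [bnd, wr_smul, Linear.smul_comp]

theorem av {F : Fus K B ι} (sp : Sph F) (hd : ∀ {p q : B} (i : ι p q), sp.d i ≠ 0) {s₀ t₀ r₀ : B} (a : ι s₀ t₀) (N : ι s₀ s₀ → ℕ)
    (b : ∀ y, Module.Basis (Fin (N y)) K (F.S a ⟶ F.S y ≫ F.S a)) (g : ∀ y, Fin (N y) → (F.S y ≫ F.S a ⟶ F.S a))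
    (hbg : ∀ y i j, b y i ≫ g y j = if i = j then 𝟙 (F.S a) else 0) {W W' : t₀ ⟶ r₀} (T : F.S a ≫ W ⟶ F.S a ≫ W') :
    sp.d a • (F.S a ◁ lpt (sp.cv' a) (sp.ev a) T) =
      ∑ y, ∑ i, sp.d y • (hat (b y i) W ≫ (F.S y ◁ T) ≫ hab (g y i) W') := by
  -- the bent basis
  let Θ : ∀ y, (F.S a ⟶ F.S y ≫ F.S a) ≃ₗ[K] (F.S a ≫ F.S (sp.st a) ⟶ F.S y) := fun y =>
    { toFun := bnd (sp.ev' a)
      invFun := unb (sp.cv' a)
      map_add' := bnd_add _
      map_smul' := bnd_smul _
      left_inv := fun x => unb_bnd _ _ (sp.zig' a) x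
      right_inv := fun p => bnd_unb _ _ (sp.zag' a) p }
  obtain ⟨j, hj1, hj2⟩ := dual_basis' F (F.S a ≫ F.S (sp.st a)) N (fun y => (b y).map (Θ y))
  have hp : ∀ y i, ((b y).map (Θ y)) i = bnd (sp.ev' a) (b y i) := fun y i => by
    rw [Module.Basis.map_apply]; rfl
  simp only [hp] at hj1 hj2
  -- the dual elements
  have hb1 : ∀ y i k, b y i ≫ bnb (sp.ev a) (j y k) = ((if i = k then 1 else 0) * sp.d y / sp.d a : K) • 𝟙 (F.S a) := by
    intro y i k
    have h1 : b y i = unb (sp.cv' a) (bnd (sp.ev' a) (b y i)) := (unb_bnd _ _ (sp.zig' a) _).symm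
    conv_lhs => rw [h1]
    rw [unb_bnb, rpt_scalar sp hd, tr_rank sp (c := if i = k then 1 else 0)]
    rw [hj1]
    by_cases h : k = i
    · subst h; simp
    · rw [if_neg h, if_neg (Ne.symm h), zero_smul]
  have hb2 : ∀ y k, bnb (sp.ev a) (j y k) = (sp.d y / sp.d a) • g y k := by
    intro y k
    have h0 : bnb (sp.ev a) (j y k) - (sp.d y / sp.d a) • g y k = 0 := by
      apply nondeg' F
      intro f
      rw [Preadditive.comp_sub, sub_eq_zero]
      refine comp_eq_of_basis (b y) (fun i => ?_) f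
      rw [hb1, Linear.comp_smul, hbg]
      by_cases h : i = k
      · subst h; simp
      · rw [if_neg h, if_neg h]; simp
    exact sub_eq_zero.1 h0
  -- insert the identity
  have h3 : F.S a ◁ lpt (sp.cv' a) (sp.ev a) T =
      (F.S a ◁ ins (sp.cv' a) W) ≫ (α_ (F.S a) (F.S (sp.st a)) (F.S a ≫ W)).inv ≫
        ((𝟙 (F.S a ≫ F.S (sp.st a))) ▷ (F.S a ≫ W)) ≫ (α_ (F.S a) (F.S (sp.st a)) (F.S a ≫ W)).hom ≫
          (F.S a ◁ (F.S (sp.st a) ◁ T)) ≫ (F.S a ◁ del (sp.ev a) W') := by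
    rw [id_whiskerRight, Category.id_comp, Iso.inv_hom_id_assoc, lpt, Bicategory.whiskerLeft_comp,
      Bicategory.whiskerLeft_comp]
  have h4 : F.S a ◁ lpt (sp.cv' a) (sp.ev a) T =
      ∑ y, ∑ i, (sp.d y / sp.d a) • (hat (b y i) W ≫ (F.S y ◁ T) ≫ hab (g y i) W') := by
    rw [h3, ← hj2]
    have h5 : ∀ (n : ι s₀ s₀ → ℕ) (q : ∀ y, Fin (n y) → (F.S a ≫ F.S (sp.st a) ⟶ F.S a ≫ F.S (sp.st a))),
        (∑ y, ∑ i, q y i) ▷ (F.S a ≫ W) = ∑ y, ∑ i, (q y i ▷ (F.S a ≫ W)) := by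
      intro n q
      rw [wr_sum]
      refine Finset.sum_congr rfl fun y _ => ?_
      rw [wr_sum]
    rw [h5]
    simp only [Preadditive.sum_comp, Preadditive.comp_sum]
    refine Finset.sum_congr rfl fun y _ => Finset.sum_congr rfl fun i _ => ?_
    rw [av_term, unb_bnd _ _ (sp.zig' a), hb2, hab_smul, Linear.comp_smul, Linear.comp_smul]
  rw [h4, Finset.smul_sum]
  refine Finset.sum_congr rfl fun y _ => ?_
  rw [Finset.smul_sum]
  refine Finset.sum_congr rfl fun i _ => ?_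
  rw [smul_smul, mul_div_cancel₀ _ (hd a)]

end Pool.Agent.WGT
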