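import Pool.Agent.WGT.StB
import Pool.Agent.WGT.AvB

/-!
# NFG/AvL: averaging is defined over `O`
-/

set_option autoImplicit false
set_option linter.unusedSectionVars false

noncomputable section

open CategoryTheory Bicategory

namespace Pool.Agent.WGT

open Pool.Agent.NFG

universe w₂ w₁ w₀ w

variable {K : Type w} [Field K] {B : Type w₀} [Bicategory.{w₂, w₁} B] [∀ a b : B, Preadditive (a ⟶ b)]
  [∀ a b : B, Linear K (a ⟶ b)] [AddBi B] [LinBi K B] {ι : B → B → Type} [∀ a b, Fintype (ι a b)]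
  [∀ a b, DecidableEq (ι a b)] {O : Subring K}

private theorem avl_bas {F : Fus K B ι} {sp : Sph F} {X Y : B} {E : Set (ι X X)} {A : Set (ι X Y)} {L : F.Sys O X X} (h : Ctx sp O E L)
    (hA : IsOrb sp E A) {a : ι X Y} (ha : a ∈ A) (y : ι X X) :
    ∃ (N : ℕ) (b : Module.Basis (Fin N) K (F.S a ⟶ F.S y ≫ F.S a)) (g : Fin N → (F.S y ≫ F.S a ⟶ F.S a)),
      (∀ i j, b i ≫ g j = if i = j then 𝟙 (F.S a) else 0) ∧
      (Fin N → (y ∈ E ∧ (∀ i, b i ∈ L y a a) ∧ ∀ i, g i ∈ F.dl (L y a a))) := by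
  by_cases hy : y ∈ E
  · obtain ⟨N, b, g, h1, h2, h3, -⟩ := latdec' F (L y a) (h.int.lat y hy a)
    exact ⟨N a, b a, g a, h3 a, fun _ => ⟨hy, h1 a, h2 a⟩⟩
  · have h0 : Subsingleton (F.S a ⟶ F.S y ≫ F.S a) := by
      refine ⟨fun f f' => ?_⟩
      have hn : ¬ F.Occ y a a := fun ho => hy (hA.ad a ha y (occ_ad sp ho))
      rw [not_occ F hn f, not_occ F hn f']
    exact ⟨0, Module.Basis.empty _, fun i => i.elim0, fun i => i.elim0, fun i => i.elim0⟩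

theorem av_mem {F : Fus K B ι} {sp : Sph F} {X Y Z : B} {E : Set (ι X X)} {A : Set (ι X Y)} {L : F.Sys O X X} (h : Ctx sp O E L) (hA : IsOrb sp E A)
    {W W' : Y ⟶ Z} {n : ∀ a : ι X Y, F.Fam O (F.S a ≫ W)} (hn : Stab F E L A n) {n' : ∀ a : ι X Y, F.Fam O (F.S a ≫ W')}
    (hn' : Stab F E L A n') {a : ι X Y} (ha : a ∈ A) {m₀ : ι X Z} {g : F.S a ≫ W ⟶ F.S m₀} (hg : g ∈ F.dl (n a m₀))
    {x : F.S m₀ ⟶ F.S a ≫ W'} (hx : x ∈ n' a m₀) {m : ι X Z} {f : F.S m ⟶ F.S a ≫ W} (hf : f ∈ n a m) :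
    f ≫ (F.S a ◁ lpt (sp.cv' a) (sp.ev a) (g ≫ x)) ∈ n' a m := by
  choose N b g' hbg hb using avl_bas h hA ha
  have hav := av sp (fun i => (h.du i).1) a N b g' hbg (g ≫ x)
  have h1 : f ≫ (F.S a ◁ lpt (sp.cv' a) (sp.ev a) (g ≫ x)) = (sp.d a)⁻¹ •
      (f ≫ ∑ y, ∑ i, sp.d y • (hat (b y i) W ≫ (F.S y ◁ (g ≫ x)) ≫ hab (g' y i) W')) := by
    rw [← hav, Linear.comp_smul, smul_smul, inv_mul_cancel₀ (h.du a).1, one_smul]
  rw [h1]
  refine smul_mem_of (h.du a).2.2 ?_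
  rw [Preadditive.comp_sum]
  refine Submodule.sum_mem _ fun y _ => ?_
  rw [Preadditive.comp_sum]
  refine Submodule.sum_mem _ fun i _ => ?_
  rw [Linear.comp_smul]
  refine smul_mem_of (h.du y).2.1 ?_
  obtain ⟨hy, hby, hgy⟩ := hb y i
  have h2 : f ≫ hat (b y i) W ∈ F.N2 L y (n a) m := by
    rw [← stab_eq h hA.act hn hy ha]
    exact mem_N1 (hby i) hf
  have h3 := N2_dl h2 hg
  have h4 := hn'.stab y hy a ha a ha (g' y i) (hgy i) m₀ m x hx _ h3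
  rw [Category.assoc, Category.assoc] at h4
  rw [Bicategory.whiskerLeft_comp, Category.assoc]
  exact h4

end Pool.Agent.WGT
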