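import Pool.Agent.WGT.Uf

/-!
# WGT/Bas: the trivial fusion subcategory

`base`: `L i v := lf v` if `i = o` (transport along `i = o`, or define `L i v m = {f | ..}` with `dite`), anything for `i ≠ o`.
`lat`: `lf_lat`.  `unitL`: `lf_self`.  `unitR`: `L o o o = O lam o = O rho o` (`lam_eq_rho`).
`assoc` for `y = y' = o`: `L o o = rf o` (`eq_rf`, `lam_eq_rho`), `N1_rf`: `N1 L o o (fun k => L k v) = N2 L o (lf v)` and
`L o v = lf v`.
`base_uniq`: `g = 1`; for `m = v` both are `O lam v` (`unitL`), `scl 1`; for `m ≠ v` the space is zero: `eq_lf` for both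
systems: `L o v = lf v = L' o v`.
-/

set_option autoImplicit false

noncomputable section

open CategoryTheory Bicategory

namespace Pool.Agent.WGT

open Pool.Agent.NFG

universe w₂ w₁ w₀ w

variable {K : Type w} [Field K] {B : Type w₀} [Bicategory.{w₂, w₁} B] [∀ a b : B, Preadditive (a ⟶ b)]
  [∀ a b : B, Linear K (a ⟶ b)] [AddBi B] [LinBi K B] {ι : B → B → Type} [∀ a b, Fintype (ι a b)]
  [∀ a b, DecidableEq (ι a b)] {O : Subring K}

/-- the system with the lattices `lf v` for the unit object -/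
private def baseL (F : Fus K B ι) (O : Subring K) (X : B) : F.Sys O X X := fun i Y v m =>
  if h : i = (F.o X) then
    (h.symm ▸ (F.lf O v m : Submodule O (F.S m ⟶ F.S (F.o X) ≫ F.S v)) : Submodule O (F.S m ⟶ F.S i ≫ F.S v))
  else ⊥

private theorem baseL_o (F : Fus K B ι) (O : Subring K) {X Y : B} (v : ι X Y) : baseL F O X (F.o X) v = F.lf O v := by
  funext m
  unfold baseL
  rw [dif_pos rfl]

theorem base (F : Fus K B ι) (O : Subring K) (X : B) : ∃ L : F.Sys O X X, LInt F O {(F.o X)} L := by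
  have hrf : baseL F O X (F.o X) (F.o X) = F.rf O (F.o X) := by
    apply eq_rf
    rw [baseL_o, lf_self, lam_eq_rho]
  refine ⟨baseL F O X, ⟨?_, ?_, ?_, ?_⟩⟩
  · rintro y hy Y v m
    obtain rfl : y = (F.o X) := hy
    rw [baseL_o]
    exact lf_lat F v m
  · intro Y v
    rw [baseL_o]
    exact lf_self F v
  · rintro y hy
    obtain rfl : y = (F.o X) := hy
    rw [baseL_o, lf_self, lam_eq_rho]
  · rintro y hy y' hy' Y v
    obtain rfl : y = (F.o X) := hy
    obtain rfl : y' = (F.o X) := hy'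
    rw [baseL_o, N1_rf hrf]

theorem base_uniq (F : Fus K B ι) (O : Subring K) (X : B) : Uniq F O {(F.o X)} := by
  intro L L' hL hL'
  refine ⟨fun _ _ => 1, fun _ _ => one_ne_zero, ?_⟩
  rintro y hy Y v m
  obtain rfl : y = (F.o X) := hy
  rw [eq_lf F (hL.unitL v), eq_lf F (hL'.unitL v), mul_one, inv_one, mul_one, scl_one]

end Pool.Agent.WGT
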