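import Pool.Agent.WGT.TfE

/-!
# WGT/TfF: the form on the other side is associative

`tq_assoc`: as in `Pool.Agent.NFG.M2c` (`m2c_le1`, `m2c_ge1`, `m2c_le2`, `m2c_ge2`, then `faith`): the same proof with `R a`, `R k`, `R l`
for the first factors in `J`, `tq_spec hm h`, `tq_indep hm h`, `k ∈ J` for `Occ a e k` by `hm.right`, and `hm.sub'.mul` for `E'`.
`tq_int`: `tq_lat`, `tq_unitL`, `tq_unitR`, `tq_assoc`.  `tq_bi`: `tq_spec` and `tq_indep`.
`mor_exists`: `Ctx` from `hO, hd, hm.sub` and the given form; `exists_mix` with `mor_orb`, `a ∈ J` by `hm.ne`, `tq_int`.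
-/

set_option autoImplicit false
set_option linter.unusedSectionVars false

noncomputable section

open CategoryTheory Bicategory

namespace Pool.Agent.WGT

open Pool.Agent.NFG

universe w₂ w₁ w₀ w

variable {K : Type w} [Field K] {B : Type w₀} [Bicategory.{w₂, w₁} B] [∀ a b : B, Preadditive (a ⟶ b)]
  [∀ a b : B, Linear K (a ⟶ b)] [AddBi B] [LinBi K B] {ι : B → B → Type} [∀ a b, Fintype (ι a b)]
  [∀ a b, DecidableEq (ι a b)] {O : Subring K}

private def tffL (O : Subring K) {M N : Type*} [AddCommGroup M] [Module K M] [AddCommGroup N] [Module K N] (φ : M → N)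
    (h1 : ∀ x y, φ (x + y) = φ x + φ y) (h2 : ∀ (c : K) x, φ (c • x) = c • φ x) : M →ₗ[O] N where
  toFun := φ
  map_add' := h1
  map_smul' := fun c x => h2 (c : K) x

private theorem tff_N1 {F : Fus K B ι} {X Y Z V : B} {L : F.Sys O X Y} {y : ι X Y} {a : ι Y Z} {W : Z ⟶ V}
    {n : ∀ a' : ι X Z, F.Fam O (F.S a' ≫ W)} {m : ι X V}
    {N : Type*} [AddCommGroup N] [Module K N] (φ : (F.S m ⟶ F.S y ≫ (F.S a ≫ W)) → N)
    (h1 : ∀ x y, φ (x + y) = φ x + φ y) (h2 : ∀ (c : K) x, φ (c • x) = c • φ x) {T : Submodule O N}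
    (h : ∀ (a' : ι X Z) (x : F.S a' ⟶ F.S y ≫ F.S a) (f : F.S m ⟶ F.S a' ≫ W), x ∈ L y a a' → f ∈ n a' m →
      φ (f ≫ hat x W) ∈ T) {p : F.S m ⟶ F.S y ≫ (F.S a ≫ W)} (hp : p ∈ F.N1 L y a n m) : φ p ∈ T :=
  N1_le (P := T.comap (tffL O φ h1 h2)) h hp

private theorem tff_N2 {F : Fus K B ι} {X Y V : B} {L : F.Sys O X Y} {y : ι X Y} {W : Y ⟶ V} {n : F.Fam O W} {m : ι X V}
    {N : Type*} [AddCommGroup N] [Module K N] (φ : (F.S m ⟶ F.S y ≫ W) → N)
    (h1 : ∀ x y, φ (x + y) = φ x + φ y) (h2 : ∀ (c : K) x, φ (c • x) = c • φ x) {T : Submodule O N}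
    (h : ∀ (m' : ι Y V) (z : F.S m ⟶ F.S y ≫ F.S m') (f : F.S m' ⟶ W), z ∈ L y m' m → f ∈ n m' →
      φ (z ≫ (F.S y ◁ f)) ∈ T) {p : F.S m ⟶ F.S y ≫ W} (hp : p ∈ F.N2 L y n m) : φ p ∈ T :=
  N2_le (P := T.comap (tffL O φ h1 h2)) h hp

/-- three steps from `S a ≫ (S y ≫ (S y' ≫ S v))` -/
private def tffT {F : Fus K B ι} {X U Y : B} (L : F.Sys O X U) (a : ι X U) (y y' : ι U U) (v : ι U Y) : F.Fam O (F.S a ≫ (F.S y ≫ (F.S y' ≫ F.S v))) :=
  fun m => Submodule.span O {p | ∃ (k l : ι X U) (x : F.S k ⟶ F.S a ≫ F.S y) (x' : F.S l ⟶ F.S k ≫ F.S y')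
    (f : F.S m ⟶ F.S l ≫ F.S v), x ∈ L a y k ∧ x' ∈ L k y' l ∧ f ∈ L l v m ∧
      p = f ≫ hat x' (F.S v) ≫ hat x (F.S y' ≫ F.S v)}

private theorem tff_mem {F : Fus K B ι} {X U Y : B} {L : F.Sys O X U} {a k l : ι X U} {y y' : ι U U} {v : ι U Y} {m : ι X Y} {x : F.S k ⟶ F.S a ≫ F.S y}
    {x' : F.S l ⟶ F.S k ≫ F.S y'} {f : F.S m ⟶ F.S l ≫ F.S v} (hx : x ∈ L a y k) (hx' : x' ∈ L k y' l)
    (hf : f ∈ L l v m) : f ≫ hat x' (F.S v) ≫ hat x (F.S y' ≫ F.S v) ∈ tffT L a y y' v m :=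
  Submodule.subset_span ⟨k, l, x, x', f, hx, hx', hf, rfl⟩

private theorem tff_le1 {F : Fus K B ι} {sp : Sph F} {X U : B} {E₀ : Set (ι X X)} {J : Set (ι X U)} {E : Set (ι U U)}
    (hm : IsMor sp E₀ J E) {L₀ : F.Sys O X X} {L : F.Sys O X U} (h : Mix sp O E₀ J L₀ L) {a : ι X U} (ha : a ∈ J)
    {y y' : ι U U} (hy : y ∈ E) (hy' : y' ∈ E) {Y : B} (v : ι U Y) (m : ι X Y) :
    F.N2 L a (F.N1 (tq L a) y y' (fun k => tq L a k v)) m ≤ tffT L a y y' v m := by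
  refine N2_le fun n z p hz hp => ?_
  refine tff_N1 (fun p => z ≫ (F.S a ◁ p))
    (fun p p' => by rw [wl_add, Preadditive.comp_add])
    (fun c p => by rw [wl_smul, Linear.comp_smul]) (fun k l'' f'' hl hf => ?_) hp
  by_cases hk : F.Occ y y' k
  · have hkE : k ∈ E := hm.sub'.mul y hy y' hy' k hk
    have h1 : z ≫ (F.S a ◁ f'') ∈ F.N1 L a k (fun j => L j v) m := by
      rw [tq_spec hm h ha hkE v]
      exact mem_N2 hz hf
    have h2 : z ≫ (F.S a ◁ (f'' ≫ hat l'' (F.S v))) = (z ≫ (F.S a ◁ f'')) ≫ (F.S a ◁ hat l'' (F.S v)) := by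
      rw [Bicategory.whiskerLeft_comp, Category.assoc]
    show z ≫ (F.S a ◁ (f'' ≫ hat l'' (F.S v))) ∈ tffT L a y y' v m
    rw [h2]
    refine tff_N1 (fun p => p ≫ (F.S a ◁ hat l'' (F.S v))) (fun p p' => Preadditive.add_comp _ _ _ _ _ _)
      (fun c p => Linear.smul_comp _ _ _ _ _ _) (fun l f' f hf' hf => ?_) h1
    have h3 : (f ≫ hat f' (F.S v)) ≫ (F.S a ◁ hat l'' (F.S v)) = f ≫ th (f' ≫ (F.S a ◁ l'')) (F.S v) := by
      rw [th_comp, Category.assoc]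
    show (f ≫ hat f' (F.S v)) ≫ (F.S a ◁ hat l'' (F.S v)) ∈ tffT L a y y' v m
    rw [h3]
    have h4 : f' ≫ (F.S a ◁ l'') ∈ F.N1 L a y (fun j => L j y') l := by
      rw [tq_spec hm h ha hy y']
      exact mem_N2 hf' hl
    refine tff_N1 (fun p => f ≫ th p (F.S v)) (fun p p' => by rw [th_add, Preadditive.comp_add])
      (fun c p => by rw [th_smul, Linear.comp_smul]) (fun k' x x' hx hx' => ?_) h4
    show f ≫ th (x' ≫ hat x (F.S y')) (F.S v) ∈ tffT L a y y' v m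
    rw [th_hat]
    exact tff_mem hx hx' hf
  · have h1 : l'' = 0 := not_occ F hk l''
    show z ≫ (F.S a ◁ (f'' ≫ hat l'' (F.S v))) ∈ tffT L a y y' v m
    rw [h1, hat_zero, Limits.comp_zero, wl_zero, Limits.comp_zero]
    exact Submodule.zero_mem _

private theorem tff_ge1 {F : Fus K B ι} {sp : Sph F} {X U : B} {E₀ : Set (ι X X)} {J : Set (ι X U)} {E : Set (ι U U)}
    (hm : IsMor sp E₀ J E) {L₀ : F.Sys O X X} {L : F.Sys O X U} (h : Mix sp O E₀ J L₀ L) {a : ι X U} (ha : a ∈ J)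
    {y y' : ι U U} (hy : y ∈ E) (hy' : y' ∈ E) {Y : B} (v : ι U Y) (m : ι X Y) :
    tffT L a y y' v m ≤ F.N2 L a (F.N1 (tq L a) y y' (fun k => tq L a k v)) m := by
  refine Submodule.span_le.2 ?_
  rintro _ ⟨k, l, x, x', f, hx, hx', hf, rfl⟩
  show f ≫ hat x' (F.S v) ≫ hat x (F.S y' ≫ F.S v) ∈ F.N2 L a (F.N1 (tq L a) y y' (fun k => tq L a k v)) m
  rw [← th_hat]
  have h1 : x' ≫ hat x (F.S y') ∈ F.N2 L a (tq L a y y') l := by
    rw [← tq_spec hm h ha hy y']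
    exact mem_N1 (n := fun j => L j y') hx hx'
  refine tff_N2 (fun p => f ≫ th p (F.S v)) (fun p p' => by rw [th_add, Preadditive.comp_add])
      (fun c p => by rw [th_smul, Linear.comp_smul]) (fun j f' l'' hf' hl => ?_) h1
  show f ≫ th (f' ≫ (F.S a ◁ l'')) (F.S v) ∈ F.N2 L a (F.N1 (tq L a) y y' (fun k => tq L a k v)) m
  rw [th_comp, ← Category.assoc]
  by_cases hj : F.Occ y y' j
  · have hjE : j ∈ E := hm.sub'.mul y hy y' hy' j hj
    have h2 : f ≫ hat f' (F.S v) ∈ F.N2 L a (tq L a j v) m := by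
      rw [← tq_spec hm h ha hjE v]
      exact mem_N1 (n := fun j => L j v) hf' hf
    exact N2_comp (fun m' g hg' => mem_N1 (n := fun k => tq L a k v) hl hg') h2
  · have h1 : l'' = 0 := not_occ F hj l''
    rw [h1, hat_zero, wl_zero, Limits.comp_zero]
    exact Submodule.zero_mem _

private theorem tff_le2 {F : Fus K B ι} {sp : Sph F} {X U : B} {E₀ : Set (ι X X)} {J : Set (ι X U)} {E : Set (ι U U)}
    (hm : IsMor sp E₀ J E) {L₀ : F.Sys O X X} {L : F.Sys O X U} (h : Mix sp O E₀ J L₀ L) {a : ι X U} (ha : a ∈ J)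
    {y y' : ι U U} (hy : y ∈ E) (hy' : y' ∈ E) {Y : B} (v : ι U Y) (m : ι X Y) :
    F.N2 L a (F.N2 (tq L a) y (tq L a y' v)) m ≤ tffT L a y y' v m := by
  refine N2_le fun n z p hz hp => ?_
  refine tff_N2 (fun p => z ≫ (F.S a ◁ p))
    (fun p p' => by rw [wl_add, Preadditive.comp_add])
    (fun c p => by rw [wl_smul, Linear.comp_smul]) (fun w z' l' hz' hl' => ?_) hp
  have h1 : z ≫ (F.S a ◁ z') ∈ F.N1 L a y (fun j => L j w) m := by
    rw [tq_spec hm h ha hy w]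
    exact mem_N2 hz hz'
  have h2 : z ≫ (F.S a ◁ (z' ≫ (F.S y ◁ l'))) = (z ≫ (F.S a ◁ z')) ≫ (F.S a ◁ (F.S y ◁ l')) := by
    rw [Bicategory.whiskerLeft_comp, Category.assoc]
  show z ≫ (F.S a ◁ (z' ≫ (F.S y ◁ l'))) ∈ tffT L a y y' v m
  rw [h2]
  refine tff_N1 (fun p => p ≫ (F.S a ◁ (F.S y ◁ l'))) (fun p p' => Preadditive.add_comp _ _ _ _ _ _)
      (fun c p => Linear.smul_comp _ _ _ _ _ _) (fun k x f hx hf => ?_) h1
  show (f ≫ hat x (F.S w)) ≫ (F.S a ◁ (F.S y ◁ l')) ∈ tffT L a y y' v m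
  have h3 : (f ≫ hat x (F.S w)) ≫ (F.S a ◁ (F.S y ◁ l')) = (f ≫ (F.S k ◁ l')) ≫ hat x (F.S y' ≫ F.S v) := by
    rw [Category.assoc, Category.assoc, hat_natural]
  rw [h3]
  by_cases hk : F.Occ a y k
  · have hkq : k ∈ J := hm.right a ha y hy k hk
    have h4 : f ≫ (F.S k ◁ l') ∈ F.N1 L k y' (fun j => L j v) m := by
      rw [tq_spec hm h hkq hy' v, ← tq_indep hm h ha hkq hy' v]
      exact mem_N2 hf hl'
    refine tff_N1 (fun p => p ≫ hat x (F.S y' ≫ F.S v)) (fun p p' => Preadditive.add_comp _ _ _ _ _ _)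
      (fun c p => Linear.smul_comp _ _ _ _ _ _) (fun l x' f' hx' hf' => ?_) h4
    show (f' ≫ hat x' (F.S v)) ≫ hat x (F.S y' ≫ F.S v) ∈ tffT L a y y' v m
    rw [Category.assoc]
    exact tff_mem hx hx' hf'
  · rw [not_occ F hk x, hat_zero, Limits.comp_zero]
    exact Submodule.zero_mem _

private theorem tff_ge2 {F : Fus K B ι} {sp : Sph F} {X U : B} {E₀ : Set (ι X X)} {J : Set (ι X U)} {E : Set (ι U U)}
    (hm : IsMor sp E₀ J E) {L₀ : F.Sys O X X} {L : F.Sys O X U} (h : Mix sp O E₀ J L₀ L) {a : ι X U} (ha : a ∈ J)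
    {y y' : ι U U} (hy : y ∈ E) (hy' : y' ∈ E) {Y : B} (v : ι U Y) (m : ι X Y) :
    tffT L a y y' v m ≤ F.N2 L a (F.N2 (tq L a) y (tq L a y' v)) m := by
  refine Submodule.span_le.2 ?_
  rintro _ ⟨k, l, x, x', f, hx, hx', hf, rfl⟩
  show f ≫ hat x' (F.S v) ≫ hat x (F.S y' ≫ F.S v) ∈ F.N2 L a (F.N2 (tq L a) y (tq L a y' v)) m
  rw [← Category.assoc]
  by_cases hk : F.Occ a y k
  · have hkq : k ∈ J := hm.right a ha y hy k hk
    have h1 : f ≫ hat x' (F.S v) ∈ F.N2 L k (tq L a y' v) m := by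
      rw [tq_indep hm h ha hkq hy' v, ← tq_spec hm h hkq hy' v]
      exact mem_N1 (n := fun j => L j v) hx' hf
    refine tff_N2 (fun p => p ≫ hat x (F.S y' ≫ F.S v)) (fun p p' => Preadditive.add_comp _ _ _ _ _ _)
      (fun c p => Linear.smul_comp _ _ _ _ _ _) (fun w z l' hz hl' => ?_) h1
    show (z ≫ (F.S k ◁ l')) ≫ hat x (F.S y' ≫ F.S v) ∈ F.N2 L a (F.N2 (tq L a) y (tq L a y' v)) m
    rw [Category.assoc, ← hat_natural, ← Category.assoc]
    have h2 : z ≫ hat x (F.S w) ∈ F.N2 L a (tq L a y w) m := by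
      rw [← tq_spec hm h ha hy w]
      exact mem_N1 (n := fun j => L j w) hx hz
    exact N2_comp (fun m' g hg' => mem_N2 hg' hl') h2
  · rw [not_occ F hk x, hat_zero, Limits.comp_zero]
    exact Submodule.zero_mem _

private theorem tff_assoc {F : Fus K B ι} {sp : Sph F} {X U : B} {E₀ : Set (ι X X)} {J : Set (ι X U)} {E : Set (ι U U)}
    (hm : IsMor sp E₀ J E) {L₀ : F.Sys O X X} {L : F.Sys O X U} (h : Mix sp O E₀ J L₀ L) {a : ι X U} (ha : a ∈ J)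
    {y y' : ι U U} (hy : y ∈ E) (hy' : y' ∈ E) {Y : B} (v : ι U Y) :
    F.N1 (tq L a) y y' (fun k => tq L a k v) = F.N2 (tq L a) y (tq L a y' v) := by
  have hd : ∀ {a b : B} (i : ι a b), sp.d i ≠ 0 := fun i => (h.ctx.du i).1
  refine faith sp hd (R := L) (a := a) (fun w m => (h.st w).lat a ha m) ?_ ?_ ?_
  · intro m
    exact lat_N1 h.ctx.val (fun k => tq_lat hm h ha hy y' k) fun k hk =>
      tq_lat hm h ha (hm.sub'.mul y hy y' hy' k hk) v m
  · intro m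
    exact lat_N2 h.ctx.val (fun k => tq_lat hm h ha hy k m) fun k =>
      tq_lat hm h ha hy' v k
  · funext m
    exact le_antisymm ((tff_le1 hm h ha hy hy' v m).trans (tff_ge2 hm h ha hy hy' v m))
      ((tff_le2 hm h ha hy hy' v m).trans (tff_ge1 hm h ha hy hy' v m))

theorem tq_assoc {F : Fus K B ι} {sp : Sph F} {x y : B} {E : Set (ι x x)} {J : Set (ι x y)} {E' : Set (ι y y)}
    (hm : IsMor sp E J E') {L : F.Sys O x x} {R : F.Sys O x y} (h : Mix sp O E J L R) {a : ι x y} (ha : a ∈ J)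
    {e e' : ι y y} (he : e ∈ E') (he' : e' ∈ E') {c : B} (v : ι y c) :
    F.N1 (tq R a) e e' (fun k => tq R a k v) = F.N2 (tq R a) e (tq R a e' v) := by
  exact tff_assoc hm h ha he he' v

theorem tq_int {F : Fus K B ι} {sp : Sph F} {x y : B} {E : Set (ι x x)} {J : Set (ι x y)} {E' : Set (ι y y)}
    (hm : IsMor sp E J E') {L : F.Sys O x x} {R : F.Sys O x y} (h : Mix sp O E J L R) {a : ι x y} (ha : a ∈ J) :
    LInt F O E' (tq R a) := by
  exact ⟨fun e he => fun v m => tq_lat hm h ha he v m, fun v => tq_unitL hm h ha v, fun e he => tq_unitR hm h ha he,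
    fun e he e' he' => fun v => tq_assoc hm h ha he he' v⟩

theorem tq_bi {F : Fus K B ι} {sp : Sph F} {x y : B} {E : Set (ι x x)} {J : Set (ι x y)} {E' : Set (ι y y)}
    (hm : IsMor sp E J E') {L : F.Sys O x x} {R : F.Sys O x y} (h : Mix sp O E J L R) {a : ι x y} (ha : a ∈ J) :
    Bi F J E' R (tq R a) := by
  intro a' ha' e he c v
  rw [tq_indep hm h ha ha' he v]
  exact tq_spec hm h ha' he v

theorem mor_exists (hO : Val O) {F : Fus K B ι} {sp : Sph F} (hd : ∀ {p q : B} (i : ι p q), IsU O (sp.d i)) {x y : B}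
    {E : Set (ι x x)} {J : Set (ι x y)} {E' : Set (ι y y)} (hm : IsMor sp E J E')
    (h : ∃ L : F.Sys O x x, LInt F O E L) : ∃ L : F.Sys O y y, LInt F O E' L := by
  obtain ⟨L, hL⟩ := h
  obtain ⟨a, ha⟩ := hm.ne
  have hc : Ctx sp O E L := ⟨hO, hd, hm.sub, hL⟩
  obtain ⟨R, hR⟩ := exists_mix hc (mor_orb (fun i => (hd i).1) hm)
  exact ⟨tq R a, tq_int hm hR ha⟩

end Pool.Agent.WGT
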