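import Pool.Agent.WGT.Nl
import Pool.Agent.NFG.Unt

/-!
# NFG/NlB: `N1` and `N2` are lattices; scaling

`lat_N2`: finitely generated: `N2 L y n m = ⨆ m', span {h | ∃ z ∈ L y m' m, ∃ f ∈ n m', h = z ≫ (S y ◁ f)}`, use `fg_span2`,
`fg_iSup'`, `IsLat.fg`; spanning: every `h : S m ⟶ S y ≫ W` is `sum (h ≫ (S y ◁ g)) ≫ (S y ◁ b)` (`latdec` for `n`), and
`h ≫ (S y ◁ g)` is in the `K`-span of `L y m' m` (`IsLat.span`), so `h` is in the `K`-span of the generators; then
`lat_of_fg`.  `lat_N1` in the same way; for `a'` not occurring in `S y ≫ S a` there is no `x ≠ 0`.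
`N1_scl`: `(c • f) ≫ hat (c' • x) W = (c * c') • (f ≫ hat x W)`; both inclusions by `N1_le` (for `Occ` use: if `x ≠ 0` then
`Occ y a a'`; if `x = 0` the product is `0`); the scalars `s a' * t a'` agree with `r` up to units for the relevant `a'`.
`N2_scl`: as `N1_scl`; only those `m'` with a nonzero `S m ⟶ S y ≫ S m'` and a nonzero `S m' ⟶ W` matter.  Unit factors do not matter (`scl_congr`, `scl_unit`).
-/

set_option autoImplicit false
set_option linter.unusedSectionVars false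

noncomputable section

open CategoryTheory Bicategory

namespace Pool.Agent.WGT

open Pool.Agent.NFG

universe w₂ w₁ w₀ w

variable {K : Type w} [Field K] {B : Type w₀} [Bicategory.{w₂, w₁} B] [∀ a b : B, Preadditive (a ⟶ b)]
  [∀ a b : B, Linear K (a ⟶ b)] [AddBi B] [LinBi K B] {ι : B → B → Type} [∀ a b, Fintype (ι a b)]
  [∀ a b, DecidableEq (ι a b)] {O : Subring K}

private theorem sp_mul {M₁ M₂ : Type*} [AddCommGroup M₁] [Module K M₁] [AddCommGroup M₂] [Module K M₂]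
    {L : Submodule O M₁} (hL : IsLat O L) (T : M₁ → M₂) (h1 : ∀ x y, T (x + y) = T x + T y)
    (h2 : ∀ (c : K) x, T (c • x) = c • T x) (P : Submodule K M₂) (hP : ∀ x ∈ L, T x ∈ P) (x : M₁) : T x ∈ P := by
  have hx : x ∈ Submodule.span K (L : Set M₁) := by
    rw [hL.span]
    exact Submodule.mem_top
  refine Submodule.span_induction (p := fun x _ => T x ∈ P) (fun x hx => hP x hx) ?_ ?_ ?_ hx
  · have h3 := h2 0 (0 : M₁)
    rw [smul_zero, zero_smul] at h3
    rw [h3]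
    exact P.zero_mem
  · intro x y _ _ hx hy
    rw [h1]
    exact P.add_mem hx hy
  · intro c x _ hx
    rw [h2]
    exact P.smul_mem c hx

theorem lat_N2 (hO : Val O) {F : Fus K B ι} {p q r : B} {L : F.Sys O p q} {y : ι p q} {W : q ⟶ r} {n : F.Fam O W} {m : ι p r}
    (hL : ∀ m', IsLat O (L y m' m)) (hn : ∀ m', IsLat O (n m')) : IsLat O (F.N2 L y n m) := by
  refine lat_of_fg hO _ ?_ ?_
  · have h : F.N2 L y n m = ⨆ m' : ι q r, Submodule.span O {h : F.S m ⟶ F.S y ≫ W | ∃ z ∈ L y m' m, ∃ f ∈ n m',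
        h = z ≫ (F.S y ◁ f)} := by
      refine le_antisymm ?_ ?_
      · refine N2_le fun m' z f hz hf => ?_
        exact Submodule.mem_iSup_of_mem m' (Submodule.subset_span ⟨z, hz, f, hf, rfl⟩)
      · refine iSup_le fun m' => ?_
        rw [Submodule.span_le]
        rintro _ ⟨z, hz, f, hf, rfl⟩
        exact mem_N2 hz hf
    rw [h]
    refine fg_iSup' _ fun m' => ?_
    refine fg_span2 (K := K) (fun (z : F.S m ⟶ F.S y ≫ F.S m') (f : F.S m' ⟶ W) => z ≫ (F.S y ◁ f))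
      ?_ ?_ ?_ ?_ (hL m').fg (hn m').fg
    · intro x x' f
      exact Preadditive.add_comp _ _ _ _ _ _
    · intro c x f
      exact Linear.smul_comp _ _ _ _ _ _
    · intro x f f'
      rw [wl_add, Preadditive.comp_add]
    · intro c x f
      exact comp_whisker_smul x c f
  · rw [eq_top_iff]
    rintro h -
    obtain ⟨N, b, g, hb, hg, -, hone⟩ := latdec F n hn
    have h1 : h = ∑ m', ∑ i, (h ≫ (F.S y ◁ g m' i)) ≫ (F.S y ◁ b m' i) := by
      have h2 : (F.S y ◁ 𝟙 W) = ∑ m', ∑ i, (F.S y ◁ g m' i) ≫ (F.S y ◁ b m' i) := by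
        rw [← hone, wl_sum]
        refine Finset.sum_congr rfl fun m' _ => ?_
        rw [wl_sum]
        exact Finset.sum_congr rfl fun i _ => Bicategory.whiskerLeft_comp _ _ _
      calc h = h ≫ (F.S y ◁ 𝟙 W) := by rw [Bicategory.whiskerLeft_id, Category.comp_id]
        _ = _ := by
          rw [h2, Preadditive.comp_sum]
          refine Finset.sum_congr rfl fun m' _ => ?_
          rw [Preadditive.comp_sum]
          exact Finset.sum_congr rfl fun i _ => (Category.assoc _ _ _).symm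
    rw [h1]
    refine Submodule.sum_mem _ fun m' _ => Submodule.sum_mem _ fun i _ => ?_
    exact sp_mul (hL m') (fun z : F.S m ⟶ F.S y ≫ F.S m' => z ≫ (F.S y ◁ b m' i))
      (fun x x' => Preadditive.add_comp _ _ _ _ _ _) (fun c x => Linear.smul_comp _ _ _ _ _ _) _
      (fun z hz => Submodule.subset_span (mem_N2 hz (hb m' i))) _

theorem lat_N1 (hO : Val O) {F : Fus K B ι} {p q r s : B} {L : F.Sys O p q} {y : ι p q} {a : ι q r} {W : r ⟶ s} {n : ∀ a' : ι p r, F.Fam O (F.S a' ≫ W)}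
    {m : ι p s} (hL : ∀ a', IsLat O (L y a a')) (hn : ∀ a', F.Occ y a a' → IsLat O (n a' m)) :
    IsLat O (F.N1 L y a n m) := by
  refine lat_of_fg hO _ ?_ ?_
  · have h : F.N1 L y a n m = ⨆ a' : ι p r, Submodule.span O {h : F.S m ⟶ F.S y ≫ (F.S a ≫ W) |
        ∃ x ∈ L y a a', ∃ f ∈ n a' m, h = f ≫ hat x W} := by
      refine le_antisymm ?_ ?_
      · refine N1_le fun a' x f hx hf => ?_
        exact Submodule.mem_iSup_of_mem a' (Submodule.subset_span ⟨x, hx, f, hf, rfl⟩)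
      · refine iSup_le fun a' => ?_
        rw [Submodule.span_le]
        rintro _ ⟨x, hx, f, hf, rfl⟩
        exact mem_N1 hx hf
    rw [h]
    refine fg_iSup' _ fun a' => ?_
    by_cases ho : F.Occ y a a'
    · refine fg_span2 (K := K) (fun (x : F.S a' ⟶ F.S y ≫ F.S a) (f : F.S m ⟶ F.S a' ≫ W) => f ≫ hat x W)
        ?_ ?_ ?_ ?_ (hL a').fg (hn a' ho).fg
      · intro x x' f
        rw [hat_add, Preadditive.comp_add]
      · intro c x f
        rw [hat_smul, Linear.comp_smul]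
      · intro x f f'
        exact Preadditive.add_comp _ _ _ _ _ _
      · intro c x f
        exact Linear.smul_comp _ _ _ _ _ _
    · have h0 : Submodule.span O {h : F.S m ⟶ F.S y ≫ (F.S a ≫ W) |
          ∃ x ∈ L y a a', ∃ f ∈ n a' m, h = f ≫ hat x W} = ⊥ := by
        rw [Submodule.span_eq_bot]
        rintro _ ⟨x, -, f, -, rfl⟩
        rw [not_occ F ho x, hat_zero, Limits.comp_zero]
      rw [h0]
      exact Submodule.fg_bot
  · rw [eq_top_iff]
    rintro h -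
    obtain ⟨N, b, g, hb, hg, -, hone⟩ := latdec F (fun a' => L y a a') hL
    have h1 : h = ∑ a', ∑ i, (h ≫ hab (g a' i) W) ≫ hat (b a' i) W := by
      have h2 : (α_ (F.S y) (F.S a) W).inv ≫ ((𝟙 (F.S y ≫ F.S a)) ▷ W) ≫ (α_ (F.S y) (F.S a) W).hom =
          ∑ a', ∑ i, hab (g a' i) W ≫ hat (b a' i) W := by
        rw [← hone, wr_sum, Preadditive.sum_comp, Preadditive.comp_sum]
        refine Finset.sum_congr rfl fun a' _ => ?_
        rw [wr_sum, Preadditive.sum_comp, Preadditive.comp_sum]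
        exact Finset.sum_congr rfl fun i _ => (hab_hat _ _ _).symm
      calc h = h ≫ ((α_ (F.S y) (F.S a) W).inv ≫ ((𝟙 (F.S y ≫ F.S a)) ▷ W) ≫ (α_ (F.S y) (F.S a) W).hom) := by
            rw [Bicategory.id_whiskerRight, Category.id_comp, Iso.inv_hom_id, Category.comp_id]
        _ = _ := by
          rw [h2, Preadditive.comp_sum]
          refine Finset.sum_congr rfl fun a' _ => ?_
          rw [Preadditive.comp_sum]
          exact Finset.sum_congr rfl fun i _ => (Category.assoc _ _ _).symm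
    rw [h1]
    refine Submodule.sum_mem _ fun a' _ => Submodule.sum_mem _ fun i _ => ?_
    by_cases ho : F.Occ y a a'
    · exact sp_mul (hn a' ho) (fun f : F.S m ⟶ F.S a' ≫ W => f ≫ hat (b a' i) W)
        (fun x x' => Preadditive.add_comp _ _ _ _ _ _) (fun c x => Linear.smul_comp _ _ _ _ _ _) _
        (fun f hf => Submodule.subset_span (mem_N1 (hb a' i) hf)) _
    · rw [not_occ F ho (b a' i), hat_zero, Limits.comp_zero]
      exact Submodule.zero_mem _

private theorem N1_scl_le {F : Fus K B ι} {p q r₁ s₁ : B} {L L' : F.Sys O p q} {y : ι p q} {a : ι q r₁} {W : r₁ ⟶ s₁} {n n' : ∀ a' : ι p r₁, F.Fam O (F.S a' ≫ W)}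
    {m : ι p s₁} {s t : ι p r₁ → K} {r : K} (hr : r ≠ 0)
    (hL : ∀ a', L' y a a' = scl (s a') (L y a a')) (hn : ∀ a', F.Occ y a a' → n' a' m = scl (t a') (n a' m))
    (hst : ∀ a', F.Occ y a a' → IsU O (s a' * t a' / r)) : F.N1 L' y a n' m ≤ scl r (F.N1 L y a n m) := by
  refine N1_le fun a' x f hx hf => ?_
  by_cases ho : F.Occ y a a'
  · rw [hL a'] at hx
    rw [hn a' ho] at hf
    obtain ⟨x0, hx0, rfl⟩ := hx
    obtain ⟨f0, hf0, rfl⟩ := hf
    refine ⟨(s a' * t a' / r) • (f0 ≫ hat x0 W), smul_mem_of (hst a' ho).2.1 (mem_N1 hx0 hf0), ?_⟩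
    rw [hat_smul, Linear.smul_comp, Linear.comp_smul, smul_smul, smul_smul, mul_div_cancel₀ _ hr, mul_comm]
  · rw [not_occ F ho x, hat_zero, Limits.comp_zero]
    exact Submodule.zero_mem _

private theorem scl_back {M : Type*} [AddCommGroup M] [Module K M] {c : K} (hc : c ≠ 0) {L L' : Submodule O M}
    (h : L' = scl c L) : L = scl c⁻¹ L' := by
  rw [h, scl_scl, inv_mul_cancel₀ hc, scl_one]

private theorem isU_back {s t r : K} (h : IsU O (s * t / r)) : IsU O (s⁻¹ * t⁻¹ / r⁻¹) := by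
  have h1 := h.inv
  have h2 : (s * t / r)⁻¹ = s⁻¹ * t⁻¹ / r⁻¹ := by
    rw [inv_div, div_eq_mul_inv, mul_inv, div_inv_eq_mul, mul_comm]
  rwa [h2] at h1

theorem N1_scl {F : Fus K B ι} {p q r₁ s₁ : B} {L L' : F.Sys O p q} {y : ι p q} {a : ι q r₁} {W : r₁ ⟶ s₁} {n n' : ∀ a' : ι p r₁, F.Fam O (F.S a' ≫ W)} {m : ι p s₁}
    {s t : ι p r₁ → K} {r : K} (hr : r ≠ 0) (hs : ∀ a', s a' ≠ 0) (ht : ∀ a', t a' ≠ 0)
    (hL : ∀ a', L' y a a' = scl (s a') (L y a a')) (hn : ∀ a', F.Occ y a a' → n' a' m = scl (t a') (n a' m))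
    (hst : ∀ a', F.Occ y a a' → IsU O (s a' * t a' / r)) : F.N1 L' y a n' m = scl r (F.N1 L y a n m) := by
  refine le_antisymm (N1_scl_le hr hL hn hst) ?_
  have h1 : F.N1 L y a n m ≤ scl r⁻¹ (F.N1 L' y a n' m) :=
    N1_scl_le (s := fun a' => (s a')⁻¹) (t := fun a' => (t a')⁻¹) (inv_ne_zero hr)
      (fun a' => scl_back (hs a') (hL a')) (fun a' ho => scl_back (ht a') (hn a' ho))
      (fun a' ho => isU_back (hst a' ho))
  have h2 := scl_mono (c := r) h1
  rwa [scl_scl, mul_inv_cancel₀ hr, scl_one] at h2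

private theorem N2_scl_le {F : Fus K B ι} {p q r₁ : B} {L L' : F.Sys O p q} {y : ι p q} {W : q ⟶ r₁} {n n' : F.Fam O W} {m : ι p r₁} {s t : ι q r₁ → K}
    {r : K} (hr : r ≠ 0) (hL : ∀ m', L' y m' m = scl (s m') (L y m' m)) (hn : ∀ m', n' m' = scl (t m') (n m'))
    (hst : ∀ m', F.Occ y m' m → (∃ f : F.S m' ⟶ W, f ≠ 0) → IsU O (s m' * t m' / r)) :
    F.N2 L' y n' m ≤ scl r (F.N2 L y n m) := by
  refine N2_le fun m' z f hz hf => ?_
  by_cases hz0 : z = 0
  · rw [hz0, Limits.zero_comp]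
    exact Submodule.zero_mem _
  by_cases hf0 : f = 0
  · rw [hf0, wl_zero, Limits.comp_zero]
    exact Submodule.zero_mem _
  have hu := hst m' ⟨z, hz0⟩ ⟨f, hf0⟩
  rw [hL m'] at hz
  rw [hn m'] at hf
  obtain ⟨z1, hz1, rfl⟩ := hz
  obtain ⟨f1, hf1, rfl⟩ := hf
  refine ⟨(s m' * t m' / r) • (z1 ≫ (F.S y ◁ f1)), smul_mem_of hu.2.1 (mem_N2 hz1 hf1), ?_⟩
  rw [comp_whisker_smul, Linear.smul_comp, smul_smul, smul_smul, mul_div_cancel₀ _ hr, mul_comm]

theorem N2_scl {F : Fus K B ι} {p q r₁ : B} {L L' : F.Sys O p q} {y : ι p q} {W : q ⟶ r₁} {n n' : F.Fam O W} {m : ι p r₁} {s t : ι q r₁ → K} {r : K}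
    (hr : r ≠ 0) (hs : ∀ m', s m' ≠ 0) (ht : ∀ m', t m' ≠ 0) (hL : ∀ m', L' y m' m = scl (s m') (L y m' m))
    (hn : ∀ m', n' m' = scl (t m') (n m'))
    (hst : ∀ m', F.Occ y m' m → (∃ f : F.S m' ⟶ W, f ≠ 0) → IsU O (s m' * t m' / r)) :
    F.N2 L' y n' m = scl r (F.N2 L y n m) := by
  refine le_antisymm (N2_scl_le hr hL hn hst) ?_
  have h1 : F.N2 L y n m ≤ scl r⁻¹ (F.N2 L' y n' m) :=
    N2_scl_le (s := fun a' => (s a')⁻¹) (t := fun a' => (t a')⁻¹) (inv_ne_zero hr)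
      (fun a' => scl_back (hs a') (hL a')) (fun a' => scl_back (ht a') (hn a'))
      (fun a' ho hf => isU_back (hst a' ho hf))
  have h2 := scl_mono (c := r) h1
  rwa [scl_scl, mul_inv_cancel₀ hr, scl_one] at h2

end Pool.Agent.WGT
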