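import Pool.Agent.WGT.TfB
import Pool.Agent.WGT.NlB

/-!
# WGT/TfG: normalisation by uniqueness on the other side

If the lattices `R` on a Morita context are compatible with the form `M₂` of the fusion
subcategory on the other side, and forms on that side are unique up to rescaling, then `R` can be
rescaled so that it is compatible with any other form `M₁`.
-/

set_option autoImplicit false
set_option linter.unusedSectionVars false

noncomputable section

open CategoryTheory Bicategory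

namespace Pool.Agent.WGT

open Pool.Agent.NFG

universe w₂ w₁ w₀ w

variable {K : Type w} [Field K] {B : Type w₀} [Bicategory.{w₂, w₁} B] [∀ a b : B, Preadditive (a ⟶ b)]
  [∀ a b : B, Linear K (a ⟶ b)] [AddBi B] [LinBi K B] {ι : B → B → Type} [∀ a b, Fintype (ι a b)]
  [∀ a b, DecidableEq (ι a b)] {O : Subring K}

private theorem tfg_lam_ne (F : Fus K B ι) {p q : B} (v : ι p q) : F.lam v ≠ 0 := by
  intro h
  have h1 := lam_lami F v
  rw [h, Limits.zero_comp] at h1
  exact F.one_ne v h1.symm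

theorem bi_norm {F : Fus K B ι} {sp : Sph F} {x y : B} {E : Set (ι x x)} {J : Set (ι x y)} {E' : Set (ι y y)}
    (hm : IsMor sp E J E') {L : F.Sys O x x} {R : F.Sys O x y} (h : Mix sp O E J L R) {M₁ M₂ : F.Sys O y y}
    (h₁ : LInt F O E' M₁) (h₂ : LInt F O E' M₂) (hb : Bi F J E' R M₂) (hu : Uniq F O E') :
    ∃ R' : F.Sys O x y, Mix sp O E J L R' ∧ Bi F J E' R' M₁ := by
  obtain ⟨g, hg, hgM⟩ := hu M₁ M₂ h₁ h₂
  have ho : IsU O (g (F.o y)) := by
    have h3 := hgM (F.o y) hm.sub'.one (F.o y) (F.o y)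
    rw [h₁.unitL, h₂.unitL, mul_inv_cancel_right₀ (hg y (F.o y))] at h3
    have h4 : IsLat O (Submodule.span O {F.lam (F.o y)}) := by
      rw [← h₁.unitL]
      exact h₁.lat (F.o y) hm.sub'.one (F.o y) (F.o y)
    have h5 : scl (g (F.o y)) (Submodule.span O {F.lam (F.o y)}) =
        scl (1 : K) (Submodule.span O {F.lam (F.o y)}) := by
      rw [← h3, scl_one]
    have h6 := scl_inj h4 (tfg_lam_ne F (F.o y)) (hg y (F.o y)) one_ne_zero h5
    rwa [div_one] at h6
  refine ⟨fun a _ v m => scl (g v)⁻¹ (R a v m),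
    mix_scl h (κ := fun c v => (g v)⁻¹) (fun c v => inv_ne_zero (hg c v)) ho.inv, ?_⟩
  intro a ha e he c v
  funext m
  have hge := hg y e
  have hgv := hg c v
  have hr : (g e)⁻¹ * (g v)⁻¹ ≠ 0 := mul_ne_zero (inv_ne_zero hge) (inv_ne_zero hgv)
  have e1 : F.N1 (fun a _ v m => scl (g v)⁻¹ (R a v m)) a e
      (fun k m => scl (g v)⁻¹ (R k v m)) m =
      scl ((g e)⁻¹ * (g v)⁻¹) (F.N1 R a e (fun k => R k v) m) := by
    refine N1_scl (s := fun _ => (g e)⁻¹) (t := fun _ => (g v)⁻¹) hr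
      (fun _ => inv_ne_zero hge) (fun _ => inv_ne_zero hgv) (fun _ => rfl) (fun _ _ => rfl)
      (fun _ _ => ?_)
    rw [div_self hr]
    exact isU_one
  have e2 : F.N2 (fun a _ v m => scl (g v)⁻¹ (R a v m)) a (M₁ e v) m =
      scl ((g e)⁻¹ * (g v)⁻¹) (F.N2 R a (M₂ e v) m) := by
    refine N2_scl (s := fun m' => (g m')⁻¹) (t := fun m' => (g e * g v * (g m')⁻¹)⁻¹) hr
      (fun m' => inv_ne_zero (hg c m'))
      (fun m' => inv_ne_zero (mul_ne_zero (mul_ne_zero hge hgv) (inv_ne_zero (hg c m'))))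
      (fun _ => rfl) (fun m' => ?_) (fun m' _ _ => ?_)
    · rw [hgM e he v m', scl_scl, inv_mul_cancel₀ (mul_ne_zero (mul_ne_zero hge hgv)
        (inv_ne_zero (hg c m'))), scl_one]
    · have hgm := hg c m'
      have h7 : (g m')⁻¹ * (g e * g v * (g m')⁻¹)⁻¹ = (g e)⁻¹ * (g v)⁻¹ := by
        field_simp
      rw [h7, div_self hr]
      exact isU_one
  have h8 := congrFun (hb a ha e he v) m
  refine e1.trans ?_
  rw [h8]
  exact e2.symm

end Pool.Agent.WGT
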