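import Pool.Agent.WGT.Tra

/-!
# NFG/Dua: multiplicities and duality
-/

set_option autoImplicit false
set_option linter.unusedSectionVars false

noncomputable section

open CategoryTheory Bicategory

namespace Pool.Agent.WGT

open Pool.Agent.NFG

universe w₂ w₁ w₀ w

section

variable {B : Type w₀} [Bicategory.{w₂, w₁} B]

private theorem du_ins {p q : B} {B : p ⟶ q} {B' : q ⟶ p} (c : 𝟙 p ⟶ B ≫ B') : ins c (𝟙 p) ≫ (B ◁ (ρ_ B').hom) = c := by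
  simp only [ins, hat]
  simp only [Category.assoc, whiskerLeft_rightUnitor, Iso.hom_inv_id_assoc, rightUnitor_naturality]
  rw [← unitors_equal, Iso.inv_hom_id_assoc]

private theorem du_del {p q : B} {B : p ⟶ q} {B' : q ⟶ p} (e : B' ≫ B ⟶ 𝟙 q) : (B' ◁ (ρ_ B).inv) ≫ del e (𝟙 q) = e := by
  simp only [del, hab]
  rw [unitors_equal]
  simp

/-- `Hom (A, V ≫ B') ⟶ Hom (A ≫ B, V)` -/
private def shr {p q r : B} {A : r ⟶ p} {B : p ⟶ q} {B' : q ⟶ p} {V : r ⟶ q} (e : B' ≫ B ⟶ 𝟙 q) (f : A ⟶ V ≫ B') : A ≫ B ⟶ V :=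
  (f ▷ B) ≫ (α_ V B' B).hom ≫ (V ◁ e) ≫ (ρ_ V).hom

/-- `Hom (A ≫ B, V) ⟶ Hom (A, V ≫ B')` -/
private def flr {p q r : B} {A : r ⟶ p} {B : p ⟶ q} {B' : q ⟶ p} {V : r ⟶ q} (c : 𝟙 p ⟶ B ≫ B') (g : A ≫ B ⟶ V) : A ⟶ V ≫ B' :=
  (ρ_ A).inv ≫ (A ◁ c) ≫ (α_ A B B').inv ≫ (g ▷ B')

private theorem flr_shr {p q r : B} {A : r ⟶ p} {B : p ⟶ q} {B' : q ⟶ p} {V : r ⟶ q} (c : 𝟙 p ⟶ B ≫ B') (e : B' ≫ B ⟶ 𝟙 q)
    (zig : B' ◁ c ≫ (α_ _ _ _).inv ≫ e ▷ B' = (ρ_ _).hom ≫ (λ_ _).inv) (f : A ⟶ V ≫ B') : flr c (shr e f) = f := by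
  have h1 : flr c (shr e f) = f ≫ (V ◁ ((ρ_ B').inv ≫ (B' ◁ c ≫ (α_ _ _ _).inv ≫ e ▷ B') ≫ (λ_ B').hom)) := by
    simp only [flr, shr]
    have h2 : (A ◁ c) ≫ (α_ A B B').inv ≫ ((f ▷ B) ▷ B') = (f ▷ 𝟙 _) ≫ ((V ≫ B') ◁ c) ≫ (α_ (V ≫ B') B B').inv := by
      rw [← associator_inv_naturality_left, whisker_exchange_assoc]
    rw [comp_whiskerRight, comp_whiskerRight, comp_whiskerRight]
    have h3 : (ρ_ A).inv ≫ (A ◁ c) ≫ (α_ A B B').inv ≫ ((f ▷ B) ▷ B') ≫ ((α_ V B' B).hom ▷ B') ≫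
        ((V ◁ e) ▷ B') ≫ ((ρ_ V).hom ▷ B') = (ρ_ A).inv ≫ ((A ◁ c) ≫ (α_ A B B').inv ≫ ((f ▷ B) ▷ B')) ≫
        ((α_ V B' B).hom ▷ B') ≫ ((V ◁ e) ▷ B') ≫ ((ρ_ V).hom ▷ B') := by
      simp only [Category.assoc]
    rw [h3, h2]
    bicategory
  rw [h1, zig]
  simp

end

variable {K : Type w} [Field K] {B : Type w₀} [Bicategory.{w₂, w₁} B] [∀ a b : B, Preadditive (a ⟶ b)]
  [∀ a b : B, Linear K (a ⟶ b)] [AddBi B] [LinBi K B] {ι : B → B → Type} [∀ a b, Fintype (ι a b)]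
  [∀ a b, DecidableEq (ι a b)] {O : Subring K}

private theorem du_ne (F : Fus K B ι) {p q : B} {i : ι p q} {Z : p ⟶ q} {f : F.S i ⟶ Z} {g : Z ⟶ F.S i} (h : f ≫ g = 𝟙 _) : f ≠ 0 := by
  intro h0
  rw [h0, Limits.zero_comp] at h
  exact F.one_ne i h.symm

private theorem du_cv (F : Fus K B ι) {p q : B} {i : ι q p} {j : ι p q} (c : 𝟙 p ⟶ F.S j ≫ F.S i) (e : F.S i ≫ F.S j ⟶ 𝟙 q)
    (zag : c ▷ F.S j ≫ (α_ _ _ _).hom ≫ F.S j ◁ e = (λ_ _).hom ≫ (ρ_ _).inv) (f : F.S (F.o p) ⟶ F.S j ≫ F.S i) :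
    ∃ k : K, f = k • ((F.u _).hom ≫ c) := by
  obtain ⟨k, hk⟩ := F.schur i (F.rho i ≫ sh e f)
  have h1 : sh e f = k • F.rhoi i := by
    have h2 : F.rhoi i ≫ F.rho i ≫ sh e f = sh e f := by
      rw [← Category.assoc, rhoi_rho, Category.id_comp]
    rw [← h2, hk, Linear.comp_smul, Category.comp_id]
  refine ⟨k, ?_⟩
  have h2 : fl c (k • F.rhoi i) = k • fl c (F.rhoi i) := by
    simp only [fl]
    rw [wl_smul, Linear.comp_smul]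
  have h3 : fl c (F.rhoi i) = (F.u _).hom ≫ c := by
    simp only [fl, Fus.rhoi]
    rw [Bicategory.whiskerLeft_comp, ← Category.assoc, ins_natural, Category.assoc, du_ins]
  rw [← fl_sh c e zag f, h1, h2, h3]

private theorem du_ev (F : Fus K B ι) {p q : B} {i : ι q p} {j : ι p q} (c : 𝟙 p ⟶ F.S j ≫ F.S i) (e : F.S i ≫ F.S j ⟶ 𝟙 q)
    (zig : F.S i ◁ c ≫ (α_ _ _ _).inv ≫ e ▷ F.S i = (ρ_ _).hom ≫ (λ_ _).inv) (g : F.S i ≫ F.S j ⟶ F.S (F.o _)) :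
    ∃ k : K, g = k • (e ≫ (F.u _).inv) := by
  obtain ⟨k, hk⟩ := F.schur j (fl c g ≫ F.rhoi j)
  have h1 : fl c g = k • F.rho j := by
    have h2 : (fl c g ≫ F.rhoi j) ≫ F.rho j = fl c g := by
      rw [Category.assoc, rhoi_rho, Category.comp_id]
    rw [← h2, hk, Linear.smul_comp, Category.id_comp]
  refine ⟨k, ?_⟩
  have h2 : sh e (k • F.rho j) = k • sh e (F.rho j) := by
    simp only [sh]
    rw [wl_smul, Linear.smul_comp]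
  have h3 : sh e (F.rho j) = e ≫ (F.u _).inv := by
    simp only [sh, Fus.rho]
    rw [Bicategory.whiskerLeft_comp, Category.assoc, del_natural, ← Category.assoc, du_del]
  rw [← sh_fl c e zig g, h1, h2, h3]

private theorem du_shr {p q r : B} {A : r ⟶ p} {B : p ⟶ q} {B' : q ⟶ p} {V : r ⟶ q} {c : 𝟙 p ⟶ B ≫ B'} {e : B' ≫ B ⟶ 𝟙 q}
    (zig : B' ◁ c ≫ (α_ _ _ _).inv ≫ e ▷ B' = (ρ_ _).hom ≫ (λ_ _).inv) {f : A ⟶ V ≫ B'} (hf : f ≠ 0) : shr e f ≠ 0 := by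
  intro h
  refine hf ?_
  rw [← flr_shr c e zig f, h]
  simp only [flr]
  rw [wr_zero, Limits.comp_zero, Limits.comp_zero, Limits.comp_zero]

theorem hom_cv {F : Fus K B ι} (sp : Sph F) {p q : B} (y : ι p q) (f : F.S (F.o _) ⟶ F.S y ≫ F.S (sp.st y)) :
    ∃ c : K, f = c • ((F.u _).hom ≫ sp.cv y) := by
  exact du_cv F (sp.cv y) (sp.ev y) (sp.zag y) f

theorem hom_cv' {F : Fus K B ι} (sp : Sph F) {p q : B} (y : ι p q) (f : F.S (F.o _) ⟶ F.S (sp.st y) ≫ F.S y) :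
    ∃ c : K, f = c • ((F.u _).hom ≫ sp.cv' y) := by
  exact du_cv F (sp.cv' y) (sp.ev' y) (sp.zag' y) f

theorem hom_ev {F : Fus K B ι} (sp : Sph F) {p q : B} (y : ι p q) (g : F.S (sp.st y) ≫ F.S y ⟶ F.S (F.o _)) :
    ∃ c : K, g = c • (sp.ev y ≫ (F.u _).inv) := by
  exact du_ev F (sp.cv y) (sp.ev y) (sp.zig y) g

theorem hom_ev' {F : Fus K B ι} (sp : Sph F) {p q : B} (y : ι p q) (g : F.S y ≫ F.S (sp.st y) ⟶ F.S (F.o _)) :
    ∃ c : K, g = c • (sp.ev' y ≫ (F.u _).inv) := by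
  exact du_ev F (sp.cv' y) (sp.ev' y) (sp.zig' y) g

theorem exists_occ {F : Fus K B ι} (sp : Sph F) (hd : ∀ {p q : B} (i : ι p q), sp.d i ≠ 0) {p q r : B} (a : ι p q) (v : ι q r) : ∃ m, F.Occ a v m := by
  refine exists_ne_zero F (Z := F.S a ≫ F.S v) fun h => ?_
  have h1 := lpt_one (W := F.S v) (sp.cv' a) (sp.ev a)
  rw [h, loop'] at h1
  have h2 : lpt (sp.cv' a) (sp.ev a) (0 : F.S a ≫ F.S v ⟶ F.S a ≫ F.S v) = 0 := by
    simp only [lpt]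
    rw [wl_zero, Limits.zero_comp, Limits.comp_zero]
  rw [h2, wr_smul, Linear.smul_comp, Linear.comp_smul, id_whiskerRight, Category.id_comp,
    Iso.inv_hom_id] at h1
  have h3 : (0 : K) • 𝟙 (F.S v) = sp.d a • 𝟙 (F.S v) := by
    rw [zero_smul]
    exact h1
  exact hd a (smul_one_inj F h3).symm

theorem occ_lam (F : Fus K B ι) {p q : B} (v : ι p q) : F.Occ (F.o p) v v := by
  exact ⟨F.lam v, du_ne F (lam_lami F v)⟩

theorem occ_rho (F : Fus K B ι) {p q : B} (v : ι p q) : F.Occ v (F.o q) v := by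
  exact ⟨F.rho v, du_ne F (rho_rhoi F v)⟩

theorem occ_bend {F : Fus K B ι} (sp : Sph F) {p q r : B} {a : ι q r} {a' : ι p r} {y : ι p q} (h : F.Occ a' (sp.st a) y) : F.Occ y a a' := by
  obtain ⟨f, hf⟩ := h
  obtain ⟨g, hg⟩ := exists_section F (du_shr (sp.zig a) hf)
  exact ⟨g, du_ne F hg⟩

theorem occ_ad {F : Fus K B ι} (sp : Sph F) {p q : B} {a : ι p q} {y : ι p p} (h : F.Occ y a a) : F.Occ a (sp.st a) y := by
  obtain ⟨f, hf⟩ := h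
  obtain ⟨g, hg⟩ := exists_section F (du_shr (sp.zig' a) hf)
  exact ⟨g, du_ne F hg⟩

theorem occ_ev {F : Fus K B ι} (sp : Sph F) (hd : ∀ {p q : B} (i : ι p q), sp.d i ≠ 0) {p q : B} (a : ι p q) : F.Occ a (sp.st a) (F.o p) := by
  refine ⟨(F.u _).hom ≫ sp.cv a, fun h => hd a ?_⟩
  have h1 : ((F.u _).hom ≫ sp.cv a) ≫ sp.ev' a ≫ (F.u _).inv = sp.d a • 𝟙 (F.S (F.o _)) := by
    rw [Category.assoc, ← Category.assoc (sp.cv a), loop, Linear.smul_comp, Linear.comp_smul, Category.id_comp,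
      Iso.hom_inv_id]
  rw [h, Limits.zero_comp, ← zero_smul K (𝟙 (F.S (F.o _)))] at h1
  exact (smul_one_inj F h1).symm

theorem occ_ev' {F : Fus K B ι} (sp : Sph F) (hd : ∀ {p q : B} (i : ι p q), sp.d i ≠ 0) {p q : B} (a : ι p q) : F.Occ (sp.st a) a (F.o q) := by
  refine ⟨(F.u _).hom ≫ sp.cv' a, fun h => hd a ?_⟩
  have h1 : ((F.u _).hom ≫ sp.cv' a) ≫ sp.ev a ≫ (F.u _).inv = sp.d a • 𝟙 (F.S (F.o _)) := by
    rw [Category.assoc, ← Category.assoc (sp.cv' a), loop', Linear.smul_comp, Linear.comp_smul, Category.id_comp,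
      Iso.hom_inv_id]
  rw [h, Limits.zero_comp, ← zero_smul K (𝟙 (F.S (F.o _)))] at h1
  exact (smul_one_inj F h1).symm

/-- if `S k` does not occur in `S i ≫ S j` then there are no morphisms in either direction -/
theorem not_occ (F : Fus K B ι) {p q r : B} {i : ι p q} {j : ι q r} {k : ι p r} (h : ¬ F.Occ i j k) (f : F.S k ⟶ F.S i ≫ F.S j) : f = 0 := by
  by_contra hf
  exact h ⟨f, hf⟩

theorem not_occ' (F : Fus K B ι) {p q r : B} {i : ι p q} {j : ι q r} {k : ι p r} (h : ¬ F.Occ i j k) (g : F.S i ≫ F.S j ⟶ F.S k) : g = 0 := by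
  by_contra hg
  obtain ⟨f, hf⟩ := exists_section F hg
  exact h ⟨f, du_ne F hf⟩

end Pool.Agent.WGT
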