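import Pool.Agent.WGT.HatA

/-!
# NFG/HatB: coherence with unit objects and duals

`lami`, `rhoi` are the inverses of `lam`, `rho`.  `sh e f` and `fl c g` are the two directions of Frobenius reciprocity
`Hom (A, B ≫ V) ≅ Hom (B' ≫ A, V)`.  All statements are coherence (`monoidal`, `simp` with unitor and associator
naturality), the zigzag identities for `fl_sh`, `sh_fl`:
`fl_sh`: `ins c A ≫ (B ◁ (B' ◁ f)) ≫ (B ◁ del e V) = f ≫ ins c (B ≫ V) ≫ (B ◁ del e V)` and the last two factors are the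
zigzag whiskered with `V`.
`hat_rho` is the triangle identity, `rho_hat` naturality and coherence, `hat_lam` naturality of `λ`.
-/

set_option autoImplicit false
set_option linter.unusedSectionVars false

noncomputable section

open CategoryTheory Bicategory

namespace Pool.Agent.WGT

open Pool.Agent.NFG

universe w₂ w₁ w₀ w

section

variable {B : Type w₀} [Bicategory.{w₂, w₁} B]

/-- `Hom (A, B ≫ V) ⟶ Hom (B' ≫ A, V)` -/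
def sh {p q r : B} {A : p ⟶ r} {B : p ⟶ q} {B' : q ⟶ p} {V : q ⟶ r} (e : B' ≫ B ⟶ 𝟙 q) (f : A ⟶ B ≫ V) : B' ≫ A ⟶ V := (B' ◁ f) ≫ del e V

/-- `Hom (B' ≫ A, V) ⟶ Hom (A, B ≫ V)` -/
def fl {p q r : B} {A : p ⟶ r} {B : p ⟶ q} {B' : q ⟶ p} {V : q ⟶ r} (c : 𝟙 p ⟶ B ≫ B') (g : B' ≫ A ⟶ V) : A ⟶ B ≫ V := ins c A ≫ (B ◁ g)

theorem ins_natural {p q r : B} {A : p ⟶ q} {B : q ⟶ p} {W W' : p ⟶ r} (c : 𝟙 p ⟶ A ≫ B) (g : W ⟶ W') :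
    ins c W ≫ (A ◁ (B ◁ g)) = g ≫ ins c W' := by
  simp only [ins]
  rw [Category.assoc, hat_natural, leftUnitor_inv_naturality_assoc]

theorem del_natural {p q r : B} {A : p ⟶ q} {B : q ⟶ p} {W W' : p ⟶ r} (e : A ≫ B ⟶ 𝟙 p) (g : W ⟶ W') :
    (A ◁ (B ◁ g)) ≫ del e W' = del e W ≫ g := by
  simp only [del]
  rw [← Category.assoc, hab_natural, Category.assoc, leftUnitor_naturality, Category.assoc]

theorem fl_sh {p q r : B} {A : p ⟶ r} {B : p ⟶ q} {B' : q ⟶ p} {V : q ⟶ r} (c : 𝟙 p ⟶ B ≫ B') (e : B' ≫ B ⟶ 𝟙 q)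
    (zag : c ▷ B ≫ (α_ _ _ _).hom ≫ B ◁ e = (λ_ _).hom ≫ (ρ_ _).inv) (f : A ⟶ B ≫ V) : fl c (sh e f) = f := by
  have h1 : ins c (B ≫ V) ≫ (B ◁ del e V) = (λ_ (B ≫ V)).inv ≫ (α_ _ _ _).inv ≫
      ((c ▷ B ≫ (α_ _ _ _).hom ≫ B ◁ e) ▷ V) ≫ (α_ _ _ _).hom ≫ (B ◁ (λ_ V).hom) := by
    simp only [ins, del, hat, hab]
    bicategory
  simp only [fl, sh]
  rw [Bicategory.whiskerLeft_comp, ← Category.assoc, ins_natural, Category.assoc, h1, zag]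
  simp

theorem sh_fl {p q r : B} {A : p ⟶ r} {B : p ⟶ q} {B' : q ⟶ p} {V : q ⟶ r} (c : 𝟙 p ⟶ B ≫ B') (e : B' ≫ B ⟶ 𝟙 q)
    (zig : B' ◁ c ≫ (α_ _ _ _).inv ≫ e ▷ B' = (ρ_ _).hom ≫ (λ_ _).inv) (g : B' ≫ A ⟶ V) : sh e (fl c g) = g := by
  have h1 : (B' ◁ ins c A) ≫ del e (B' ≫ A) = (B' ◁ (λ_ A).inv) ≫ (α_ _ _ _).inv ≫
      ((B' ◁ c ≫ (α_ _ _ _).inv ≫ e ▷ B') ▷ A) ≫ (α_ _ _ _).hom ≫ (λ_ _).hom := by
    simp only [ins, del, hat, hab]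
    bicategory
  simp only [fl, sh]
  rw [Bicategory.whiskerLeft_comp, Category.assoc, del_natural, ← Category.assoc, h1, zig]
  simp

theorem sh_comp {p q r : B} {A : p ⟶ r} {B : p ⟶ q} {B' : q ⟶ p} {V V' : q ⟶ r} (e : B' ≫ B ⟶ 𝟙 q) (f : A ⟶ B ≫ V) (h : V ⟶ V') :
    sh e (f ≫ (B ◁ h)) = sh e f ≫ h := by
  simp only [sh]
  rw [Bicategory.whiskerLeft_comp, Category.assoc, del_natural, Category.assoc]

theorem comp_sh {p q r : B} {A A' : p ⟶ r} {B : p ⟶ q} {B' : q ⟶ p} {V : q ⟶ r} (e : B' ≫ B ⟶ 𝟙 q) (w : A' ⟶ A) (f : A ⟶ B ≫ V) :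
    sh e (w ≫ f) = (B' ◁ w) ≫ sh e f := by
  simp only [sh]
  rw [Bicategory.whiskerLeft_comp, Category.assoc]

theorem sh_hat {p q r s : B} {B : p ⟶ q} {B' : q ⟶ p} {D : q ⟶ r} {X : p ⟶ r} {W : r ⟶ s} {A : p ⟶ s} (e : B' ≫ B ⟶ 𝟙 q) (f : A ⟶ X ≫ W) (x : X ⟶ B ≫ D) :
    sh e (f ≫ hat x W) = (B' ◁ f) ≫ hab (sh e x) W := by
  simp only [sh, del, hab, hat]
  bicategory

theorem lpt_comp_left {p q r : B} {A : p ⟶ q} {B : q ⟶ p} {W W' V : q ⟶ r} (c : 𝟙 q ⟶ B ≫ A) (e : B ≫ A ⟶ 𝟙 q) (t : V ⟶ W) (T : A ≫ W ⟶ A ≫ W') :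
    lpt c e ((A ◁ t) ≫ T) = t ≫ lpt c e T := by
  simp only [lpt]
  rw [Bicategory.whiskerLeft_comp, Category.assoc, ← Category.assoc, ins_natural, Category.assoc]

theorem lpt_comp_right {p q r : B} {A : p ⟶ q} {B : q ⟶ p} {W W' V : q ⟶ r} (c : 𝟙 q ⟶ B ≫ A) (e : B ≫ A ⟶ 𝟙 q) (T : A ≫ W ⟶ A ≫ W') (t : W' ⟶ V) :
    lpt c e (T ≫ (A ◁ t)) = lpt c e T ≫ t := by
  simp only [lpt]
  rw [Bicategory.whiskerLeft_comp, Category.assoc, del_natural]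
  simp only [Category.assoc]

theorem lpt_one {p q r : B} {A : p ⟶ q} {B : q ⟶ p} {W : q ⟶ r} (c : 𝟙 q ⟶ B ≫ A) (e : B ≫ A ⟶ 𝟙 q) :
    lpt c e (𝟙 (A ≫ W)) = (λ_ W).inv ≫ ((c ≫ e) ▷ W) ≫ (λ_ W).hom := by
  simp only [lpt, ins, del, hat, hab]
  bicategory

theorem rpt_one {p q r : B} {A : q ⟶ p} {B : p ⟶ q} {W : r ⟶ p} (c : 𝟙 p ⟶ B ≫ A) (e : B ≫ A ⟶ 𝟙 p) :
    rpt c e (𝟙 (W ≫ B)) = (ρ_ W).inv ≫ (W ◁ (c ≫ e)) ≫ (ρ_ W).hom := by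
  simp only [rpt]
  bicategory

end

section

variable {K : Type w} [Field K] {B : Type w₀} [Bicategory.{w₂, w₁} B] [∀ a b : B, Preadditive (a ⟶ b)]
  [∀ a b : B, Linear K (a ⟶ b)] [AddBi B] [LinBi K B] {ι : B → B → Type} [∀ a b, Fintype (ι a b)]
  [∀ a b, DecidableEq (ι a b)] {O : Subring K}

/-- inverse of `lam` -/
def Fus.lami (F : Fus K B ι) {p q : B} (v : ι p q) : F.S (F.o p) ≫ F.S v ⟶ F.S v := ((F.u p).hom ▷ F.S v) ≫ (λ_ (F.S v)).hom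

/-- inverse of `rho` -/
def Fus.rhoi (F : Fus K B ι) {p q : B} (v : ι p q) : F.S v ≫ F.S (F.o q) ⟶ F.S v := (F.S v ◁ (F.u q).hom) ≫ (ρ_ (F.S v)).hom

theorem lam_lami (F : Fus K B ι) {p q : B} (v : ι p q) : F.lam v ≫ F.lami v = 𝟙 _ := by
  simp only [Fus.lam, Fus.lami]
  simp

theorem lami_lam (F : Fus K B ι) {p q : B} (v : ι p q) : F.lami v ≫ F.lam v = 𝟙 _ := by
  simp only [Fus.lam, Fus.lami]
  simp

theorem rho_rhoi (F : Fus K B ι) {p q : B} (v : ι p q) : F.rho v ≫ F.rhoi v = 𝟙 _ := by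
  simp only [Fus.rho, Fus.rhoi]
  simp

theorem rhoi_rho (F : Fus K B ι) {p q : B} (v : ι p q) : F.rhoi v ≫ F.rho v = 𝟙 _ := by
  simp only [Fus.rho, Fus.rhoi]
  simp

theorem lam_eq_rho (F : Fus K B ι) (p : B) : F.lam (F.o p) = F.rho (F.o p) := by
  simp only [Fus.lam, Fus.rho]
  have h1 : (λ_ (F.S (F.o _))).inv ≫ ((F.u _).inv ▷ F.S (F.o _)) = (F.u _).hom ≫ (λ_ (𝟙 p)).inv ≫ ((F.u _).inv ▷ 𝟙 p) ≫ (_ ◁ (F.u _).inv) := by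
    rw [leftUnitor_inv_naturality_assoc, whisker_exchange_assoc, ← Bicategory.whiskerLeft_comp]
    simp
  have h2 : (ρ_ (F.S (F.o _))).inv ≫ (F.S (F.o _) ◁ (F.u _).inv) = (F.u _).hom ≫ (λ_ (𝟙 p)).inv ≫ ((F.u _).inv ▷ 𝟙 p) ≫ (_ ◁ (F.u _).inv) := by
    rw [unitors_inv_equal, rightUnitor_inv_naturality_assoc, ← comp_whiskerRight_assoc]
    simp
  rw [h1, h2]

theorem rho_hat (F : Fus K B ι) {p q r : B} {k : ι p r} {a : ι p q} {y : ι q r} (x : F.S k ⟶ F.S a ≫ F.S y) :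
    F.rho k ≫ hat x (F.S (F.o r)) = x ≫ (F.S a ◁ F.rho y) := by
  have h1 : (F.S a ◁ F.rho y) = (ρ_ _).inv ≫ (F.S a ≫ F.S y) ◁ (F.u _).inv ≫ (α_ _ _ _).hom := by
    simp only [Fus.rho]
    bicategory
  rw [h1]
  simp only [Fus.rho, hat]
  rw [Category.assoc, whisker_exchange_assoc, rightUnitor_inv_naturality_assoc]

theorem rho_hab (F : Fus K B ι) {p q r : B} {y : ι p q} {a : ι q r} {a' : ι p r} (b : F.S y ≫ F.S a ⟶ F.S a') :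
    (F.S y ◁ F.rho a) ≫ hab b (F.S (F.o r)) = b ≫ F.rho a' := by
  have h1 : (F.S y ◁ F.rho a) = (ρ_ _).inv ≫ (F.S y ≫ F.S a) ◁ (F.u _).inv ≫ (α_ _ _ _).hom := by
    simp only [Fus.rho]
    bicategory
  rw [h1]
  simp only [Fus.rho, hab]
  simp only [Category.assoc, Iso.hom_inv_id_assoc]
  rw [whisker_exchange, ← rightUnitor_inv_naturality_assoc]

theorem hat_rho (F : Fus K B ι) {p q r : B} (a : ι p q) (v : ι q r) : hat (F.rho a) (F.S v) = F.S a ◁ F.lam v := by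
  simp only [Fus.rho, Fus.lam, hat]
  simp

theorem hat_lam (F : Fus K B ι) {p q r : B} {a : ι p q} {m : ι p r} {W : q ⟶ r} (f : F.S m ⟶ F.S a ≫ W) :
    f ≫ hat (F.lam a) W = F.lam m ≫ (F.S (F.o p) ◁ f) := by
  have h1 : hat (F.lam a) W = (λ_ _).inv ≫ ((F.u _).inv ▷ (F.S a ≫ W)) := by
    simp only [Fus.lam, hat]
    bicategory
  rw [h1]
  simp only [Fus.lam]
  rw [Category.assoc, ← whisker_exchange, leftUnitor_inv_naturality_assoc]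

/-- action of the unit object on the left: `lam m ≫ (S o ◁ f) ≫ hab (lami a) W = f` -/
theorem lam_hab (F : Fus K B ι) {p q r : B} {a : ι p q} {m : ι p r} {W : q ⟶ r} (f : F.S m ⟶ F.S a ≫ W) :
    F.lam m ≫ (F.S (F.o p) ◁ f) ≫ hab (F.lami a) W = f := by
  have h1 : F.lam m ≫ (F.S (F.o p) ◁ f) = f ≫ hat (F.lam a) W := (hat_lam F f).symm
  rw [← Category.assoc, h1, Category.assoc, hat_hab, lam_lami]
  simp

/-- `lam v ≫ (S o ◁ f) = f ≫ ..` for `f : S v ⟶ S m`, naturality -/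
theorem lam_natural (F : Fus K B ι) {p q : B} {v m : ι p q} (f : F.S v ⟶ F.S m) : F.lam v ≫ (F.S (F.o p) ◁ f) = f ≫ F.lam m := by
  simp only [Fus.lam]
  rw [Category.assoc, ← whisker_exchange, leftUnitor_inv_naturality_assoc]

theorem rho_natural (F : Fus K B ι) {p q : B} {v m : ι p q} (f : F.S v ⟶ F.S m) : F.rho v ≫ (f ▷ F.S (F.o q)) = f ≫ F.rho m := by
  simp only [Fus.rho]
  rw [Category.assoc, whisker_exchange, rightUnitor_inv_naturality_assoc]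

theorem lam_hat (F : Fus K B ι) {p q r : B} {A : p ⟶ q} {B : q ⟶ p} (c : 𝟙 p ⟶ A ≫ B) (v : ι p r) :
    F.lam v ≫ hat ((F.u p).hom ≫ c) (F.S v) = ins c (F.S v) := by
  simp only [Fus.lam, ins, hat]
  have h1 : ((λ_ (F.S v)).inv ≫ (F.u _).inv ▷ F.S v) ≫ ((F.u _).hom ≫ c) ▷ F.S v ≫ (α_ A B (F.S v)).hom =
      (λ_ (F.S v)).inv ≫ (((F.u _).inv ≫ (F.u _).hom) ▷ F.S v) ≫ c ▷ F.S v ≫ (α_ A B (F.S v)).hom := by
    bicategory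
  rw [h1]
  simp

theorem hab_lami (F : Fus K B ι) {p q r : B} {A : p ⟶ q} {B : q ⟶ p} (e : A ≫ B ⟶ 𝟙 p) (v : ι p r) :
    hab (e ≫ (F.u p).inv) (F.S v) ≫ F.lami v = del e (F.S v) := by
  simp only [Fus.lami, del, hab]
  have h1 : ((α_ A B (F.S v)).inv ≫ (e ≫ (F.u _).inv) ▷ F.S v) ≫ (F.u _).hom ▷ F.S v ≫ (λ_ (F.S v)).hom =
      (α_ A B (F.S v)).inv ≫ e ▷ F.S v ≫ (((F.u _).inv ≫ (F.u _).hom) ▷ F.S v) ≫ (λ_ (F.S v)).hom := by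
    bicategory
  rw [h1]
  simp

end

section

variable {K : Type w} [Field K] {B : Type w₀} [Bicategory.{w₂, w₁} B] [∀ a b : B, Preadditive (a ⟶ b)]
  [∀ a b : B, Linear K (a ⟶ b)] [AddBi B] [LinBi K B]

theorem sh_add {p q r : B} {A : p ⟶ r} {B : p ⟶ q} {B' : q ⟶ p} {V : q ⟶ r} (e : B' ≫ B ⟶ 𝟙 q) (f g : A ⟶ B ≫ V) : sh e (f + g) = sh e f + sh e g := by
  simp only [sh, wl_add, Preadditive.add_comp]

theorem sh_smul {p q r : B} {A : p ⟶ r} {B : p ⟶ q} {B' : q ⟶ p} {V : q ⟶ r} (e : B' ≫ B ⟶ 𝟙 q) (c : K) (f : A ⟶ B ≫ V) : sh e (c • f) = c • sh e f := by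
  simp only [sh, wl_smul, Linear.smul_comp]

theorem fl_add {p q r : B} {A : p ⟶ r} {B : p ⟶ q} {B' : q ⟶ p} {V : q ⟶ r} (c : 𝟙 p ⟶ B ≫ B') (f g : B' ≫ A ⟶ V) : fl c (f + g) = fl c f + fl c g := by
  simp only [fl, wl_add, Preadditive.comp_add]

theorem fl_smul {p q r : B} {A : p ⟶ r} {B : p ⟶ q} {B' : q ⟶ p} {V : q ⟶ r} (c : 𝟙 p ⟶ B ≫ B') (k : K) (g : B' ≫ A ⟶ V) : fl c (k • g) = k • fl c g := by
  simp only [fl, wl_smul, Linear.comp_smul]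

theorem lpt_add {p q r : B} {A : p ⟶ q} {B : q ⟶ p} {W W' : q ⟶ r} (c : 𝟙 q ⟶ B ≫ A) (e : B ≫ A ⟶ 𝟙 q) (T T' : A ≫ W ⟶ A ≫ W') :
    lpt c e (T + T') = lpt c e T + lpt c e T' := by
  simp only [lpt, wl_add, Preadditive.comp_add, Preadditive.add_comp]

theorem lpt_smul {p q r : B} {A : p ⟶ q} {B : q ⟶ p} {W W' : q ⟶ r} (c : 𝟙 q ⟶ B ≫ A) (e : B ≫ A ⟶ 𝟙 q) (k : K) (T : A ≫ W ⟶ A ≫ W') :
    lpt c e (k • T) = k • lpt c e T := by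
  simp only [lpt, wl_smul, Linear.comp_smul, Linear.smul_comp]

theorem rpt_smul {p q r : B} {A : q ⟶ p} {B : p ⟶ q} {W W' : r ⟶ p} (c : 𝟙 p ⟶ B ≫ A) (e : B ≫ A ⟶ 𝟙 p) (k : K) (T : W ≫ B ⟶ W' ≫ B) :
    rpt c e (k • T) = k • rpt c e T := by
  simp only [rpt, wr_smul, Linear.comp_smul, Linear.smul_comp]

end

end Pool.Agent.WGT
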