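import Pool.Agent.WGT.SemB
import Pool.Agent.WGT.HatB
import Pool.Agent.WGT.Dua

/-!
# NFG/Nl: the lattices `N1` and `N2`

`mem_N2`, `N2_le`, `mem_N1`, `N1_le`: `Submodule.subset_span`, `Submodule.span_le`.
`N2_dl`: by `N2_le` (for the submodule of all `h` with `h ≫ (S y ◁ g) ∈ L y m₀ m`; use `Submodule.comap` or define it by hand):
`z ≫ (S y ◁ f) ≫ (S y ◁ g) = z ≫ (S y ◁ (f ≫ g))`, `f ≫ g` is `0` if `m' ≠ m₀` and `c • 𝟙`, `c ∈ O`, if `m' = m₀`.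
`mem_N2_of`: `latdec` for `n`: `𝟙 W = sum g ≫ b`, so `h = sum (h ≫ (S y ◁ g)) ≫ (S y ◁ b)`.
`N1_dl`: `f ≫ hat x W ≫ hab b W = f ≫ ((x ≫ b) ▷ W)` (`hat_hab`), `x ≫ b` is `0` or `c • 𝟙`.
`mem_N1_of`: `latdec` for `L y a` (a family on `S y ≫ S a`): `𝟙 = sum g ≫ b`, and
`h = h ≫ α⁻¹ ≫ (𝟙 ▷ W) ≫ α = sum h ≫ hab g W ≫ hat b W` (`hab_hat`).
`N2_mono`, `N1_mono`: clear.  `N2_comp`: `h ∈ N2 L y n m`, `z ≫ (S y ◁ f) ≫ (S y ◁ t)`, with `t` mapping `n` to `n'`.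
`N1_comp`: `f ≫ hat x W ≫ (S y ◁ (S a ◁ t)) = (f ≫ (S a' ◁ t)) ≫ hat x W'` (`hat_natural`).
-/

set_option autoImplicit false
set_option linter.unusedSectionVars false

noncomputable section

open CategoryTheory Bicategory

namespace Pool.Agent.WGT

open Pool.Agent.NFG

universe w₂ w₁ w₀ w

variable {K : Type w} [Field K] {B : Type w₀} [Bicategory.{w₂, w₁} B] [∀ a b : B, Preadditive (a ⟶ b)]
  [∀ a b : B, Linear K (a ⟶ b)] [AddBi B] [LinBi K B] {ι : B → B → Type} [∀ a b, Fintype (ι a b)]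
  [∀ a b, DecidableEq (ι a b)] {O : Subring K}

private def cmpP {p q : B} {A B D : p ⟶ q} (t : B ⟶ D) (L : Submodule O (A ⟶ D)) : Submodule O (A ⟶ B) where
  carrier := {h | h ≫ t ∈ L}
  add_mem' := by
    intro a b ha hb
    show (a + b) ≫ t ∈ L
    rw [Preadditive.add_comp]
    exact L.add_mem ha hb
  zero_mem' := by
    show (0 : A ⟶ B) ≫ t ∈ L
    rw [Limits.zero_comp]
    exact L.zero_mem
  smul_mem' := by
    intro c h hh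
    have h1 : (c • h : A ⟶ B) = (c : K) • h := rfl
    show (c • h) ≫ t ∈ L
    rw [h1, Linear.smul_comp]
    exact L.smul_mem c hh

private theorem smulK_mem {p q : B} {A B : p ⟶ q} {L : Submodule O (A ⟶ B)} {c : K} (hc : c ∈ O) {h : A ⟶ B} (hh : h ∈ L) :
    c • h ∈ L := L.smul_mem ⟨c, hc⟩ hh

theorem mem_N2 {F : Fus K B ι} {p q r : B} {L : F.Sys O p q} {y : ι p q} {W : q ⟶ r} {n : F.Fam O W} {m : ι p r} {m' : ι q r}
    {z : F.S m ⟶ F.S y ≫ F.S m'} {f : F.S m' ⟶ W} (hz : z ∈ L y m' m) (hf : f ∈ n m') :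
    z ≫ (F.S y ◁ f) ∈ F.N2 L y n m := by
  exact Submodule.subset_span ⟨m', z, f, hz, hf, rfl⟩

theorem N2_le {F : Fus K B ι} {p q r : B} {L : F.Sys O p q} {y : ι p q} {W : q ⟶ r} {n : F.Fam O W} {m : ι p r}
    {P : Submodule O (F.S m ⟶ F.S y ≫ W)}
    (h : ∀ (m' : ι q r) (z : F.S m ⟶ F.S y ≫ F.S m') (f : F.S m' ⟶ W), z ∈ L y m' m → f ∈ n m' → z ≫ (F.S y ◁ f) ∈ P) :
    F.N2 L y n m ≤ P := by
  refine Submodule.span_le.2 ?_
  rintro _ ⟨m', z, f, hz, hf, rfl⟩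
  exact h m' z f hz hf

theorem mem_N1 {F : Fus K B ι} {p q r s : B} {L : F.Sys O p q} {y : ι p q} {a : ι q r} {W : r ⟶ s} {n : ∀ a' : ι p r, F.Fam O (F.S a' ≫ W)} {m : ι p s} {a' : ι p r}
    {x : F.S a' ⟶ F.S y ≫ F.S a} {f : F.S m ⟶ F.S a' ≫ W} (hx : x ∈ L y a a') (hf : f ∈ n a' m) :
    f ≫ hat x W ∈ F.N1 L y a n m := by
  exact Submodule.subset_span ⟨a', x, f, hx, hf, rfl⟩

theorem N1_le {F : Fus K B ι} {p q r s : B} {L : F.Sys O p q} {y : ι p q} {a : ι q r} {W : r ⟶ s} {n : ∀ a' : ι p r, F.Fam O (F.S a' ≫ W)} {m : ι p s}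
    {P : Submodule O (F.S m ⟶ F.S y ≫ (F.S a ≫ W))}
    (h : ∀ (a' : ι p r) (x : F.S a' ⟶ F.S y ≫ F.S a) (f : F.S m ⟶ F.S a' ≫ W), x ∈ L y a a' → f ∈ n a' m →
      f ≫ hat x W ∈ P) : F.N1 L y a n m ≤ P := by
  refine Submodule.span_le.2 ?_
  rintro _ ⟨a', x, f, hx, hf, rfl⟩
  exact h a' x f hx hf

theorem N2_dl {F : Fus K B ι} {p q r : B} {L : F.Sys O p q} {y : ι p q} {W : q ⟶ r} {n : F.Fam O W} {m : ι p r} {m₀ : ι q r} {h : F.S m ⟶ F.S y ≫ W}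
    (hh : h ∈ F.N2 L y n m) {g : W ⟶ F.S m₀} (hg : g ∈ F.dl (n m₀)) : h ≫ (F.S y ◁ g) ∈ L y m₀ m := by
  have key : F.N2 L y n m ≤ cmpP (F.S y ◁ g) (L y m₀ m) := by
    refine N2_le ?_
    intro m' z f hz hf
    show (z ≫ (F.S y ◁ f)) ≫ (F.S y ◁ g) ∈ L y m₀ m
    have e1 : (z ≫ (F.S y ◁ f)) ≫ (F.S y ◁ g) = z ≫ (F.S y ◁ (f ≫ g)) := by
      rw [Category.assoc, Bicategory.whiskerLeft_comp]
    rw [e1]
    by_cases hm : m' = m₀
    · subst hm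
      obtain ⟨c, hc, h2⟩ := hg f hf
      rw [h2, comp_whisker_smul, Bicategory.whiskerLeft_id, Category.comp_id]
      exact smulK_mem hc hz
    · rw [comp_zero' F hm, wl_zero, Limits.comp_zero]
      exact (L y m₀ m).zero_mem
  exact key hh

theorem mem_N2_of {F : Fus K B ι} {p q r : B} {L : F.Sys O p q} {y : ι p q} {W : q ⟶ r} {n : F.Fam O W} (hn : ∀ m', IsLat O (n m')) {m : ι p r}
    {h : F.S m ⟶ F.S y ≫ W} (hh : ∀ m₀, ∀ g ∈ F.dl (n m₀), h ≫ (F.S y ◁ g) ∈ L y m₀ m) : h ∈ F.N2 L y n m := by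
  obtain ⟨N, b, g, hb, hg, _, hs⟩ := latdec F n hn
  have e1 : h = ∑ m', ∑ i, (h ≫ (F.S y ◁ g m' i)) ≫ (F.S y ◁ b m' i) := by
    have e2 : h = h ≫ (F.S y ◁ 𝟙 W) := by rw [Bicategory.whiskerLeft_id, Category.comp_id]
    rw [← hs] at e2
    rw [wl_sum, Preadditive.comp_sum] at e2
    refine e2.trans (Finset.sum_congr rfl fun m' _ => ?_)
    rw [wl_sum, Preadditive.comp_sum]
    refine Finset.sum_congr rfl fun i _ => ?_
    rw [Bicategory.whiskerLeft_comp, Category.assoc]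
  rw [e1]
  exact Submodule.sum_mem _ fun m' _ => Submodule.sum_mem _ fun i _ => mem_N2 (hh m' _ (hg m' i)) (hb m' i)

theorem N1_dl {F : Fus K B ι} {p q r s : B} {L : F.Sys O p q} {y : ι p q} {a : ι q r} {W : r ⟶ s} {n : ∀ a' : ι p r, F.Fam O (F.S a' ≫ W)} {m : ι p s} {a₀ : ι p r}
    {h : F.S m ⟶ F.S y ≫ (F.S a ≫ W)} (hh : h ∈ F.N1 L y a n m) {b : F.S y ≫ F.S a ⟶ F.S a₀}
    (hb : b ∈ F.dl (L y a a₀)) : h ≫ hab b W ∈ n a₀ m := by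
  have key : F.N1 L y a n m ≤ cmpP (hab b W) (n a₀ m) := by
    refine N1_le ?_
    intro a' x f hx hf
    show (f ≫ hat x W) ≫ hab b W ∈ n a₀ m
    have e1 : (f ≫ hat x W) ≫ hab b W = f ≫ ((x ≫ b) ▷ W) := by
      rw [Category.assoc, hat_hab]
    rw [e1]
    by_cases hm : a' = a₀
    · subst hm
      obtain ⟨c, hc, h2⟩ := hb x hx
      rw [h2, wr_smul, Linear.comp_smul, Bicategory.id_whiskerRight, Category.comp_id]
      exact smulK_mem hc hf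
    · rw [comp_zero' F hm, wr_zero, Limits.comp_zero]
      exact (n a₀ m).zero_mem
  exact key hh

theorem mem_N1_of {F : Fus K B ι} {p q r s : B} {L : F.Sys O p q} {y : ι p q} {a : ι q r} {W : r ⟶ s} {n : ∀ a' : ι p r, F.Fam O (F.S a' ≫ W)}
    (hL : ∀ a', IsLat O (L y a a')) {m : ι p s} {h : F.S m ⟶ F.S y ≫ (F.S a ≫ W)}
    (hh : ∀ a₀, ∀ b ∈ F.dl (L y a a₀), h ≫ hab b W ∈ n a₀ m) : h ∈ F.N1 L y a n m := by
  obtain ⟨N, b, g, hb, hg, _, hs⟩ := latdec F (fun a' => L y a a') hL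
  have e1 : h = ∑ a', ∑ i, (h ≫ hab (g a' i) W) ≫ hat (b a' i) W := by
    have e2 : h = h ≫ (α_ (F.S y) (F.S a) W).inv ≫ ((𝟙 (F.S y ≫ F.S a)) ▷ W) ≫ (α_ (F.S y) (F.S a) W).hom := by
      rw [Bicategory.id_whiskerRight, Category.id_comp, Iso.inv_hom_id, Category.comp_id]
    rw [← hs] at e2
    rw [wr_sum, Preadditive.sum_comp, Preadditive.comp_sum, Preadditive.comp_sum] at e2
    refine e2.trans (Finset.sum_congr rfl fun a' _ => ?_)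
    rw [wr_sum, Preadditive.sum_comp, Preadditive.comp_sum, Preadditive.comp_sum]
    refine Finset.sum_congr rfl fun i _ => ?_
    rw [Category.assoc, hab_hat]
  rw [e1]
  exact Submodule.sum_mem _ fun a' _ => Submodule.sum_mem _ fun i _ => mem_N1 (hb a' i) (hh a' _ (hg a' i))

theorem N2_comp {F : Fus K B ι} {p q r : B} {L : F.Sys O p q} {y : ι p q} {W W' : q ⟶ r} {n : F.Fam O W} {n' : F.Fam O W'} {t : W ⟶ W'}
    (ht : ∀ m', ∀ f ∈ n m', f ≫ t ∈ n' m') {m : ι p r} {h : F.S m ⟶ F.S y ≫ W} (hh : h ∈ F.N2 L y n m) :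
    h ≫ (F.S y ◁ t) ∈ F.N2 L y n' m := by
  have key : F.N2 L y n m ≤ cmpP (F.S y ◁ t) (F.N2 L y n' m) := by
    refine N2_le ?_
    intro m' z f hz hf
    show (z ≫ (F.S y ◁ f)) ≫ (F.S y ◁ t) ∈ F.N2 L y n' m
    have e1 : (z ≫ (F.S y ◁ f)) ≫ (F.S y ◁ t) = z ≫ (F.S y ◁ (f ≫ t)) := by
      rw [Category.assoc, Bicategory.whiskerLeft_comp]
    rw [e1]
    exact mem_N2 hz (ht m' f hf)
  exact key hh

theorem N1_comp {F : Fus K B ι} {p q r s : B} {L : F.Sys O p q} {y : ι p q} {a : ι q r} {W W' : r ⟶ s} {n : ∀ a' : ι p r, F.Fam O (F.S a' ≫ W)}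
    {n' : ∀ a' : ι p r, F.Fam O (F.S a' ≫ W')} {t : W ⟶ W'} {m : ι p s}
    (ht : ∀ a', F.Occ y a a' → ∀ f ∈ n a' m, f ≫ (F.S a' ◁ t) ∈ n' a' m) {h : F.S m ⟶ F.S y ≫ (F.S a ≫ W)}
    (hh : h ∈ F.N1 L y a n m) : h ≫ (F.S y ◁ (F.S a ◁ t)) ∈ F.N1 L y a n' m := by
  have key : F.N1 L y a n m ≤ cmpP (F.S y ◁ (F.S a ◁ t)) (F.N1 L y a n' m) := by
    refine N1_le ?_
    intro a' x f hx hf
    show (f ≫ hat x W) ≫ (F.S y ◁ (F.S a ◁ t)) ∈ F.N1 L y a n' m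
    by_cases h0 : x = 0
    · rw [h0, hat_zero, Limits.comp_zero, Limits.zero_comp]
      exact (F.N1 L y a n' m).zero_mem
    · have e1 : (f ≫ hat x W) ≫ (F.S y ◁ (F.S a ◁ t)) = (f ≫ (F.S a' ◁ t)) ≫ hat x W' := by
        rw [Category.assoc, hat_natural, Category.assoc]
      rw [e1]
      exact mem_N1 hx (ht a' ⟨x, h0⟩ f hf)
  exact key hh

/-- only `a'` occurring in `S y ≫ S a` matter for `N1` -/
theorem N1_congr {F : Fus K B ι} {p q r s : B} {L : F.Sys O p q} {y : ι p q} {a : ι q r} {W : r ⟶ s} {n n' : ∀ a' : ι p r, F.Fam O (F.S a' ≫ W)} {m : ι p s}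
    (h : ∀ a', F.Occ y a a' → n a' m = n' a' m) : F.N1 L y a n m = F.N1 L y a n' m := by
  have key : ∀ n₁ n₂ : ∀ a' : ι p r, F.Fam O (F.S a' ≫ W), (∀ a', F.Occ y a a' → n₁ a' m = n₂ a' m) →
      F.N1 L y a n₁ m ≤ F.N1 L y a n₂ m := by
    intro n₁ n₂ h1
    refine N1_le ?_
    intro a' x f hx hf
    by_cases h0 : x = 0
    · rw [h0, hat_zero, Limits.comp_zero]
      exact (F.N1 L y a n₂ m).zero_mem
    · refine mem_N1 hx ?_
      rw [← h1 a' ⟨x, h0⟩]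
      exact hf
  exact le_antisymm (key n n' h) (key n' n fun a' ha => (h a' ha).symm)

end Pool.Agent.WGT
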