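import Pool.Agent.WGT.TfH
import Pool.Agent.WGT.Mul
import Pool.Agent.WGT.Nl

/-!
# WGT/TfI: bent dual lattices are stable

`bd_key`.  Put `T := hat x₀ (S β) ≫ (S (st β') ◁ b) ≫ ev β' : S (st β) ≫ S β ⟶ 𝟙`; by `hom_ev` (Dua) `T = ε • ev β`.
`s β • (u.hom ≫ cv' β) ∈ R (st β) β o`, so `(s β • (u.hom ≫ cv' β)) ≫ hat x₀ (S β) ∈ N1 R (st β') e (fun k => R k β) o = N2 R (st β') (M e β) o`
(`mem_N1`, `hb`), and `≫ (S (st β') ◁ b) ∈ R (st β') β' o = O s β' (u.hom ≫ cv' β')` (`N2_dl`).  So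
`s β • (u.hom ≫ cv' β ≫ hat x₀ (S β) ≫ (S (st β') ◁ b)) = (t₀ * s β') • (u.hom ≫ cv' β')`, `t₀ ∈ O`; compose with `ev β'` and use `loop'`
(`cv' ≫ ev = d • 𝟙`) on both sides: `s β * ε * d β = t₀ * s β' * d β'`.  `t := t₀ * d β' / d β ∈ O`.

`bd_stab`.  `lat`: `bd_lat`.  Stability: `e ∈ E'`, `β, β' ∈ dst sp J`, `b ∈ dl (M e β β')`, `f ∈ bd β m v`, `t ∈ M e v v'`; to show
`sh (ev β') (t ≫ (S e ◁ f) ≫ hab b (S m)) ∈ scl (s β') (dl (R (st β') v' m))`.  `scl (s β')` of a dual lattice: it is enough that for every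
`w ∈ R (st β') v' m` the scalar of `w ≫ sh ..` is in `s β' O`.  By `comp_sh` (twice)
`w ≫ sh (ev β') (t ≫ (S e ◁ f) ≫ hab b (S m)) = (w ≫ (S (st β') ◁ t)) ≫ (S (st β') ◁ (S e ◁ f)) ≫ (S (st β') ◁ hab b (S m)) ≫ del (ev β') (S m)`.
`w ≫ (S (st β') ◁ t) ∈ N2 R (st β') (M e v) m = N1 R (st β') e (fun k => R k v) m` (`mem_N2`, `hb`).  By `N1_le` we may replace it by
`w' ≫ hat x₀ (S v)`, `x₀ ∈ R (st β') e k`, `w' ∈ R k v m`.  `hat x₀ (S v) ≫ (S (st β') ◁ (S e ◁ f)) = (S k ◁ f) ≫ hat x₀ (S β ≫ S m)`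
(`hat_natural`), and by `hat_hab_hab` with `b' := ev β'` (`del` is `hab .. ≫ (λ_ _).hom`)
`hat x₀ (S β ≫ S m) ≫ (S (st β') ◁ hab b (S m)) ≫ del (ev β') (S m) = del (hat x₀ (S β) ≫ (S (st β') ◁ b) ≫ ev β') (S m)`.
If `k ≠ st β` the morphism `S k ≫ S β ⟶ 𝟙` is zero (compose with `u.inv`; `not_occ'` and `occ_bend`, `st_st`, or bend it to `S k ⟶ S (st β)`).
If `k = st β` it is `(t' * s β' / s β) • ev β` (`bd_key`), and `(S (st β) ◁ f) ≫ del (ev β) (S m) = sh (ev β) f ∈ scl (s β) (dl (R (st β) v m))`, so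
`w' ≫ sh (ev β) f = (s β * c) • 𝟙`, `c ∈ O`.  Altogether the scalar is `t' * c * s β'`.
-/

set_option autoImplicit false
set_option linter.unusedSectionVars false

noncomputable section

open CategoryTheory Bicategory

namespace Pool.Agent.WGT

open Pool.Agent.NFG

universe w₂ w₁ w₀ w

variable {K : Type w} [Field K] {B : Type w₀} [Bicategory.{w₂, w₁} B] [∀ a b : B, Preadditive (a ⟶ b)]
  [∀ a b : B, Linear K (a ⟶ b)] [AddBi B] [LinBi K B] {ι : B → B → Type} [∀ a b, Fintype (ι a b)]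
  [∀ a b, DecidableEq (ι a b)] {O : Subring K}

private theorem tfi_zero {F : Fus K B ι} (sp : Sph F) {x y : B} {k : ι x y} {β : ι y x} (hk : k ≠ sp.st β)
    (T : F.S k ≫ F.S β ⟶ 𝟙 x) : T = 0 := by
  by_contra hT
  have h1 : T ≫ (F.u x).inv ≠ 0 := by
    intro h
    apply hT
    have h0 : (T ≫ (F.u x).inv) ≫ (F.u x).hom = 0 := by rw [h, Limits.zero_comp]
    rwa [Category.assoc, Iso.inv_hom_id, Category.comp_id] at h0
  obtain ⟨f, hf⟩ := exists_section F h1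
  have h2 : F.Occ k β (F.o x) := ⟨f, fun h => F.one_ne (F.o x) (by rw [← hf, h, Limits.zero_comp])⟩
  have h3 : F.Occ k (sp.st (sp.st β)) (F.o x) := by rwa [st_st]
  obtain ⟨g, hg⟩ := occ_bend sp h3
  apply hg
  have h5 : g ≫ F.lami _ = 0 := F.hom_zero _ _ hk _
  have h6 : g = (g ≫ F.lami _) ≫ F.lam _ := by rw [Category.assoc, lami_lam, Category.comp_id]
  rw [h6, h5, Limits.zero_comp]

private def tfiP {p q : B} {A D Z : p ⟶ q} (t : D ⟶ Z) (L : Submodule O (A ⟶ Z)) : Submodule O (A ⟶ D) where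
  carrier := {h | h ≫ t ∈ L}
  add_mem' := by
    intro a b ha hb
    show (a + b) ≫ t ∈ L
    rw [Preadditive.add_comp]
    exact L.add_mem ha hb
  zero_mem' := by
    show (0 : A ⟶ D) ≫ t ∈ L
    rw [Limits.zero_comp]
    exact L.zero_mem
  smul_mem' := by
    intro c h hh
    have h1 : (c • h : A ⟶ D) = (c : K) • h := rfl
    show (c • h) ≫ t ∈ L
    rw [h1, Linear.smul_comp]
    exact L.smul_mem c hh

theorem bd_key {F : Fus K B ι} {sp : Sph F} (hd : ∀ {p q : B} (i : ι p q), IsU O (sp.d i)) {x y : B}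
    {J : Set (ι x y)} {E' : Set (ι y y)} {R : F.Sys O x y} {M : F.Sys O y y}
    (hb : Bi F J E' R M) {s : ι y x → K} (hs : IsSc sp J R s) {β β' : ι y x}
    (hβ : sp.st β ∈ J) (hβ' : sp.st β' ∈ J) {e : ι y y} (he : e ∈ E') {x₀ : F.S (sp.st β) ⟶ F.S (sp.st β') ≫ F.S e}
    (hx₀ : x₀ ∈ R (sp.st β') e (sp.st β)) {b : F.S e ≫ F.S β ⟶ F.S β'} (hb' : b ∈ F.dl (M e β β')) :
    ∃ t ∈ O, hat x₀ (F.S β) ≫ (F.S (sp.st β') ◁ b) ≫ sp.ev β' = (t * s β' / s β) • sp.ev β := by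
  obtain ⟨hs1, hs2⟩ := hs β hβ
  obtain ⟨-, hs2'⟩ := hs β' hβ'
  obtain ⟨r₁, hr⟩ := hom_ev sp β ((hat x₀ (F.S β) ≫ (F.S (sp.st β') ◁ b) ≫ sp.ev β') ≫ (F.u x).inv)
  have hT : hat x₀ (F.S β) ≫ (F.S (sp.st β') ◁ b) ≫ sp.ev β' = r₁ • sp.ev β := by
    have h0 := congrArg (fun q => q ≫ (F.u x).hom) hr
    simp only [Category.assoc, Iso.inv_hom_id, Category.comp_id, Linear.smul_comp] at h0
    exact h0
  have h1 : (s β • ((F.u x).hom ≫ sp.cv' β)) ≫ hat x₀ (F.S β) ∈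
      F.N1 R (sp.st β') e (fun k => R k β) (F.o x) :=
    mem_N1 (n := fun k => R k β) hx₀ (by
      show s β • ((F.u x).hom ≫ sp.cv' β) ∈ R (sp.st β) β (F.o x)
      rw [hs2]; exact Submodule.mem_span_singleton_self _)
  rw [hb _ hβ' e he β] at h1
  have h2 := N2_dl h1 hb'
  rw [hs2', Submodule.mem_span_singleton] at h2
  obtain ⟨t₀, ht₀⟩ := h2
  have ht₁ : (t₀ : K) • (s β' • ((F.u x).hom ≫ sp.cv' β')) =
      ((s β • ((F.u x).hom ≫ sp.cv' β)) ≫ hat x₀ (F.S β)) ≫ (F.S (sp.st β') ◁ b) := ht₀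
  have h3 := congrArg (fun q => q ≫ sp.ev β' ≫ (F.u x).inv) ht₁
  have h4 : ((t₀ : K) • (s β' • ((F.u x).hom ≫ sp.cv' β'))) ≫ sp.ev β' ≫ (F.u x).inv =
      ((t₀ : K) * s β' * sp.d β') • 𝟙 (F.S (F.o x)) := by
    rw [Linear.smul_comp, Linear.smul_comp, Category.assoc, ← Category.assoc (sp.cv' β'), loop',
      Linear.smul_comp, Linear.comp_smul, Category.id_comp, Iso.hom_inv_id, smul_smul, smul_smul, mul_assoc]
  have h5 : (((s β • ((F.u x).hom ≫ sp.cv' β)) ≫ hat x₀ (F.S β)) ≫ (F.S (sp.st β') ◁ b)) ≫ sp.ev β' ≫ (F.u x).inv =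
      (s β * (r₁ * sp.d β)) • 𝟙 (F.S (F.o x)) := by
    have h6 : (((s β • ((F.u x).hom ≫ sp.cv' β)) ≫ hat x₀ (F.S β)) ≫ (F.S (sp.st β') ◁ b)) ≫ sp.ev β' ≫
        (F.u x).inv = (s β • ((F.u x).hom ≫ sp.cv' β)) ≫ (hat x₀ (F.S β) ≫ (F.S (sp.st β') ◁ b) ≫ sp.ev β') ≫
        (F.u x).inv := by simp only [Category.assoc]
    rw [h6, hT, Linear.smul_comp, Category.assoc, Linear.smul_comp, Linear.comp_smul, ← Category.assoc (sp.cv' β), loop',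
      Linear.smul_comp, Linear.comp_smul, Linear.comp_smul, Category.id_comp, Iso.hom_inv_id, smul_smul, smul_smul,
      mul_assoc]
  have h7 : (t₀ : K) * s β' * sp.d β' = s β * (r₁ * sp.d β) := by
    refine smul_one_inj F (m := F.o x) ?_
    rw [← h4, ← h5]
    exact h3
  have hdβ := (hd β).1
  refine ⟨(t₀ : K) * sp.d β' * (sp.d β)⁻¹, O.mul_mem (O.mul_mem t₀.2 (hd β').2.1) (hd β).2.2, ?_⟩
  rw [hT]
  have h8 : r₁ = (t₀ : K) * sp.d β' * (sp.d β)⁻¹ * s β' / s β := by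
    field_simp
    linear_combination -h7
  rw [← h8]

theorem bd_stab {F : Fus K B ι} {sp : Sph F} (hd : ∀ {p q : B} (i : ι p q), IsU O (sp.d i)) {x y : B}
    {J : Set (ι x y)} {E' : Set (ι y y)} {R : F.Sys O x y} {M : F.Sys O y y} (hlat : ∀ a ∈ J, ∀ {c : B} (v : ι y c) (m : ι x c), IsLat O (R a v m))
    (hb : Bi F J E' R M) {s : ι y x → K} (hs : IsSc sp J R s) {c : B} (m : ι x c) :
    Stab F E' M (dst sp J) (fun β => bd sp s R β m) := by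
  refine ⟨fun β hβ v => bd_lat (hs β hβ).1 (hlat _ hβ v m), ?_⟩
  intro e he β hβ β' hβ' b hb0 v v' f hf t ht
  obtain ⟨φ, hφ, hfφ⟩ := hf
  show sh (sp.ev β') (t ≫ (F.S e ◁ f) ≫ hab b (F.S m)) ∈ scl (s β') (F.dl (R (sp.st β') v' m))
  rw [mem_scl_iff (hs β' hβ').1]
  intro w hw
  have key : F.N1 R (sp.st β') e (fun k => R k v) m ≤
      tfiP ((F.S (sp.st β') ◁ (F.S e ◁ f)) ≫ (F.S (sp.st β') ◁ hab b (F.S m)) ≫ del (sp.ev β') (F.S m))
        (Submodule.span O {s β' • 𝟙 (F.S m)}) := by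
    refine N1_le ?_
    intro k x₀ w' hx₀ hw'
    show (w' ≫ hat x₀ (F.S v)) ≫ (F.S (sp.st β') ◁ (F.S e ◁ f)) ≫ (F.S (sp.st β') ◁ hab b (F.S m)) ≫
      del (sp.ev β') (F.S m) ∈ Submodule.span O {s β' • 𝟙 (F.S m)}
    have e1 : (w' ≫ hat x₀ (F.S v)) ≫ (F.S (sp.st β') ◁ (F.S e ◁ f)) ≫ (F.S (sp.st β') ◁ hab b (F.S m)) ≫
        del (sp.ev β') (F.S m) =
        w' ≫ (F.S k ◁ f) ≫ hab (hat x₀ (F.S β) ≫ (F.S (sp.st β') ◁ b) ≫ sp.ev β') (F.S m) ≫ (λ_ (F.S m)).hom := by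
      rw [← hat_hab_hab]
      have e2 := hat_natural x₀ f
      simp only [del, Category.assoc]
      rw [← Category.assoc (hat x₀ (F.S v)), e2]
      simp only [Category.assoc]
    rw [e1]
    by_cases hk : k = sp.st β
    · subst hk
      obtain ⟨t', ht', hT⟩ := bd_key hd hb hs hβ hβ' he hx₀ hb0
      obtain ⟨c, hc, hcφ⟩ := hφ w' hw'
      have e3 : (F.S (sp.st β) ◁ f) ≫ hab (sp.ev β) (F.S m) ≫ (λ_ (F.S m)).hom = s β • φ := hfφ
      rw [hT, hab_smul, Linear.smul_comp, Linear.comp_smul, e3, Linear.comp_smul, Linear.comp_smul, hcφ,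
        smul_smul, smul_smul]
      have e4 : t' * s β' / s β * s β * c = (t' * c) * s β' := by
        have := (hs β hβ).1
        field_simp
      rw [e4, ← smul_smul]
      exact Submodule.smul_mem _ (⟨t' * c, O.mul_mem ht' hc⟩ : O) (Submodule.mem_span_singleton_self _)
    · rw [tfi_zero sp hk (hat x₀ (F.S β) ≫ (F.S (sp.st β') ◁ b) ≫ sp.ev β'), hab_zero, Limits.zero_comp,
        Limits.comp_zero, Limits.comp_zero]
      exact Submodule.zero_mem _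
  have h1 : w ≫ (F.S (sp.st β') ◁ t) ∈ F.N1 R (sp.st β') e (fun k => R k v) m := by
    rw [hb _ hβ' e he v]
    exact mem_N2 hw ht
  have h2 := key h1
  have h3 : (w ≫ (F.S (sp.st β') ◁ t)) ≫ (F.S (sp.st β') ◁ (F.S e ◁ f)) ≫ (F.S (sp.st β') ◁ hab b (F.S m)) ≫
      del (sp.ev β') (F.S m) = w ≫ sh (sp.ev β') (t ≫ (F.S e ◁ f) ≫ hab b (F.S m)) := by
    rw [comp_sh, comp_sh, Category.assoc]
    rfl
  obtain ⟨c, hc⟩ := Submodule.mem_span_singleton.1 h2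
  rw [h3] at hc
  refine ⟨c, c.2, ?_⟩
  have hc' : (c : K) • (s β' • 𝟙 (F.S m)) = w ≫ sh (sp.ev β') (t ≫ (F.S e ◁ f) ≫ hab b (F.S m)) := hc
  rw [Linear.comp_smul, ← hc', smul_smul, smul_smul]
  have e5 : (s β')⁻¹ * (c : K) * s β' = c := by
    have := (hs β' hβ').1
    field_simp
  rw [e5]

end Pool.Agent.WGT
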