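import Pool.Agent.WGT.TfA
import Pool.Agent.WGT.TfI
import Pool.Agent.WGT.CRb

/-!
# WGT/TfJ: comparison of stable systems which are compatible with the same form

Scalars `s₁, s₂` from `exists_sc`.  `IsOrb sp E' (dst sp J)` is `mor_orb hd' (mor_symm hm)`, `Ctx sp O E' M` from `hO, hd, hm.sub', hM`.
For fixed `m : ι x c` both `fun β => bd sp s₁ R₁ β m` and `fun β => bd sp s₂ R₂ β m` are stable (`bd_stab`), so `uni` (CRb) with the
reference system `bd sp s₁ R₁ : F.Sys O y x` gives `t m ≠ 0` with `bd sp s₂ R₂ β m v = scl (t m) (bd sp s₁ R₁ β m v)` for `β ∈ dst sp J`, all `v`.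
Translate with `sh`, `fl` (bijective): `scl (s₂ β) (dl (R₂ (st β) v m)) = scl (t m * s₁ β) (dl (R₁ (st β) v m))`, so with `mem_of_dl`, `dl_scl`
`R₂ (st β) v m = scl (s₂ β / (t m * s₁ β)) (R₁ (st β) v m)`.  For `a ∈ J` take `β = st a` (`st_st`; generalize `st (st a)` first):
`R₂ a v m = scl (r a * (t m)⁻¹) (R₁ a v m)`, `r a = s₂ (st a) / s₁ (st a)`.  `v = o`, `m = a`: both are `span {rho a}` (`uR`), so
`r a * (t a)⁻¹` is a unit (`scl_inj`), and `scl_congr`.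
-/

set_option autoImplicit false
set_option linter.unusedSectionVars false

noncomputable section

open CategoryTheory Bicategory

namespace Pool.Agent.WGT

open Pool.Agent.NFG

universe w₂ w₁ w₀ w

variable {K : Type w} [Field K] {B : Type w₀} [Bicategory.{w₂, w₁} B] [∀ a b : B, Preadditive (a ⟶ b)]
  [∀ a b : B, Linear K (a ⟶ b)] [AddBi B] [LinBi K B] {ι : B → B → Type} [∀ a b, Fintype (ι a b)]
  [∀ a b, DecidableEq (ι a b)] {O : Subring K}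

private theorem tfj_dl_inj (F : Fus K B ι) {p q : B} {Z : p ⟶ q} {m : ι p q} {L L' : Submodule O (F.S m ⟶ Z)}
    (hL : IsLat O L) (hL' : IsLat O L') (h : F.dl L = F.dl L') : L = L' := by
  apply le_antisymm
  · intro f hf
    refine mem_of_dl F hL' fun g hg => ?_
    rw [← h] at hg
    exact hg f hf
  · intro f hf
    refine mem_of_dl F hL fun g hg => ?_
    rw [h] at hg
    exact hg f hf

private theorem tfj_bd {F : Fus K B ι} {sp : Sph F} {x y : B} {R₁ R₂ : F.Sys O x y} {s₁ s₂ : ι y x → K} {β : ι y x}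
    (hs₁ : s₁ β ≠ 0) (hs₂ : s₂ β ≠ 0) {c : B} {m : ι x c} {v : ι y c} {t : K} (ht : t ≠ 0)
    (hR₁ : IsLat O (R₁ (sp.st β) v m)) (hR₂ : IsLat O (R₂ (sp.st β) v m))
    (h : bd sp s₂ R₂ β m v = scl t (bd sp s₁ R₁ β m v)) :
    R₂ (sp.st β) v m = scl (s₂ β / s₁ β * t⁻¹) (R₁ (sp.st β) v m) := by
  have h1 : scl (s₂ β) (F.dl (R₂ (sp.st β) v m)) = scl (t * s₁ β) (F.dl (R₁ (sp.st β) v m)) := by
    ext g
    have h2 : sh (sp.ev β) (fl (sp.cv β) g) = g := sh_fl _ _ (sp.zig β) g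
    have h3 : fl (sp.cv β) g ∈ bd sp s₂ R₂ β m v ↔ fl (sp.cv β) g ∈ scl t (bd sp s₁ R₁ β m v) := by rw [h]
    rw [mem_bd, mem_scl_iff ht, mem_bd, sh_smul, h2] at h3
    rw [h3, ← scl_scl, mem_scl_iff ht]
  have h4 : F.dl (R₂ (sp.st β) v m) = F.dl (scl (s₂ β / s₁ β * t⁻¹) (R₁ (sp.st β) v m)) := by
    have h5 : s₂ β / s₁ β * t⁻¹ ≠ 0 := mul_ne_zero (div_ne_zero hs₂ hs₁) (inv_ne_zero ht)
    rw [dl_scl F _ h5]
    have h6 := congrArg (scl (s₂ β)⁻¹) h1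
    rw [scl_scl, scl_scl, inv_mul_cancel₀ hs₂, scl_one] at h6
    rw [h6]
    have h7 : (s₂ β)⁻¹ * (t * s₁ β) = (s₂ β / s₁ β * t⁻¹)⁻¹ := by
      field_simp
    rw [h7]
  exact tfj_dl_inj F hR₂ (hR₁.scl (mul_ne_zero (div_ne_zero hs₂ hs₁) (inv_ne_zero ht))) h4

theorem mix_cmp (hO : Val O) {F : Fus K B ι} {sp : Sph F} (hd : ∀ {p q : B} (i : ι p q), IsU O (sp.d i)) {x y : B}
    {E : Set (ι x x)} {J : Set (ι x y)} {E' : Set (ι y y)} (hm : IsMor sp E J E') {L₁ L₂ : F.Sys O x x}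
    {R₁ R₂ : F.Sys O x y} (h₁ : Mix sp O E J L₁ R₁) (h₂ : Mix sp O E J L₂ R₂) {M : F.Sys O y y} (hM : LInt F O E' M)
    (hb₁ : Bi F J E' R₁ M) (hb₂ : Bi F J E' R₂ M) :
    ∃ t : ∀ ⦃c : B⦄, ι x c → K, (∀ (c : B) (m : ι x c), t m ≠ 0) ∧
      ∀ a ∈ J, ∀ {c : B} (v : ι y c) (m : ι x c), R₂ a v m = scl (t a * (t m)⁻¹) (R₁ a v m) := by
  obtain ⟨s₁, hs₁⟩ := exists_sc h₁
  obtain ⟨s₂, hs₂⟩ := exists_sc h₂
  have hctx : Ctx sp O E' M := ⟨hO, hd, hm.sub', hM⟩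
  have horb : IsOrb sp E' (dst sp J) := mor_orb (fun i => (hd i).1) (mor_symm hm)
  have hst₁ : ∀ {c : B} (m : ι x c), Stab F E' M (dst sp J) (fun β => bd sp s₁ R₁ β m) := fun m =>
    bd_stab hd (fun a ha _ v m => (h₁.st v).lat a ha m) hb₁ hs₁ m
  have hst₂ : ∀ {c : B} (m : ι x c), Stab F E' M (dst sp J) (fun β => bd sp s₂ R₂ β m) := fun m =>
    bd_stab hd (fun a ha _ v m => (h₂.st v).lat a ha m) hb₂ hs₂ m
  have key : ∀ (c : B) (m : ι x c), ∃ t : K, t ≠ 0 ∧ ∀ β ∈ dst sp J, ∀ v : ι y c,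
      bd sp s₂ R₂ β m v = scl t (bd sp s₁ R₁ β m v) := fun c m =>
    uni hctx horb (R := bd sp s₁ R₁) hst₁ (v := m) (n := fun β => bd sp s₂ R₂ β m) (hst₂ m)
  choose t ht hbd using key
  have hR : ∀ a ∈ J, ∀ {c : B} (v : ι y c) (m : ι x c), R₂ a v m =
      scl (s₂ (sp.st a) / s₁ (sp.st a) * (t c m)⁻¹) (R₁ a v m) := by
    intro a ha c v m
    have hβ : sp.st a ∈ dst sp J := st_mem_dst sp ha
    have h1 := tfj_bd (hs₁ _ hβ).1 (hs₂ _ hβ).1 (ht c m) ((h₁.st v).lat _ hβ m) ((h₂.st v).lat _ hβ m)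
      (hbd c m _ hβ v)
    rw [st_st] at h1
    exact h1
  have hs0 : ∀ a ∈ J, s₂ (sp.st a) / s₁ (sp.st a) ≠ 0 := fun a ha =>
    div_ne_zero (hs₂ _ (st_mem_dst sp ha)).1 (hs₁ _ (st_mem_dst sp ha)).1
  have hu : ∀ a ∈ J, IsU O (s₂ (sp.st a) / s₁ (sp.st a) * (t y a)⁻¹) := by
    intro a ha
    have h1 := hR a ha (F.o y) a
    rw [h₂.uR a ha, ← h₁.uR a ha] at h1
    have hlat := (h₁.st (F.o y)).lat a ha a
    have hne : F.rho a ≠ 0 := by
      intro h0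
      have h2 := rho_rhoi F a
      rw [h0, Limits.zero_comp] at h2
      exact F.one_ne a h2.symm
    have h2 := scl_inj hlat hne (mul_ne_zero (hs0 a ha) (inv_ne_zero (ht y a))) one_ne_zero
      (by rw [scl_one]; exact h1.symm)
    rwa [div_one] at h2
  refine ⟨fun c m => t c m, fun c m => ht c m, ?_⟩
  intro a ha c v m
  rw [hR a ha v m]
  refine scl_congr (mul_ne_zero (hs0 a ha) (inv_ne_zero (ht c m))) (mul_ne_zero (ht y a) (inv_ne_zero (ht c m))) ?_ _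
  have h1 : s₂ (sp.st a) / s₁ (sp.st a) * (t c m)⁻¹ / (t y a * (t c m)⁻¹) =
      s₂ (sp.st a) / s₁ (sp.st a) * (t y a)⁻¹ := by
    have := ht c m
    have := ht y a
    field_simp
  rw [h1]
  exact hu a ha

end Pool.Agent.WGT
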