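import Pool.Agent.WGT.TfK

/-!
# WGT/TfL: two forms with the same stable system

`γ` from `same_orb h₁ h₂ hz`.  Claim `L₂ z v m ≤ scl γ (L₁ z v m)` and the reverse inclusion (exchange `h₁`, `h₂`).  Let `a ∈ J`
(`h₁.orb.ne`), `v₀ : ι y c` with `Occ a v₀ v` (`exists_occ` for `st a, v`, then `mult_left`, `st_st`), `f ∈ R a v₀ v`, `g ∈ dl (R a v₀ v)`,
`f ≫ g = 𝟙` (`exists_pair`).  For `u ∈ L₂ z v m`: `u ≫ (S z ◁ f) ∈ N2 L₂ z (R a v₀) m = N1 L₂ z a (fun k => R k v₀) m` (`stab_eq h₂.ctx h₂.orb.act`)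
`= scl γ (N1 L₁ z a (fun k => R k v₀) m)` (`N1_scl` with constant `s = γ`, `t = 1`; for `k ∉ J`: not `Occ z a k`, the spaces are zero) `= scl γ (N2 L₁ z (R a v₀) m)`,
and `N2_dl` with `g` gives `u ∈ scl γ (L₁ z v m)`.  So `L₂ z v m = scl γ (L₁ z v m)` for all `v, m`; for `v = o`, `m = z` both are
`span {rho z}` (`unitR`), so `γ` is a unit (`scl_inj`), `scl_unit`.
-/

set_option autoImplicit false
set_option linter.unusedSectionVars false

noncomputable section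

open CategoryTheory Bicategory

namespace Pool.Agent.WGT

open Pool.Agent.NFG

universe w₂ w₁ w₀ w

variable {K : Type w} [Field K] {B : Type w₀} [Bicategory.{w₂, w₁} B] [∀ a b : B, Preadditive (a ⟶ b)]
  [∀ a b : B, Linear K (a ⟶ b)] [AddBi B] [LinBi K B] {ι : B → B → Type} [∀ a b, Fintype (ι a b)]
  [∀ a b, DecidableEq (ι a b)] {O : Subring K}

private theorem tfl_bot {p q : B} {A C : p ⟶ q} (h : ∀ f : A ⟶ C, f = 0) (L L' : Submodule O (A ⟶ C)) : L = L' := by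
  ext f
  rw [h f]
  exact ⟨fun _ => L'.zero_mem, fun _ => L.zero_mem⟩

private theorem tfl_le {F : Fus K B ι} {sp : Sph F} {x y : B} {E : Set (ι x x)} {J : Set (ι x y)} {L₁ L₂ : F.Sys O x x}
    {R : F.Sys O x y} (h₁ : Mix sp O E J L₁ R) (h₂ : Mix sp O E J L₂ R) {z : ι x x} (hz : z ∈ E) {γ : K}
    (hγ : γ ≠ 0) (h : ∀ a ∈ J, ∀ a' ∈ J, L₂ z a a' = scl γ (L₁ z a a')) {c : B} (v m : ι x c) :
    L₂ z v m ≤ scl γ (L₁ z v m) := by
  obtain ⟨a, ha⟩ := h₁.orb.ne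
  obtain ⟨v₀, hv₀⟩ := exists_occ sp (d_ne sp) (sp.st a) v
  have hocc : F.Occ a v₀ v := by
    rw [← mult_ne, mult_left sp]
    exact mult_ne.2 hv₀
  obtain ⟨f, hf, g, hg, hfg⟩ := exists_pair F ((h₁.st v₀).lat a ha v) hocc
  intro u hu
  have h1 : u ≫ (F.S z ◁ f) ∈ F.N2 L₂ z (R a v₀) m := mem_N2 hu hf
  have e1 : F.N1 L₂ z a (fun k => R k v₀) = F.N2 L₂ z (R a v₀) := stab_eq h₂.ctx h₂.orb.act (h₂.st v₀) hz ha
  have e2 : F.N1 L₁ z a (fun k => R k v₀) = F.N2 L₁ z (R a v₀) := stab_eq h₁.ctx h₁.orb.act (h₁.st v₀) hz ha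
  have e3 : F.N1 L₂ z a (fun k => R k v₀) m = scl γ (F.N1 L₁ z a (fun k => R k v₀) m) := by
    refine N1_scl (s := fun _ => γ) (t := fun _ => 1) hγ (fun _ => hγ) (fun _ => one_ne_zero) ?_ ?_ ?_
    · intro a'
      by_cases ha' : a' ∈ J
      · exact h a ha a' ha'
      · refine tfl_bot (not_occ F fun ho => ha' (h₁.orb.act z hz a ha a' ho)) _ _
    · intro a' _
      exact (scl_one _).symm
    · intro a' _
      rw [mul_one, div_self hγ]
      exact isU_one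
  rw [← e1, e3, e2] at h1
  obtain ⟨w, hw, hw1⟩ := h1
  refine ⟨w ≫ (F.S z ◁ g), N2_dl hw hg, ?_⟩
  rw [← Linear.smul_comp, ← hw1, Category.assoc, ← Bicategory.whiskerLeft_comp, hfg, Bicategory.whiskerLeft_id,
    Category.comp_id]

theorem same_form {F : Fus K B ι} {sp : Sph F} {x y : B} {E : Set (ι x x)} {J : Set (ι x y)} {L₁ L₂ : F.Sys O x x}
    {R : F.Sys O x y} (h₁ : Mix sp O E J L₁ R) (h₂ : Mix sp O E J L₂ R) {z : ι x x} (hz : z ∈ E) {c : B}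
    (v m : ι x c) : L₂ z v m = L₁ z v m := by
  obtain ⟨γ, hγ, h⟩ := same_orb h₁ h₂ hz
  have h' : ∀ a ∈ J, ∀ a' ∈ J, L₁ z a a' = scl γ⁻¹ (L₂ z a a') := by
    intro a ha a' ha'
    rw [h a ha a' ha', scl_scl, inv_mul_cancel₀ hγ, scl_one]
  have key : ∀ {c : B} (v m : ι x c), L₂ z v m = scl γ (L₁ z v m) := by
    intro c v m
    refine le_antisymm (tfl_le h₁ h₂ hz hγ h v m) ?_
    have h1 := scl_mono (c := γ) (tfl_le h₂ h₁ hz (inv_ne_zero hγ) h' v m)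
    rwa [scl_scl, mul_inv_cancel₀ hγ, scl_one] at h1
  have hu : IsU O γ := by
    have h1 := key (F.o x) z
    rw [h₂.ctx.int.unitR z hz, ← h₁.ctx.int.unitR z hz] at h1
    have hr : F.rho z ≠ 0 := by
      intro h0
      have h2 := rho_rhoi F z
      rw [h0, Limits.zero_comp] at h2
      exact F.one_ne z h2.symm
    have h3 : scl γ (L₁ z (F.o x) z) = scl 1 (L₁ z (F.o x) z) := by
      rw [scl_one]
      exact h1.symm
    have h4 := scl_inj (h₁.ctx.int.lat z hz (F.o x) z) hr hγ one_ne_zero h3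
    rwa [div_one] at h4
  rw [key v m, scl_unit hu]

end Pool.Agent.WGT
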