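import Pool.Agent.WGT.TfM
import Pool.Agent.WGT.TfL
import Pool.Agent.WGT.TfJ
import Pool.Agent.WGT.TfG
import Pool.Agent.WGT.TfF

/-!
# WGT/TfN: the Morita step

`mor_uniq`.  `L₁, L₂` two `E`-forms, `Ctx` for both, `orb := mor_orb`; `exists_mix` gives `R₁, R₂`; `a₀ ∈ J`; `M_i := tq R_i a₀`, `tq_int`, `tq_bi`;
`bi_norm` (for `R₂`, `M₁`) gives `R` with `Mix sp O E J L₂ R`, `Bi F J E' R M₁`; `mix_cmp` for `R₁, R` gives `t`; put `g m := t m / t (F.o x)`,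
so `g (F.o x) = 1` and `R a v m = scl (g a * (g m)⁻¹) (R₁ a v m)` for `a ∈ J`.  `mix_gau` for `L₁, R₁, g`, `mix_congr`: `Mix sp O E J (gauged L₁) R`;
`same_form` gives `L₂ z v m = scl (g z * g v * (g m)⁻¹) (L₁ z v m)`, `z ∈ E`.
`mor_step`: `mor_exists hm` and `mor_uniq (mor_symm hm)`.
-/

set_option autoImplicit false
set_option linter.unusedSectionVars false

noncomputable section

open CategoryTheory Bicategory

namespace Pool.Agent.WGT

open Pool.Agent.NFG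

universe w₂ w₁ w₀ w

variable {K : Type w} [Field K] {B : Type w₀} [Bicategory.{w₂, w₁} B] [∀ a b : B, Preadditive (a ⟶ b)]
  [∀ a b : B, Linear K (a ⟶ b)] [AddBi B] [LinBi K B] {ι : B → B → Type} [∀ a b, Fintype (ι a b)]
  [∀ a b, DecidableEq (ι a b)] {O : Subring K}

theorem mor_uniq (hO : Val O) {F : Fus K B ι} {sp : Sph F} (hd : ∀ {p q : B} (i : ι p q), IsU O (sp.d i)) {x y : B}
    {E : Set (ι x x)} {J : Set (ι x y)} {E' : Set (ι y y)} (hm : IsMor sp E J E') (hu : Uniq F O E') :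
    Uniq F O E := by
  intro L₁ L₂ hi₁ hi₂
  have c₁ : Ctx sp O E L₁ := ⟨hO, hd, hm.sub, hi₁⟩
  have c₂ : Ctx sp O E L₂ := ⟨hO, hd, hm.sub, hi₂⟩
  have orb : IsOrb sp E J := mor_orb (fun i => (hd i).1) hm
  obtain ⟨R₁, m₁⟩ := exists_mix c₁ orb
  obtain ⟨R₂, m₂⟩ := exists_mix c₂ orb
  obtain ⟨a₀, ha₀⟩ := hm.ne
  obtain ⟨R, mR, bR⟩ := bi_norm hm m₂ (tq_int hm m₁ ha₀) (tq_int hm m₂ ha₀) (tq_bi hm m₂ ha₀) hu
  obtain ⟨t, ht, he⟩ := mix_cmp hO hd hm m₁ mR (tq_int hm m₁ ha₀) (tq_bi hm m₁ ha₀) bR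
  have hx : t (F.o x) ≠ 0 := ht x (F.o x)
  have hg0 : ∀ (c : B) (m : ι x c), t m / t (F.o x) ≠ 0 := fun c m => div_ne_zero (ht c m) hx
  have ho : IsU O (t (F.o x) / t (F.o x)) := by
    rw [div_self hx]
    exact isU_one
  have mg := mix_gau m₁ (t := fun c m => t m / t (F.o x)) hg0 ho
  have mg' : Mix sp O E J
      (fun e _ v m => scl ((t e / t (F.o x)) * (t v / t (F.o x)) * (t m / t (F.o x))⁻¹) (L₁ e v m)) R := by
    refine mix_congr mg (fun a ha => ?_)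
    funext c v m
    show R a v m = scl (t a / t (F.o x) * (t m / t (F.o x))⁻¹) (R₁ a v m)
    rw [he a ha v m]
    congr 1
    have := ht c m
    field_simp
  exact ⟨fun c m => t m / t (F.o x), hg0, fun z hz c v m => same_form mg' mR hz v m⟩

theorem mor_step (hO : Val O) {F : Fus K B ι} {sp : Sph F} (hd : ∀ {p q : B} (i : ι p q), IsU O (sp.d i)) {x y : B}
    {E : Set (ι x x)} {J : Set (ι x y)} {E' : Set (ι y y)} (hm : IsMor sp E J E') (h : HasForms F O E) :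
    HasForms F O E' :=
  ⟨mor_exists hO hd hm h.1, mor_uniq hO hd (mor_symm hm) h.2⟩

end Pool.Agent.WGT
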