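import Pool.Agent.WGT.Fin
import Pool.Agent.WGT.TfN

/-!
# WGT/Ch: chains of extensions and Morita equivalences

`chain_forms`: induction on `Chain sp x E`.
`chain_good`: the `O`-form of `x ⟶ x`.
-/

set_option autoImplicit false

noncomputable section

open CategoryTheory Bicategory

namespace Pool.Agent.WGT

open Pool.Agent.NFG

universe w₂ w₁ w₀ w

variable {K : Type w} [Field K] {B : Type w₀} [Bicategory.{w₂, w₁} B] [∀ a b : B, Preadditive (a ⟶ b)]
  [∀ a b : B, Linear K (a ⟶ b)] [AddBi B] [LinBi K B] {ι : B → B → Type} [∀ a b, Fintype (ι a b)]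
  [∀ a b, DecidableEq (ι a b)] {O : Subring K}

theorem chain_forms [IsAlgClosed K] (hO : Val O) {F : Fus K B ι} {sp : Sph F}
    (hd : ∀ {a b : B} (i : ι a b), IsU O (sp.d i)) {X : B} {E : Set (ι X X)} (hE : Chain sp X E) :
    HasForms F O E := by
  induction hE with
  | vec x => exact ⟨base F O x, base_uniq F O x⟩
  | ext x E E' Q hQ hQ' deg h hg ih => exact ⟨exists_step hO hd hg ih.2 ih.1, uniq_step hO hd hg ih.2⟩
  | mor x y E J E' h hm ih => exact mor_step hO hd hm ih

theorem chain_good [IsAlgClosed K] (hO : Val O) {F : Fus K B ι} {sp : Sph F}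
    (hd : ∀ {a b : B} (i : ι a b), IsU O (sp.d i)) {X : B} (hE : Chain sp X Set.univ) :
    ∃ L : F.Sys O X X, Good sp O X L := by
  obtain ⟨⟨L, hL⟩, -⟩ := chain_forms hO hd hE
  have hc : Ctx sp O Set.univ L :=
    ⟨hO, hd, ⟨Set.mem_univ _, fun _ _ => Set.mem_univ _, fun _ _ _ _ _ _ => Set.mem_univ _⟩, hL⟩
  exact ⟨L, ⟨fun i j k => hL.lat i (Set.mem_univ _) j k, fun v => hL.unitL v, fun v => hL.unitR v (Set.mem_univ _),
    fun i j v => hL.assoc i (Set.mem_univ _) j (Set.mem_univ _) v, fun i => rigid_of hc (Set.mem_univ i),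
    fun i => rigid_of' hc (Set.mem_univ i)⟩⟩

end Pool.Agent.WGT
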