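import Pool.Agent.NFG.LatC

/-!
# WGT: good primes for weakly group-theoretical fusion categories (definitions)

`K` is a field, `O` a subring of `K` which is a valuation ring of `K` (`Val O`, from NFG).  `B` is a `K`-linear
bicategory; `Fus K B ι` says that all categories `a ⟶ b` are semisimple with simple objects `S i`, `i : ι a b` (finite)
and that the unit 1-morphisms are simple; `Sph F` is a spherical structure.  This is the bicategory version of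
`Pool.Agent.NFG.Defs`: 1-morphisms are mostly written as right nested words `S a ≫ (S b ≫ S v)`.

For an object `x` and a fusion subcategory `E : Set (ι x x)` a left `E`-form is a system `L` of lattices `L y v m` in
`Hom (S m, S y ≫ S v)`, `y ∈ E`, `v m : ι x c`, for all objects `c`.
-/

set_option autoImplicit false

noncomputable section

open CategoryTheory Bicategory

namespace Pool.Agent.WGT

open Pool.Agent.NFG (Val IsU IsLat scl)

universe w₂ w₁ w₀ w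

/-! ### Linear bicategories -/

/-- The whiskerings of the bicategory `B` are additive. -/
class AddBi (B : Type w₀) [Bicategory.{w₂, w₁} B] [∀ a b : B, Preadditive (a ⟶ b)] : Prop where
  wl_add : ∀ {a b c : B} (f : a ⟶ b) {g h : b ⟶ c} (η θ : g ⟶ h), f ◁ (η + θ) = f ◁ η + f ◁ θ
  wr_add : ∀ {a b c : B} {f g : a ⟶ b} (η θ : f ⟶ g) (h : b ⟶ c), (η + θ) ▷ h = η ▷ h + θ ▷ h

/-- The whiskerings of the bicategory `B` are `K`-linear. -/
class LinBi (K : Type w) [Field K] (B : Type w₀) [Bicategory.{w₂, w₁} B] [∀ a b : B, Preadditive (a ⟶ b)]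
    [∀ a b : B, Linear K (a ⟶ b)] [AddBi B] : Prop where
  wl_smul : ∀ {a b c : B} (f : a ⟶ b) {g h : b ⟶ c} (t : K) (η : g ⟶ h), f ◁ (t • η) = t • (f ◁ η)
  wr_smul : ∀ {a b c : B} {f g : a ⟶ b} (t : K) (η : f ⟶ g) (h : b ⟶ c), (t • η) ▷ h = t • (η ▷ h)

section whisker

variable {B : Type w₀} [Bicategory.{w₂, w₁} B] [∀ a b : B, Preadditive (a ⟶ b)] [AddBi B]

theorem wl_add {a b c : B} (f : a ⟶ b) {g h : b ⟶ c} (η θ : g ⟶ h) : f ◁ (η + θ) = f ◁ η + f ◁ θ :=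
  AddBi.wl_add f η θ

theorem wr_add {a b c : B} {f g : a ⟶ b} (η θ : f ⟶ g) (h : b ⟶ c) : (η + θ) ▷ h = η ▷ h + θ ▷ h :=
  AddBi.wr_add η θ h

theorem wl_zero {a b c : B} (f : a ⟶ b) {g h : b ⟶ c} : f ◁ (0 : g ⟶ h) = 0 := by
  have := wl_add f (0 : g ⟶ h) 0
  rw [add_zero] at this
  exact left_eq_add.1 this

theorem wr_zero {a b c : B} {f g : a ⟶ b} (h : b ⟶ c) : (0 : f ⟶ g) ▷ h = 0 := by
  have := wr_add (0 : f ⟶ g) 0 h
  rw [add_zero] at this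
  exact left_eq_add.1 this

theorem wl_sum {a b c : B} {J : Type*} (s : Finset J) (f : a ⟶ b) {g h : b ⟶ c} (η : J → (g ⟶ h)) :
    f ◁ (∑ j ∈ s, η j) = ∑ j ∈ s, f ◁ η j := by
  classical
  induction s using Finset.induction_on with
  | empty => simp [wl_zero]
  | insert j s hj ih => rw [Finset.sum_insert hj, Finset.sum_insert hj, wl_add, ih]

theorem wr_sum {a b c : B} {J : Type*} (s : Finset J) {f g : a ⟶ b} (η : J → (f ⟶ g)) (h : b ⟶ c) :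
    (∑ j ∈ s, η j) ▷ h = ∑ j ∈ s, η j ▷ h := by
  classical
  induction s using Finset.induction_on with
  | empty => simp [wr_zero]
  | insert j s hj ih => rw [Finset.sum_insert hj, Finset.sum_insert hj, wr_add, ih]

end whisker

section whisker'

variable {K : Type w} [Field K] {B : Type w₀} [Bicategory.{w₂, w₁} B] [∀ a b : B, Preadditive (a ⟶ b)]
  [∀ a b : B, Linear K (a ⟶ b)] [AddBi B] [LinBi K B]

theorem wl_smul {a b c : B} (f : a ⟶ b) {g h : b ⟶ c} (t : K) (η : g ⟶ h) : f ◁ (t • η) = t • (f ◁ η) :=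
  LinBi.wl_smul f t η

theorem wr_smul {a b c : B} {f g : a ⟶ b} (t : K) (η : f ⟶ g) (h : b ⟶ c) : (t • η) ▷ h = t • (η ▷ h) :=
  LinBi.wr_smul t η h

end whisker'

/-! ### Semisimple bicategories -/

/-- All categories `a ⟶ b` are semisimple with finitely many simple objects `S i`, `i : ι a b`, and the units are
simple. -/
structure Fus (K : Type w) [Field K] (B : Type w₀) [Bicategory.{w₂, w₁} B] [∀ a b : B, Preadditive (a ⟶ b)]
    [∀ a b : B, Linear K (a ⟶ b)] (ι : B → B → Type) [∀ a b, Fintype (ι a b)] [∀ a b, DecidableEq (ι a b)] where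
  /-- the simple 1-morphisms -/
  S : ∀ {a b : B}, ι a b → (a ⟶ b)
  /-- the index of the unit 1-morphism -/
  o : ∀ a : B, ι a a
  /-- the unit 1-morphism is simple -/
  u : ∀ a : B, S (o a) ≅ 𝟙 a
  schur : ∀ {a b : B} (i : ι a b) (f : S i ⟶ S i), ∃ c : K, f = c • 𝟙 (S i)
  one_ne : ∀ {a b : B} (i : ι a b), 𝟙 (S i) ≠ 0
  hom_zero : ∀ {a b : B} (i j : ι a b), i ≠ j → ∀ f : S i ⟶ S j, f = 0
  dec : ∀ {a b : B} (Z : a ⟶ b), ∃ (n : ℕ) (k : Fin n → ι a b) (p : ∀ t, Z ⟶ S (k t)) (j : ∀ t, S (k t) ⟶ Z),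
    (∀ t, j t ≫ p t = 𝟙 (S (k t))) ∧ (∀ t t', t ≠ t' → j t ≫ p t' = 0) ∧ ∑ t, p t ≫ j t = 𝟙 Z

variable {K : Type w} [Field K] {B : Type w₀} [Bicategory.{w₂, w₁} B] [∀ a b : B, Preadditive (a ⟶ b)]
  [∀ a b : B, Linear K (a ⟶ b)] {ι : B → B → Type} [∀ a b, Fintype (ι a b)] [∀ a b, DecidableEq (ι a b)]
  {O : Subring K}

/-- The multiplicity `N_{ij}^k` is not zero: `S k` occurs in `S i ≫ S j`. -/
def Fus.Occ (F : Fus K B ι) {a b c : B} (i : ι a b) (j : ι b c) (k : ι a c) : Prop :=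
  ∃ f : F.S k ⟶ F.S i ≫ F.S j, f ≠ 0

/-- `S v ⟶ S o ≫ S v` -/
def Fus.lam (F : Fus K B ι) {a b : B} (v : ι a b) : F.S v ⟶ F.S (F.o a) ≫ F.S v :=
  (λ_ (F.S v)).inv ≫ ((F.u a).inv ▷ F.S v)

/-- `S v ⟶ S v ≫ S o` -/
def Fus.rho (F : Fus K B ι) {a b : B} (v : ι a b) : F.S v ⟶ F.S v ≫ F.S (F.o b) :=
  (ρ_ (F.S v)).inv ≫ (F.S v ◁ (F.u b).inv)

/-- `X ≫ W ⟶ Y ≫ (D ≫ W)` induced by `x : X ⟶ Y ≫ D` -/
def hat {p q r s : B} {X : p ⟶ r} {Y : p ⟶ q} {D : q ⟶ r} (x : X ⟶ Y ≫ D) (W : r ⟶ s) : X ≫ W ⟶ Y ≫ (D ≫ W) :=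
  (x ▷ W) ≫ (α_ Y D W).hom

/-- `Y ≫ (D ≫ W) ⟶ X ≫ W` induced by `b : Y ≫ D ⟶ X` -/
def hab {p q r s : B} {X : p ⟶ r} {Y : p ⟶ q} {D : q ⟶ r} (b : Y ≫ D ⟶ X) (W : r ⟶ s) : Y ≫ (D ≫ W) ⟶ X ≫ W :=
  (α_ Y D W).inv ≫ (b ▷ W)

/-- Families of `O`-submodules of the spaces `Hom (S m, W)`. -/
abbrev Fus.Fam (F : Fus K B ι) (O : Subring K) {a b : B} (W : a ⟶ b) := ∀ m : ι a b, Submodule O (F.S m ⟶ W)

/-- Systems of `O`-submodules of the spaces `Hom (S k, S i ≫ S j)`, for `i : ι w x`. -/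
abbrev Fus.Sys (F : Fus K B ι) (O : Subring K) (w x : B) :=
  ∀ (i : ι w x) ⦃c : B⦄ (j : ι x c) (k : ι w c), Submodule O (F.S k ⟶ F.S i ≫ F.S j)

/-- The dual lattice, in `Hom (Z, S m)`. -/
def Fus.dl (F : Fus K B ι) {a b : B} {m : ι a b} {Z : a ⟶ b} (L : Submodule O (F.S m ⟶ Z)) :
    Submodule O (Z ⟶ F.S m) where
  carrier := {g | ∀ f ∈ L, ∃ c ∈ O, f ≫ g = c • 𝟙 (F.S m)}
  add_mem' := by
    intro g g' hg hg' f hf
    obtain ⟨c, hc, h⟩ := hg f hf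
    obtain ⟨c', hc', h'⟩ := hg' f hf
    exact ⟨c + c', O.add_mem hc hc', by rw [Preadditive.comp_add, h, h', add_smul]⟩
  zero_mem' := fun f _ => ⟨0, O.zero_mem, by simp⟩
  smul_mem' := by
    intro x g hg f hf
    obtain ⟨c, hc, h⟩ := hg f hf
    refine ⟨(x : K) * c, O.mul_mem x.2 hc, ?_⟩
    have h1 : (x • g : Z ⟶ F.S m) = (x : K) • g := rfl
    rw [h1, Linear.comp_smul, h, smul_smul]

/-- The second bracketing: the lattices spanned by `S m ⟶ S y ≫ S m' ⟶ S y ≫ W`. -/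
def Fus.N2 (F : Fus K B ι) {a b c : B} (L : F.Sys O a b) (y : ι a b) {W : b ⟶ c} (n : F.Fam O W) :
    F.Fam O (F.S y ≫ W) := fun m =>
  Submodule.span O {h | ∃ (m' : ι b c) (z : F.S m ⟶ F.S y ≫ F.S m') (f : F.S m' ⟶ W),
    z ∈ L y m' m ∧ f ∈ n m' ∧ h = z ≫ (F.S y ◁ f)}

/-- The first bracketing: the lattices spanned by `S m ⟶ S z' ≫ W ⟶ S y ≫ (S z ≫ W)`. -/
def Fus.N1 (F : Fus K B ι) {a b c d : B} (L : F.Sys O a b) (y : ι a b) (z : ι b c) {W : c ⟶ d}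
    (n : ∀ z' : ι a c, F.Fam O (F.S z' ≫ W)) : F.Fam O (F.S y ≫ (F.S z ≫ W)) := fun m =>
  Submodule.span O {h | ∃ (z' : ι a c) (x : F.S z' ⟶ F.S y ≫ F.S z) (f : F.S m ⟶ F.S z' ≫ W),
    x ∈ L y z z' ∧ f ∈ n z' m ∧ h = f ≫ hat x W}

/-! ### Spherical structures -/

/-- `W ⟶ X ≫ (Y ≫ W)` induced by `c : 𝟙 ⟶ X ≫ Y` -/
def ins {p q s : B} {X : p ⟶ q} {Y : q ⟶ p} (c : 𝟙 p ⟶ X ≫ Y) (W : p ⟶ s) : W ⟶ X ≫ (Y ≫ W) :=
  (λ_ W).inv ≫ hat c W

/-- `X ≫ (Y ≫ W) ⟶ W` induced by `e : X ≫ Y ⟶ 𝟙` -/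
def del {p q s : B} {X : p ⟶ q} {Y : q ⟶ p} (e : X ≫ Y ⟶ 𝟙 p) (W : p ⟶ s) : X ≫ (Y ≫ W) ⟶ W :=
  hab e W ≫ (λ_ W).hom

/-- The partial trace over the left factor `X` of `T : X ≫ W ⟶ X ≫ W'`. -/
def lpt {p q s : B} {X : p ⟶ q} {Y : q ⟶ p} (c : 𝟙 q ⟶ Y ≫ X) (e : Y ≫ X ⟶ 𝟙 q) {W W' : q ⟶ s}
    (T : X ≫ W ⟶ X ≫ W') : W ⟶ W' :=
  ins c W ≫ (Y ◁ T) ≫ del e W'

/-- The partial trace over the right factor `Y` of `T : W ≫ Y ⟶ W' ≫ Y`. -/
def rpt {p q s : B} {X : q ⟶ p} {Y : p ⟶ q} (c : 𝟙 p ⟶ Y ≫ X) (e : Y ≫ X ⟶ 𝟙 p) {W W' : s ⟶ p}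
    (T : W ≫ Y ⟶ W' ≫ Y) : W ⟶ W' :=
  (ρ_ W).inv ≫ (W ◁ c) ≫ (α_ W Y X).inv ≫ (T ▷ X) ≫ (α_ W' Y X).hom ≫ (W' ◁ e) ≫ (ρ_ W').hom

/-- A spherical structure: each simple 1-morphism `S i` has a two-sided dual `S (st i)`, and there are traces on the
categories `a ⟶ b`, compatible with left and right partial traces. -/
structure Sph (F : Fus K B ι) where
  /-- the dual simple 1-morphism -/
  st : ∀ {a b : B}, ι a b → ι b a
  /-- coevaluation -/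
  cv : ∀ {a b : B} (i : ι a b), 𝟙 a ⟶ F.S i ≫ F.S (st i)
  /-- evaluation -/
  ev : ∀ {a b : B} (i : ι a b), F.S (st i) ≫ F.S i ⟶ 𝟙 b
  /-- coevaluation, other side -/
  cv' : ∀ {a b : B} (i : ι a b), 𝟙 b ⟶ F.S (st i) ≫ F.S i
  /-- evaluation, other side -/
  ev' : ∀ {a b : B} (i : ι a b), F.S i ≫ F.S (st i) ⟶ 𝟙 a
  zig : ∀ {a b : B} (i : ι a b), F.S (st i) ◁ cv i ≫ (α_ _ _ _).inv ≫ ev i ▷ F.S (st i) = (ρ_ _).hom ≫ (λ_ _).inv
  zag : ∀ {a b : B} (i : ι a b), cv i ▷ F.S i ≫ (α_ _ _ _).hom ≫ F.S i ◁ ev i = (λ_ _).hom ≫ (ρ_ _).inv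
  zig' : ∀ {a b : B} (i : ι a b), F.S i ◁ cv' i ≫ (α_ _ _ _).inv ≫ ev' i ▷ F.S i = (ρ_ _).hom ≫ (λ_ _).inv
  zag' : ∀ {a b : B} (i : ι a b),
    cv' i ▷ F.S (st i) ≫ (α_ _ _ _).hom ≫ F.S (st i) ◁ ev' i = (λ_ _).hom ≫ (ρ_ _).inv
  /-- the trace -/
  tr : ∀ {a b : B} (Z : a ⟶ b), (Z ⟶ Z) →ₗ[K] K
  tr_comm : ∀ {a b : B} (Z W : a ⟶ b) (f : Z ⟶ W) (g : W ⟶ Z), tr Z (f ≫ g) = tr W (g ≫ f)
  tr_one : ∀ a : B, tr (𝟙 a) (𝟙 (𝟙 a)) = 1
  tr_left : ∀ {a b c : B} (i : ι a b) (W : b ⟶ c) (T : F.S i ≫ W ⟶ F.S i ≫ W), tr _ T = tr W (lpt (cv' i) (ev i) T)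
  tr_right : ∀ {a b c : B} (i : ι a b) (W : c ⟶ b) (T : W ≫ F.S (st i) ⟶ W ≫ F.S (st i)),
    tr _ T = tr W (rpt (cv' i) (ev i) T)

/-- The dimension of a simple 1-morphism. -/
def Sph.d {F : Fus K B ι} (sp : Sph F) {a b : B} (i : ι a b) : K := sp.tr (F.S i) (𝟙 (F.S i))

/-! ### Fusion subcategories, gradings, Morita contexts -/

/-- `E` is (the set of simple 1-morphisms of) a fusion subcategory of `x ⟶ x`. -/
structure IsSub {F : Fus K B ι} (sp : Sph F) {x : B} (E : Set (ι x x)) : Prop where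
  one : F.o x ∈ E
  st : ∀ a ∈ E, sp.st a ∈ E
  mul : ∀ a ∈ E, ∀ b ∈ E, ∀ c, F.Occ a b c → c ∈ E

/-- The fusion subcategory `E'` is graded by the group `Q`, faithfully, with trivial component `E`. -/
structure IsGr {F : Fus K B ι} (sp : Sph F) {x : B} (E E' : Set (ι x x)) (Q : Type) [Group Q] (deg : ι x x → Q) :
    Prop where
  sub : IsSub sp E'
  mul : ∀ a ∈ E', ∀ b ∈ E', ∀ c, F.Occ a b c → deg c = deg a * deg b
  ker : ∀ a, a ∈ E ↔ a ∈ E' ∧ deg a = 1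
  surj : ∀ q : Q, ∃ a ∈ E', deg a = q

/-- The set `J` of simple 1-morphisms `x ⟶ y` is a Morita context between the fusion subcategories `E` of `x ⟶ x` and
`E'` of `y ⟶ y`. -/
structure IsMor {F : Fus K B ι} (sp : Sph F) {x y : B} (E : Set (ι x x)) (J : Set (ι x y)) (E' : Set (ι y y)) :
    Prop where
  sub : IsSub sp E
  sub' : IsSub sp E'
  ne : J.Nonempty
  left : ∀ e ∈ E, ∀ j ∈ J, ∀ c, F.Occ e j c → c ∈ J
  right : ∀ j ∈ J, ∀ e ∈ E', ∀ c, F.Occ j e c → c ∈ J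
  inner : ∀ j ∈ J, ∀ j' ∈ J, ∀ c, F.Occ j (sp.st j') c → c ∈ E
  inner' : ∀ j ∈ J, ∀ j' ∈ J, ∀ c, F.Occ (sp.st j) j' c → c ∈ E'

/-- The fusion subcategory `E` of `x ⟶ x` is nilpotent: it is obtained from the trivial fusion subcategory by finitely
many extensions by finite groups. -/
inductive Nil {F : Fus K B ι} (sp : Sph F) (x : B) : Set (ι x x) → Prop
  | vec : Nil sp x {F.o x}
  | ext (E E' : Set (ι x x)) (Q : Type) (_ : Group Q) (_ : Fintype Q) (deg : ι x x → Q) (h : Nil sp x E)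
      (hg : IsGr sp E E' Q deg) : Nil sp x E'

/-- The fusion subcategory `E` of `x ⟶ x` is obtained from a trivial one by finitely many extensions by finite groups
and Morita equivalences. -/
inductive Chain {F : Fus K B ι} (sp : Sph F) : ∀ x : B, Set (ι x x) → Prop
  | vec (x : B) : Chain sp x {F.o x}
  | ext (x : B) (E E' : Set (ι x x)) (Q : Type) (_ : Group Q) (_ : Fintype Q) (deg : ι x x → Q) (h : Chain sp x E)
      (hg : IsGr sp E E' Q deg) : Chain sp x E'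
  | mor (x y : B) (E : Set (ι x x)) (J : Set (ι x y)) (E' : Set (ι y y)) (h : Chain sp x E) (hm : IsMor sp E J E') :
      Chain sp y E'

/-- `A` is an indecomposable left module category over `E`, with `a ≫ a*` in `E` for `a ∈ A`. -/
structure IsOrb {F : Fus K B ι} (sp : Sph F) {x y : B} (E : Set (ι x x)) (A : Set (ι x y)) : Prop where
  ne : A.Nonempty
  act : ∀ e ∈ E, ∀ a ∈ A, ∀ c, F.Occ e a c → c ∈ A
  conn : ∀ a ∈ A, ∀ a' ∈ A, ∃ e ∈ E, F.Occ e a a'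
  ad : ∀ a ∈ A, ∀ e, F.Occ a (sp.st a) e → e ∈ E

/-! ### Integral structures -/

/-- `L` is a left `E`-form: it makes all categories `x ⟶ c` left module categories over the `O`-form of `E`. -/
structure LInt (F : Fus K B ι) (O : Subring K) {x : B} (E : Set (ι x x)) (L : F.Sys O x x) : Prop where
  lat : ∀ y ∈ E, ∀ {c : B} (v m : ι x c), IsLat O (L y v m)
  unitL : ∀ {c : B} (v : ι x c), L (F.o x) v v = Submodule.span O {F.lam v}
  unitR : ∀ y ∈ E, L y (F.o x) y = Submodule.span O {F.rho y}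
  assoc : ∀ y ∈ E, ∀ y' ∈ E, ∀ {c : B} (v : ι x c), F.N1 L y y' (fun k => L k v) = F.N2 L y (L y' v)

/-- `n` is a lattice in the module functor `a ↦ S a ≫ W` from `A` to `x ⟶ z`, over the `O`-form of `E`. -/
structure Stab (F : Fus K B ι) {x y z : B} (E : Set (ι x x)) (L : F.Sys O x x) (A : Set (ι x y)) {W : y ⟶ z}
    (n : ∀ a : ι x y, F.Fam O (F.S a ≫ W)) : Prop where
  lat : ∀ a ∈ A, ∀ m, IsLat O (n a m)
  stab : ∀ e ∈ E, ∀ a ∈ A, ∀ a' ∈ A, ∀ b : F.S e ≫ F.S a ⟶ F.S a', b ∈ F.dl (L e a a') →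
    ∀ m m' : ι x z, ∀ f ∈ n a m, ∀ t ∈ L e m m', t ≫ (F.S e ◁ f) ≫ hab b W ∈ n a' m'

/-- The standing hypotheses: dimensions are units and `L` is a left `E`-form. -/
structure Ctx {F : Fus K B ι} (sp : Sph F) (O : Subring K) {x : B} (E : Set (ι x x)) (L : F.Sys O x x) : Prop where
  val : Val O
  du : ∀ {a b : B} (i : ι a b), IsU O (sp.d i)
  sub : IsSub sp E
  int : LInt F O E L

/-- The left `E`-forms are unique up to rescaling the simple 1-morphisms. -/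
def Uniq (F : Fus K B ι) (O : Subring K) {x : B} (E : Set (ι x x)) : Prop :=
  ∀ L L' : F.Sys O x x, LInt F O E L → LInt F O E L' →
    ∃ g : ∀ ⦃c : B⦄, ι x c → K, (∀ (c : B) (i : ι x c), g i ≠ 0) ∧
      ∀ y ∈ E, ∀ {c : B} (v m : ι x c), L' y v m = scl (g y * g v * (g m)⁻¹) (L y v m)

/-- Left `E`-forms exist and are unique. -/
def HasForms (F : Fus K B ι) (O : Subring K) {x : B} (E : Set (ι x x)) : Prop :=
  (∃ L : F.Sys O x x, LInt F O E L) ∧ Uniq F O E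

/-- The component of degree `q`. -/
def cmp {x : B} {Q : Type} (E' : Set (ι x x)) (deg : ι x x → Q) (q : Q) : Set (ι x x) := {a | a ∈ E' ∧ deg a = q}

/-- The candidates `l : S v ⟶ W` for the family of lattices on `W` with `n₀ = S a ≫ (family)`. -/
def Fus.ql (F : Fus K B ι) [AddBi B] [LinBi K B] {x y z : B} (L : F.Sys O x y) (a : ι x y) {W : y ⟶ z}
    (n₀ : F.Fam O (F.S a ≫ W)) : F.Fam O W := fun v =>
  { carrier := {l | ∀ m, ∀ f ∈ L a v m, f ≫ (F.S a ◁ l) ∈ n₀ m}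
    add_mem' := by
      intro l l' hl hl' m f hf
      rw [wl_add, Preadditive.comp_add]
      exact (n₀ m).add_mem (hl m f hf) (hl' m f hf)
    zero_mem' := by
      intro m f _
      rw [wl_zero, Limits.comp_zero]
      exact (n₀ m).zero_mem
    smul_mem' := by
      intro t l hl m f hf
      have h1 : (t • l : F.S v ⟶ W) = (t : K) • l := rfl
      rw [h1, wl_smul, Linear.comp_smul]
      exact (n₀ m).smul_mem t (hl m f hf) }

/-- `L` is a left `E`-form, extended to `E'`: for `a` in `E'` the lattices `L a v m` are stable under the action of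
`E` from the left. -/
structure Pre {F : Fus K B ι} (sp : Sph F) (O : Subring K) {x : B} (E E' : Set (ι x x)) {Q : Type} (deg : ι x x → Q)
    (L : F.Sys O x x) : Prop where
  ctx : Ctx sp O E L
  uR : ∀ a ∈ E', L a (F.o x) a = Submodule.span O {F.rho a}
  st : ∀ (q : Q) {c : B} (v : ι x c), Stab F E L (cmp E' deg q) (fun a => L a v)

/-- An `O`-form of the fusion category `x ⟶ x`: lattices `L i j k` in `Hom (S k, S i ≫ S j)` such that the associativity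
isomorphisms, the unit isomorphisms and the evaluations and coevaluations of the simple objects are defined over `O`. -/
structure Good {F : Fus K B ι} (sp : Sph F) (O : Subring K) (x : B) (L : F.Sys O x x) : Prop where
  lat : ∀ i j k : ι x x, IsLat O (L i j k)
  unitL : ∀ v : ι x x, L (F.o x) v v = Submodule.span O {F.lam v}
  unitR : ∀ v : ι x x, L v (F.o x) v = Submodule.span O {F.rho v}
  assoc : ∀ i j v : ι x x, F.N1 L i j (fun k => L k v) = F.N2 L i (L j v)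
  rigid : ∀ i : ι x x, ∃ t : K, t ≠ 0 ∧ (F.u x).hom ≫ (t • sp.cv i) ∈ L i (sp.st i) (F.o x) ∧
    (t⁻¹ • sp.ev i) ≫ (F.u x).inv ∈ F.dl (L (sp.st i) i (F.o x))
  rigid' : ∀ i : ι x x, ∃ t : K, t ≠ 0 ∧ (F.u x).hom ≫ (t • sp.cv' i) ∈ L (sp.st i) i (F.o x) ∧
    (t⁻¹ • sp.ev' i) ≫ (F.u x).inv ∈ F.dl (L i (sp.st i) (F.o x))

end Pool.Agent.WGT
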