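import Pool.Agent.WGT.Gr

/-!
# WGT/Uq2: averaging over `Q` (uniqueness)

Only scalars.  `R` is the relation `Occ`.  `hrel` is the relation of `Uq1.t_rel`.
-/

set_option autoImplicit false

noncomputable section

open CategoryTheory Bicategory

namespace Pool.Agent.WGT

open Pool.Agent.NFG

universe w₂ w₁ w₀ w

variable {K : Type w} [Field K] {B : Type w₀} [Bicategory.{w₂, w₁} B] [∀ a b : B, Preadditive (a ⟶ b)]
  [∀ a b : B, Linear K (a ⟶ b)] [AddBi B] [LinBi K B] {ι : B → B → Type} [∀ a b, Fintype (ι a b)]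
  [∀ a b, DecidableEq (ι a b)] {O : Subring K}

theorem avg_uniq [IsAlgClosed K] (hO : Val O) {F : Fus K B ι} {sp : Sph F} {X : B} (hd : ∀ {a b : B} (i : ι a b), sp.d i ≠ 0) {E E' : Set (ι X X)}
    {Q : Type} [Group Q] [Fintype Q] {deg : ι X X → Q} (hg : IsGr sp E E' Q deg) {t : Q → ∀ ⦃Y : B⦄, ι X Y → K}
    (ht : ∀ q ⦃Y : B⦄ (v : ι X Y), t q v ≠ 0) (ht1 : ∀ ⦃Y : B⦄ (v : ι X Y), t 1 v = 1)
    (hrel : ∀ (b : ι X X) ⦃Y : B⦄ (v w : ι X Y), b ∈ E' → F.Occ b v w → ∀ q, IsU O (t q b * t (q * deg b) v / (t (deg b) v * t q w))) :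
    ∃ T : ∀ ⦃Y : B⦄, ι X Y → K, (∀ ⦃Y : B⦄ (v : ι X Y), T v ≠ 0) ∧ (∀ y ∈ E, IsU O (T y)) ∧
      ∀ (b : ι X X) ⦃Y : B⦄ (v w : ι X Y), b ∈ E' → F.Occ b v w → IsU O (t (deg b) v / (T b * T v * (T w)⁻¹)) := by
  classical
  have hN : 0 < Fintype.card Q := Fintype.card_pos
  have hT : ∀ ⦃Y : B⦄ (v : ι X Y), ∃ y : K, y ≠ 0 ∧ y ^ Fintype.card Q = ∏ q, t q v :=
    fun Y v => exists_rt hN (Finset.prod_ne_zero_iff.2 fun q _ => ht q v)
  choose T hT0 hT1 using hT
  refine ⟨T, hT0, ?_, ?_⟩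
  · have key : ∀ q, ∀ y ∈ E, IsU O (t q y) := by
      intro q
      refine maxarg hO E (fun y => t q y) (fun y _ => ht q y) ?_
      intro y hy
      obtain ⟨w, hw, ho⟩ := exists_sq hd (gr_sub hd hg) hy
      have hy' := (hg.ker y).1 hy
      have h := hrel y y w hy'.1 ho q
      rw [hy'.2, mul_one, ht1, one_mul] at h
      refine ⟨w, hw, ?_⟩
      have h2 := h.inv
      rwa [inv_div] at h2
    intro y hy
    refine isU_of_pow hO hN ?_
    rw [hT1]
    exact isU_prod _ _ fun q _ => key q y hy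
  · intro b Y v w hb ho
    have h1 : IsU O (∏ q, (t q b * t (q * deg b) v / (t (deg b) v * t q w))) :=
      isU_prod _ _ fun q _ => hrel b v w hb ho q
    have h2 : ∏ q, t (q * deg b) v = ∏ q, t q v :=
      Fintype.prod_equiv (Equiv.mulRight (deg b)) _ _ (fun _ => rfl)
    rw [Finset.prod_div_distrib, Finset.prod_mul_distrib, Finset.prod_mul_distrib, h2, Finset.prod_const,
      Finset.card_univ, ← hT1 b, ← hT1 v, ← hT1 w, ← mul_pow, ← mul_pow] at h1
    have h3 := (isU_of_pow_div hO hN h1).inv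
    rw [inv_div] at h3
    have e : t (deg b) v / (T b * T v * (T w)⁻¹) = t (deg b) v * T w / (T b * T v) := by
      have h4 := hT0 w
      field_simp
    rw [e]
    exact h3

end Pool.Agent.WGT
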