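import Pool.Agent.WGT.Uq1
import Pool.Agent.WGT.Uq2

/-!
# WGT/Uq3: uniqueness, the induction step
-/

set_option autoImplicit false

noncomputable section

open CategoryTheory Bicategory

namespace Pool.Agent.WGT

open Pool.Agent.NFG

universe w₂ w₁ w₀ w

variable {K : Type w} [Field K] {B : Type w₀} [Bicategory.{w₂, w₁} B] [∀ a b : B, Preadditive (a ⟶ b)]
  [∀ a b : B, Linear K (a ⟶ b)] [AddBi B] [LinBi K B] {ι : B → B → Type} [∀ a b, Fintype (ι a b)]
  [∀ a b, DecidableEq (ι a b)] {O : Subring K}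

theorem uniq_step [IsAlgClosed K] (hO : Val O) {F : Fus K B ι} {sp : Sph F} {X : B} (hd : ∀ {a b : B} (i : ι a b), IsU O (sp.d i))
    {E E' : Set (ι X X)} {Q : Type} [Group Q] [Fintype Q] {deg : ι X X → Q} (hg : IsGr sp E E' Q deg) (hu : Uniq F O E) :
    Uniq F O E' := by
  intro L L' hL hL'
  have hE : E ⊆ E' := fun a ha => ((hg.ker a).1 ha).1
  obtain ⟨g, hg0, hgE⟩ := hu L L' (int_mono hE hL) (int_mono hE hL')
  have hdo : deg (F.o X) = 1 := by
    have h := hg.mul (F.o X) hg.sub.one (F.o X) hg.sub.one (F.o X) (occ_lam F (F.o X))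
    have h1 : deg (F.o X) * 1 = deg (F.o X) * deg (F.o X) := by rw [mul_one]; exact h
    exact (mul_left_cancel h1).symm
  have ho : (F.o X) ∈ E := (hg.ker (F.o X)).2 ⟨hg.sub.one, hdo⟩
  have hgo : IsU O (g (F.o X)) := by
    refine gau_o (sp := sp) (hL.unitL (F.o X)) (hL'.unitL (F.o X)) (hg0 X (F.o X)) ?_
    have h := hgE (F.o X) ho (F.o X) (F.o X)
    rwa [mul_assoc, mul_inv_cancel₀ (hg0 X (F.o X)), mul_one] at h
  have hL'' : LInt F O E' (gau g L) := gau_int hL (fun Y i => hg0 Y i) hgo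
  have he : ∀ y ∈ E, L' y = gau g L y := by
    intro y hy
    funext Y v m
    exact hgE y hy v m
  obtain ⟨t, ht, ht1, h⟩ := exists_t (sp := sp) hO hd hg hL'' hL' he
  obtain ⟨T, hT0, -, hT⟩ := avg_uniq hO (fun i => (hd i).1) hg ht ht1
    (fun b Y v w hb hw q => t_rel hO hd hg hL'' hL' ht h hb hw q)
  refine ⟨fun Y i => g i * T i, fun Y i => mul_ne_zero (hg0 Y i) (hT0 i), fun b hb Y v m => ?_⟩
  by_cases hocc : F.Occ b v m
  · have h1 : T b * T v * (T m)⁻¹ ≠ 0 :=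
      mul_ne_zero (mul_ne_zero (hT0 b) (hT0 v)) (inv_ne_zero (hT0 m))
    rw [h b hb v m, scl_congr (ht _ _) h1 (hT b v m hb hocc)]
    show scl (T b * T v * (T m)⁻¹) (scl (g b * g v * (g m)⁻¹) (L b v m)) = _
    rw [scl_scl]
    congr 1
    rw [mul_inv]
    ring
  · refine eq_of_zero (fun x => ?_) _ _
    by_contra hx
    exact hocc ⟨x, hx⟩

end Pool.Agent.WGT
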