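import Pool.Agent.WGT.M3d
import Pool.Agent.WGT.Uq3
import Pool.Agent.WGT.Bas

/-!
# WGT/Fin: the main theorem

`ind`: induction on `Nil sp E` with `base`, `base_uniq`, `exists_step`, `uniq_step`.
`main`: for `E = Set.univ`; `rigid` from `rigid_of`, `rigid_of'` (`Ctx sp O univ L`; `IsSub sp univ` is clear).
`main_unique`: `Good → LInt univ`.
-/

set_option autoImplicit false

noncomputable section

open CategoryTheory Bicategory

namespace Pool.Agent.WGT

open Pool.Agent.NFG

universe w₂ w₁ w₀ w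

variable {K : Type w} [Field K] {B : Type w₀} [Bicategory.{w₂, w₁} B] [∀ a b : B, Preadditive (a ⟶ b)]
  [∀ a b : B, Linear K (a ⟶ b)] [AddBi B] [LinBi K B] {ι : B → B → Type} [∀ a b, Fintype (ι a b)]
  [∀ a b, DecidableEq (ι a b)] {O : Subring K}

theorem nil_forms [IsAlgClosed K] (hO : Val O) {F : Fus K B ι} {sp : Sph F}
    (hd : ∀ {a b : B} (i : ι a b), IsU O (sp.d i)) {X : B} {E : Set (ι X X)} (hE : Nil sp X E) : HasForms F O E := by
  induction hE with
  | vec => exact ⟨base F O X, base_uniq F O X⟩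
  | ext E E' Q hQ hQ' deg h hg ih =>
    exact ⟨exists_step hO hd hg ih.2 ih.1, uniq_step hO hd hg ih.2⟩

end Pool.Agent.WGT
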