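import Pool.Agent.WGT.FroA

/-!
# WGT/FroB: Frobenius reciprocity over `O`

`frob_const`: `lat_rank_one` (with `hom_cv`, `hom_cv'`; `u ≫ cv y ≠ 0` because of `loop`, `loop'`, `d y ≠ 0`) gives `t1, t2`
with `h1, h2` of `FroA`.  Take `f = rho y ∈ L y o y` (`unitR`): `f = fl (sh f)` (`fl_sh`, `zag`), so by `sh_mem`, `fl_mem`
`rho y ∈ scl (t2 * t1⁻¹) (O rho y)`, hence `t1 / t2 ∈ O`.  With `st y ∈ E` in place of `y`: `f = rho (st y) ∈ L (st y) o (st y)`,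
`f = fl (cv' y) (sh (ev' y) f)` (`fl_sh` with `zag' y`), `sh_mem'`, `fl_mem'`: `t2 / t1 ∈ O`.

`frob`: `c = t2`.  `→` is `sh_mem`.  `←`: `f = fl (cv y) (sh (ev y) f)`, `sh f ∈ scl t2 (dl ..)`, `fl_mem`, `fl_smul`: `f ∈ scl (t2 * t1⁻¹) (L y v v')
= L y v v'`.

`rigid_of`: `t = t1`: `u ≫ (t1 • cv y) ∈ L y (st y) o` by `h1`; `(t1⁻¹ • ev y) ≫ u⁻¹ ∈ dl (L (st y) y o) = O t2⁻¹ (ev ≫ u⁻¹)`
(up to units, see the proof of `sh_mem`).  `rigid_of'`: `t = t2`.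
-/

set_option autoImplicit false

noncomputable section

open CategoryTheory Bicategory

namespace Pool.Agent.WGT

open Pool.Agent.NFG

universe w₂ w₁ w₀ w

variable {K : Type w} [Field K] {B : Type w₀} [Bicategory.{w₂, w₁} B] [∀ a b : B, Preadditive (a ⟶ b)]
  [∀ a b : B, Linear K (a ⟶ b)] [AddBi B] [LinBi K B] {ι : B → B → Type} [∀ a b, Fintype (ι a b)]
  [∀ a b, DecidableEq (ι a b)] {O : Subring K}

private theorem fb_unit_ne (F : Fus K B ι) {X : B} : (𝟙 (𝟙 X) : 𝟙 X ⟶ 𝟙 X) ≠ 0 := by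
  intro h
  apply F.one_ne (F.o X)
  have h1 : 𝟙 (F.S (F.o X)) = (F.u X).hom ≫ 𝟙 (𝟙 X) ≫ (F.u X).inv := by simp
  rw [h1, h, Limits.zero_comp, Limits.comp_zero]

private theorem fb_ne (F : Fus K B ι) {X : B} {Z : X ⟶ X} {c : 𝟙 X ⟶ Z} {e : Z ⟶ 𝟙 X} {d : K} (hd : d ≠ 0)
    (h : c ≫ e = d • 𝟙 (𝟙 X)) : (F.u X).hom ≫ c ≠ 0 := by
  intro h0
  have h1 : c = (F.u X).inv ≫ (F.u X).hom ≫ c := by simp
  rw [h0, Limits.comp_zero] at h1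
  rw [h1, Limits.zero_comp] at h
  exact smul_ne_zero hd (fb_unit_ne F) h.symm

private theorem fb_osmul (c : O) {p q : B} {V W : p ⟶ q} (f : V ⟶ W) : (c • f : V ⟶ W) = (c : K) • f := rfl

private theorem fb_rho_ne (F : Fus K B ι) {X : B} (y : ι X X) : F.rho y ≠ 0 := by
  intro h
  have h1 := rho_rhoi F y
  rw [h, Limits.zero_comp] at h1
  exact F.one_ne y h1.symm

/-- one of the two integrality statements -/
private theorem fb_int (F : Fus K B ι) {X : B} {y y' : ι X X} {c : 𝟙 X ⟶ F.S y ≫ F.S y'} {e : F.S y' ≫ F.S y ⟶ 𝟙 X}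
    (zag : c ▷ F.S y ≫ (α_ _ _ _).hom ≫ F.S y ◁ e = (λ_ _).hom ≫ (ρ_ _).inv) {t1 t2 : K} (ht1 : t1 ≠ 0)
    (ht2 : t2 ≠ 0) {M : Submodule O (F.S y' ≫ F.S y ⟶ F.S (F.o X))} {R : Submodule O (F.S y ⟶ F.S y ≫ F.S (F.o X))}
    (hR : R = Submodule.span O {F.rho y})
    (hs : sh e (F.rho y) ∈ scl t2 M) (hf : ∀ g ∈ M, fl c g ∈ scl t1⁻¹ R) : t1 / t2 ∈ O := by
  obtain ⟨g, hg, hg1⟩ := hs
  obtain ⟨l, hl, hl1⟩ := hf g hg
  rw [hR] at hl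
  obtain ⟨a, ha⟩ := Submodule.mem_span_singleton.1 hl
  have h1 : F.rho y = (t2 * t1⁻¹ * (a : K)) • F.rho y := by
    have h2 := fl_sh c e zag (F.rho y)
    rw [hg1, fl_smul, hl1, ← ha, fb_osmul, smul_smul, smul_smul] at h2
    exact h2.symm
  have h3 : (t2 * t1⁻¹ * (a : K)) = 1 := by
    have h4 : ((t2 * t1⁻¹ * (a : K)) - 1) • F.rho y = 0 := by
      rw [sub_smul, one_smul, ← h1, sub_self]
    rcases smul_eq_zero.1 h4 with h5 | h5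
    · exact sub_eq_zero.1 h5
    · exact absurd h5 (fb_rho_ne F y)
  have h6 : t1 / t2 = (a : K) := by
    field_simp at h3 ⊢
    exact h3.symm
  rw [h6]
  exact a.2

private theorem fb_dl (F : Fus K B ι) {X : B} {Z : X ⟶ X} {c : 𝟙 X ⟶ Z} {e : Z ⟶ 𝟙 X} {d t s : K} (hd : d ∈ O)
    (hce : c ≫ e = d • 𝟙 (𝟙 X)) (hts : t / s ∈ O) :
    (s⁻¹ • e) ≫ (F.u X).inv ∈ F.dl (Submodule.span O ({t • ((F.u X).hom ≫ c)} : Set (F.S (F.o X) ⟶ Z))) := by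
  intro f hf
  obtain ⟨a, rfl⟩ := Submodule.mem_span_singleton.1 hf
  refine ⟨(a : K) * (t / s * d), O.mul_mem a.2 (O.mul_mem hts hd), ?_⟩
  have h6 : ((F.u X).hom ≫ c) ≫ (e ≫ (F.u X).inv) = d • 𝟙 (F.S (F.o X)) := by
    have h7 : ((F.u X).hom ≫ c) ≫ (e ≫ (F.u X).inv) = (F.u X).hom ≫ (c ≫ e) ≫ (F.u X).inv := by
      simp only [Category.assoc]
    rw [h7, hce, Linear.smul_comp, Category.id_comp, Linear.comp_smul, Iso.hom_inv_id]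
  rw [fb_osmul, Linear.smul_comp, Linear.smul_comp, Linear.smul_comp, Linear.comp_smul, h6, smul_smul, smul_smul,
    smul_smul]
  congr 1
  rw [div_eq_mul_inv]
  ring

theorem frob_const {F : Fus K B ι} {X : B} {sp : Sph F} {E : Set (ι X X)} {L : F.Sys O X X} (h : Ctx sp O E L) {y : ι X X} (hy : y ∈ E) :
    ∃ t1 t2 : K, t1 ≠ 0 ∧ t2 ≠ 0 ∧ L y (sp.st y) (F.o X) = Submodule.span O {t1 • ((F.u X).hom ≫ sp.cv y)} ∧
      L (sp.st y) y (F.o X) = Submodule.span O {t2 • ((F.u X).hom ≫ sp.cv' y)} ∧ IsU O (t1 / t2) := by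
  obtain ⟨t1, ht1, h1⟩ := lat_rank_one (h.int.lat y hy (sp.st y) (F.o X)) (fb_ne F (h.du y).1 (loop sp y)) (hom_cv sp y)
  obtain ⟨t2, ht2, h2⟩ := lat_rank_one (h.int.lat (sp.st y) (h.sub.st y hy) y (F.o X))
    (fb_ne F (h.du y).1 (loop' sp y)) (hom_cv' sp y)
  have hr : F.rho y ∈ L y (F.o X) y := by
    rw [h.int.unitR y hy]
    exact Submodule.mem_span_singleton_self _
  have hr' : F.rho (sp.st y) ∈ L (sp.st y) (F.o X) (sp.st y) := by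
    rw [h.int.unitR (sp.st y) (h.sub.st y hy)]
    exact Submodule.mem_span_singleton_self _
  refine ⟨t1, t2, ht1, ht2, h1, h2, div_ne_zero ht1 ht2, ?_, ?_⟩
  · exact fb_int F (sp.zag y) ht1 ht2 (h.int.unitR y hy) (sh_mem h hy ht2 h2 hr) fun g hg => fl_mem h hy ht1 h1 hg
  · rw [inv_div]
    exact fb_int F (sp.zag' y) ht2 ht1 (h.int.unitR (sp.st y) (h.sub.st y hy)) (sh_mem' h hy ht1 h1 hr')
      fun g hg => fl_mem' h hy ht2 h2 hg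

theorem frob {F : Fus K B ι} {X : B} {sp : Sph F} {E : Set (ι X X)} {L : F.Sys O X X} (h : Ctx sp O E L) {y : ι X X} (hy : y ∈ E) :
    ∃ c : K, c ≠ 0 ∧ ∀ {Y : B} (v v' : ι X Y) (f : F.S v' ⟶ F.S y ≫ F.S v),
      f ∈ L y v v' ↔ sh (sp.ev y) f ∈ scl c (F.dl (L (sp.st y) v' v)) := by
  obtain ⟨t1, t2, ht1, ht2, h1, h2, hu⟩ := frob_const h hy
  refine ⟨t2, ht2, fun v v' f => ⟨fun hf => sh_mem h hy ht2 h2 hf, fun hf => ?_⟩⟩
  obtain ⟨g, hg, hg1⟩ := hf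
  obtain ⟨l, hl, hl1⟩ := fl_mem h hy ht1 h1 hg
  have h3 : f = (t1 / t2)⁻¹ • l := by
    rw [← fl_sh (sp.cv y) (sp.ev y) (sp.zag y) f, hg1, fl_smul, hl1, smul_smul, inv_div, div_eq_mul_inv]
  rw [h3]
  exact smul_mem_of hu.2.2 hl

theorem rigid_of {F : Fus K B ι} {X : B} {sp : Sph F} {E : Set (ι X X)} {L : F.Sys O X X} (h : Ctx sp O E L) {y : ι X X} (hy : y ∈ E) :
    ∃ t : K, t ≠ 0 ∧ (F.u X).hom ≫ (t • sp.cv y) ∈ L y (sp.st y) (F.o X) ∧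
      (t⁻¹ • sp.ev y) ≫ (F.u X).inv ∈ F.dl (L (sp.st y) y (F.o X)) := by
  obtain ⟨t1, t2, ht1, ht2, h1, h2, hu⟩ := frob_const h hy
  refine ⟨t1, ht1, ?_, ?_⟩
  · rw [h1, Linear.comp_smul]
    exact Submodule.mem_span_singleton_self _
  · rw [h2]
    refine fb_dl F (h.du y).2.1 (loop' sp y) ?_
    rw [← inv_div]
    exact hu.2.2

theorem rigid_of' {F : Fus K B ι} {X : B} {sp : Sph F} {E : Set (ι X X)} {L : F.Sys O X X} (h : Ctx sp O E L) {y : ι X X} (hy : y ∈ E) :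
    ∃ t : K, t ≠ 0 ∧ (F.u X).hom ≫ (t • sp.cv' y) ∈ L (sp.st y) y (F.o X) ∧
      (t⁻¹ • sp.ev' y) ≫ (F.u X).inv ∈ F.dl (L y (sp.st y) (F.o X)) := by
  obtain ⟨t1, t2, ht1, ht2, h1, h2, hu⟩ := frob_const h hy
  refine ⟨t2, ht2, ?_, ?_⟩
  · rw [h2, Linear.comp_smul]
    exact Submodule.mem_span_singleton_self _
  · rw [h1]
    exact fb_dl F (h.du y).2.1 (loop sp y) hu.2.1

end Pool.Agent.WGT
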