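import Pool.Agent.WGT.StB
import Pool.Agent.WGT.NlB

/-!
# WGT/StC: stable systems exist

Choose `a₀ ∈ A` and lattices `n₀` on `S a₀ ≫ W` (`exists_lat_fam`).  Put
`n a m' = span {h ≫ hab b W | ∃ y ∈ E, h ∈ N2 L y n₀ m', b ∈ dl (L y a₀ a)}`.

`gens_lat`: finitely generated: finite supremum over `y` (`fg_iSup'`) of `fg_span2` (with `dl_lat`, `lat_N2`, `IsLat.fg`);
spanning over `K` for `a ∈ A`: with `y, x, b` of `gen_pair` every `f : S m' ⟶ S a ≫ W` is `(f ≫ hat x W) ≫ hab b W` and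
`f ≫ hat x W` is in the `K`-span of `N2 L y n₀ m'` (`lat_N2`, `IsLat.span`).  Then `lat_of_fg`.

`gens_stab`: let `y' ∈ E`, `b' ∈ dl (L y' a a')`, `z' ∈ L y' m' m''` and a generator `h ≫ hab b W`, `h ∈ N2 L y n₀ m'`; by
`N2_le` we may take `h = z ≫ (S y ◁ f)`, `z ∈ L y m m'`, `f ∈ n₀ m` (additivity of
`h ↦ z' ≫ (S y' ◁ (h ≫ hab b W)) ≫ hab b' W`).
`z' ≫ (S y' ◁ z) ∈ N2 L y' (L y m) m'' = N1 L y' y (fun k => L k m) m''` (`assoc`), so by `N1_le` we may replace it by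
`z'' ≫ hat x (S m)`, `x ∈ L y' y k`, `z'' ∈ L k m m''` (here `k ∈ E`, or `x = 0`).  Then
`z'' ≫ hat x (S m) ≫ (S y' ◁ (S y ◁ f)) ≫ (S y' ◁ hab b W) ≫ hab b' W`
`= z'' ≫ (S k ◁ f) ≫ hat x (S a₀ ≫ W) ≫ (S y' ◁ hab b W) ≫ hab b' W` (`hat_natural`)
`= (z'' ≫ (S k ◁ f)) ≫ hab (hat x (S a₀) ≫ (S y' ◁ b) ≫ b') W` (`hat_hab_hab`), a generator by `dl_assoc`.
-/

set_option autoImplicit false

noncomputable section

open CategoryTheory Bicategory

namespace Pool.Agent.WGT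

open Pool.Agent.NFG

universe w₂ w₁ w₀ w

variable {K : Type w} [Field K] {B : Type w₀} [Bicategory.{w₂, w₁} B] [∀ a b : B, Preadditive (a ⟶ b)]
  [∀ a b : B, Linear K (a ⟶ b)] [AddBi B] [LinBi K B] {ι : B → B → Type} [∀ a b, Fintype (ι a b)]
  [∀ a b, DecidableEq (ι a b)] {O : Subring K}

/-- the generated system -/
private def gn (F : Fus K B ι) {X Y Z : B} (E : Set (ι X X)) (L : F.Sys O X X) (a₀ : ι X Y) {W : Y ⟶ Z}
    (n₀ : F.Fam O (F.S a₀ ≫ W)) (a : ι X Y) :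
    F.Fam O (F.S a ≫ W) := fun m' =>
  ⨆ y : E, Submodule.span O {k | ∃ h ∈ F.N2 L y.1 n₀ m', ∃ b ∈ F.dl (L y.1 a₀ a), k = h ≫ hab b W}

omit [AddBi B] [LinBi K B] in
private theorem mem_gn {F : Fus K B ι} {X Y Z : B} {E : Set (ι X X)} {L : F.Sys O X X} {a₀ : ι X Y} {W : Y ⟶ Z}
    {n₀ : F.Fam O (F.S a₀ ≫ W)} {a : ι X Y} {m' : ι X Z}
    {y : ι X X} (hy : y ∈ E) {h : F.S m' ⟶ F.S y ≫ (F.S a₀ ≫ W)} (hh : h ∈ F.N2 L y n₀ m') {b : F.S y ≫ F.S a₀ ⟶ F.S a}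
    (hb : b ∈ F.dl (L y a₀ a)) : h ≫ hab b W ∈ gn F E L a₀ n₀ a m' :=
  Submodule.mem_iSup_of_mem (⟨y, hy⟩ : E) (Submodule.subset_span ⟨h, hh, b, hb, rfl⟩)

/-- preimages of submodules under additive and homogeneous maps -/
private def pmap {M M' : Type*} [AddCommGroup M] [Module K M] [AddCommGroup M'] [Module K M'] (P : Submodule O M')
    (φ : M → M') (h1 : ∀ x y, φ (x + y) = φ x + φ y) (h2 : ∀ (c : K) x, φ (c • x) = c • φ x) : Submodule O M where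
  carrier := {x | φ x ∈ P}
  add_mem' := by
    intro x y hx hy
    show φ (x + y) ∈ P
    rw [h1]
    exact P.add_mem hx hy
  zero_mem' := by
    show φ 0 ∈ P
    have := h2 0 0
    rw [zero_smul, zero_smul] at this
    rw [this]
    exact P.zero_mem
  smul_mem' := by
    intro c x hx
    show φ (c • x) ∈ P
    have h3 : φ (c • x) = c • φ x := h2 (c : K) x
    rw [h3]
    exact P.smul_mem c hx

private theorem gn_fg {F : Fus K B ι} {sp : Sph F} {X Y Z : B} {E : Set (ι X X)} {L : F.Sys O X X} (h : Ctx sp O E L)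
    (a₀ : ι X Y) {W : Y ⟶ Z}
    {n₀ : F.Fam O (F.S a₀ ≫ W)} (hn₀ : ∀ m, IsLat O (n₀ m)) (a : ι X Y) (m' : ι X Z) : (gn F E L a₀ n₀ a m').FG := by
  refine fg_iSup' _ (fun y => ?_)
  refine fg_span2 (K := K) (M₁ := (F.S m' ⟶ F.S y.1 ≫ (F.S a₀ ≫ W))) (M₂ := (F.S y.1 ≫ F.S a₀ ⟶ F.S a))
    (fun h b => h ≫ hab b W) ?_ ?_ ?_ ?_ ?_ ?_
  · intro x x' y
    exact Preadditive.add_comp _ _ _ _ _ _
  · intro c x y
    exact Linear.smul_comp _ _ _ _ _ _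
  · intro x y y'
    show x ≫ hab (y + y') W = _
    rw [hab_add, Preadditive.comp_add]
  · intro c x y
    show x ≫ hab (c • y) W = _
    rw [hab_smul, Linear.comp_smul]
  · exact (lat_N2 h.val (fun m => h.int.lat y.1 y.2 m m') hn₀).fg
  · exact (dl_lat F (h.int.lat y.1 y.2 a₀ a)).fg

private theorem gn_span {F : Fus K B ι} {sp : Sph F} {X Y Z : B} {E : Set (ι X X)} {A : Set (ι X Y)} {L : F.Sys O X X} (h : Ctx sp O E L) (hA : IsOrb sp E A)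
    {a₀ : ι X Y} (ha₀ : a₀ ∈ A) {W : Y ⟶ Z} {n₀ : F.Fam O (F.S a₀ ≫ W)} (hn₀ : ∀ m, IsLat O (n₀ m)) {a : ι X Y} (ha : a ∈ A)
    (m' : ι X Z) : Submodule.span K (gn F E L a₀ n₀ a m' : Set (F.S m' ⟶ F.S a ≫ W)) = ⊤ := by
  obtain ⟨y, hy, x, hx, b, hb, hxb⟩ := gen_pair h hA ha₀ ha
  rw [eq_top_iff]
  intro f _
  have hf : (f ≫ hat x W) ≫ hab b W = f := by
    rw [Category.assoc, hat_hab, hxb, Bicategory.id_whiskerRight, Category.comp_id]
  have h1 : f ≫ hat x W ∈ Submodule.span K (F.N2 L y n₀ m' : Set (F.S m' ⟶ F.S y ≫ (F.S a₀ ≫ W))) := by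
    rw [(lat_N2 h.val (fun m => h.int.lat y hy m m') hn₀).span]
    exact Submodule.mem_top
  rw [← hf]
  generalize f ≫ hat x W = u at h1
  induction h1 using Submodule.span_induction with
  | mem u hu => exact Submodule.subset_span (mem_gn hy hu hb)
  | zero => rw [Limits.zero_comp]; exact Submodule.zero_mem _
  | add u v _ _ ihu ihv => rw [Preadditive.add_comp]; exact Submodule.add_mem _ ihu ihv
  | smul c u _ ih => rw [Linear.smul_comp]; exact Submodule.smul_mem _ c ih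

private theorem gn_stab {F : Fus K B ι} {sp : Sph F} {X Y Z : B} {E : Set (ι X X)} {L : F.Sys O X X} (h : Ctx sp O E L)
    {a₀ : ι X Y} {W : Y ⟶ Z} {n₀ : F.Fam O (F.S a₀ ≫ W)} {y' : ι X X} (hy' : y' ∈ E) {a a' : ι X Y}
    {b' : F.S y' ≫ F.S a ⟶ F.S a'} (hb' : b' ∈ F.dl (L y' a a')) {m' m'' : ι X Z} {k : F.S m' ⟶ F.S a ≫ W}
    (hk : k ∈ gn F E L a₀ n₀ a m') {z' : F.S m'' ⟶ F.S y' ≫ F.S m'} (hz' : z' ∈ L y' m' m'') :
    z' ≫ (F.S y' ◁ k) ≫ hab b' W ∈ gn F E L a₀ n₀ a' m'' := by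
  have H : gn F E L a₀ n₀ a m' ≤ pmap (gn F E L a₀ n₀ a' m'') (fun k => z' ≫ (F.S y' ◁ k) ≫ hab b' W)
      (fun x y => by simp only [wl_add, Preadditive.add_comp, Preadditive.comp_add])
      (fun c x => by simp only [wl_smul, Linear.smul_comp, Linear.comp_smul]) := by
    refine iSup_le (fun y => ?_)
    rw [Submodule.span_le]
    rintro _ ⟨h₀, hh₀, b, hb, rfl⟩
    show z' ≫ (F.S y' ◁ (h₀ ≫ hab b W)) ≫ hab b' W ∈ gn F E L a₀ n₀ a' m''
    have H2 : F.N2 L y.1 n₀ m' ≤ pmap (gn F E L a₀ n₀ a' m'') (fun h₀ => z' ≫ (F.S y' ◁ (h₀ ≫ hab b W)) ≫ hab b' W)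
        (fun x y => by simp only [wl_add, Preadditive.add_comp, Preadditive.comp_add])
        (fun c x => by simp only [wl_smul, Linear.smul_comp, Linear.comp_smul]) := by
      refine N2_le (fun m z f hz hf => ?_)
      show z' ≫ (F.S y' ◁ ((z ≫ (F.S y.1 ◁ f)) ≫ hab b W)) ≫ hab b' W ∈ gn F E L a₀ n₀ a' m''
      have e1 : z' ≫ (F.S y' ◁ ((z ≫ (F.S y.1 ◁ f)) ≫ hab b W)) ≫ hab b' W =
          (z' ≫ (F.S y' ◁ z)) ≫ (F.S y' ◁ (F.S y.1 ◁ f)) ≫ (F.S y' ◁ hab b W) ≫ hab b' W := by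
        simp only [Bicategory.whiskerLeft_comp, Category.assoc]
      rw [e1]
      have H3 : F.N1 L y' y.1 (fun k => L k m) m'' ≤ pmap (gn F E L a₀ n₀ a' m'')
          (fun u => u ≫ (F.S y' ◁ (F.S y.1 ◁ f)) ≫ (F.S y' ◁ hab b W) ≫ hab b' W)
          (fun x y => by simp only [Preadditive.add_comp])
          (fun c x => by simp only [Linear.smul_comp]) := by
        refine N1_le (fun k x z'' hx hz'' => ?_)
        show (z'' ≫ hat x (F.S m)) ≫ (F.S y' ◁ (F.S y.1 ◁ f)) ≫ (F.S y' ◁ hab b W) ≫ hab b' W ∈ gn F E L a₀ n₀ a' m''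
        by_cases hk : k ∈ E
        · have e2 : (z'' ≫ hat x (F.S m)) ≫ (F.S y' ◁ (F.S y.1 ◁ f)) ≫ (F.S y' ◁ hab b W) ≫ hab b' W =
              (z'' ≫ (F.S k ◁ f)) ≫ hab (hat x (F.S a₀) ≫ (F.S y' ◁ b) ≫ b') W := by
            rw [← hat_hab_hab, Category.assoc, Category.assoc]
            congr 1
            rw [← Category.assoc, hat_natural, Category.assoc]
          rw [e2]
          exact mem_gn hk (mem_N2 hz'' hf) (dl_assoc h hy' y.2 hx hb hb')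
        · have hx0 : x = 0 := by
            by_contra hx0
            exact hk (h.sub.mul y' hy' y.1 y.2 k ⟨x, hx0⟩)
          rw [hx0, hat_zero, Limits.comp_zero, Limits.zero_comp]
          exact Submodule.zero_mem _
      have e3 : z' ≫ (F.S y' ◁ z) ∈ F.N1 L y' y.1 (fun k => L k m) m'' := by
        rw [h.int.assoc y' hy' y.1 y.2 m]
        exact mem_N2 hz' hz
      exact H3 e3
    exact H2 hh₀
  exact H hk

theorem exists_stab {F : Fus K B ι} {sp : Sph F} {X Y Z : B} {E : Set (ι X X)} {A : Set (ι X Y)} {L : F.Sys O X X} (h : Ctx sp O E L) (hA : IsOrb sp E A)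
    (W : Y ⟶ Z) : ∃ n : ∀ a : ι X Y, F.Fam O (F.S a ≫ W), Stab F E L A n := by
  obtain ⟨a₀, ha₀⟩ := hA.ne
  obtain ⟨n₀, hn₀⟩ := exists_lat_fam F O (F.S a₀ ≫ W)
  refine ⟨gn F E L a₀ n₀, ⟨fun a ha m => lat_of_fg h.val _ (gn_fg h a₀ hn₀ a m) (gn_span h hA ha₀ hn₀ ha m), ?_⟩⟩
  intro y hy a _ a' _ b hb m m' f hf z hz
  exact gn_stab h hy hb hf hz

end Pool.Agent.WGT
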