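import Pool.Agent.WGT.CRb
import Pool.Agent.WGT.NlB
import Pool.Agent.WGT.StC
import Pool.Agent.WGT.Gr
import Pool.Agent.NFG.Unt

/-!
# WGT/Gau: gauge transformations and basic facts on systems

`gau g L i j k = scl (g i * g j * (g k)⁻¹) (L i j k)`.

`gau_int`: lattices: `IsLat.scl`.  `unitL`: the factor is `g o * g v * (g v)⁻¹`, a unit (`scl_unit`).  `unitR` the same.
`assoc`: `N1_scl` with `s k = g y * g y' * (g k)⁻¹`, `t k = g k * g v * (g m)⁻¹`, `r = g y * g y' * g v * (g m)⁻¹` (for each `m`,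
use `funext m`), `N2_scl` with `s m' = g y * g m' * (g m)⁻¹`, `t m' = g y' * g v * (g m')⁻¹` and the same `r`.
`int_mono`: restrict to a smaller `E`.
`pre_stab`: for `L` an `E'`-form and `b ∈ E'`-graded: `L` is an `E`-form (`int_mono`) and for `q`, `v` the system
`fun a => L a v` is stable on `cmp E' deg q`: from `stab_self` for `E'` (`Ctx sp O E' L`) by restriction (`y ∈ E ⊆ E'`, `a, a' ∈ cmp ..
⊆ E'`).
`exists_m`: for `a ∈ E'` and `v` there are `m` and a nonzero element of the lattice `L a v m`: `exists_occ`, `exists_pair`.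
-/

set_option autoImplicit false

noncomputable section

open CategoryTheory Bicategory

namespace Pool.Agent.WGT

open Pool.Agent.NFG

universe w₂ w₁ w₀ w

variable {K : Type w} [Field K] {B : Type w₀} [Bicategory.{w₂, w₁} B] [∀ a b : B, Preadditive (a ⟶ b)]
  [∀ a b : B, Linear K (a ⟶ b)] [AddBi B] [LinBi K B] {ι : B → B → Type} [∀ a b, Fintype (ι a b)]
  [∀ a b, DecidableEq (ι a b)] {O : Subring K}

/-- gauge transformation of a system -/
def gau {F : Fus K B ι} {X : B} (g : ∀ ⦃Y : B⦄, ι X Y → K) (L : F.Sys O X X) : F.Sys O X X := fun i _ j k => scl (g i * g j * (g k)⁻¹) (L i j k)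

theorem gau_int {F : Fus K B ι} {X : B} {E : Set (ι X X)} {L : F.Sys O X X} (hL : LInt F O E L) {g : ∀ ⦃Y : B⦄, ι X Y → K}
    (hg : ∀ ⦃Y : B⦄ (i : ι X Y), g i ≠ 0)
    (ho : IsU O (g (F.o X))) : LInt F O E (gau g L) := by
  refine ⟨?_, ?_, ?_, ?_⟩
  · intro y hy Y v m
    exact IsLat.scl (hL.lat y hy v m) (mul_ne_zero (mul_ne_zero (hg y) (hg v)) (inv_ne_zero (hg m)))
  · intro Y v
    have h1 : IsU O (g (F.o X) * g v * (g v)⁻¹) := by
      rw [mul_assoc, mul_inv_cancel₀ (hg v), mul_one]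
      exact ho
    change scl (g (F.o X) * g v * (g v)⁻¹) (L (F.o X) v v) = _
    rw [scl_unit h1]
    exact hL.unitL v
  · intro y hy
    have h1 : IsU O (g y * g (F.o X) * (g y)⁻¹) := by
      rw [mul_comm (g y), mul_assoc, mul_inv_cancel₀ (hg y), mul_one]
      exact ho
    change scl (g y * g (F.o X) * (g y)⁻¹) (L y (F.o X) y) = _
    rw [scl_unit h1]
    exact hL.unitR y hy
  · intro y hy y' hy' Y v
    funext m
    have hr : g y * g y' * g v * (g m)⁻¹ ≠ 0 :=
      mul_ne_zero (mul_ne_zero (mul_ne_zero (hg y) (hg y')) (hg v)) (inv_ne_zero (hg m))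
    have e1 : F.N1 (gau g L) y y' (fun k => gau g L k v) m
        = scl (g y * g y' * g v * (g m)⁻¹) (F.N1 L y y' (fun k => L k v) m) := by
      refine N1_scl (s := fun k => g y * g y' * (g k)⁻¹) (t := fun k => g k * g v * (g m)⁻¹) hr ?_ ?_ ?_ ?_ ?_
      · intro k
        exact mul_ne_zero (mul_ne_zero (hg y) (hg y')) (inv_ne_zero (hg k))
      · intro k
        exact mul_ne_zero (mul_ne_zero (hg k) (hg v)) (inv_ne_zero (hg m))
      · intro k
        rfl
      · intro k _
        rfl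
      · intro k _
        have h1 : g y * g y' * (g k)⁻¹ * (g k * g v * (g m)⁻¹) / (g y * g y' * g v * (g m)⁻¹) = 1 := by
          have a1 := hg y
          have a2 := hg y'
          have a3 := hg k
          have a4 := hg v
          have a5 := hg m
          field_simp
        rw [h1]
        exact isU_one
    have e2 : F.N2 (gau g L) y (gau g L y' v) m
        = scl (g y * g y' * g v * (g m)⁻¹) (F.N2 L y (L y' v) m) := by
      refine N2_scl (s := fun k => g y * g k * (g m)⁻¹) (t := fun k => g y' * g v * (g k)⁻¹) hr ?_ ?_ ?_ ?_ ?_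
      · intro k
        exact mul_ne_zero (mul_ne_zero (hg y) (hg k)) (inv_ne_zero (hg m))
      · intro k
        exact mul_ne_zero (mul_ne_zero (hg y') (hg v)) (inv_ne_zero (hg k))
      · intro k
        rfl
      · intro k
        rfl
      · intro k _ _
        have h1 : g y * g k * (g m)⁻¹ * (g y' * g v * (g k)⁻¹) / (g y * g y' * g v * (g m)⁻¹) = 1 := by
          have a1 := hg y
          have a2 := hg y'
          have a3 := hg k
          have a4 := hg v
          have a5 := hg m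
          field_simp
        rw [h1]
        exact isU_one
    rw [e1, e2, hL.assoc y hy y' hy' v]

theorem gau_gau {F : Fus K B ι} {X : B} {L : F.Sys O X X} {g g' : ∀ ⦃Y : B⦄, ι X Y → K} :
    gau g (gau g' L) = gau (fun Y i => g i * g' i) L := by
  funext i Y j k
  change scl (g i * g j * (g k)⁻¹) (scl (g' i * g' j * (g' k)⁻¹) (L i j k)) = scl (g i * g' i * (g j * g' j) * (g k * g' k)⁻¹) (L i j k)
  rw [scl_scl]
  congr 1
  rw [mul_inv]
  ring

theorem int_mono {F : Fus K B ι} {X : B} {E E' : Set (ι X X)} (h : E ⊆ E') {L : F.Sys O X X} (hL : LInt F O E' L) : LInt F O E L := by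
  exact ⟨fun y hy => hL.lat y (h hy), hL.unitL, fun y hy => hL.unitR y (h hy),
    fun y hy y' hy' _ v => hL.assoc y (h hy) y' (h hy') v⟩

theorem int_congr {F : Fus K B ι} {X : B} {E : Set (ι X X)} {L L' : F.Sys O X X} (h : ∀ y ∈ E, L' y = L y) (ho : (F.o X) ∈ E)
    (hmul : ∀ a ∈ E, ∀ b ∈ E, ∀ c, F.Occ a b c → c ∈ E) (hL : LInt F O E L) : LInt F O E L' := by
  refine ⟨?_, ?_, ?_, ?_⟩
  · intro y hy Y v m
    rw [h y hy]
    exact hL.lat y hy v m
  · intro Y v
    rw [h (F.o X) ho]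
    exact hL.unitL v
  · intro y hy
    rw [h y hy]
    exact hL.unitR y hy
  · intro y hy y' hy' Y v
    have e2 : F.N2 L' y (L' y' v) = F.N2 L y (L y' v) := by
      unfold Fus.N2
      rw [h y hy, h y' hy']
    have e1 : F.N1 L' y y' (fun k => L' k v) = F.N1 L y y' (fun k => L k v) := by
      have e3 : F.N1 L' y y' (fun k => L' k v) = F.N1 L y y' (fun k => L' k v) := by
        unfold Fus.N1
        rw [h y hy]
      rw [e3]
      funext m
      refine N1_congr ?_
      intro k hk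
      have hkE : k ∈ E := hmul y hy y' hy' k hk
      change L' k v m = L k v m
      rw [h k hkE]
    rw [e1, e2]
    exact hL.assoc y hy y' hy' v

theorem pre_of_int {F : Fus K B ι} {sp : Sph F} {X : B} (hO : Val O) (hd : ∀ {a b : B} (i : ι a b), IsU O (sp.d i)) {E E' : Set (ι X X)} {Q : Type}
    [Group Q] {deg : ι X X → Q} (hg : IsGr sp E E' Q deg) {L : F.Sys O X X} (hL : LInt F O E' L) : Pre sp O E E' deg L := by
  have hd' : ∀ {a b : B} (i : ι a b), sp.d i ≠ 0 := fun i => (hd i).1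
  have hc : Ctx sp O E' L := ⟨hO, hd, hg.sub, hL⟩
  refine ⟨⟨hO, hd, gr_sub hd' hg, int_mono (gr_le hg) hL⟩, hL.unitR, ?_⟩
  intro q Y v
  have hs := stab_self hc v
  refine ⟨?_, ?_⟩
  · intro a ha m
    exact hs.lat a ha.1 m
  · intro y hy a ha a' ha' b hb m m' f hf z hz
    exact hs.stab y (gr_le hg hy) a ha.1 a' ha'.1 b hb m m' f hf z hz

/-- gauge constants of a unit-normalised form -/
theorem gau_o {F : Fus K B ι} {sp : Sph F} {X : B} {L L' : F.Sys O X X} (h : L (F.o X) (F.o X) (F.o X) = Submodule.span O {F.lam (F.o X)})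
    (h' : L' (F.o X) (F.o X) (F.o X) = Submodule.span O {F.lam (F.o X)}) {c : K} (hc : c ≠ 0)
    (he : L' (F.o X) (F.o X) (F.o X) = scl c (L (F.o X) (F.o X) (F.o X))) : IsU O c := by
  have h1 : scl c (L (F.o X) (F.o X) (F.o X)) = scl 1 (L (F.o X) (F.o X) (F.o X)) := by
    rw [← he, h', scl_one, h]
  have hx : F.lam (F.o X) ≠ 0 := by
    intro h0
    have hid : 𝟙 (F.S (F.o X)) = 0 := by
      have h2 : F.lam (F.o X) ≫ ((F.u X).hom ▷ F.S (F.o X)) ≫ (λ_ (F.S (F.o X))).hom = 𝟙 (F.S (F.o X)) := by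
        unfold Fus.lam
        simp
      rw [← h2, h0, Limits.zero_comp]
    exact F.one_ne (F.o X) hid
  have hlat : IsLat O (L (F.o X) (F.o X) (F.o X)) := by
    rw [h]
    refine lat_span_singleton hx ?_
    intro x
    obtain ⟨c', hc'⟩ := F.schur (F.o X) (x ≫ ((F.u X).hom ▷ F.S (F.o X)) ≫ (λ_ (F.S (F.o X))).hom)
    refine ⟨c', ?_⟩
    have h3 : (x ≫ ((F.u X).hom ▷ F.S (F.o X)) ≫ (λ_ (F.S (F.o X))).hom) ≫ F.lam (F.o X) = x := by
      unfold Fus.lam
      simp
    rw [← h3, hc', Linear.smul_comp, Category.id_comp]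
  have h4 := scl_inj hlat hx hc one_ne_zero h1
  rwa [div_one] at h4

end Pool.Agent.WGT
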