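import Pool.Agent.WGT.Defs

/-!
# NFG/HatA: the calculus of `hat` and `hab`

All statements are coherence: unfold `hat`, `hab` and use `monoidal`, or `simp` with `whiskerRight_tensor`,
`associator_naturality_left/middle/right`, `pentagon`, `comp_whiskerRight`, `whiskerLeft_comp`.
Additivity and scalars: `wr_add`, `Preadditive.add_comp`, `wr_smul`,
`Linear.smul_comp`.
-/

set_option autoImplicit false
set_option linter.unusedSectionVars false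

noncomputable section

open CategoryTheory Bicategory

namespace Pool.Agent.WGT

open Pool.Agent.NFG

universe w₂ w₁ w₀ w

section

variable {B : Type w₀} [Bicategory.{w₂, w₁} B]

theorem hat_natural {p q r s : B} {A : p ⟶ r} {B : p ⟶ q} {D : q ⟶ r} {W W' : r ⟶ s} (x : A ⟶ B ≫ D) (g : W ⟶ W') :
    hat x W ≫ (B ◁ (D ◁ g)) = (A ◁ g) ≫ hat x W' := by
  simp only [hat]
  rw [Category.assoc, ← associator_naturality_right, ← Category.assoc, ← whisker_exchange, Category.assoc]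

theorem hab_natural {p q r s : B} {A : p ⟶ r} {B : p ⟶ q} {D : q ⟶ r} {W W' : r ⟶ s} (b : B ≫ D ⟶ A) (g : W ⟶ W') :
    (B ◁ (D ◁ g)) ≫ hab b W' = hab b W ≫ (A ◁ g) := by
  simp only [hab]
  rw [associator_inv_naturality_right_assoc, Category.assoc, whisker_exchange]

theorem hat_hab {p q r s : B} {A A' : p ⟶ r} {B : p ⟶ q} {D : q ⟶ r} (x : A ⟶ B ≫ D) (b : B ≫ D ⟶ A') (W : r ⟶ s) : hat x W ≫ hab b W = (x ≫ b) ▷ W := by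
  simp only [hat, hab]
  simp

theorem hab_hat {p q q' r s : B} {A : p ⟶ r} {B : p ⟶ q} {D : q ⟶ r} {B' : p ⟶ q'} {D' : q' ⟶ r} (b : B ≫ D ⟶ A) (x : A ⟶ B' ≫ D') (W : r ⟶ s) :
    hab b W ≫ hat x W = (α_ B D W).inv ≫ ((b ≫ x) ▷ W) ≫ (α_ B' D' W).hom := by
  simp only [hat, hab]
  simp

theorem comp_hat {p q r s : B} {A' A : p ⟶ r} {B : p ⟶ q} {D : q ⟶ r} (f : A' ⟶ A) (x : A ⟶ B ≫ D) (W : r ⟶ s) : hat (f ≫ x) W = (f ▷ W) ≫ hat x W := by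
  simp only [hat]
  simp

theorem hab_comp {p q r s : B} {A' A : p ⟶ r} {B : p ⟶ q} {D : q ⟶ r} (b : B ≫ D ⟶ A) (f : A ⟶ A') (W : r ⟶ s) : hab (b ≫ f) W = hab b W ≫ (f ▷ W) := by
  simp only [hab]
  simp

/-- P4 -/
theorem hat_hat_hab {p q r s t : B} {A : p ⟶ q} {Y : q ⟶ r} {K : p ⟶ r} {B : r ⟶ s} {K' : p ⟶ s} {B' : q ⟶ s} {Z : s ⟶ t} (x' : K' ⟶ K ≫ B) (x : K ⟶ A ≫ Y) (b : Y ≫ B ⟶ B') :
    hat x' Z ≫ hat x (B ≫ Z) ≫ (A ◁ hab b Z) = hat (x' ≫ hat x B ≫ (A ◁ b)) Z := by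
  simp only [hat, hab]
  bicategory

/-- P2 -/
theorem hat_hab_hab {p q r s t : B} {B' : p ⟶ q} {B : q ⟶ r} {K : p ⟶ r} {D : r ⟶ s} {A : q ⟶ s} {A' : p ⟶ s} {W : s ⟶ t} (x : K ⟶ B' ≫ B) (b : B ≫ D ⟶ A) (b' : B' ≫ A ⟶ A') :
    hat x (D ≫ W) ≫ (B' ◁ hab b W) ≫ hab b' W = hab (hat x D ≫ (B' ◁ b) ≫ b') W := by
  simp only [hat, hab]
  bicategory

/-- P3 -/
theorem hab_hat_mid {p q r s t : B} {Y' : p ⟶ q} {A : q ⟶ r} {Y : r ⟶ s} {K : q ⟶ s} {K' : p ⟶ s} {A' : p ⟶ r} {Z : s ⟶ t} (β : Y' ≫ K ⟶ K') (w : K' ⟶ Y' ≫ K) (x : K ⟶ A ≫ Y) (b : Y' ≫ A ⟶ A') :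
    hab β Z ≫ hat (w ≫ (Y' ◁ x) ≫ hab b Y) Z =
      ((α_ Y' K Z).inv ≫ ((β ≫ w) ▷ Z) ≫ (α_ Y' K Z).hom) ≫ (Y' ◁ hat x Z) ≫ hab b (Y ≫ Z) := by
  simp only [hat, hab]
  bicategory

/-- the map `Hom (A'', A ≫ (Y ≫ Y')) ⟶ Hom (A'' ≫ Z, A ≫ (Y ≫ (Y' ≫ Z)))` -/
def th {p q r s t : B} {A : p ⟶ q} {Y : q ⟶ r} {Y' : r ⟶ s} {A'' : p ⟶ s} (h : A'' ⟶ A ≫ (Y ≫ Y')) (Z : s ⟶ t) : A'' ≫ Z ⟶ A ≫ (Y ≫ (Y' ≫ Z)) :=
  hat h Z ≫ (A ◁ (α_ Y Y' Z).hom)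

theorem th_comp {p q r s t : B} {A : p ⟶ q} {Y : q ⟶ r} {Y' : r ⟶ s} {A'' : p ⟶ s} {A' : q ⟶ s} (f : A'' ⟶ A ≫ A') (l : A' ⟶ Y ≫ Y') (Z : s ⟶ t) :
    th (f ≫ (A ◁ l)) Z = hat f Z ≫ (A ◁ hat l Z) := by
  simp only [th, hat]
  bicategory

theorem th_hat {p q r s t : B} {A : p ⟶ q} {Y : q ⟶ r} {Y' : r ⟶ s} {A'' : p ⟶ s} {A' : p ⟶ r} (x' : A'' ⟶ A' ≫ Y') (x : A' ⟶ A ≫ Y) (Z : s ⟶ t) :
    th (x' ≫ hat x Y') Z = hat x' Z ≫ hat x (Y' ≫ Z) := by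
  simp only [th, hat]
  bicategory

end

section

variable {K : Type w} [Field K] {B : Type w₀} [Bicategory.{w₂, w₁} B] [∀ a b : B, Preadditive (a ⟶ b)]
  [∀ a b : B, Linear K (a ⟶ b)] [AddBi B] [LinBi K B]

theorem hat_add {p q r s : B} {A : p ⟶ r} {B : p ⟶ q} {D : q ⟶ r} (x y : A ⟶ B ≫ D) (W : r ⟶ s) : hat (x + y) W = hat x W + hat y W := by
  simp only [hat, wr_add, Preadditive.add_comp]

theorem hat_smul {p q r s : B} {A : p ⟶ r} {B : p ⟶ q} {D : q ⟶ r} (c : K) (x : A ⟶ B ≫ D) (W : r ⟶ s) : hat (c • x) W = c • hat x W := by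
  simp only [hat, wr_smul, Linear.smul_comp]

theorem hat_zero {p q r s : B} {A : p ⟶ r} {B : p ⟶ q} {D : q ⟶ r} (W : r ⟶ s) : hat (0 : A ⟶ B ≫ D) W = 0 := by
  simp only [hat, wr_zero, Limits.zero_comp]

theorem hab_add {p q r s : B} {A : p ⟶ r} {B : p ⟶ q} {D : q ⟶ r} (x y : B ≫ D ⟶ A) (W : r ⟶ s) : hab (x + y) W = hab x W + hab y W := by
  simp only [hab, wr_add, Preadditive.comp_add]

theorem hab_smul {p q r s : B} {A : p ⟶ r} {B : p ⟶ q} {D : q ⟶ r} (c : K) (x : B ≫ D ⟶ A) (W : r ⟶ s) : hab (c • x) W = c • hab x W := by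
  simp only [hab, wr_smul, Linear.comp_smul]

theorem hab_zero {p q r s : B} {A : p ⟶ r} {B : p ⟶ q} {D : q ⟶ r} (W : r ⟶ s) : hab (0 : B ≫ D ⟶ A) W = 0 := by
  simp only [hab, wr_zero, Limits.comp_zero]

theorem th_add {p q r s t : B} {A : p ⟶ q} {Y : q ⟶ r} {Y' : r ⟶ s} {A'' : p ⟶ s} (x y : A'' ⟶ A ≫ (Y ≫ Y')) (Z : s ⟶ t) : th (x + y) Z = th x Z + th y Z := by
  simp only [th, hat_add, Preadditive.add_comp]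

theorem th_smul {p q r s t : B} {A : p ⟶ q} {Y : q ⟶ r} {Y' : r ⟶ s} {A'' : p ⟶ s} (c : K) (x : A'' ⟶ A ≫ (Y ≫ Y')) (Z : s ⟶ t) : th (c • x) Z = c • th x Z := by
  simp only [th, hat_smul, Linear.smul_comp]

theorem th_zero {p q r s t : B} {A : p ⟶ q} {Y : q ⟶ r} {Y' : r ⟶ s} {A'' : p ⟶ s} (Z : s ⟶ t) : th (0 : A'' ⟶ A ≫ (Y ≫ Y')) Z = 0 := by
  simp only [th, hat_zero, Limits.zero_comp]

/-- scalars pull out of whiskering: `z ≫ (Y ◁ (c • f)) = c • (z ≫ (Y ◁ f))` -/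
theorem comp_whisker_smul {p q r : B} {Y : p ⟶ q} {B D : q ⟶ r} {A : p ⟶ r} (z : A ⟶ Y ≫ B) (c : K) (f : B ⟶ D) :
    z ≫ (Y ◁ (c • f)) = c • (z ≫ (Y ◁ f)) := by
  rw [wl_smul, Linear.comp_smul]

end

end Pool.Agent.WGT
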