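import Pool.Agent.WGT.Uf
import Pool.Agent.WGT.Gau
import Pool.Agent.WGT.StC

/-!
# WGT/M1: extension of an `E`-form to `E'`, one factor
-/

set_option autoImplicit false

noncomputable section

open CategoryTheory Bicategory

namespace Pool.Agent.WGT

open Pool.Agent.NFG

universe w₂ w₁ w₀ w

variable {K : Type w} [Field K] {B : Type w₀} [Bicategory.{w₂, w₁} B] [∀ a b : B, Preadditive (a ⟶ b)]
  [∀ a b : B, Linear K (a ⟶ b)] [AddBi B] [LinBi K B] {ι : B → B → Type} [∀ a b, Fintype (ι a b)]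
  [∀ a b, DecidableEq (ι a b)] {O : Subring K}

theorem exists_pre {F : Fus K B ι} {sp : Sph F} {X : B} {E E' : Set (ι X X)} {Q : Type} [Group Q] {deg : ι X X → Q}
    (hg : IsGr sp E E' Q deg) {L : F.Sys O X X} (h : Ctx sp O E L) : ∃ L' : F.Sys O X X, Pre sp O E E' deg L' := by
  classical
  have hd : ∀ {a b : B} (i : ι a b), sp.d i ≠ 0 := fun i => (h.du i).1
  have hex : ∀ (q : Q) (s : Σ Y : B, ι X Y), ∃ n : ∀ a : ι X X, F.Fam O (F.S a ≫ F.S s.2),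
      Stab F E L (cmp E' deg q) n ∧
      (q = 1 → n = fun a => L a s.2) ∧
      (q ≠ 1 → ∀ h : (⟨X, F.o X⟩ : Σ Y : B, ι X Y) = s, n = h ▸ (fun a : ι X X => F.rf O a)) := by
    intro q v
    by_cases hq : q = 1
    · subst hq
      refine ⟨fun a => L a v.2, ?_, fun _ => rfl, fun h => absurd rfl h⟩
      rw [cmp_one hg]
      exact stab_self h v.2
    · by_cases hv : (⟨X, F.o X⟩ : Σ Y : B, ι X Y) = v
      · subst hv
        exact ⟨fun a => F.rf O a, stab_rf, fun e => absurd e hq, fun _ _ => rfl⟩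
      · obtain ⟨n, hn⟩ := exists_stab h (gr_orb hd hg q) (F.S v.2)
        exact ⟨n, hn, fun e => absurd e hq, fun _ e => absurd e hv⟩
  choose n hn1 hn2 hn3 using hex
  obtain ⟨L', hL'⟩ : ∃ L' : F.Sys O X X, ∀ (a : ι X X) (s : Σ Y : B, ι X Y),
      L' a s.2 = if a ∈ E' then n (deg a) s a else L a s.2 :=
    ⟨fun a Y v => if a ∈ E' then n (deg a) ⟨Y, v⟩ a else L a v, fun _ _ => rfl⟩
  have hE : ∀ a ∈ E, L' a = L a := by
    intro a ha
    obtain ⟨h1, h2⟩ := (hg.ker a).1 ha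
    funext Y v
    rw [hL' a ⟨Y, v⟩, if_pos h1, hn2 (deg a) ⟨Y, v⟩ h2]
  refine ⟨L', ⟨⟨h.val, h.du, h.sub, int_congr hE h.sub.one h.sub.mul h.int⟩, ?_, ?_⟩⟩
  · intro a ha
    by_cases h1 : deg a = 1
    · have h2 : a ∈ E := (hg.ker a).2 ⟨ha, h1⟩
      rw [hE a h2]
      exact h.int.unitR a h2
    · rw [hL' a ⟨X, F.o X⟩, if_pos ha, hn3 (deg a) ⟨X, F.o X⟩ h1 rfl]
      exact rf_self F a
  · intro q Y v
    refine stab_congr hE ?_ (hn1 q ⟨Y, v⟩)
    rintro a ⟨ha, rfl⟩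
    show L' a v = n (deg a) ⟨Y, v⟩ a
    rw [hL' a ⟨Y, v⟩, if_pos ha]

end Pool.Agent.WGT
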