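import Pool.Agent.WGT.Gau

/-!
# WGT/M2a: `N1 L a b (fun k => L k v)` is stable in `a`
-/

set_option autoImplicit false

noncomputable section

open CategoryTheory Bicategory

namespace Pool.Agent.WGT

open Pool.Agent.NFG

universe w₂ w₁ w₀ w

variable {K : Type w} [Field K] {B : Type w₀} [Bicategory.{w₂, w₁} B] [∀ a b : B, Preadditive (a ⟶ b)]
  [∀ a b : B, Linear K (a ⟶ b)] [AddBi B] [LinBi K B] {ι : B → B → Type} [∀ a b, Fintype (ι a b)]
  [∀ a b, DecidableEq (ι a b)] {O : Subring K}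

/-- the condition on `f` in the stability -/
private def stP {F : Fus K B ι} {X Y T : B} {y : ι X Y} {m : ι Y T} {m' : ι X T} {W : Y ⟶ T} {Z : X ⟶ T}
    (z : F.S m' ⟶ F.S y ≫ F.S m) (t : F.S y ≫ W ⟶ Z)
    (P : Submodule O (F.S m' ⟶ Z)) : Submodule O (F.S m ⟶ W) where
  carrier := {f | z ≫ (F.S y ◁ f) ≫ t ∈ P}
  add_mem' := by
    intro f f' hf hf'
    show z ≫ (F.S y ◁ (f + f')) ≫ t ∈ P
    rw [wl_add, Preadditive.add_comp, Preadditive.comp_add]
    exact P.add_mem hf hf'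
  zero_mem' := by
    show z ≫ (F.S y ◁ (0 : F.S m ⟶ W)) ≫ t ∈ P
    rw [wl_zero, Limits.zero_comp, Limits.comp_zero]
    exact P.zero_mem
  smul_mem' := by
    intro c f hf
    have h1 : (c • f : F.S m ⟶ W) = (c : K) • f := rfl
    show z ≫ (F.S y ◁ (c • f)) ≫ t ∈ P
    rw [h1, wl_smul, Linear.smul_comp, Linear.comp_smul]
    exact P.smul_mem c hf

private theorem hat_zero' {p q r s : B} {A : p ⟶ r} {Y : p ⟶ q} {D : q ⟶ r} (W : r ⟶ s) :
    hat (0 : A ⟶ Y ≫ D) W = 0 := by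
  unfold hat
  rw [wr_zero, Limits.zero_comp]

theorem stab_N1 {F : Fus K B ι} {sp : Sph F} {X : B} {E E' : Set (ι X X)} {Q : Type} [Group Q] {deg : ι X X → Q}
    (hg : IsGr sp E E' Q deg) {L : F.Sys O X X} (h : Pre sp O E E' deg L) (q : Q) {b : ι X X} (hb : b ∈ E') {Y : B} (v : ι X Y) :
    Stab F E L (cmp E' deg q) (fun a => F.N1 L a b (fun k => L k v)) := by
  refine ⟨?_, ?_⟩
  · intro a ha m
    refine lat_N1 h.ctx.val (fun k => (h.st q b).lat a ha k) fun k hk => ?_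
    exact (h.st (deg k) v).lat k ⟨hg.sub.mul a ha.1 b hb k hk, rfl⟩ m
  · intro y hy a ha a' ha' β hβ m m' f hf z hz
    have hyE := (hg.ker y).1 hy
    have key : F.N1 L a b (fun k => L k v) m ≤ stP z (hab β (F.S b ≫ F.S v))
        (F.N1 L a' b (fun k => L k v) m') := by
      refine N1_le ?_
      intro k x f₀ hx hf₀
      show z ≫ (F.S y ◁ (f₀ ≫ hat x (F.S v))) ≫ hab β (F.S b ≫ F.S v) ∈ F.N1 L a' b (fun k => L k v) m'
      by_cases hx0 : x = 0
      · rw [hx0, hat_zero', Limits.comp_zero, wl_zero, Limits.zero_comp,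
          Limits.comp_zero]
        exact Submodule.zero_mem _
      have hok : F.Occ a b k := ⟨x, hx0⟩
      have hkE : k ∈ E' := hg.sub.mul a ha.1 b hb k hok
      obtain ⟨N, w, g, hw, hgd, -, hs⟩ := latdec F (fun k' => L y k k') (fun k' => h.ctx.int.lat y hy k k')
      have e1 : (F.S y ◁ hat x (F.S v)) ≫ hab β (F.S b ≫ F.S v) =
          ∑ k', ∑ i, hab (g k' i) (F.S v) ≫ hat (w k' i ≫ (F.S y ◁ x) ≫ hab β (F.S b)) (F.S v) := by
        have e2 : ∀ k' i, hab (g k' i) (F.S v) ≫ hat (w k' i ≫ (F.S y ◁ x) ≫ hab β (F.S b)) (F.S v) =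
            (α_ (F.S y) (F.S k) (F.S v)).inv ≫ ((g k' i ≫ w k' i) ▷ F.S v) ≫
              ((α_ (F.S y) (F.S k) (F.S v)).hom ≫ (F.S y ◁ hat x (F.S v)) ≫ hab β (F.S b ≫ F.S v)) := by
          intro k' i
          rw [hab_hat_mid, Category.assoc, Category.assoc]
        simp only [e2]
        have e3 : (F.S y ◁ hat x (F.S v)) ≫ hab β (F.S b ≫ F.S v) =
            (α_ (F.S y) (F.S k) (F.S v)).inv ≫ ((𝟙 (F.S y ≫ F.S k)) ▷ F.S v) ≫
              ((α_ (F.S y) (F.S k) (F.S v)).hom ≫ (F.S y ◁ hat x (F.S v)) ≫ hab β (F.S b ≫ F.S v)) := by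
          rw [Bicategory.id_whiskerRight, Category.id_comp, Iso.inv_hom_id_assoc]
        rw [← hs] at e3
        rw [wr_sum, Preadditive.sum_comp, Preadditive.comp_sum] at e3
        refine e3.trans (Finset.sum_congr rfl fun k' _ => ?_)
        rw [wr_sum, Preadditive.sum_comp, Preadditive.comp_sum]
      rw [Bicategory.whiskerLeft_comp, Category.assoc, e1, Preadditive.comp_sum, Preadditive.comp_sum]
      refine Submodule.sum_mem _ fun k' _ => ?_
      rw [Preadditive.comp_sum, Preadditive.comp_sum]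
      refine Submodule.sum_mem _ fun i _ => ?_
      by_cases hw0 : w k' i = 0
      · rw [hw0, Limits.zero_comp, hat_zero', Limits.comp_zero, Limits.comp_zero, Limits.comp_zero]
        exact Submodule.zero_mem _
      · have hok' : F.Occ y k k' := ⟨w k' i, hw0⟩
        have hk'E : k' ∈ E' := hg.sub.mul y hyE.1 k hkE k' hok'
        have hdeg : deg k' = deg k := by rw [hg.mul y hyE.1 k hkE k' hok', hyE.2, one_mul]
        have m1 : w k' i ≫ (F.S y ◁ x) ≫ hab β (F.S b) ∈ L a' b k' :=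
          (h.st q b).stab y hy a ha a' ha' β hβ k k' x hx (w k' i) (hw k' i)
        have m2 : z ≫ (F.S y ◁ f₀) ≫ hab (g k' i) (F.S v) ∈ L k' v m' :=
          (h.st (deg k) v).stab y hy k ⟨hkE, rfl⟩ k' ⟨hk'E, hdeg⟩ (g k' i) (hgd k' i) m m' f₀ hf₀ z hz
        have m3 := mem_N1 (F := F) (L := L) (n := fun k => L k v) m1 m2
        rw [Category.assoc, Category.assoc] at m3
        exact m3
    exact key hf

end Pool.Agent.WGT
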