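import Pool.Agent.WGT.M2c

/-!
# WGT/M2d: normalisation on the right
-/

set_option autoImplicit false

noncomputable section

open CategoryTheory Bicategory

namespace Pool.Agent.WGT

open Pool.Agent.NFG

universe w₂ w₁ w₀ w

variable {K : Type w} [Field K] {B : Type w₀} [Bicategory.{w₂, w₁} B] [∀ a b : B, Preadditive (a ⟶ b)]
  [∀ a b : B, Linear K (a ⟶ b)] [AddBi B] [LinBi K B] {ι : B → B → Type} [∀ a b, Fintype (ι a b)]
  [∀ a b, DecidableEq (ι a b)] {O : Subring K}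

open scoped Classical in
/-- the rescaled system -/
private def mdL {F : Fus K B ι} {X : B} {Q : Type} (E : Set (ι X X)) (deg : ι X X → Q) (g : Q → ∀ ⦃Y : B⦄, ι X Y → K) (L : F.Sys O X X) : F.Sys O X X :=
  fun a _ v m => if a ∈ E then L a v m else scl (g (deg a) v)⁻¹ (L a v m)

private theorem mdL_in {F : Fus K B ι} {X : B} {Q : Type} {E : Set (ι X X)} {deg : ι X X → Q} {g : Q → ∀ ⦃Y : B⦄, ι X Y → K} {L : F.Sys O X X} {a : ι X X}
    (ha : a ∈ E) : mdL E deg g L a = L a := by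
  funext Y v m
  exact if_pos ha

private theorem mdL_out {F : Fus K B ι} {X : B} {Q : Type} {E : Set (ι X X)} {deg : ι X X → Q} {g : Q → ∀ ⦃Y : B⦄, ι X Y → K} {L : F.Sys O X X} {a : ι X X}
    (ha : a ∉ E) {Y : B} (v m : ι X Y) : mdL E deg g L a v m = scl (g (deg a) v)⁻¹ (L a v m) := if_neg ha

theorem exists_mid [IsAlgClosed K] {F : Fus K B ι} {sp : Sph F} {X : B} {E E' : Set (ι X X)} {Q : Type} [Group Q] {deg : ι X X → Q}
    (hg : IsGr sp E E' Q deg) (hu : Uniq F O E) {L : F.Sys O X X} (h : Pre sp O E E' deg L) :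
    ∃ L' : F.Sys O X X, Pre sp O E E' deg L' ∧
      ∀ a ∈ E', ∀ y ∈ E, ∀ ⦃Y : B⦄ (v : ι X Y), F.N1 L' a y (fun k => L' k v) = F.N2 L' a (L' y v) := by
  have hE : IsSub sp E := h.ctx.sub
  have hA : ∀ q : Q, ∃ a, a ∈ cmp E' deg q := fun q => by
    obtain ⟨a, ha, hd⟩ := hg.surj q
    exact ⟨a, ha, hd⟩
  choose A hA using hA
  have hex : ∀ q : Q, ∃ g : ∀ ⦃Y : B⦄, ι X Y → K, (∀ ⦃Y : B⦄ (i : ι X Y), g i ≠ 0) ∧
      ∀ y ∈ E, ∀ ⦃Y : B⦄ (v m : ι X Y), lq L (A q) y v m = scl (g y * g v * (g m)⁻¹) (L y v m) := fun q => by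
    obtain ⟨g, h1, h2⟩ := hu L (lq L (A q)) h.ctx.int (lq_int hg h (hA q))
    exact ⟨g, fun Y i => h1 Y i, fun y hy Y v m => h2 y hy v m⟩
  choose g hg0 hgs using hex
  have hgo : ∀ q, IsU O (g q (F.o X)) := by
    intro q
    have h1 := hgs q (F.o X) hE.one (F.o X) (F.o X)
    rw [mul_assoc, mul_inv_cancel₀ (hg0 q (F.o X)), mul_one] at h1
    exact gau_o (sp := sp) (h.ctx.int.unitL (F.o X)) ((lq_int hg h (hA q)).unitL (F.o X)) (hg0 q (F.o X)) h1
  have hin : ∀ y ∈ E, mdL E deg g L y = L y := fun y hy => mdL_in hy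
  have hctx : Ctx sp O E (mdL E deg g L) :=
    ⟨h.ctx.val, h.ctx.du, hE, int_congr hin hE.one hE.mul h.ctx.int⟩
  have hpre : Pre sp O E E' deg (mdL E deg g L) := by
    refine ⟨hctx, fun a ha => ?_, fun q Y v => ?_⟩
    · by_cases haE : a ∈ E
      · rw [mdL_in haE]
        exact h.uR a ha
      · rw [mdL_out haE, scl_unit (hgo (deg a)).inv]
        exact h.uR a ha
    · by_cases hq : q = 1
      · refine stab_congr (L := L) (n := fun a => L a v) hin (fun a ha => ?_) (h.st q v)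
        have haE : a ∈ E := (hg.ker a).2 ⟨ha.1, ha.2.trans hq⟩
        show mdL E deg g L a v = L a v
        rw [mdL_in haE]
      · refine stab_congr (L := L) (n := fun a m => scl (g q v)⁻¹ (L a v m)) hin (fun a ha => ?_)
          (stab_scl (h.st q v) (inv_ne_zero (hg0 q v)))
        have haE : a ∉ E := fun h1 => hq (ha.2.symm.trans ((hg.ker a).1 h1).2)
        funext m
        show mdL E deg g L a v m = scl (g q v)⁻¹ (L a v m)
        rw [mdL_out haE, ha.2]
  refine ⟨mdL E deg g L, hpre, fun a ha y hy Y v => ?_⟩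
  by_cases haE : a ∈ E
  · exact hctx.int.assoc a haE y hy v
  · have hyE := (hg.ker y).1 hy
    obtain ⟨q, hq⟩ : ∃ q, q = deg a := ⟨_, rfl⟩
    have hq1 : q ≠ 1 := fun h1 => haE ((hg.ker a).2 ⟨ha, hq.symm.trans h1⟩)
    have hac : a ∈ cmp E' deg q := ⟨ha, hq.symm⟩
    funext m
    have hr : (g q y)⁻¹ * (g q v)⁻¹ ≠ 0 := mul_ne_zero (inv_ne_zero (hg0 q y)) (inv_ne_zero (hg0 q v))
    have h1 : F.N1 (mdL E deg g L) a y (fun k => mdL E deg g L k v) m =
        scl ((g q y)⁻¹ * (g q v)⁻¹) (F.N1 L a y (fun k => L k v) m) := by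
      refine N1_scl (s := fun _ => (g q y)⁻¹) (t := fun _ => (g q v)⁻¹) hr (fun _ => inv_ne_zero (hg0 q y))
        (fun _ => inv_ne_zero (hg0 q v)) (fun a' => ?_) (fun a' ho => ?_) (fun a' _ => ?_)
      · rw [mdL_out haE, hq]
      · have ha'E : a' ∉ E := fun h2 => by
          have h3 := hg.mul a ha y hyE.1 a' ho
          rw [((hg.ker a').1 h2).2, hyE.2, mul_one, ← hq] at h3
          exact hq1 h3.symm
        have hd' : deg a' = q := by
          rw [hg.mul a ha y hyE.1 a' ho, hyE.2, mul_one, hq]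
        show mdL E deg g L a' v m = scl (g q v)⁻¹ (L a' v m)
        rw [mdL_out ha'E, hd']
      · rw [div_self hr]
        exact isU_one
    have h2 : F.N2 (mdL E deg g L) a (mdL E deg g L y v) m =
        scl ((g q y)⁻¹ * (g q v)⁻¹) (F.N2 L a (lq L a y v) m) := by
      refine N2_scl (s := fun m' => (g q m')⁻¹) (t := fun m' => (g q y * g q v * (g q m')⁻¹)⁻¹) hr
        (fun m' => inv_ne_zero (hg0 q m'))
        (fun m' => inv_ne_zero (mul_ne_zero (mul_ne_zero (hg0 q y) (hg0 q v)) (inv_ne_zero (hg0 q m'))))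
        (fun m' => ?_) (fun m' => ?_) (fun m' _ _ => ?_)
      · rw [mdL_out haE, hq]
      · rw [mdL_in hy, lq_indep hg h hac (hA q) hyE.1 v, hgs q y hy v m', scl_scl, inv_mul_cancel₀, scl_one]
        exact mul_ne_zero (mul_ne_zero (hg0 q y) (hg0 q v)) (inv_ne_zero (hg0 q m'))
      · have h3 : (g q m')⁻¹ * (g q y * g q v * (g q m')⁻¹)⁻¹ / ((g q y)⁻¹ * (g q v)⁻¹) = 1 := by
          have h4 := hg0 q m'
          have h5 := hg0 q y
          have h6 := hg0 q v
          field_simp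
        rw [h3]
        exact isU_one
    rw [h1, h2, lq_spec hg h hac hyE.1 v]

end Pool.Agent.WGT
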