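import Pool.Agent.WGT.M2b

/-!
# WGT/M3a: `lq L a b v` is stable in `b`

`h2` is the normalisation on the right.  Let `a ∈ cmp E' deg q`.  Claim: `fun b => lq L a b v` is stable on `cmp E' deg q' ≫ S v`.

Lattices: `lq_lat`.
Stability: `y ∈ E`, `b, b' ∈ cmp E' deg q'`, `β ∈ dl (L y b b')`, `l ∈ lq L a b v w`, `z ∈ L y w w'`.  To show
`z ≫ (S y ◁ l) ≫ hab β (S v) ∈ lq L a b' v w' = ql L a (N1 L a b' ..) w'`: let `f ∈ L a w' m`.
(1) `f ≫ (S a ◁ z) ∈ N2 L a (L y w) m = N1 L a y (fun k => L k w) m` (`mem_N2`, `h2`); by `N1_le` replace it by `f' ≫ hat x (S w)`,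
`x ∈ L a y k`, `f' ∈ L k w m`, (`x ≠ 0`, so `k ∈ cmp E' deg q`).
(2) `f' ≫ hat x (S w) ≫ (S a ◁ (S y ◁ l)) = f' ≫ (S k ◁ l) ≫ hat x (S b ≫ S v)` (`hat_natural`); `l ∈ lq L k b v w` (`lq_indep`), so
`f' ≫ (S k ◁ l) ∈ N1 L k b (fun c => L c v) m`; replace it by `f'' ≫ hat x' (S v)`, `x' ∈ L k b c`, `f'' ∈ L c v m`.
(3) `f'' ≫ hat x' (S v) ≫ hat x (S b ≫ S v) ≫ (S a ◁ hab β (S v)) = f'' ≫ hat (x' ≫ hat x (S b) ≫ (S a ◁ β)) (S v)`
(`hat_hat_hab`, P4).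
(4) `x' ≫ hat x (S b) ∈ N1 L a y (fun k => L k b) c = N2 L a (L y b) c` (`h2` with `v := b`), and `≫ (S a ◁ β)` is in `L a b' c`
(`N2_dl`).  So the result is in `N1 L a b' (fun c => L c v) m` (`mem_N1`).
-/

set_option autoImplicit false

noncomputable section

open CategoryTheory Bicategory

namespace Pool.Agent.WGT

open Pool.Agent.NFG

universe w₂ w₁ w₀ w

variable {K : Type w} [Field K] {B : Type w₀} [Bicategory.{w₂, w₁} B] [∀ a b : B, Preadditive (a ⟶ b)]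
  [∀ a b : B, Linear K (a ⟶ b)] [AddBi B] [LinBi K B] {ι : B → B → Type} [∀ a b, Fintype (ι a b)]
  [∀ a b, DecidableEq (ι a b)] {O : Subring K}

/-- the morphisms whose composite with `g` is in `N` -/
private def post {p q : B} {X Y Z : p ⟶ q} (N : Submodule O (X ⟶ Z)) (g : Y ⟶ Z) : Submodule O (X ⟶ Y) where
  carrier := {h | h ≫ g ∈ N}
  add_mem' := by
    intro a b ha hb
    change (a + b) ≫ g ∈ N
    rw [Preadditive.add_comp]
    exact N.add_mem ha hb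
  zero_mem' := by
    change (0 : X ⟶ Y) ≫ g ∈ N
    rw [Limits.zero_comp]
    exact N.zero_mem
  smul_mem' := by
    intro c a ha
    change ((c : K) • a) ≫ g ∈ N
    rw [Linear.smul_comp]
    exact N.smul_mem c ha

theorem stab_lq {F : Fus K B ι} {sp : Sph F} {X : B} {E E' : Set (ι X X)} {Q : Type} [Group Q] {deg : ι X X → Q}
    (hg : IsGr sp E E' Q deg) {L : F.Sys O X X} (h : Pre sp O E E' deg L)
    (h2 : ∀ a ∈ E', ∀ y ∈ E, ∀ ⦃Y : B⦄ (v : ι X Y), F.N1 L a y (fun k => L k v) = F.N2 L a (L y v)) {q : Q} {a : ι X X}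
    (ha : a ∈ cmp E' deg q) (q' : Q) {Y : B} (v : ι X Y) : Stab F E L (cmp E' deg q') (fun b => lq L a b v) := by
  refine ⟨fun b hb m => lq_lat hg h ha hb.1 v m, ?_⟩
  intro y hy b hb b' hb' β hβ w w' l hl z hz m f hf
  have hyE : y ∈ E' ∧ deg y = 1 := (hg.ker y).1 hy
  set N := F.N1 L a b' (fun k => L k v) m with hN
  have h1 : f ≫ (F.S a ◁ z) ∈ F.N1 L a y (fun k => L k w) m := by
    rw [h2 a ha.1 y hy w]
    exact mem_N2 hf hz
  have h3 : F.N1 L a y (fun k => L k w) m ≤ post N (F.S a ◁ ((F.S y ◁ l) ≫ hab β (F.S v))) := by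
    refine N1_le fun k x f' hx hf' => ?_
    change (f' ≫ hat x (F.S w)) ≫ (F.S a ◁ ((F.S y ◁ l) ≫ hab β (F.S v))) ∈ N
    by_cases hx0 : x = 0
    · rw [hx0, hat_zero, Limits.comp_zero, Limits.zero_comp]
      exact Submodule.zero_mem _
    have hocc : F.Occ a y k := ⟨x, hx0⟩
    have hk : k ∈ cmp E' deg q := by
      refine ⟨hg.sub.mul a ha.1 y hyE.1 k hocc, ?_⟩
      rw [hg.mul a ha.1 y hyE.1 k hocc, ha.2, hyE.2, mul_one]
    have h4 : l ∈ lq L k b v w := by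
      rw [← lq_indep hg h ha hk hb.1 v]
      exact hl
    have h5 : f' ≫ (F.S k ◁ l) ∈ F.N1 L k b (fun c => L c v) m := h4 m f' hf'
    have h6 : F.N1 L k b (fun c => L c v) m ≤
        post N (hat x (F.S b ≫ F.S v) ≫ (F.S a ◁ hab β (F.S v))) := by
      refine N1_le fun c x' f'' hx' hf'' => ?_
      change (f'' ≫ hat x' (F.S v)) ≫ hat x (F.S b ≫ F.S v) ≫ (F.S a ◁ hab β (F.S v)) ∈ N
      rw [Category.assoc, hat_hat_hab]
      refine mem_N1 ?_ hf''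
      have h7 : x' ≫ hat x (F.S b) ∈ F.N2 L a (L y b) c := by
        rw [← h2 a ha.1 y hy b]
        exact mem_N1 hx hx'
      have h8 := N2_dl h7 hβ
      rw [Category.assoc] at h8
      exact h8
    have h9 : (f' ≫ (F.S k ◁ l)) ≫ hat x (F.S b ≫ F.S v) ≫ (F.S a ◁ hab β (F.S v)) ∈ N := h6 h5
    rw [Bicategory.whiskerLeft_comp]
    have h10 : (f' ≫ hat x (F.S w)) ≫ (F.S a ◁ (F.S y ◁ l)) ≫ (F.S a ◁ hab β (F.S v)) =
        (f' ≫ (F.S k ◁ l)) ≫ hat x (F.S b ≫ F.S v) ≫ (F.S a ◁ hab β (F.S v)) := by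
      have h11 := hat_natural x l
      calc (f' ≫ hat x (F.S w)) ≫ (F.S a ◁ (F.S y ◁ l)) ≫ (F.S a ◁ hab β (F.S v))
          = f' ≫ (hat x (F.S w) ≫ (F.S a ◁ (F.S y ◁ l))) ≫ (F.S a ◁ hab β (F.S v)) := by
            simp only [Category.assoc]
        _ = _ := by
            rw [h11]
            simp only [Category.assoc]
    rw [h10]
    exact h9
  have h12 : (f ≫ (F.S a ◁ z)) ≫ (F.S a ◁ ((F.S y ◁ l) ≫ hab β (F.S v))) ∈ N := h3 h1
  rw [Bicategory.whiskerLeft_comp]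
  rw [Category.assoc] at h12
  exact h12

end Pool.Agent.WGT
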