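import Pool.Agent.WGT.Pn3
import Pool.Agent.WGT.M3c
import Pool.Agent.WGT.M2d
import Pool.Agent.WGT.M1

/-!
# WGT/M3d: existence, the induction step

From `hE` get `L`, from `exists_pre` and `exists_mid` an `L` with `Pre` and the normalisation on the right; `exists_s`, `s_rel`,
`avg_exist` give `s` and `t`.  Put `L' b v m = scl (t (deg b) v) (L b v m)` for all `b` (for `b ∉ E'` irrelevant).
`LInt F O E' L'`:
* `lat`: `IsLat.scl`, `Pre.st`.
* `unitL`: `t (deg o) v = t 1 v` is a unit, `unitL` of `L`.  `unitR`: `t q o` is a unit, `Pre.uR`.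
* `assoc`: `b ∈ E'`, `c ∈ E'`, `v`, `m`; `q' = deg b`, `q'' = deg c`, `r = t q' c * t (q' q'') v * s q' q'' v`.
  `N1 L' b c (fun k => L' k v) m = scl (t q' c * t (q' q'') v) (N1 L b c (fun k => L k v) m)` (`N1_scl`, `deg k = q' q''`)
  `= scl r (N2 L b (L c v) m)` and `N2 L' b (L' c v) m = scl r (N2 L b (L c v) m)` by `N2_scl` (`s w = t q' w`, `t w = t q'' v`, and
  `t q' w * t q'' v / r` is a unit when `Occ c v w`).
-/

set_option autoImplicit false

noncomputable section

open CategoryTheory Bicategory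

namespace Pool.Agent.WGT

open Pool.Agent.NFG

universe w₂ w₁ w₀ w

variable {K : Type w} [Field K] {B : Type w₀} [Bicategory.{w₂, w₁} B] [∀ a b : B, Preadditive (a ⟶ b)]
  [∀ a b : B, Linear K (a ⟶ b)] [AddBi B] [LinBi K B] {ι : B → B → Type} [∀ a b, Fintype (ι a b)]
  [∀ a b, DecidableEq (ι a b)] {O : Subring K}

theorem exists_step [IsAlgClosed K] (hO : Val O) {F : Fus K B ι} {sp : Sph F} {X : B} (hd : ∀ {a b : B} (i : ι a b), IsU O (sp.d i))
    {E E' : Set (ι X X)} {Q : Type} [Group Q] [Fintype Q] {deg : ι X X → Q} (hg : IsGr sp E E' Q deg) (hu : Uniq F O E)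
    (hE : ∃ L : F.Sys O X X, LInt F O E L) : ∃ L : F.Sys O X X, LInt F O E' L := by
  obtain ⟨L₀, hL₀⟩ := hE
  have hd0 : ∀ {a b : B} (i : ι a b), sp.d i ≠ 0 := fun i => (hd i).1
  have hc : Ctx sp O E L₀ := ⟨hO, hd, gr_sub hd0 hg, hL₀⟩
  obtain ⟨L₁, hL₁⟩ := exists_pre hg hc
  obtain ⟨L, hP, hmid⟩ := exists_mid hg hu hL₁
  obtain ⟨s, hs0, hs, -, hs1, hso⟩ := exists_s hg hP hmid
  obtain ⟨t, ht0, ht1, hto, ht⟩ := avg_exist (F := F) (E' := E') (deg := deg) hO hs0
    (fun q q' c Y v w hc ho => s_rel hg hP hs0 hs q q' hc ho) hs1 hso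
  refine ⟨fun b Y v m => scl (t (deg b) v) (L b v m), ?_, ?_, ?_, ?_⟩
  · intro y hy Y v m
    exact ((hP.st (deg y) v).lat y ⟨hy, rfl⟩ m).scl (ht0 _ _)
  · intro Y v
    show scl (t (deg (F.o X)) v) (L (F.o X) v v) = _
    rw [deg_o hg, scl_unit (ht1 v)]
    exact hP.ctx.int.unitL v
  · intro y hy
    show scl (t (deg y) (F.o X)) (L y (F.o X) y) = _
    rw [scl_unit (hto _)]
    exact hP.uR y hy
  · intro b hb c hc Y v
    funext m
    have h1 : t (deg b) c * t (deg b * deg c) v ≠ 0 := mul_ne_zero (ht0 _ _) (ht0 _ _)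
    have h2 : t (deg b) c * t (deg b * deg c) v * s (deg b) (deg c) v ≠ 0 := mul_ne_zero h1 (hs0 _ _ _)
    have e1 : F.N1 (fun b Y v m => scl (t (deg b) v) (L b v m)) b c
        (fun k m => scl (t (deg k) v) (L k v m)) m =
        scl (t (deg b) c * t (deg b * deg c) v) (F.N1 L b c (fun k => L k v) m) := by
      refine N1_scl (s := fun _ => t (deg b) c) (t := fun _ => t (deg b * deg c) v) h1 (fun _ => ht0 _ _)
        (fun _ => ht0 _ _) (fun _ => rfl) ?_ ?_
      · intro a' ha'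
        show scl (t (deg a') v) (L a' v m) = _
        rw [hg.mul b hb c hc a' ha']
      · intro a' _
        rw [div_self h1]
        exact isU_one
    have e2 : F.N2 (fun b Y v m => scl (t (deg b) v) (L b v m)) b
        (fun m => scl (t (deg c) v) (L c v m)) m =
        scl (t (deg b) c * t (deg b * deg c) v * s (deg b) (deg c) v) (F.N2 L b (L c v) m) := by
      refine N2_scl (s := fun m' => t (deg b) m') (t := fun _ => t (deg c) v) h2 (fun _ => ht0 _ _)
        (fun _ => ht0 _ _) (fun _ => rfl) (fun _ => rfl) ?_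
      intro m' _ ho
      have h3 := ht (deg b) c v m' hc ho
      rw [mul_comm (t (deg c) v)] at h3
      exact h3
    rw [e1, e2, hs b hb c hc v m, scl_scl]

end Pool.Agent.WGT
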