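import Pool.Agent.WGT.M3b

/-!
# WGT/Pn1: the triple products, first path

Hypotheses: `hs`: `N1 L a b (fun k => L k v) m = scl (s (deg a) (deg b) v) (N2 L a (L b v) m)` for `a, b ∈ E'`.

`N3 L a b c v m` is the lattice in `Hom (S m, S a ≫ (S b ≫ (S c ≫ S v)))` spanned by `f ≫ hat x' (S v) ≫ hat x (S c ≫ S v)`,
`x ∈ L a b k`, `x' ∈ L k c l`, `f ∈ L l v m`.

`path1`: let `w : ι`, `g ∈ dl (L c v w)`, `q = deg a`, ....  For `h ∈ N3 L a b c v m`: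
`h ≫ (S a ◁ (S b ◁ g)) ∈ scl (s (q q') q'' v * s q q' w) (N2 L a (L b w) m)`.
Proof: generator `f ≫ hat x' (S v) ≫ hat x (S c ≫ S v)`; `f ≫ hat x' (S v) ∈ N1 L k c (fun l => L l v) m = scl (s (q q') q'' v) (N2 L k (L c v) m)`
(`k ∈ E'` of degree `q q'`, or `x = 0`), and for `r ∈ N2 L k (L c v) m`:
`r ≫ hat x (S c ≫ S v) ≫ (S a ◁ (S b ◁ g)) = (r ≫ (S k ◁ g)) ≫ hat x (S w)` (`hat_natural`), `r ≫ (S k ◁ g) ∈ L k w m` (`N2_dl`), so this is in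
`N1 L a b (fun k => L k w) m = scl (s q q' w) (N2 L a (L b w) m)`.

`path1'`: conversely, for `t ∈ N2 L a (L b w) m` and `x'' ∈ L c v w`:
`(s (q q') q'' v * s q q' w) • (t ≫ (S a ◁ (S b ◁ x''))) ∈ N3 L a b c v m`: `s q q' w • t ∈ N1 L a b (fun k => L k w) m`, a sum of `z ≫ hat x (S w)`,
`x ∈ L a b k`, `z ∈ L k w m`; `z ≫ hat x (S w) ≫ (S a ◁ (S b ◁ x'')) = (z ≫ (S k ◁ x'')) ≫ hat x (S c ≫ S v)` and
`s (q q') q'' v • (z ≫ (S k ◁ x'')) ∈ N1 L k c (fun l => L l v) m`.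
-/

set_option autoImplicit false

noncomputable section

open CategoryTheory Bicategory

namespace Pool.Agent.WGT

open Pool.Agent.NFG

universe w₂ w₁ w₀ w

variable {K : Type w} [Field K] {B : Type w₀} [Bicategory.{w₂, w₁} B] [∀ a b : B, Preadditive (a ⟶ b)]
  [∀ a b : B, Linear K (a ⟶ b)] [AddBi B] [LinBi K B] {ι : B → B → Type} [∀ a b, Fintype (ι a b)]
  [∀ a b, DecidableEq (ι a b)] {O : Subring K}

/-- the lattice of the bracketing `((a b) c) v` -/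
def N3 {F : Fus K B ι} {X Y : B} (L : F.Sys O X X) (a b c : ι X X) (v : ι X Y) : F.Fam O (F.S a ≫ (F.S b ≫ (F.S c ≫ F.S v))) := fun m =>
  Submodule.span O {h | ∃ (k l : ι X X) (x : F.S k ⟶ F.S a ≫ F.S b) (x' : F.S l ⟶ F.S k ≫ F.S c) (f : F.S m ⟶ F.S l ≫ F.S v),
    x ∈ L a b k ∧ x' ∈ L k c l ∧ f ∈ L l v m ∧ h = f ≫ hat x' (F.S v) ≫ hat x (F.S c ≫ F.S v)}

/-- composition with `t` on the right, as an `O`-linear map -/
private def cr1 (O : Subring K) {p q : B} {X Y Z : p ⟶ q} (t : Y ⟶ Z) : (X ⟶ Y) →ₗ[O] (X ⟶ Z) where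
  toFun f := f ≫ t
  map_add' f g := Preadditive.add_comp _ _ _ _ _ _
  map_smul' c f := Linear.smul_comp _ _ _ (c : K) f t

private theorem cr1_apply (O : Subring K) {p q : B} {X Y Z : p ⟶ q} (t : Y ⟶ Z) (f : X ⟶ Y) : cr1 O t f = f ≫ t := rfl

theorem path1 {F : Fus K B ι} {sp : Sph F} {X : B} {E E' : Set (ι X X)} {Q : Type} [Group Q] {deg : ι X X → Q}
    (hg : IsGr sp E E' Q deg) {L : F.Sys O X X} (h : Pre sp O E E' deg L) {s : Q → Q → ∀ ⦃Y : B⦄, ι X Y → K}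
    (hs0 : ∀ q q' ⦃Y : B⦄ (v : ι X Y), s q q' v ≠ 0)
    (hs : ∀ a ∈ E', ∀ b ∈ E', ∀ ⦃Y : B⦄ (v m : ι X Y), F.N1 L a b (fun k => L k v) m = scl (s (deg a) (deg b) v) (F.N2 L a (L b v) m))
    {a b c : ι X X} {Y : B} {v w m : ι X Y} (ha : a ∈ E') (hb : b ∈ E') (hc : c ∈ E') {g : F.S c ≫ F.S v ⟶ F.S w} (hg' : g ∈ F.dl (L c v w))
    {f : F.S m ⟶ F.S a ≫ (F.S b ≫ (F.S c ≫ F.S v))} (hf : f ∈ N3 L a b c v m) :
    f ≫ (F.S a ◁ (F.S b ◁ g)) ∈ scl (s (deg a * deg b) (deg c) v * s (deg a) (deg b) w) (F.N2 L a (L b w) m) := by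
  have key : N3 L a b c v m ≤ (scl (s (deg a * deg b) (deg c) v * s (deg a) (deg b) w)
      (F.N2 L a (L b w) m)).comap (cr1 O (F.S a ◁ (F.S b ◁ g))) := by
    refine Submodule.span_le.2 ?_
    rintro _ ⟨k, l, x, x', f, hx, hx', hf, rfl⟩
    rw [SetLike.mem_coe, Submodule.mem_comap, cr1_apply]
    by_cases hx0 : x = 0
    · rw [hx0, hat_zero, Limits.comp_zero, Limits.comp_zero, Limits.zero_comp]
      exact Submodule.zero_mem _
    have hocc : F.Occ a b k := ⟨x, hx0⟩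
    have hk := hg.sub.mul a ha b hb k hocc
    have hdk := hg.mul a ha b hb k hocc
    have h1 : f ≫ hat x' (F.S v) ∈ F.N1 L k c (fun l => L l v) m := mem_N1 hx' hf
    rw [hs k hk c hc, hdk] at h1
    obtain ⟨r, hr, hr'⟩ := h1
    have h2 : r ≫ (F.S k ◁ g) ∈ L k w m := N2_dl hr hg'
    have h3 : (r ≫ (F.S k ◁ g)) ≫ hat x (F.S w) ∈ F.N1 L a b (fun k => L k w) m := mem_N1 hx h2
    rw [hs a ha b hb] at h3
    obtain ⟨t, ht, ht'⟩ := h3
    refine ⟨t, ht, ?_⟩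
    have h4 : (f ≫ hat x' (F.S v) ≫ hat x (F.S c ≫ F.S v)) ≫ F.S a ◁ F.S b ◁ g =
        (f ≫ hat x' (F.S v)) ≫ (F.S k ◁ g) ≫ hat x (F.S w) := by
      simp only [Category.assoc]
      rw [hat_natural]
    rw [h4, hr', Linear.smul_comp, ← Category.assoc, ht', smul_smul]
  exact key hf

theorem path1' {F : Fus K B ι} {sp : Sph F} {X : B} {E E' : Set (ι X X)} {Q : Type} [Group Q] {deg : ι X X → Q}
    (hg : IsGr sp E E' Q deg) {L : F.Sys O X X} (h : Pre sp O E E' deg L) {s : Q → Q → ∀ ⦃Y : B⦄, ι X Y → K}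
    (hs0 : ∀ q q' ⦃Y : B⦄ (v : ι X Y), s q q' v ≠ 0)
    (hs : ∀ a ∈ E', ∀ b ∈ E', ∀ ⦃Y : B⦄ (v m : ι X Y), F.N1 L a b (fun k => L k v) m = scl (s (deg a) (deg b) v) (F.N2 L a (L b v) m))
    {a b c : ι X X} {Y : B} {v w m : ι X Y} (ha : a ∈ E') (hb : b ∈ E') (hc : c ∈ E') {x : F.S w ⟶ F.S c ≫ F.S v} (hx : x ∈ L c v w)
    {f : F.S m ⟶ F.S a ≫ (F.S b ≫ F.S w)} (hf : f ∈ F.N2 L a (L b w) m) :
    (s (deg a * deg b) (deg c) v * s (deg a) (deg b) w) • (f ≫ (F.S a ◁ (F.S b ◁ x))) ∈ N3 L a b c v m := by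
  have key2 : ∀ {k : ι X X} (x₀ : F.S k ⟶ F.S a ≫ F.S b), x₀ ∈ L a b k → F.N1 L k c (fun l => L l v) m ≤
      (N3 L a b c v m).comap (cr1 O (hat x₀ (F.S c ≫ F.S v))) := by
    intro k x₀ hx₀
    refine N1_le ?_
    intro l x' f hx' hf
    rw [Submodule.mem_comap, cr1_apply]
    exact Submodule.subset_span ⟨k, l, x₀, x', f, hx₀, hx', hf, Category.assoc _ _ _⟩
  have key : F.N1 L a b (fun k => L k w) m ≤
      (N3 L a b c v m).comap ((cr1 O (s (deg a * deg b) (deg c) v • (F.S a ◁ (F.S b ◁ x))))) := by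
    refine N1_le ?_
    intro k x₀ f' hx₀ hf'
    rw [Submodule.mem_comap, cr1_apply]
    by_cases hx0 : x₀ = 0
    · rw [hx0, hat_zero, Limits.comp_zero, Limits.zero_comp]
      exact Submodule.zero_mem _
    have hocc : F.Occ a b k := ⟨x₀, hx0⟩
    have hk := hg.sub.mul a ha b hb k hocc
    have hdk := hg.mul a ha b hb k hocc
    have h1 : s (deg k) (deg c) v • (f' ≫ (F.S k ◁ x)) ∈ F.N1 L k c (fun l => L l v) m := by
      rw [hs k hk c hc]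
      exact ⟨_, mem_N2 hf' hx, rfl⟩
    have h2 := key2 x₀ hx₀ h1
    rw [Submodule.mem_comap, cr1_apply, hdk] at h2
    have h4 : (f' ≫ hat x₀ (F.S w)) ≫ (s (deg a * deg b) (deg c) v • (F.S a ◁ (F.S b ◁ x))) =
        (s (deg a * deg b) (deg c) v • (f' ≫ (F.S k ◁ x))) ≫ hat x₀ (F.S c ≫ F.S v) := by
      rw [Linear.comp_smul, Linear.smul_comp, Category.assoc, Category.assoc, hat_natural]
    rw [h4]
    exact h2
  have h5 : s (deg a) (deg b) w • f ∈ F.N1 L a b (fun k => L k w) m := by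
    rw [hs a ha b hb]
    exact ⟨_, hf, rfl⟩
  have h6 := key h5
  rw [Submodule.mem_comap, cr1_apply, Linear.comp_smul, Linear.smul_comp, smul_smul] at h6
  exact h6

end Pool.Agent.WGT
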