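import Pool.Agent.WGT.Pn1

/-!
# WGT/Pn2: the triple products, second path
-/

set_option autoImplicit false

noncomputable section

open CategoryTheory Bicategory

namespace Pool.Agent.WGT

open Pool.Agent.NFG

universe w₂ w₁ w₀ w

variable {K : Type w} [Field K] {B : Type w₀} [Bicategory.{w₂, w₁} B] [∀ a b : B, Preadditive (a ⟶ b)]
  [∀ a b : B, Linear K (a ⟶ b)] [AddBi B] [LinBi K B] {ι : B → B → Type} [∀ a b, Fintype (ι a b)]
  [∀ a b, DecidableEq (ι a b)] {O : Subring K}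

/-- composition with `t` on the right, as an `O`-linear map -/
private def cr2 (O : Subring K) {p q : B} {X Y Z : p ⟶ q} (t : Y ⟶ Z) : (X ⟶ Y) →ₗ[O] (X ⟶ Z) where
  toFun f := f ≫ t
  map_add' f g := Preadditive.add_comp _ _ _ _ _ _
  map_smul' c f := Linear.smul_comp _ _ _ (c : K) f t

private theorem cr2_apply (O : Subring K) {p q : B} {X Y Z : p ⟶ q} (t : Y ⟶ Z) (f : X ⟶ Y) : cr2 O t f = f ≫ t := rfl

/-- `h ↦ f ≫ th h Z ≫ t` as an `O`-linear map -/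
private def thl (O : Subring K) {p q r t₀ s₀ : B} {A'' : p ⟶ t₀} {A : p ⟶ q} {Y : q ⟶ r} {Y' : r ⟶ t₀} {Z : t₀ ⟶ s₀}
    {X D : p ⟶ s₀} (f : X ⟶ A'' ≫ Z) (t : A ≫ (Y ≫ (Y' ≫ Z)) ⟶ D) :
    (A'' ⟶ A ≫ (Y ≫ Y')) →ₗ[O] (X ⟶ D) where
  toFun h := f ≫ th h Z ≫ t
  map_add' h h' := by
    rw [th_add, Preadditive.add_comp, Preadditive.comp_add]
  map_smul' c h := by
    have h1 : (c • h : A'' ⟶ A ≫ (Y ≫ Y')) = (c : K) • h := rfl
    rw [h1, th_smul, Linear.smul_comp, Linear.comp_smul]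
    rfl

private theorem thl_apply (O : Subring K) {p q r t₀ s₀ : B} {A'' : p ⟶ t₀} {A : p ⟶ q} {Y : q ⟶ r} {Y' : r ⟶ t₀}
    {Z : t₀ ⟶ s₀} {X D : p ⟶ s₀} (f : X ⟶ A'' ≫ Z)
    (t : A ≫ (Y ≫ (Y' ≫ Z)) ⟶ D) (h : A'' ⟶ A ≫ (Y ≫ Y')) : thl O f t h = f ≫ th h Z ≫ t := rfl

/-- `h ↦ c • (h ≫ t)` as an `O`-linear map -/
private def crs (O : Subring K) {p q : B} {X Y Z : p ⟶ q} (c : K) (t : Y ⟶ Z) : (X ⟶ Y) →ₗ[O] (X ⟶ Z) where
  toFun f := c • (f ≫ t)
  map_add' f g := by rw [Preadditive.add_comp, smul_add]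
  map_smul' x f := by
    have h1 : (x • f : X ⟶ Y) = (x : K) • f := rfl
    rw [h1, Linear.smul_comp, smul_comm]
    rfl

private theorem crs_apply (O : Subring K) {p q : B} {X Y Z : p ⟶ q} (c : K) (t : Y ⟶ Z) (f : X ⟶ Y) :
    crs O c t f = c • (f ≫ t) := rfl

/-- composition of `N2` with a map up to a scalar -/
private theorem N2_comp_scl {F : Fus K B ι} {X Y T : B} {L : F.Sys O X Y} {y : ι X Y} {W W' : Y ⟶ T} {n : F.Fam O W}
    {n' : F.Fam O W'} {t : W ⟶ W'} {c : K} (ht : ∀ m', ∀ f ∈ n m', f ≫ t ∈ scl c (n' m')) {m : ι X T}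
    {h : F.S m ⟶ F.S y ≫ W} (hh : h ∈ F.N2 L y n m) : h ≫ (F.S y ◁ t) ∈ scl c (F.N2 L y n' m) := by
  have key : F.N2 L y n m ≤ (scl c (F.N2 L y n' m)).comap (cr2 O (F.S y ◁ t)) := by
    refine N2_le ?_
    intro m' z f hz hf
    rw [Submodule.mem_comap, cr2_apply]
    obtain ⟨r, hr, hr'⟩ := ht m' f hf
    have e1 : (z ≫ (F.S y ◁ f)) ≫ (F.S y ◁ t) = z ≫ (F.S y ◁ (f ≫ t)) := by
      rw [Category.assoc, Bicategory.whiskerLeft_comp]
    rw [e1, hr', comp_whisker_smul]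
    exact ⟨_, mem_N2 hz hr, rfl⟩
  exact key hh

/-- `f ↦ c • (z ≫ (S y ◁ f))` as an `O`-linear map -/
private def crsW {F : Fus K B ι} (O : Subring K) {X Y T : B} {y : ι X Y} {m : ι X T} {p : ι Y T} {W : Y ⟶ T} (c : K)
    (z : F.S m ⟶ F.S y ≫ F.S p) : (F.S p ⟶ W) →ₗ[O] (F.S m ⟶ F.S y ≫ W) where
  toFun f := c • (z ≫ (F.S y ◁ f))
  map_add' f g := by
    rw [wl_add, Preadditive.comp_add, smul_add]
  map_smul' x f := by
    have h1 : (x • f : F.S p ⟶ W) = (x : K) • f := rfl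
    rw [h1, comp_whisker_smul, smul_comm]
    rfl

private theorem crsW_apply {F : Fus K B ι} (O : Subring K) {X Y T : B} {y : ι X Y} {m : ι X T} {p : ι Y T} {W : Y ⟶ T} (c : K)
    (z : F.S m ⟶ F.S y ≫ F.S p) (f : F.S p ⟶ W) : crsW O c z f = c • (z ≫ (F.S y ◁ f)) := rfl

theorem path2 {F : Fus K B ι} {sp : Sph F} {X : B} {E E' : Set (ι X X)} {Q : Type} [Group Q] {deg : ι X X → Q}
    (hg : IsGr sp E E' Q deg) {L : F.Sys O X X} (h : Pre sp O E E' deg L) {s : Q → Q → ∀ ⦃Y : B⦄, ι X Y → K}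
    (hs0 : ∀ q q' ⦃Y : B⦄ (v : ι X Y), s q q' v ≠ 0)
    (hs : ∀ a ∈ E', ∀ b ∈ E', ∀ ⦃Y : B⦄ (v m : ι X Y), F.N1 L a b (fun k => L k v) m = scl (s (deg a) (deg b) v) (F.N2 L a (L b v) m))
    {a b c : ι X X} {Y : B} {v w m : ι X Y} (ha : a ∈ E') (hb : b ∈ E') (hc : c ∈ E') {g : F.S c ≫ F.S v ⟶ F.S w} (hg' : g ∈ F.dl (L c v w))
    {f : F.S m ⟶ F.S a ≫ (F.S b ≫ (F.S c ≫ F.S v))} (hf : f ∈ N3 L a b c v m) :
    f ≫ (F.S a ◁ (F.S b ◁ g)) ∈
      scl (s (deg a) (deg b) c * s (deg a) (deg b * deg c) v * s (deg b) (deg c) v) (F.N2 L a (L b w) m) := by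
  have hA : ∀ {u : ι X X} (y : F.S u ⟶ F.S b ≫ F.S c), y ∈ L b c u → ∀ r ∈ F.N2 L a (L u v) m,
      r ≫ (F.S a ◁ (hat y (F.S v) ≫ (F.S b ◁ g))) ∈ scl (s (deg b) (deg c) v) (F.N2 L a (L b w) m) := by
    intro u y hy r hr
    refine N2_comp_scl ?_ hr
    intro p f₁ hf₁
    have h1 : f₁ ≫ hat y (F.S v) ∈ F.N1 L b c (fun u => L u v) p := mem_N1 hy hf₁
    rw [hs b hb c hc] at h1
    obtain ⟨r₂, hr₂, hr₂'⟩ := h1
    refine ⟨r₂ ≫ (F.S b ◁ g), N2_dl hr₂ hg', ?_⟩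
    rw [← Category.assoc, hr₂', Linear.smul_comp]
  have hB : ∀ {l : ι X X} (f₀ : F.S m ⟶ F.S l ≫ F.S v), f₀ ∈ L l v m → ∀ r ∈ F.N2 L a (L b c) l,
      f₀ ≫ th r (F.S v) ≫ (F.S a ◁ (F.S b ◁ g)) ∈
        scl (s (deg a) (deg b * deg c) v * s (deg b) (deg c) v) (F.N2 L a (L b w) m) := by
    intro l f₀ hf₀
    have key : F.N2 L a (L b c) l ≤
        (scl (s (deg a) (deg b * deg c) v * s (deg b) (deg c) v) (F.N2 L a (L b w) m)).comap
          (thl O f₀ (F.S a ◁ (F.S b ◁ g))) := by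
      refine N2_le ?_
      intro u z y hz hy
      rw [Submodule.mem_comap, thl_apply]
      by_cases hy0 : y = 0
      · rw [hy0, wl_zero, Limits.comp_zero, th_zero, Limits.zero_comp,
          Limits.comp_zero]
        exact Submodule.zero_mem _
      have hocc : F.Occ b c u := ⟨y, hy0⟩
      have hu := hg.sub.mul b hb c hc u hocc
      have hdu := hg.mul b hb c hc u hocc
      have h1 : f₀ ≫ hat z (F.S v) ∈ F.N1 L a u (fun l => L l v) m := mem_N1 hz hf₀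
      rw [hs a ha u hu, hdu] at h1
      obtain ⟨r, hr, hr'⟩ := h1
      obtain ⟨t, ht, ht'⟩ := hA y hy r hr
      refine ⟨t, ht, ?_⟩
      have e1 : f₀ ≫ th (z ≫ (F.S a ◁ y)) (F.S v) ≫ (F.S a ◁ (F.S b ◁ g)) =
          (f₀ ≫ hat z (F.S v)) ≫ (F.S a ◁ (hat y (F.S v) ≫ (F.S b ◁ g))) := by
        rw [th_comp, Bicategory.whiskerLeft_comp]
        simp only [Category.assoc]
      rw [e1, hr', Linear.smul_comp, ht', smul_smul]
    intro r hr
    exact key hr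
  have key : N3 L a b c v m ≤ (scl (s (deg a) (deg b) c * s (deg a) (deg b * deg c) v *
      s (deg b) (deg c) v) (F.N2 L a (L b w) m)).comap (cr2 O (F.S a ◁ (F.S b ◁ g))) := by
    refine Submodule.span_le.2 ?_
    rintro _ ⟨k, l, x, x', f, hx, hx', hf, rfl⟩
    rw [SetLike.mem_coe, Submodule.mem_comap, cr2_apply]
    have h1 : x' ≫ hat x (F.S c) ∈ F.N1 L a b (fun k => L k c) l := mem_N1 hx hx'
    rw [hs a ha b hb] at h1
    obtain ⟨r, hr, hr'⟩ := h1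
    obtain ⟨t, ht, ht'⟩ := hB f hf r hr
    refine ⟨t, ht, ?_⟩
    have e1 : (f ≫ hat x' (F.S v) ≫ hat x (F.S c ≫ F.S v)) ≫ (F.S a ◁ (F.S b ◁ g)) =
        f ≫ th (x' ≫ hat x (F.S c)) (F.S v) ≫ (F.S a ◁ (F.S b ◁ g)) := by
      rw [th_hat]
      simp only [Category.assoc]
    rw [e1, hr', th_smul, Linear.smul_comp, Linear.comp_smul, ht', smul_smul, mul_assoc]
  exact key hf

theorem path2' {F : Fus K B ι} {sp : Sph F} {X : B} {E E' : Set (ι X X)} {Q : Type} [Group Q] {deg : ι X X → Q}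
    (hg : IsGr sp E E' Q deg) {L : F.Sys O X X} (h : Pre sp O E E' deg L) {s : Q → Q → ∀ ⦃Y : B⦄, ι X Y → K}
    (hs0 : ∀ q q' ⦃Y : B⦄ (v : ι X Y), s q q' v ≠ 0)
    (hs : ∀ a ∈ E', ∀ b ∈ E', ∀ ⦃Y : B⦄ (v m : ι X Y), F.N1 L a b (fun k => L k v) m = scl (s (deg a) (deg b) v) (F.N2 L a (L b v) m))
    {a b c : ι X X} {Y : B} {v w m : ι X Y} (ha : a ∈ E') (hb : b ∈ E') (hc : c ∈ E') {x : F.S w ⟶ F.S c ≫ F.S v} (hx : x ∈ L c v w)
    {f : F.S m ⟶ F.S a ≫ (F.S b ≫ F.S w)} (hf : f ∈ F.N2 L a (L b w) m) :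
    (s (deg a) (deg b) c * s (deg a) (deg b * deg c) v * s (deg b) (deg c) v) • (f ≫ (F.S a ◁ (F.S b ◁ x))) ∈
      N3 L a b c v m := by
  have hE : ∀ {l : ι X X} (f₀ : F.S m ⟶ F.S l ≫ F.S v), f₀ ∈ L l v m →
      ∀ r ∈ F.N1 L a b (fun k => L k c) l, f₀ ≫ th r (F.S v) ∈ N3 L a b c v m := by
    intro l f₀ hf₀
    have key : F.N1 L a b (fun k => L k c) l ≤ (N3 L a b c v m).comap
        (thl O f₀ (𝟙 (F.S a ≫ (F.S b ≫ (F.S c ≫ F.S v))))) := by
      refine N1_le ?_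
      intro k x₀ x' hx₀ hx'
      rw [Submodule.mem_comap, thl_apply, Category.comp_id, th_hat]
      exact Submodule.subset_span ⟨k, l, x₀, x', f₀, hx₀, hx', hf₀, rfl⟩
    intro r hr
    have h1 := key hr
    rw [Submodule.mem_comap, thl_apply, Category.comp_id] at h1
    exact h1
  have hD : ∀ {u : ι X X} (y : F.S u ⟶ F.S b ≫ F.S c), y ∈ L b c u →
      ∀ r ∈ F.N1 L a u (fun l => L l v) m,
        s (deg a) (deg b) c • (r ≫ (F.S a ◁ hat y (F.S v))) ∈ N3 L a b c v m := by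
    intro u y hy
    have key : F.N1 L a u (fun l => L l v) m ≤ (N3 L a b c v m).comap
        (crs O (s (deg a) (deg b) c) (F.S a ◁ hat y (F.S v))) := by
      refine N1_le ?_
      intro l z f₀ hz hf₀
      rw [Submodule.mem_comap, crs_apply]
      have h1 : s (deg a) (deg b) c • (z ≫ (F.S a ◁ y)) ∈ F.N1 L a b (fun k => L k c) l := by
        rw [hs a ha b hb]
        exact ⟨_, mem_N2 hz hy, rfl⟩
      have h2 := hE f₀ hf₀ _ h1
      rw [th_smul, th_comp, Linear.comp_smul, ← Category.assoc] at h2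
      exact h2
    intro r hr
    exact key hr
  have hC : ∀ h' ∈ F.N2 L a (F.N1 L b c (fun u => L u v)) m,
      (s (deg a) (deg b) c * s (deg a) (deg b * deg c) v) • h' ∈ N3 L a b c v m := by
    have key : F.N2 L a (F.N1 L b c (fun u => L u v)) m ≤ (N3 L a b c v m).comap
        (crs O (s (deg a) (deg b) c * s (deg a) (deg b * deg c) v)
          (𝟙 (F.S a ≫ (F.S b ≫ (F.S c ≫ F.S v))))) := by
      refine N2_le ?_
      intro p z' f₁ hz' hf₁
      rw [Submodule.mem_comap, crs_apply, Category.comp_id]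
      have key2 : F.N1 L b c (fun u => L u v) p ≤ (N3 L a b c v m).comap
          (crsW (F := F) O (s (deg a) (deg b) c * s (deg a) (deg b * deg c) v) z') := by
        refine N1_le ?_
        intro u y y' hy hy'
        rw [Submodule.mem_comap, crsW_apply]
        by_cases hy0 : y = 0
        · rw [hy0, hat_zero, Limits.comp_zero, wl_zero,
            Limits.comp_zero, smul_zero]
          exact Submodule.zero_mem _
        have hocc : F.Occ b c u := ⟨y, hy0⟩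
        have hu := hg.sub.mul b hb c hc u hocc
        have hdu := hg.mul b hb c hc u hocc
        have h1 : s (deg a) (deg b * deg c) v • (z' ≫ (F.S a ◁ y')) ∈
            F.N1 L a u (fun l => L l v) m := by
          rw [hs a ha u hu, hdu]
          exact ⟨_, mem_N2 hz' hy', rfl⟩
        have h2 := hD y hy _ h1
        have e1 : z' ≫ (F.S a ◁ (y' ≫ hat y (F.S v))) =
            (z' ≫ (F.S a ◁ y')) ≫ (F.S a ◁ hat y (F.S v)) := by
          rw [Bicategory.whiskerLeft_comp, Category.assoc]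
        rw [e1, mul_smul, ← Linear.smul_comp]
        exact h2
      exact key2 hf₁
    intro h' hh'
    have h1 := key hh'
    rw [Submodule.mem_comap, crs_apply, Category.comp_id] at h1
    exact h1
  have h3 : f ≫ (F.S a ◁ (s (deg b) (deg c) v • (F.S b ◁ x))) ∈
      F.N2 L a (F.N1 L b c (fun u => L u v)) m := by
    refine N2_comp ?_ hf
    intro p f₁ hf₁
    rw [Linear.comp_smul, hs b hb c hc]
    exact ⟨_, mem_N2 hf₁ hx, rfl⟩
  have h4 := hC _ h3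
  rw [comp_whisker_smul, smul_smul] at h4
  exact h4

end Pool.Agent.WGT
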