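import Pool.Agent.WGT.Pn2

/-!
# WGT/Pn3: the pentagon relation for the scalars `s`

Let `q, q' : Q`, `c ∈ E'`, `Occ c v w`.  Choose `a, b ∈ E'` with `deg a = q`, `deg b = q'` (`surj`), `x ∈ L c v w`, `g ∈ dl (L c v w)` with
`x ≫ g = 𝟙` (`exists_pair`; `L c v w` is a lattice: `Pre.st`), and `m`, `f ∈ N2 L a (L b w) m`, `f ≠ 0` (`nz`).
Let `s1, s2` be the two scalars of `Pn1`, `Pn2`.  For every `t ∈ N2 L a (L b w) m`: `s1 • (t ≫ (S a ◁ (S b ◁ x))) ∈ N3` (`path1'`), so by `path2`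
`s1 • t = (s1 • (t ≫ (S a ◁ (S b ◁ x)))) ≫ (S a ◁ (S b ◁ g)) ∈ scl s2 (N2 L a (L b w) m)`.  In the same way (`path2'`, `path1`)
`s2 • t ∈ scl s1 (N2 ..)`.  So `scl s1 N = scl s2 N` for the lattice `N = N2 L a (L b w) m` (`lat_N2`), and `scl_inj` gives that `s1 / s2` is a
unit.
-/

set_option autoImplicit false

noncomputable section

open CategoryTheory Bicategory

namespace Pool.Agent.WGT

open Pool.Agent.NFG

universe w₂ w₁ w₀ w

variable {K : Type w} [Field K] {B : Type w₀} [Bicategory.{w₂, w₁} B] [∀ a b : B, Preadditive (a ⟶ b)]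
  [∀ a b : B, Linear K (a ⟶ b)] [AddBi B] [LinBi K B] {ι : B → B → Type} [∀ a b, Fintype (ι a b)]
  [∀ a b, DecidableEq (ι a b)] {O : Subring K}

theorem s_rel {F : Fus K B ι} {sp : Sph F} {X : B} {E E' : Set (ι X X)} {Q : Type} [Group Q] {deg : ι X X → Q}
    (hg : IsGr sp E E' Q deg) {L : F.Sys O X X} (h : Pre sp O E E' deg L) {s : Q → Q → ∀ ⦃Y : B⦄, ι X Y → K}
    (hs0 : ∀ q q' ⦃Y : B⦄ (v : ι X Y), s q q' v ≠ 0)
    (hs : ∀ a ∈ E', ∀ b ∈ E', ∀ ⦃Y : B⦄ (v m : ι X Y), F.N1 L a b (fun k => L k v) m = scl (s (deg a) (deg b) v) (F.N2 L a (L b v) m))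
    (q q' : Q) {c : ι X X} {Y : B} {v w : ι X Y} (hc : c ∈ E') (ho : F.Occ c v w) :
    IsU O (s (q * q') (deg c) v * s q q' w / (s q q' c * s q (q' * deg c) v * s q' (deg c) v)) := by
  obtain ⟨a, ha, rfl⟩ := hg.surj q
  obtain ⟨b, hb, rfl⟩ := hg.surj q'
  obtain ⟨x, hx, g, hg', hxg⟩ := exists_pair F ((h.st (deg c) v).lat c ⟨hc, rfl⟩ w) ho
  obtain ⟨m, f, hf, hf0⟩ := nz hg h ha hb w
  have hN : IsLat O (F.N2 L a (L b w) m) :=
    lat_N2 h.ctx.val (fun m' => (h.st (deg a) m').lat a ⟨ha, rfl⟩ m)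
      (fun m' => (h.st (deg b) w).lat b ⟨hb, rfl⟩ m')
  have key : ∀ t : F.S m ⟶ F.S a ≫ (F.S b ≫ F.S w),
      (t ≫ (F.S a ◁ (F.S b ◁ x))) ≫ (F.S a ◁ (F.S b ◁ g)) = t := by
    intro t
    rw [Category.assoc, ← Bicategory.whiskerLeft_comp, ← Bicategory.whiskerLeft_comp, hxg,
      Bicategory.whiskerLeft_id, Bicategory.whiskerLeft_id, Category.comp_id]
  refine scl_inj hN hf0 (mul_ne_zero (hs0 _ _ _) (hs0 _ _ _))
    (mul_ne_zero (mul_ne_zero (hs0 _ _ _) (hs0 _ _ _)) (hs0 _ _ _)) ?_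
  apply le_antisymm
  · rintro _ ⟨t, ht, rfl⟩
    have h1 := path2 hg h hs0 hs ha hb hc hg' (path1' hg h hs0 hs ha hb hc hx ht)
    rw [Linear.smul_comp, key] at h1
    exact h1
  · rintro _ ⟨t, ht, rfl⟩
    have h1 := path1 hg h hs0 hs ha hb hc hg' (path2' hg h hs0 hs ha hb hc hx ht)
    rw [Linear.smul_comp, key] at h1
    exact h1

end Pool.Agent.WGT
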