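import Pool.Agent.WGT.Defs

/-!
# NFG/SemA: Hom spaces in a semisimple category
-/

set_option autoImplicit false
set_option linter.unusedSectionVars false

noncomputable section

open CategoryTheory Bicategory

namespace Pool.Agent.WGT

open Pool.Agent.NFG

universe w₂ w₁ w₀ w

variable {K : Type w} [Field K] {B : Type w₀} [Bicategory.{w₂, w₁} B] [∀ a b : B, Preadditive (a ⟶ b)]
  [∀ a b : B, Linear K (a ⟶ b)] [AddBi B] [LinBi K B] {ι : B → B → Type} [∀ a b, Fintype (ι a b)]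
  [∀ a b, DecidableEq (ι a b)] {O : Subring K}

theorem smul_one_inj (F : Fus K B ι) {p q : B} {m : ι p q} {c c' : K} (h : c • 𝟙 (F.S m) = c' • 𝟙 (F.S m)) : c = c' := by
  have h1 : (c - c') • 𝟙 (F.S m) = 0 := by rw [sub_smul, h, sub_self]
  rcases smul_eq_zero.1 h1 with h2 | h2
  · exact sub_eq_zero.1 h2
  · exact absurd h2 (F.one_ne m)

theorem comp_zero' (F : Fus K B ι) {p q : B} {Z : p ⟶ q} {m m' : ι p q} (h : m ≠ m') (f : F.S m ⟶ Z) (g : Z ⟶ F.S m') : f ≫ g = 0 :=
  F.hom_zero m m' h _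

/-- two morphisms from `Z` agree if they agree on all `S m ⟶ Z` -/
theorem ext_left (F : Fus K B ι) {p q : B} {Z W : p ⟶ q} {f f' : Z ⟶ W} (h : ∀ (m : ι p q) (g : F.S m ⟶ Z), g ≫ f = g ≫ f') : f = f' := by
  obtain ⟨n, k, p, j, -, -, h3⟩ := F.dec Z
  rw [← Category.id_comp f, ← Category.id_comp f', ← h3, Preadditive.sum_comp, Preadditive.sum_comp]
  refine Finset.sum_congr rfl fun a _ => ?_
  rw [Category.assoc, Category.assoc, h]

theorem ext_right (F : Fus K B ι) {p q : B} {Z W : p ⟶ q} {f f' : Z ⟶ W} (h : ∀ (m : ι p q) (g : W ⟶ F.S m), f ≫ g = f' ≫ g) : f = f' := by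
  obtain ⟨n, k, p, j, -, -, h3⟩ := F.dec W
  rw [← Category.comp_id f, ← Category.comp_id f', ← h3, Preadditive.comp_sum, Preadditive.comp_sum]
  refine Finset.sum_congr rfl fun a _ => ?_
  rw [← Category.assoc, ← Category.assoc, h]

theorem nondeg (F : Fus K B ι) {p q : B} {Z : p ⟶ q} {m : ι p q} {f : F.S m ⟶ Z} (h : ∀ g : Z ⟶ F.S m, f ≫ g = 0) : f = 0 := by
  refine ext_right F fun m' g => ?_
  rw [Limits.zero_comp]
  by_cases hm : m = m'
  · subst hm
    exact h g
  · exact comp_zero' F hm f g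

theorem nondeg' (F : Fus K B ι) {p q : B} {Z : p ⟶ q} {m : ι p q} {g : Z ⟶ F.S m} (h : ∀ f : F.S m ⟶ Z, f ≫ g = 0) : g = 0 := by
  refine ext_left F fun m' f => ?_
  rw [Limits.comp_zero]
  by_cases hm : m' = m
  · subst hm
    exact h f
  · exact comp_zero' F hm f g

/-- a nonzero `S m ⟶ Z` has a left inverse up to order of composition -/
theorem exists_retract (F : Fus K B ι) {p q : B} {Z : p ⟶ q} {m : ι p q} {f : F.S m ⟶ Z} (h : f ≠ 0) : ∃ g : Z ⟶ F.S m, f ≫ g = 𝟙 _ := by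
  obtain ⟨g, hg⟩ : ∃ g : Z ⟶ F.S m, f ≫ g ≠ 0 := by
    by_contra hc
    push Not at hc
    exact h (nondeg F hc)
  obtain ⟨c, hc⟩ := F.schur m (f ≫ g)
  have hc0 : c ≠ 0 := by
    rintro rfl
    exact hg (by rw [hc, zero_smul])
  refine ⟨c⁻¹ • g, ?_⟩
  rw [Linear.comp_smul, hc, smul_smul, inv_mul_cancel₀ hc0, one_smul]

theorem exists_section (F : Fus K B ι) {p q : B} {Z : p ⟶ q} {m : ι p q} {g : Z ⟶ F.S m} (h : g ≠ 0) : ∃ f : F.S m ⟶ Z, f ≫ g = 𝟙 _ := by
  obtain ⟨f, hf⟩ : ∃ f : F.S m ⟶ Z, f ≫ g ≠ 0 := by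
    by_contra hc
    push Not at hc
    exact h (nondeg' F hc)
  obtain ⟨c, hc⟩ := F.schur m (f ≫ g)
  have hc0 : c ≠ 0 := by
    rintro rfl
    exact hf (by rw [hc, zero_smul])
  refine ⟨c⁻¹ • f, ?_⟩
  rw [Linear.smul_comp, hc, smul_smul, inv_mul_cancel₀ hc0, one_smul]

/-- an object with `𝟙 Z ≠ 0` contains some `S m` -/
theorem exists_ne_zero (F : Fus K B ι) {p q : B} {Z : p ⟶ q} (h : 𝟙 Z ≠ 0) : ∃ (m : ι p q) (f : F.S m ⟶ Z), f ≠ 0 := by
  by_contra hc
  push Not at hc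
  refine h (ext_left F fun m g => ?_)
  rw [hc m g, Limits.zero_comp, Limits.zero_comp]

private theorem fin_simple (F : Fus K B ι) {p q : B} (i j : ι p q) : Module.Finite K (F.S i ⟶ F.S j) := by
  by_cases h : i = j
  · subst h
    refine Module.Finite.of_surjective (LinearMap.toSpanSingleton K (F.S i ⟶ F.S i) (𝟙 _)) fun f => ?_
    obtain ⟨c, hc⟩ := F.schur i f
    exact ⟨c, by rw [LinearMap.toSpanSingleton_apply]; exact hc.symm⟩
  · refine Module.Finite.of_surjective (0 : K →ₗ[K] (F.S i ⟶ F.S j)) fun f => ⟨0, ?_⟩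
    rw [F.hom_zero i j h f, LinearMap.zero_apply]

theorem fin_hom (F : Fus K B ι) {p q : B} (Z : p ⟶ q) (m : ι p q) : FiniteDimensional K (F.S m ⟶ Z) := by
  obtain ⟨n, k, p, j, -, -, h3⟩ := F.dec Z
  have hfin : ∀ a, Module.Finite K (F.S m ⟶ F.S (k a)) := fun a => fin_simple F m (k a)
  obtain ⟨φ, hφ⟩ : ∃ φ : (F.S m ⟶ Z) →ₗ[K] (∀ a, F.S m ⟶ F.S (k a)), ∀ f a, φ f a = f ≫ p a :=
    ⟨{ toFun := fun f a => f ≫ p a
       map_add' := fun f g => funext fun a => Preadditive.add_comp _ _ _ _ _ _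
       map_smul' := fun c f => funext fun a => Linear.smul_comp _ _ _ _ _ _ }, fun _ _ => rfl⟩
  refine FiniteDimensional.of_injective φ fun f g hfg => ?_
  rw [← Category.comp_id f, ← Category.comp_id g, ← h3, Preadditive.comp_sum, Preadditive.comp_sum]
  refine Finset.sum_congr rfl fun a _ => ?_
  rw [← Category.assoc, ← Category.assoc, ← hφ f a, ← hφ g a, hfg]

/-- the scalar of an endomorphism of a simple object -/
private theorem exists_cf (F : Fus K B ι) {p q : B} (m : ι p q) :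
    ∃ φ : (F.S m ⟶ F.S m) →ₗ[K] K, ∀ f, f = φ f • 𝟙 (F.S m) := by
  choose c hc using F.schur m
  refine ⟨{ toFun := c
            map_add' := fun f g => ?_
            map_smul' := fun r f => ?_ }, hc⟩
  · refine smul_one_inj F (m := m) ?_
    rw [← hc, add_smul, ← hc, ← hc]
  · refine smul_one_inj F (m := m) ?_
    rw [← hc, RingHom.id_apply, smul_eq_mul, mul_smul, ← hc]

private theorem exists_dual (F : Fus K B ι) {p q : B} (Z : p ⟶ q) (m : ι p q) (n : ℕ) (b : Module.Basis (Fin n) K (F.S m ⟶ Z))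
    (j : Fin n) : ∃ g : Z ⟶ F.S m, ∀ i, b i ≫ g = if i = j then 𝟙 (F.S m) else 0 := by
  obtain ⟨φ, hφ⟩ := exists_cf F m
  obtain ⟨ψ, hψ⟩ : ∃ ψ : (Z ⟶ F.S m) →ₗ[K] (Fin n → K), ∀ g i, ψ g i = φ (b i ≫ g) :=
    ⟨{ toFun := fun g i => φ (b i ≫ g)
       map_add' := fun f g => funext fun i => by
         rw [Preadditive.comp_add, map_add]
         rfl
       map_smul' := fun c f => funext fun i => by
         rw [Linear.comp_smul, map_smul]
         rfl }, fun _ _ => rfl⟩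
  have htop : LinearMap.range ψ = ⊤ := by
    by_contra hne
    obtain ⟨χ, hχ0, hχ⟩ := Submodule.exists_le_ker_of_lt_top (LinearMap.range ψ) (lt_top_iff_ne_top.2 hne)
    have h1 : ∀ g, χ (ψ g) = 0 := fun g => hχ ⟨g, rfl⟩
    have h2 : ∑ i, χ (Pi.single i 1) • b i = 0 := by
      refine nondeg F fun g => ?_
      have h3 : χ (ψ g) = ∑ i, ψ g i * χ (Pi.single i 1) := by
        have h4 : ψ g = ∑ i, ψ g i • Pi.single i (1 : K) := by
          funext l
          rw [Finset.sum_apply]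
          simp [Pi.single_apply]
        conv_lhs => rw [h4]
        rw [map_sum]
        refine Finset.sum_congr rfl fun i _ => ?_
        rw [map_smul, smul_eq_mul]
      rw [Preadditive.sum_comp]
      have h5 : ∀ i, (χ (Pi.single i 1) • b i) ≫ g = (ψ g i * χ (Pi.single i 1)) • 𝟙 (F.S m) := by
        intro i
        rw [Linear.smul_comp, hφ (b i ≫ g), ← hψ, smul_smul, mul_comm]
      rw [Finset.sum_congr rfl fun i _ => h5 i, ← Finset.sum_smul, ← h3, h1, zero_smul]
    have h6 : ∀ i, χ (Pi.single i 1) = 0 := Fintype.linearIndependent_iff.1 b.linearIndependent _ h2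
    refine hχ0 ?_
    refine LinearMap.pi_ext' fun i => ?_
    refine LinearMap.ext_ring ?_
    rw [LinearMap.comp_apply, LinearMap.comp_apply, LinearMap.zero_apply]
    exact h6 i
  obtain ⟨g, hg⟩ : (Pi.single j (1 : K) : Fin n → K) ∈ LinearMap.range ψ := by
    rw [htop]
    trivial
  refine ⟨g, fun i => ?_⟩
  rw [hφ (b i ≫ g), ← hψ, hg, Pi.single_apply]
  split_ifs
  · rw [one_smul]
  · rw [zero_smul]

theorem dual_basis (F : Fus K B ι) {p q : B} (Z : p ⟶ q) (n : ι p q → ℕ) (b : ∀ m, Module.Basis (Fin (n m)) K (F.S m ⟶ Z)) :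
    ∃ g : ∀ m, Fin (n m) → (Z ⟶ F.S m),
      (∀ m i j, b m i ≫ g m j = if i = j then 𝟙 (F.S m) else 0) ∧ ∑ m, ∑ i, g m i ≫ b m i = 𝟙 Z := by
  choose g hg using fun m => exists_dual F Z m (n m) (b m)
  refine ⟨g, fun m i j => hg m j i, ?_⟩
  refine ext_left F fun m' h => ?_
  rw [Category.comp_id, Preadditive.comp_sum, Finset.sum_eq_single m']
  · have h1 : ∀ i, h ≫ g m' i = (b m').repr h i • 𝟙 (F.S m') := by
      intro i
      conv_lhs => rw [← (b m').sum_repr h]
      rw [Preadditive.sum_comp, Finset.sum_eq_single i]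
      · rw [Linear.smul_comp, hg m' i i, if_pos rfl]
      · intro l _ hl
        rw [Linear.smul_comp, hg m' i l, if_neg hl, smul_zero]
      · intro hi
        exact absurd (Finset.mem_univ i) hi
    rw [Preadditive.comp_sum]
    conv_rhs => rw [← (b m').sum_repr h]
    refine Finset.sum_congr rfl fun i _ => ?_
    rw [← Category.assoc, h1 i, Linear.smul_comp, Category.id_comp]
  · intro m _ hm
    rw [Preadditive.comp_sum]
    refine Finset.sum_eq_zero fun i _ => ?_
    rw [← Category.assoc, comp_zero' F (fun e => hm e.symm), Limits.zero_comp]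
  · intro hm
    exact absurd (Finset.mem_univ m') hm

end Pool.Agent.WGT
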