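import Pool.Agent.WGT.FroB

/-!
# WGT/StA: the two bracketings agree for stable systems

`stab_N2`: generators of `N2 L y (n a)`.  `stab_eq`: `N2 ≤ N1` by `mem_N1_of` and `stab_N2`; `N1 ≤ N2` by `mem_N2_of` and Frobenius
reciprocity over `O` for `y` (`frob`).  `stab_self`: associativity of the form.
-/

set_option autoImplicit false

noncomputable section

open CategoryTheory Bicategory

namespace Pool.Agent.WGT

open Pool.Agent.NFG

universe w₂ w₁ w₀ w

variable {K : Type w} [Field K] {B : Type w₀} [Bicategory.{w₂, w₁} B] [∀ a b : B, Preadditive (a ⟶ b)]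
  [∀ a b : B, Linear K (a ⟶ b)] [AddBi B] [LinBi K B] {ι : B → B → Type} [∀ a b, Fintype (ι a b)]
  [∀ a b, DecidableEq (ι a b)] {O : Subring K}

private def cP {p q : B} {A C D : p ⟶ q} (t : C ⟶ D) (L : Submodule O (A ⟶ D)) : Submodule O (A ⟶ C) where
  carrier := {h | h ≫ t ∈ L}
  add_mem' := by
    intro a b ha hb
    show (a + b) ≫ t ∈ L
    rw [Preadditive.add_comp]
    exact L.add_mem ha hb
  zero_mem' := by
    show (0 : A ⟶ C) ≫ t ∈ L
    rw [Limits.zero_comp]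
    exact L.zero_mem
  smul_mem' := by
    intro c h hh
    have h1 : (c • h : A ⟶ C) = (c : K) • h := rfl
    show (c • h) ≫ t ∈ L
    rw [h1, Linear.smul_comp]
    exact L.smul_mem c hh

theorem stab_N2 {F : Fus K B ι} {X Y Z : B} {E : Set (ι X X)} {A : Set (ι X Y)} {L : F.Sys O X X} {W : Y ⟶ Z} {n : ∀ a : ι X Y, F.Fam O (F.S a ≫ W)}
    (hn : Stab F E L A n) {y : ι X X} (hy : y ∈ E) {a a' : ι X Y} (ha : a ∈ A) (ha' : a' ∈ A) {b : F.S y ≫ F.S a ⟶ F.S a'}
    (hb : b ∈ F.dl (L y a a')) {m : ι X Z} {h : F.S m ⟶ F.S y ≫ (F.S a ≫ W)} (hh : h ∈ F.N2 L y (n a) m) :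
    h ≫ hab b W ∈ n a' m := by
  have key : F.N2 L y (n a) m ≤ cP (hab b W) (n a' m) := by
    refine N2_le ?_
    intro m' z f hz hf
    show (z ≫ (F.S y ◁ f)) ≫ hab b W ∈ n a' m
    rw [Category.assoc]
    exact hn.stab y hy a ha a' ha' b hb m' m f hf z hz
  exact key hh

theorem stab_eq {F : Fus K B ι} {sp : Sph F} {X Y Z : B} {E : Set (ι X X)} {A : Set (ι X Y)} {L : F.Sys O X X} (h : Ctx sp O E L)
    (hact : ∀ y ∈ E, ∀ a ∈ A, ∀ c, F.Occ y a c → c ∈ A) {W : Y ⟶ Z} {n : ∀ a : ι X Y, F.Fam O (F.S a ≫ W)}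
    (hn : Stab F E L A n) {y : ι X X} (hy : y ∈ E) {a : ι X Y} (ha : a ∈ A) : F.N1 L y a n = F.N2 L y (n a) := by
  funext m
  refine le_antisymm ?_ ?_
  · refine N1_le ?_
    intro a' x f hx hf
    by_cases hocc : F.Occ y a a'
    · have ha' : a' ∈ A := hact y hy a ha a' hocc
      refine mem_N2_of (fun m' => hn.lat a ha m') ?_
      intro m₀ g hg
      obtain ⟨c, hc, hfr⟩ := frob h hy
      rw [hfr m₀ m, sh_comp, sh_hat]
      obtain ⟨b', hb', hxb⟩ := (hfr a a' x).1 hx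
      rw [hxb, hab_smul, Linear.comp_smul, Linear.smul_comp]
      refine smul_mem_scl c ?_
      intro w hw
      have h1 := hn.stab (sp.st y) (h.sub.st y hy) a' ha' a ha b' hb' m m₀ f hf w hw
      obtain ⟨c', hc', h2⟩ := hg _ h1
      refine ⟨c', hc', ?_⟩
      rw [← h2]
      simp only [Category.assoc]
    · rw [not_occ F hocc x, hat_zero, Limits.comp_zero]
      exact Submodule.zero_mem _
  · intro h0 hh
    refine mem_N1_of (fun a' => h.int.lat y hy a a') ?_
    intro a₀ b hb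
    by_cases hocc : F.Occ y a a₀
    · exact stab_N2 hn hy ha (hact y hy a ha a₀ hocc) hb hh
    · rw [not_occ' F hocc b, hab_zero, Limits.comp_zero]
      exact Submodule.zero_mem _

theorem stab_self {F : Fus K B ι} {sp : Sph F} {X : B} {E : Set (ι X X)} {L : F.Sys O X X} (h : Ctx sp O E L) {Y : B} (v : ι X Y) :
    Stab F E L E (fun a => L a v) where
  lat a ha m := h.int.lat a ha v m
  stab := by
    intro y hy a ha a' ha' b hb m m' f hf z hz
    have h1 : z ≫ (F.S y ◁ f) ∈ F.N2 L y (L a v) m' := mem_N2 hz hf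
    rw [← h.int.assoc y hy a ha v] at h1
    have h2 := N1_dl h1 hb
    rw [Category.assoc] at h2
    exact h2

theorem stab_congr {F : Fus K B ι} {X Y Z : B} {E : Set (ι X X)} {A : Set (ι X Y)} {L L' : F.Sys O X X} (hL : ∀ y ∈ E, L' y = L y) {W : Y ⟶ Z}
    {n n' : ∀ a : ι X Y, F.Fam O (F.S a ≫ W)} (hn' : ∀ a ∈ A, n' a = n a) (hn : Stab F E L A n) : Stab F E L' A n' where
  lat := by
    intro a ha m
    rw [hn' a ha]
    exact hn.lat a ha m
  stab := by
    intro y hy a ha a' ha' b hb m m' f hf z hz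
    rw [hL y hy] at hb hz
    rw [hn' a ha] at hf
    rw [hn' a' ha']
    exact hn.stab y hy a ha a' ha' b hb m m' f hf z hz

theorem stab_scl {F : Fus K B ι} {X Y Z : B} {E : Set (ι X X)} {A : Set (ι X Y)} {L : F.Sys O X X} {W : Y ⟶ Z}
    {n : ∀ a : ι X Y, F.Fam O (F.S a ≫ W)} (hn : Stab F E L A n) {c : K} (hc : c ≠ 0) :
    Stab F E L A (fun a m => scl c (n a m)) where
  lat := by
    intro a ha m
    exact (hn.lat a ha m).scl hc
  stab := by
    intro y hy a ha a' ha' b hb m m' f hf z hz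
    obtain ⟨f0, hf0, rfl⟩ := hf
    have h1 : z ≫ (F.S y ◁ (c • f0)) ≫ hab b W = c • (z ≫ (F.S y ◁ f0) ≫ hab b W) := by
      rw [wl_smul, Linear.smul_comp, Linear.comp_smul]
    rw [h1]
    exact smul_mem_scl c (hn.stab y hy a ha a' ha' b hb m m' f0 hf0 z hz)

end Pool.Agent.WGT
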