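import Pool.Agent.WGT.StA

/-!
# WGT/StB: generation of stable systems, and associativity for dual lattices

`gen_pair`: `hA.conn` gives `y ∈ E` with `Occ y a₀ a`; `exists_pair` for the lattice `L y a₀ a`.
`gen`: `ν ≫ hat x W ∈ N1 L y a₀ n m = N2 L y (n a₀) m` (`mem_N1`, `stab_eq`); `ν ≫ hat x W ≫ hab b W = ν ≫ ((x ≫ b) ▷ W) = ν`.
`dl_assoc`: let `w ∈ L k a₀ a'`.  `w ≫ hat x (S a₀) ∈ N1 L y' y (fun k => L k a₀) a' = N2 L y' (L y a₀) a'` (`assoc`), then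
`≫ (S y' ◁ b) ∈ L y' a a'` by `N2_dl`, and `≫ b'` is a multiple of `𝟙` by a scalar in `O`.
-/

set_option autoImplicit false

noncomputable section

open CategoryTheory Bicategory

namespace Pool.Agent.WGT

open Pool.Agent.NFG

universe w₂ w₁ w₀ w

variable {K : Type w} [Field K] {B : Type w₀} [Bicategory.{w₂, w₁} B] [∀ a b : B, Preadditive (a ⟶ b)]
  [∀ a b : B, Linear K (a ⟶ b)] [AddBi B] [LinBi K B] {ι : B → B → Type} [∀ a b, Fintype (ι a b)]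
  [∀ a b, DecidableEq (ι a b)] {O : Subring K}

theorem gen_pair {F : Fus K B ι} {sp : Sph F} {X Y : B} {E : Set (ι X X)} {A : Set (ι X Y)} {L : F.Sys O X X} (h : Ctx sp O E L) (hA : IsOrb sp E A)
    {a₀ a : ι X Y} (ha₀ : a₀ ∈ A) (ha : a ∈ A) :
    ∃ y ∈ E, ∃ x ∈ L y a₀ a, ∃ b ∈ F.dl (L y a₀ a), x ≫ b = 𝟙 (F.S a) := by
  obtain ⟨y, hy, hocc⟩ := hA.conn a₀ ha₀ a ha
  obtain ⟨x, hx, b, hb, hxb⟩ := exists_pair F (h.int.lat y hy a₀ a) hocc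
  exact ⟨y, hy, x, hx, b, hb, hxb⟩

theorem gen {F : Fus K B ι} {sp : Sph F} {X Y Z : B} {E : Set (ι X X)} {A : Set (ι X Y)} {L : F.Sys O X X} (h : Ctx sp O E L) (hA : IsOrb sp E A)
    {W : Y ⟶ Z} {n : ∀ a : ι X Y, F.Fam O (F.S a ≫ W)} (hn : Stab F E L A n) {a₀ a : ι X Y} (ha₀ : a₀ ∈ A) (ha : a ∈ A) {y : ι X X}
    (hy : y ∈ E) {x : F.S a ⟶ F.S y ≫ F.S a₀} (hx : x ∈ L y a₀ a) {b : F.S y ≫ F.S a₀ ⟶ F.S a}
    (hxb : x ≫ b = 𝟙 (F.S a)) {m : ι X Z} {f : F.S m ⟶ F.S a ≫ W} (hf : f ∈ n a m) :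
    f ≫ hat x W ∈ F.N2 L y (n a₀) m ∧ (f ≫ hat x W) ≫ hab b W = f := by
  refine ⟨?_, ?_⟩
  · rw [← stab_eq h hA.act hn hy ha₀]
    exact mem_N1 hx hf
  · rw [Category.assoc, hat_hab, hxb, Bicategory.id_whiskerRight, Category.comp_id]

theorem dl_assoc {F : Fus K B ι} {sp : Sph F} {X Y : B} {E : Set (ι X X)} {L : F.Sys O X X} (h : Ctx sp O E L) {y' y : ι X X} (hy' : y' ∈ E)
    (hy : y ∈ E) {k : ι X X} {a₀ a a' : ι X Y} {x : F.S k ⟶ F.S y' ≫ F.S y} (hx : x ∈ L y' y k) {b : F.S y ≫ F.S a₀ ⟶ F.S a}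
    (hb : b ∈ F.dl (L y a₀ a)) {b' : F.S y' ≫ F.S a ⟶ F.S a'} (hb' : b' ∈ F.dl (L y' a a')) :
    hat x (F.S a₀) ≫ (F.S y' ◁ b) ≫ b' ∈ F.dl (L k a₀ a') := by
  intro w hw
  have h1 : w ≫ hat x (F.S a₀) ∈ F.N1 L y' y (fun k => L k a₀) a' := mem_N1 hx hw
  rw [h.int.assoc y' hy' y hy a₀] at h1
  have h2 := N2_dl h1 hb
  obtain ⟨c, hc, h3⟩ := hb' _ h2
  refine ⟨c, hc, ?_⟩
  rw [← h3]
  simp only [Category.assoc]

end Pool.Agent.WGT
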