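import Pool.Agent.WGT.TfD
import Pool.Agent.WGT.Mul
import Pool.Agent.WGT.Dua

/-!
# WGT/TfA: Morita contexts, combinatorics

`occ_st`: `mult_ne`, `mult_left`, `mult_right` (Mul): `mult i j k = mult (st i) k j = mult j (st k) (st i) =
mult (st j) (st i) (st k)`.  `dst_dst`, `st_mem_dst`: `st_st` (Mul).
`mor_orb`: `conn`: for `a, a' ∈ J` take `e` with `Occ a' (st a) e` (`exists_occ`); `occ_bend` gives `Occ e a a'`; `e ∈ E` by `inner`.
`ad`: `inner`.  `mor_symm`: `occ_st`, `st_st`, `right`, `left`, `inner'`, `inner` (rewrite `j` as `st (st j)`); no dimensions needed.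
-/

set_option autoImplicit false
set_option linter.unusedSectionVars false

noncomputable section

open CategoryTheory Bicategory

namespace Pool.Agent.WGT

open Pool.Agent.NFG

universe w₂ w₁ w₀ w

variable {K : Type w} [Field K] {B : Type w₀} [Bicategory.{w₂, w₁} B] [∀ a b : B, Preadditive (a ⟶ b)]
  [∀ a b : B, Linear K (a ⟶ b)] [AddBi B] [LinBi K B] {ι : B → B → Type} [∀ a b, Fintype (ι a b)]
  [∀ a b, DecidableEq (ι a b)] {O : Subring K}

/-- duals of products -/
theorem occ_st {F : Fus K B ι} (sp : Sph F) {p q r : B} {i : ι p q} {j : ι q r} {k : ι p r} (h : F.Occ i j k) :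
    F.Occ (sp.st j) (sp.st i) (sp.st k) := by
  rw [← mult_ne] at h ⊢
  rwa [← mult_left sp, ← mult_right sp, ← mult_left sp]

theorem dst_dst {F : Fus K B ι} (sp : Sph F) {x y : B} (J : Set (ι x y)) : dst sp (dst sp J) = J := by
  ext a
  show sp.st (sp.st a) ∈ J ↔ a ∈ J
  rw [st_st]

theorem st_mem_dst {F : Fus K B ι} (sp : Sph F) {x y : B} {J : Set (ι x y)} {a : ι x y} (ha : a ∈ J) :
    sp.st a ∈ dst sp J := by
  show sp.st (sp.st a) ∈ J
  rwa [st_st]

theorem mor_orb {F : Fus K B ι} {sp : Sph F} {x y : B} {E : Set (ι x x)} {J : Set (ι x y)} {E' : Set (ι y y)}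
    (hd : ∀ {p q : B} (i : ι p q), sp.d i ≠ 0) (h : IsMor sp E J E') : IsOrb sp E J := by
  refine ⟨h.ne, h.left, ?_, fun a ha e he => h.inner a ha a ha e he⟩
  intro a ha a' ha'
  obtain ⟨e, he⟩ := exists_occ sp hd a' (sp.st a)
  exact ⟨e, h.inner a' ha' a ha e he, occ_bend sp he⟩

theorem mor_symm {F : Fus K B ι} {sp : Sph F} {x y : B} {E : Set (ι x x)} {J : Set (ι x y)} {E' : Set (ι y y)}
    (h : IsMor sp E J E') : IsMor sp E' (dst sp J) E := by
  obtain ⟨j, hj⟩ := h.ne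
  refine ⟨h.sub', h.sub, ⟨sp.st j, st_mem_dst sp hj⟩, ?_, ?_, ?_, ?_⟩
  · intro e he a ha c hc
    exact h.right _ ha _ (h.sub'.st e he) _ (occ_st sp hc)
  · intro a ha e he c hc
    exact h.left _ (h.sub.st e he) _ ha _ (occ_st sp hc)
  · intro a ha a' ha' c hc
    refine h.inner' _ ha _ ha' c ?_
    rwa [st_st]
  · intro a ha a' ha' c hc
    refine h.inner _ ha _ ha' c ?_
    rwa [st_st]

end Pool.Agent.WGT
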