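import Pool.Agent.WGT.NlB

/-!
# WGT/Uf: the lattices for the unit object

`lf v m = {f : S m ⟶ S o ≫ S v | f ≫ lami v ∈ sd v m}`, `rf v m = {f : S m ⟶ S v ≫ S o | f ≫ rhoi v ∈ sd v m}`.
`lf_self`: `f = (f ≫ lami v) ≫ lam v`.  `lf_lat`: `lat_comp` with the isomorphism `S v ≅ S o ≫ S v`.
`eq_lf`: for `m = v` by `lf_self`; for `m ≠ v` both sides live in the zero space (`f = (f ≫ lami v) ≫ lam v = 0`).
`N1_rf`: with `L a o = rf a`: `x ∈ rf a a'` is `0` unless `a' = a` and `x = c • rho a`; `hat (rho a) (S v) = S a ◁ lam v`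
(`hat_rho`), so `N1 L a o (fun k => L k v) m = {f ≫ (S a ◁ lam v) | f ∈ L a v m} = N2 L a (lf v) m`.
`N1_rf_right`: `f ∈ rf k m` is `0` unless `m = k`, `f = c • rho k`, and `rho k ≫ hat x (S o) = x ≫ (S a ◁ rho y)`
(`rho_hat`); in `N2 L a (rf y) m` the element `z ≫ (S a ◁ f)`, `f ∈ rf y m'`, is `0` unless `m' = y`, `f = c • rho y`.
`stab_rf`: `(S y ◁ rho a) ≫ hab b (S o) = b ≫ rho a'` (`rho_hab`), `z ≫ b ∈ O • 𝟙` or `0`; `rf_lat`.
-/

set_option autoImplicit false

noncomputable section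

open CategoryTheory Bicategory

namespace Pool.Agent.WGT

open Pool.Agent.NFG

universe w₂ w₁ w₀ w

variable {K : Type w} [Field K] {B : Type w₀} [Bicategory.{w₂, w₁} B] [∀ a b : B, Preadditive (a ⟶ b)]
  [∀ a b : B, Linear K (a ⟶ b)] [AddBi B] [LinBi K B] {ι : B → B → Type} [∀ a b, Fintype (ι a b)]
  [∀ a b, DecidableEq (ι a b)] {O : Subring K}

/-- the lattices `O • lam v` -/
def Fus.lf (F : Fus K B ι) (O : Subring K) {X Y : B} (v : ι X Y) : F.Fam O (F.S (F.o X) ≫ F.S v) := fun m =>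
  { carrier := {f | f ≫ F.lami v ∈ F.sd O v m}
    add_mem' := by
      intro f g hf hg
      simp only [Set.mem_setOf_eq, Preadditive.add_comp] at hf hg ⊢
      exact Submodule.add_mem _ hf hg
    zero_mem' := by simp
    smul_mem' := by
      intro c f hf
      have h1 : (c • f : F.S m ⟶ F.S (F.o X) ≫ F.S v) = (c : K) • f := rfl
      simp only [Set.mem_setOf_eq, h1, Linear.smul_comp] at hf ⊢
      exact Submodule.smul_mem _ c hf }

/-- the lattices `O • rho v` -/
def Fus.rf (F : Fus K B ι) (O : Subring K) {X Y : B} (v : ι X Y) : F.Fam O (F.S v ≫ F.S (F.o Y)) := fun m =>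
  { carrier := {f | f ≫ F.rhoi v ∈ F.sd O v m}
    add_mem' := by
      intro f g hf hg
      simp only [Set.mem_setOf_eq, Preadditive.add_comp] at hf hg ⊢
      exact Submodule.add_mem _ hf hg
    zero_mem' := by simp
    smul_mem' := by
      intro c f hf
      have h1 : (c • f : F.S m ⟶ F.S v ≫ F.S (F.o Y)) = (c : K) • f := rfl
      simp only [Set.mem_setOf_eq, h1, Linear.smul_comp] at hf ⊢
      exact Submodule.smul_mem _ c hf }

private theorem lf_zero (F : Fus K B ι) {X Y : B} {v m : ι X Y} (h : m ≠ v) (f : F.S m ⟶ F.S (F.o X) ≫ F.S v) : f = 0 := by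
  have h1 : f ≫ F.lami v = 0 := F.hom_zero m v h _
  calc f = (f ≫ F.lami v) ≫ F.lam v := by rw [Category.assoc, lami_lam, Category.comp_id]
    _ = 0 := by rw [h1, Limits.zero_comp]

private theorem rf_zero (F : Fus K B ι) {X Y : B} {v m : ι X Y} (h : m ≠ v) (f : F.S m ⟶ F.S v ≫ F.S (F.o Y)) : f = 0 := by
  have h1 : f ≫ F.rhoi v = 0 := F.hom_zero m v h _
  calc f = (f ≫ F.rhoi v) ≫ F.rho v := by rw [Category.assoc, rhoi_rho, Category.comp_id]
    _ = 0 := by rw [h1, Limits.zero_comp]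

private theorem osmul (c : O) {p q : B} {X Y : p ⟶ q} (f : X ⟶ Y) : (c • f : X ⟶ Y) = (c : K) • f := rfl

theorem lf_self (F : Fus K B ι) {X Y : B} (v : ι X Y) : F.lf O v v = Submodule.span O {F.lam v} := by
  ext f
  rw [Submodule.mem_span_singleton]
  change f ≫ F.lami v ∈ F.sd O v v ↔ _
  rw [sd_self, Submodule.mem_span_singleton]
  constructor
  · rintro ⟨c, hc⟩
    refine ⟨c, ?_⟩
    have h1 : f = (f ≫ F.lami v) ≫ F.lam v := by rw [Category.assoc, lami_lam, Category.comp_id]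
    rw [h1, ← hc, osmul, osmul, Linear.smul_comp, Category.id_comp]
  · rintro ⟨c, rfl⟩
    exact ⟨c, by rw [osmul, osmul, Linear.smul_comp, lam_lami]⟩

theorem rf_self (F : Fus K B ι) {X Y : B} (v : ι X Y) : F.rf O v v = Submodule.span O {F.rho v} := by
  ext f
  rw [Submodule.mem_span_singleton]
  change f ≫ F.rhoi v ∈ F.sd O v v ↔ _
  rw [sd_self, Submodule.mem_span_singleton]
  constructor
  · rintro ⟨c, hc⟩
    refine ⟨c, ?_⟩
    have h1 : f = (f ≫ F.rhoi v) ≫ F.rho v := by rw [Category.assoc, rhoi_rho, Category.comp_id]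
    rw [h1, ← hc, osmul, osmul, Linear.smul_comp, Category.id_comp]
  · rintro ⟨c, rfl⟩
    exact ⟨c, by rw [osmul, osmul, Linear.smul_comp, rho_rhoi]⟩

private theorem lam_mem (F : Fus K B ι) {X Y : B} (v : ι X Y) : F.lam v ∈ F.lf O v v := by
  rw [lf_self]
  exact Submodule.mem_span_singleton_self _

private theorem rho_mem (F : Fus K B ι) {X Y : B} (v : ι X Y) : F.rho v ∈ F.rf O v v := by
  rw [rf_self]
  exact Submodule.mem_span_singleton_self _

theorem lf_lat (F : Fus K B ι) {X Y : B} (v m : ι X Y) : IsLat O (F.lf O v m) :=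
  lat_comp F (⟨F.lam v, F.lami v, lam_lami F v, lami_lam F v⟩ : F.S v ≅ F.S (F.o X) ≫ F.S v) (sd_lat F v m) _
    fun _ => Iff.rfl

theorem rf_lat (F : Fus K B ι) {X Y : B} (v m : ι X Y) : IsLat O (F.rf O v m) :=
  lat_comp F (⟨F.rho v, F.rhoi v, rho_rhoi F v, rhoi_rho F v⟩ : F.S v ≅ F.S v ≫ F.S (F.o Y)) (sd_lat F v m) _
    fun _ => Iff.rfl

theorem eq_lf (F : Fus K B ι) {X Y : B} {v : ι X Y} {n : F.Fam O (F.S (F.o X) ≫ F.S v)} (h : n v = Submodule.span O {F.lam v}) :
    n = F.lf O v := by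
  funext m
  by_cases hm : m = v
  · subst hm
    rw [h, lf_self]
  · ext f
    rw [lf_zero F hm f]
    exact ⟨fun _ => Submodule.zero_mem _, fun _ => Submodule.zero_mem _⟩

theorem eq_rf (F : Fus K B ι) {X Y : B} {v : ι X Y} {n : F.Fam O (F.S v ≫ F.S (F.o Y))} (h : n v = Submodule.span O {F.rho v}) :
    n = F.rf O v := by
  funext m
  by_cases hm : m = v
  · subst hm
    rw [h, rf_self]
  · ext f
    rw [rf_zero F hm f]
    exact ⟨fun _ => Submodule.zero_mem _, fun _ => Submodule.zero_mem _⟩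

private theorem rf_form (F : Fus K B ι) {X Y : B} {v : ι X Y} {f : F.S v ⟶ F.S v ≫ F.S (F.o Y)} (h : f ∈ F.rf O v v) :
    ∃ c : O, f = (c : K) • F.rho v := by
  rw [rf_self, Submodule.mem_span_singleton] at h
  obtain ⟨c, rfl⟩ := h
  exact ⟨c, osmul c _⟩

private theorem lf_form (F : Fus K B ι) {X Y : B} {v : ι X Y} {f : F.S v ⟶ F.S (F.o X) ≫ F.S v} (h : f ∈ F.lf O v v) :
    ∃ c : O, f = (c : K) • F.lam v := by
  rw [lf_self, Submodule.mem_span_singleton] at h
  obtain ⟨c, rfl⟩ := h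
  exact ⟨c, osmul c _⟩

theorem N1_rf {F : Fus K B ι} {X Y Z : B} {L : F.Sys O X Y} {a : ι X Y} {v : ι Y Z} (h : L a (F.o Y) = F.rf O a) :
    F.N1 L a (F.o Y) (fun k => L k v) = F.N2 L a (F.lf O v) := by
  funext m
  apply le_antisymm
  · refine N1_le fun a' x f hx hf => ?_
    rw [h] at hx
    by_cases ha : a' = a
    · subst ha
      obtain ⟨c, rfl⟩ := rf_form F hx
      rw [hat_smul, hat_rho, Linear.comp_smul]
      exact Submodule.smul_mem _ c (mem_N2 hf (lam_mem F v))
    · rw [rf_zero F ha x, hat_zero, Limits.comp_zero]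
      exact Submodule.zero_mem _
  · refine N2_le fun m' z f hz hf => ?_
    by_cases hm : m' = v
    · subst hm
      obtain ⟨c, rfl⟩ := lf_form F hf
      rw [comp_whisker_smul, ← hat_rho]
      refine Submodule.smul_mem _ c (mem_N1 (L := L) ?_ hz)
      rw [h]
      exact rho_mem F a
    · rw [lf_zero F hm f, wl_zero, Limits.comp_zero]
      exact Submodule.zero_mem _

theorem N1_rf_right {F : Fus K B ι} {X Y Z : B} {L : F.Sys O X Y} {a : ι X Y} {y : ι Y Z}
    {n : ∀ k : ι X Z, F.Fam O (F.S k ≫ F.S (F.o Z))}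
    (h : ∀ k, F.Occ a y k → n k = F.rf O k) : F.N1 L a y n = F.N2 L a (F.rf O y) := by
  funext m
  apply le_antisymm
  · refine N1_le fun a' x f hx hf => ?_
    by_cases hx0 : x = 0
    · rw [hx0, hat_zero, Limits.comp_zero]
      exact Submodule.zero_mem _
    · rw [h a' ⟨x, hx0⟩] at hf
      by_cases hm : m = a'
      · subst hm
        obtain ⟨c, rfl⟩ := rf_form F hf
        rw [Linear.smul_comp, rho_hat]
        exact Submodule.smul_mem _ c (mem_N2 hx (rho_mem F y))
      · rw [rf_zero F hm f, Limits.zero_comp]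
        exact Submodule.zero_mem _
  · refine N2_le fun m' z f hz hf => ?_
    by_cases hm : m' = y
    · subst hm
      obtain ⟨c, rfl⟩ := rf_form F hf
      rw [comp_whisker_smul, ← rho_hat]
      by_cases hz0 : z = 0
      · rw [hz0, hat_zero, Limits.comp_zero, smul_zero]
        exact Submodule.zero_mem _
      · refine Submodule.smul_mem _ c (mem_N1 hz ?_)
        rw [h m ⟨z, hz0⟩]
        exact rho_mem F m
    · rw [rf_zero F hm f, wl_zero, Limits.comp_zero]
      exact Submodule.zero_mem _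

theorem stab_rf {F : Fus K B ι} {X Y : B} {L : F.Sys O X X} {E : Set (ι X X)} {A : Set (ι X Y)} : Stab F E L A (fun a => F.rf O a) where
  lat := fun a _ m => rf_lat F a m
  stab := by
    intro y _ a _ a' _ b hb m m' f hf z hz
    by_cases hm : m = a
    · subst hm
      obtain ⟨c, rfl⟩ := rf_form F hf
      rw [wl_smul, Linear.smul_comp, Linear.comp_smul, rho_hab]
      refine Submodule.smul_mem _ c ?_
      rw [← Category.assoc]
      by_cases hm' : m' = a'
      · subst hm'
        obtain ⟨c', hc', h1⟩ := hb z hz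
        rw [h1, Linear.smul_comp, Category.id_comp]
        exact Submodule.smul_mem _ (⟨c', hc'⟩ : O) (rho_mem F m')
      · rw [F.hom_zero m' a' hm' (z ≫ b), Limits.zero_comp]
        exact Submodule.zero_mem _
    · rw [rf_zero F hm f, wl_zero, Limits.zero_comp, Limits.comp_zero]
      exact Submodule.zero_mem _

end Pool.Agent.WGT
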