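import Pool.Agent.WGT.TfA
import Pool.Agent.WGT.StC
import Pool.Agent.WGT.CRb
import Pool.Agent.WGT.Uf

/-!
# WGT/TfB: stable systems on a Morita context exist

`mix_scl`: `stab_scl` (StA) with the constant `κ v` for fixed `v`; `uR`: `scl_unit`, `scl_span_singleton`.  `mix_congr`: `stab_congr`.
`exists_mix`: choose for every `c` and `v : ι y c` a stable system `n v` on `S v` (`exists_stab`, StC), `R₀ a v := n v a`.
`rf` is stable (`stab_rf`, Uf), so `uni` (CRb, reference system `R₀`, `v = o`) gives `t ≠ 0` with `rf a m = scl t (R₀ a o m)`, `a ∈ J`.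
Let `κ v = t` if `(⟨c, v⟩ : Σ c, ι y c) = ⟨y, F.o y⟩` and `κ v = 1` otherwise, `R a v m := scl (κ v) (R₀ a v m)`: stable by
`stab_scl`, and `R a o a = rf a a = span {rho a}` (`rf_self`).
-/

set_option autoImplicit false
set_option linter.unusedSectionVars false

noncomputable section

open CategoryTheory Bicategory

namespace Pool.Agent.WGT

open Pool.Agent.NFG

universe w₂ w₁ w₀ w

variable {K : Type w} [Field K] {B : Type w₀} [Bicategory.{w₂, w₁} B] [∀ a b : B, Preadditive (a ⟶ b)]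
  [∀ a b : B, Linear K (a ⟶ b)] [AddBi B] [LinBi K B] {ι : B → B → Type} [∀ a b, Fintype (ι a b)]
  [∀ a b, DecidableEq (ι a b)] {O : Subring K}

theorem mix_scl {F : Fus K B ι} {sp : Sph F} {x y : B} {E : Set (ι x x)} {J : Set (ι x y)} {L : F.Sys O x x}
    {R : F.Sys O x y} (h : Mix sp O E J L R) {κ : ∀ ⦃c : B⦄, ι y c → K} (hκ : ∀ (c : B) (v : ι y c), κ v ≠ 0)
    (ho : IsU O (κ (F.o y))) : Mix sp O E J L (fun a _ v m => scl (κ v) (R a v m)) := by
  refine ⟨h.ctx, h.orb, ?_, fun v => stab_scl (h.st v) (hκ _ v)⟩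
  intro a ha
  show scl (κ (F.o y)) (R a (F.o y) a) = _
  rw [scl_unit ho, h.uR a ha]

theorem mix_congr {F : Fus K B ι} {sp : Sph F} {x y : B} {E : Set (ι x x)} {J : Set (ι x y)} {L : F.Sys O x x}
    {R R' : F.Sys O x y} (h : Mix sp O E J L R) (he : ∀ a ∈ J, R' a = R a) : Mix sp O E J L R' := by
  refine ⟨h.ctx, h.orb, ?_, fun v => stab_congr (fun _ _ => rfl) (fun a ha => ?_) (h.st v)⟩
  · intro a ha
    rw [he a ha, h.uR a ha]
  · show R' a v = R a v
    rw [he a ha]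

theorem exists_mix {F : Fus K B ι} {sp : Sph F} {x y : B} {E : Set (ι x x)} {J : Set (ι x y)} {L : F.Sys O x x}
    (h : Ctx sp O E L) (hJ : IsOrb sp E J) : ∃ R : F.Sys O x y, Mix sp O E J L R := by
  classical
  choose n hn using fun (s : Σ c : B, ι y c) => exists_stab h hJ (F.S s.2)
  obtain ⟨R₀, hR₀⟩ : ∃ R₀ : F.Sys O x y, ∀ {c : B} (v : ι y c), Stab F E L J (fun a => R₀ a v) :=
    ⟨fun a c v => n ⟨c, v⟩ a, fun {c} v => hn ⟨c, v⟩⟩
  obtain ⟨t, ht, h1⟩ := uni (R := R₀) h hJ hR₀ (v := F.o y) (n := fun a => F.rf O a) stab_rf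
  let κ : ∀ ⦃c : B⦄, ι y c → K := fun c v => if (⟨c, v⟩ : Σ c : B, ι y c) = ⟨y, F.o y⟩ then t else 1
  have hκ : ∀ (c : B) (v : ι y c), κ v ≠ 0 := by
    intro c v
    show (if (⟨c, v⟩ : Σ c : B, ι y c) = ⟨y, F.o y⟩ then t else 1) ≠ 0
    split_ifs
    · exact ht
    · exact one_ne_zero
  have hκo : κ (F.o y) = t := if_pos rfl
  refine ⟨fun a _ v m => scl (κ v) (R₀ a v m), h, hJ, ?_, fun v => stab_scl (hR₀ v) (hκ _ v)⟩
  intro a ha
  show scl (κ (F.o y)) (R₀ a (F.o y) a) = _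
  rw [hκo, ← h1 a ha a]
  exact rf_self F a

end Pool.Agent.WGT
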