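import Pool.Agent.WGT.TfB
import Pool.Agent.WGT.NlB

/-!
# WGT/TfC: `N1 R a e (fun k => R k v)` is stable in `a`

This is `stab_N1` of `Pool.Agent.NFG.M2a` (see also the port in WGT/M2a): the same proof, with `R` instead of `L` for the
lattices `R a e k`, `R k v m`, and `L` for the action of `y ∈ E`; `k ∈ J` for `Occ a e k` by `hm.right`, and
`k' ∈ J` for `Occ y k k'` by `hm.left`; `h.st e`, `h.st v` instead of `h.st q b`, `h.st (deg k) v`.
-/

set_option autoImplicit false
set_option linter.unusedSectionVars false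

noncomputable section

open CategoryTheory Bicategory

namespace Pool.Agent.WGT

open Pool.Agent.NFG

universe w₂ w₁ w₀ w

variable {K : Type w} [Field K] {B : Type w₀} [Bicategory.{w₂, w₁} B] [∀ a b : B, Preadditive (a ⟶ b)]
  [∀ a b : B, Linear K (a ⟶ b)] [AddBi B] [LinBi K B] {ι : B → B → Type} [∀ a b, Fintype (ι a b)]
  [∀ a b, DecidableEq (ι a b)] {O : Subring K}

private def stP {F : Fus K B ι} {X Y T : B} {y : ι X Y} {m : ι Y T} {m' : ι X T} {W : Y ⟶ T} {Z : X ⟶ T}
    (z : F.S m' ⟶ F.S y ≫ F.S m) (t : F.S y ≫ W ⟶ Z)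
    (P : Submodule O (F.S m' ⟶ Z)) : Submodule O (F.S m ⟶ W) where
  carrier := {f | z ≫ (F.S y ◁ f) ≫ t ∈ P}
  add_mem' := by
    intro f f' hf hf'
    show z ≫ (F.S y ◁ (f + f')) ≫ t ∈ P
    rw [wl_add, Preadditive.add_comp, Preadditive.comp_add]
    exact P.add_mem hf hf'
  zero_mem' := by
    show z ≫ (F.S y ◁ (0 : F.S m ⟶ W)) ≫ t ∈ P
    rw [wl_zero, Limits.zero_comp, Limits.comp_zero]
    exact P.zero_mem
  smul_mem' := by
    intro c f hf
    have h1 : (c • f : F.S m ⟶ W) = (c : K) • f := rfl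
    show z ≫ (F.S y ◁ (c • f)) ≫ t ∈ P
    rw [h1, wl_smul, Linear.smul_comp, Linear.comp_smul]
    exact P.smul_mem c hf

private theorem hat_zero' {p q r s : B} {A : p ⟶ r} {Y : p ⟶ q} {D : q ⟶ r} (W : r ⟶ s) :
    hat (0 : A ⟶ Y ≫ D) W = 0 := by
  unfold hat
  rw [wr_zero, Limits.zero_comp]

theorem mix_N1 {F : Fus K B ι} {sp : Sph F} {x y : B} {E : Set (ι x x)} {J : Set (ι x y)} {E' : Set (ι y y)}
    (hm : IsMor sp E J E') {L : F.Sys O x x} {R : F.Sys O x y} (h : Mix sp O E J L R) {e : ι y y} (he : e ∈ E')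
    {c : B} (v : ι y c) : Stab F E L J (fun a => F.N1 R a e (fun k => R k v)) := by
  refine ⟨?_, ?_⟩
  · intro a ha m
    refine lat_N1 h.ctx.val (fun k => (h.st e).lat a ha k) fun k hk => ?_
    exact (h.st v).lat k (hm.right a ha e he k hk) m
  · intro y hy a ha a' ha' β hβ m m' f hf z hz
    have key : F.N1 R a e (fun k => R k v) m ≤ stP z (hab β (F.S e ≫ F.S v))
        (F.N1 R a' e (fun k => R k v) m') := by
      refine N1_le ?_
      intro k x f₀ hx hf₀
      show z ≫ (F.S y ◁ (f₀ ≫ hat x (F.S v))) ≫ hab β (F.S e ≫ F.S v) ∈ F.N1 R a' e (fun k => R k v) m'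
      by_cases hx0 : x = 0
      · rw [hx0, hat_zero', Limits.comp_zero, wl_zero, Limits.zero_comp,
          Limits.comp_zero]
        exact Submodule.zero_mem _
      have hok : F.Occ a e k := ⟨x, hx0⟩
      have hkE : k ∈ J := hm.right a ha e he k hok
      obtain ⟨N, w, g, hw, hgd, -, hs⟩ := latdec F (fun k' => L y k k') (fun k' => h.ctx.int.lat y hy k k')
      have e1 : (F.S y ◁ hat x (F.S v)) ≫ hab β (F.S e ≫ F.S v) =
          ∑ k', ∑ i, hab (g k' i) (F.S v) ≫ hat (w k' i ≫ (F.S y ◁ x) ≫ hab β (F.S e)) (F.S v) := by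
        have e2 : ∀ k' i, hab (g k' i) (F.S v) ≫ hat (w k' i ≫ (F.S y ◁ x) ≫ hab β (F.S e)) (F.S v) =
            (α_ (F.S y) (F.S k) (F.S v)).inv ≫ ((g k' i ≫ w k' i) ▷ F.S v) ≫
              ((α_ (F.S y) (F.S k) (F.S v)).hom ≫ (F.S y ◁ hat x (F.S v)) ≫ hab β (F.S e ≫ F.S v)) := by
          intro k' i
          rw [hab_hat_mid, Category.assoc, Category.assoc]
        simp only [e2]
        have e3 : (F.S y ◁ hat x (F.S v)) ≫ hab β (F.S e ≫ F.S v) =
            (α_ (F.S y) (F.S k) (F.S v)).inv ≫ ((𝟙 (F.S y ≫ F.S k)) ▷ F.S v) ≫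
              ((α_ (F.S y) (F.S k) (F.S v)).hom ≫ (F.S y ◁ hat x (F.S v)) ≫ hab β (F.S e ≫ F.S v)) := by
          rw [Bicategory.id_whiskerRight, Category.id_comp, Iso.inv_hom_id_assoc]
        rw [← hs] at e3
        rw [wr_sum, Preadditive.sum_comp, Preadditive.comp_sum] at e3
        refine e3.trans (Finset.sum_congr rfl fun k' _ => ?_)
        rw [wr_sum, Preadditive.sum_comp, Preadditive.comp_sum]
      rw [Bicategory.whiskerLeft_comp, Category.assoc, e1, Preadditive.comp_sum, Preadditive.comp_sum]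
      refine Submodule.sum_mem _ fun k' _ => ?_
      rw [Preadditive.comp_sum, Preadditive.comp_sum]
      refine Submodule.sum_mem _ fun i _ => ?_
      by_cases hw0 : w k' i = 0
      · rw [hw0, Limits.zero_comp, hat_zero', Limits.comp_zero, Limits.comp_zero, Limits.comp_zero]
        exact Submodule.zero_mem _
      · have hok' : F.Occ y k k' := ⟨w k' i, hw0⟩
        have hk'E : k' ∈ J := hm.left y hy k hkE k' hok'
        have m1 : w k' i ≫ (F.S y ◁ x) ≫ hab β (F.S e) ∈ R a' e k' :=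
          (h.st e).stab y hy a ha a' ha' β hβ k k' x hx (w k' i) (hw k' i)
        have m2 : z ≫ (F.S y ◁ f₀) ≫ hab (g k' i) (F.S v) ∈ R k' v m' :=
          (h.st v).stab y hy k hkE k' hk'E (g k' i) (hgd k' i) m m' f₀ hf₀ z hz
        have m3 := mem_N1 (F := F) (L := R) (n := fun k => R k v) m1 m2
        rw [Category.assoc, Category.assoc] at m3
        exact m3
    exact key hf

end Pool.Agent.WGT
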