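import Pool.Agent.WGT.Defs

/-!
# WGT/TfD: Morita transfer, definitions

`Mix`, `tq`, `Bi`.
-/

set_option autoImplicit false
set_option linter.unusedSectionVars false

noncomputable section

open CategoryTheory Bicategory

namespace Pool.Agent.WGT

open Pool.Agent.NFG

universe w₂ w₁ w₀ w

variable {K : Type w} [Field K] {B : Type w₀} [Bicategory.{w₂, w₁} B] [∀ a b : B, Preadditive (a ⟶ b)]
  [∀ a b : B, Linear K (a ⟶ b)] [AddBi B] [LinBi K B] {ι : B → B → Type} [∀ a b, Fintype (ι a b)]
  [∀ a b, DecidableEq (ι a b)] {O : Subring K}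

/-- the set of duals -/
def dst {F : Fus K B ι} (sp : Sph F) {x y : B} (J : Set (ι x y)) : Set (ι y x) := {a | sp.st a ∈ J}

/-- `R a v`, `a ∈ J`, are lattices which are stable under the action of the `O`-form `L` of `E` from the left. -/
structure Mix {F : Fus K B ι} (sp : Sph F) (O : Subring K) {x y : B} (E : Set (ι x x)) (J : Set (ι x y))
    (L : F.Sys O x x) (R : F.Sys O x y) : Prop where
  ctx : Ctx sp O E L
  orb : IsOrb sp E J
  uR : ∀ a ∈ J, R a (F.o y) a = Submodule.span O {F.rho a}
  st : ∀ {c : B} (v : ι y c), Stab F E L J (fun a => R a v)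

/-- The system on the other side of the Morita context: `R a e (S v) = S a ≫ (tq R a e v)`. -/
def tq {F : Fus K B ι} {x y : B} (R : F.Sys O x y) (a : ι x y) : F.Sys O y y :=
  fun e _ v => F.ql R a (F.N1 R a e (fun k => R k v))

/-- The lattices `R` are compatible with the action of the `O`-form `M` of `E'` from the right. -/
def Bi (F : Fus K B ι) {x y : B} (J : Set (ι x y)) (E' : Set (ι y y)) (R : F.Sys O x y) (M : F.Sys O y y) : Prop :=
  ∀ a ∈ J, ∀ e ∈ E', ∀ {c : B} (v : ι y c), F.N1 R a e (fun k => R k v) = F.N2 R a (M e v)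

end Pool.Agent.WGT
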