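import Pool.Agent.WGT.TfC
import Pool.Agent.WGT.CRb
import Pool.Agent.WGT.Uf

/-!
# WGT/TfE: the form on the other side of a Morita context

As `tq_spec`, `tq_indep`, `tq_lat`, `tq_unitL`, `tq_unitR` in `Pool.Agent.NFG.M2b`: `cr`, `ql_indep`, `ql_lat`, `ql_unique` (CRb, CRa)
for the reference system `R` (`hst := h.st`), `hA := h.orb`, `hn := mix_N1 hm h he v`; `N1_rf`, `N1_rf_right`, `eq_rf`, `lf_lat`, `rf_lat`,
`lf_self`, `rf_self` (Uf).
-/

set_option autoImplicit false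
set_option linter.unusedSectionVars false

noncomputable section

open CategoryTheory Bicategory

namespace Pool.Agent.WGT

open Pool.Agent.NFG

universe w₂ w₁ w₀ w

variable {K : Type w} [Field K] {B : Type w₀} [Bicategory.{w₂, w₁} B] [∀ a b : B, Preadditive (a ⟶ b)]
  [∀ a b : B, Linear K (a ⟶ b)] [AddBi B] [LinBi K B] {ι : B → B → Type} [∀ a b, Fintype (ι a b)]
  [∀ a b, DecidableEq (ι a b)] {O : Subring K}

theorem tq_spec {F : Fus K B ι} {sp : Sph F} {x y : B} {E : Set (ι x x)} {J : Set (ι x y)} {E' : Set (ι y y)}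
    (hm : IsMor sp E J E') {L : F.Sys O x x} {R : F.Sys O x y} (h : Mix sp O E J L R) {a : ι x y} (ha : a ∈ J)
    {e : ι y y} (he : e ∈ E') {c : B} (v : ι y c) : F.N1 R a e (fun k => R k v) = F.N2 R a (tq R a e v) := by
  exact cr h.ctx h.orb h.st (mix_N1 hm h he v) ha

theorem tq_indep {F : Fus K B ι} {sp : Sph F} {x y : B} {E : Set (ι x x)} {J : Set (ι x y)} {E' : Set (ι y y)}
    (hm : IsMor sp E J E') {L : F.Sys O x x} {R : F.Sys O x y} (h : Mix sp O E J L R) {a a' : ι x y} (ha : a ∈ J)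
    (ha' : a' ∈ J) {e : ι y y} (he : e ∈ E') {c : B} (v : ι y c) : tq R a e v = tq R a' e v := by
  exact ql_indep h.ctx h.orb h.st (mix_N1 hm h he v) ha ha'

theorem tq_lat {F : Fus K B ι} {sp : Sph F} {x y : B} {E : Set (ι x x)} {J : Set (ι x y)} {E' : Set (ι y y)}
    (hm : IsMor sp E J E') {L : F.Sys O x x} {R : F.Sys O x y} (h : Mix sp O E J L R) {a : ι x y} (ha : a ∈ J)
    {e : ι y y} (he : e ∈ E') {c : B} (v m : ι y c) : IsLat O (tq R a e v m) := by
  exact ql_lat h.ctx h.orb h.st (mix_N1 hm h he v) ha m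

theorem tq_unitL {F : Fus K B ι} {sp : Sph F} {x y : B} {E : Set (ι x x)} {J : Set (ι x y)} {E' : Set (ι y y)}
    (hm : IsMor sp E J E') {L : F.Sys O x x} {R : F.Sys O x y} (h : Mix sp O E J L R) {a : ι x y} (ha : a ∈ J)
    {c : B} (v : ι y c) : tq R a (F.o y) v v = Submodule.span O {F.lam v} := by
  have h1 : tq R a (F.o y) v = F.lf O v :=
    ql_unique h.ctx h.orb h.st (mix_N1 hm h hm.sub'.one v) ha (fun m => lf_lat F v m) (N1_rf (eq_rf F (h.uR a ha)))
  rw [h1]
  exact lf_self F v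

theorem tq_unitR {F : Fus K B ι} {sp : Sph F} {x y : B} {E : Set (ι x x)} {J : Set (ι x y)} {E' : Set (ι y y)}
    (hm : IsMor sp E J E') {L : F.Sys O x x} {R : F.Sys O x y} (h : Mix sp O E J L R) {a : ι x y} (ha : a ∈ J)
    {e : ι y y} (he : e ∈ E') : tq R a e (F.o y) e = Submodule.span O {F.rho e} := by
  have h1 : tq R a e (F.o y) = F.rf O e :=
    ql_unique h.ctx h.orb h.st (mix_N1 hm h he (F.o y)) ha (fun m => rf_lat F e m)
      (N1_rf_right fun k hk => eq_rf F (h.uR k (hm.right a ha e he k hk)))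
  rw [h1]
  exact rf_self F e

end Pool.Agent.WGT
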