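import Pool.Agent.WGT.HatB
import Pool.Agent.WGT.SemA

/-!
# NFG/Tra: traces and dimensions

`d_eq`: `tr (λ ≪≫ ..)`: `sp.d i` is the trace of `𝟙 (S i)`.
`loop'`: `cv' i ≫ ev i = c • 𝟙 (𝟙 _)` for some `c` (`F.schur F.o` transported by `F.u`, lemma `unit_scalar`).  Apply
`tr_left` with `W = 𝟙 _`, `T = 𝟙`: `tr (𝟙 (S i ≫ 𝟙_)) = tr (𝟙_) (lpt 𝟙) = c` by `lpt_one`, `tr_one`, and
`tr (𝟙 (S i ≫ 𝟙_)) = tr (𝟙 (S i)) = d i` by `tr_comm` with `ρ_.hom`, `ρ_.inv`.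
`loop`: put `p = ev' i ≫ cv i`, an endomorphism of `S i ≫ S (st i)`.  `tr p = tr (cv i ≫ ev' i) = D` (`tr_comm`) where
`cv i ≫ ev' i = D • 𝟙`.  `tr_right` (index `i`, `W = S i`): `tr p = tr (S i) (rpt p)` and
`rpt p = ρ⁻¹ ≫ [(S i ◁ cv') ≫ α⁻¹ ≫ (ev' ▷ S i)] ≫ [(cv ▷ S i) ≫ α ≫ (S i ◁ ev)] ≫ ρ = 𝟙` by `zig'` and `zag`.
So `D = d i`.
`tr_rank`: `tr (g ≫ x) = tr (x ≫ g) = c * d m`.
`lpt_scalar`: `lpt T = c • 𝟙` by `F.schur`; take traces, `tr_left`.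
`rpt_scalar`: for `T : S a ≫ S (st i) ⟶ S a ≫ S (st i)` in the same way with `tr_right`.
-/

set_option autoImplicit false
set_option linter.unusedSectionVars false

noncomputable section

open CategoryTheory Bicategory

namespace Pool.Agent.WGT

open Pool.Agent.NFG

universe w₂ w₁ w₀ w

variable {K : Type w} [Field K] {B : Type w₀} [Bicategory.{w₂, w₁} B] [∀ a b : B, Preadditive (a ⟶ b)]
  [∀ a b : B, Linear K (a ⟶ b)] [AddBi B] [LinBi K B] {ι : B → B → Type} [∀ a b, Fintype (ι a b)]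
  [∀ a b, DecidableEq (ι a b)] {O : Subring K}

theorem unit_scalar (F : Fus K B ι) {p : B} (f : 𝟙 p ⟶ 𝟙 p) : ∃ c : K, f = c • 𝟙 (𝟙 p) := by
  obtain ⟨c, hc⟩ := F.schur (F.o p) ((F.u _).hom ≫ f ≫ (F.u _).inv)
  refine ⟨c, ?_⟩
  have h1 : f = (F.u _).inv ≫ ((F.u _).hom ≫ f ≫ (F.u _).inv) ≫ (F.u _).hom := by simp
  rw [h1, hc, Linear.smul_comp, Linear.comp_smul]
  simp

theorem loop' {F : Fus K B ι} (sp : Sph F) {p q : B} (i : ι p q) : sp.cv' i ≫ sp.ev i = sp.d i • 𝟙 (𝟙 q) := by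
  obtain ⟨c, hc⟩ := unit_scalar F (sp.cv' i ≫ sp.ev i)
  have h1 := sp.tr_left i (𝟙 q) (𝟙 _)
  rw [lpt_one, hc] at h1
  have h2 : (λ_ (𝟙 q)).inv ≫ ((c • 𝟙 (𝟙 q)) ▷ (𝟙 q)) ≫ (λ_ (𝟙 q)).hom = c • 𝟙 (𝟙 q) := by
    rw [wr_smul, Linear.smul_comp, Linear.comp_smul]
    simp
  rw [h2, map_smul, sp.tr_one] at h1
  have h3 := sp.tr_comm (F.S i ≫ 𝟙 q) (F.S i) (ρ_ (F.S i)).hom (ρ_ (F.S i)).inv
  rw [Iso.hom_inv_id, Iso.inv_hom_id, h1] at h3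
  rw [hc]
  congr 1
  simpa [Sph.d] using h3

theorem loop {F : Fus K B ι} (sp : Sph F) {p q : B} (i : ι p q) : sp.cv i ≫ sp.ev' i = sp.d i • 𝟙 (𝟙 p) := by
  obtain ⟨c, hc⟩ := unit_scalar F (sp.cv i ≫ sp.ev' i)
  have h1 := sp.tr_right i (F.S i) (sp.ev' i ≫ sp.cv i)
  have h2 : rpt (sp.cv' i) (sp.ev i) (sp.ev' i ≫ sp.cv i) = 𝟙 (F.S i) := by
    have e1 : rpt (sp.cv' i) (sp.ev i) (sp.ev' i ≫ sp.cv i) =
        (ρ_ (F.S i)).inv ≫ (F.S i ◁ sp.cv' i ≫ (α_ _ _ _).inv ≫ sp.ev' i ▷ F.S i) ≫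
          (sp.cv i ▷ F.S i ≫ (α_ _ _ _).hom ≫ F.S i ◁ sp.ev i) ≫ (ρ_ (F.S i)).hom := by
      simp only [rpt, comp_whiskerRight, Category.assoc]
    rw [e1, sp.zig', sp.zag]
    simp
  rw [h2] at h1
  have h3 := sp.tr_comm _ _ (sp.ev' i) (sp.cv i)
  rw [h1, hc, map_smul, sp.tr_one] at h3
  rw [hc]
  congr 1
  simpa [Sph.d] using h3.symm

theorem tr_rank {F : Fus K B ι} (sp : Sph F) {p q : B} {Z : p ⟶ q} {m : ι p q} (g : Z ⟶ F.S m) (x : F.S m ⟶ Z) {c : K}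
    (h : x ≫ g = c • 𝟙 (F.S m)) : sp.tr Z (g ≫ x) = c * sp.d m := by
  rw [sp.tr_comm, h, map_smul]
  rfl

theorem lpt_scalar {F : Fus K B ι} (sp : Sph F) (hd : ∀ {p q : B} (i : ι p q), sp.d i ≠ 0) {p q r : B} {a : ι p q} {v : ι q r}
    (T : F.S a ≫ F.S v ⟶ F.S a ≫ F.S v) :
    lpt (sp.cv' a) (sp.ev a) T = (sp.tr _ T / sp.d v) • 𝟙 (F.S v) := by
  obtain ⟨c, hc⟩ := F.schur v (lpt (sp.cv' a) (sp.ev a) T)
  have h1 := sp.tr_left a (F.S v) T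
  rw [hc, map_smul] at h1
  have h2 : sp.tr _ T = c * sp.d v := h1
  rw [hc, h2, mul_div_assoc, div_self (hd v), mul_one]

/-- the partial trace of a morphism `g ≫ x` through the simple object `S m` -/
theorem lpt_rank {F : Fus K B ι} (sp : Sph F) (hd : ∀ {p q : B} (i : ι p q), sp.d i ≠ 0) {p q r : B} {a : ι p q} {v : ι q r} {m : ι p r} (g : F.S a ≫ F.S v ⟶ F.S m)
    (x : F.S m ⟶ F.S a ≫ F.S v) {c : K} (h : x ≫ g = c • 𝟙 (F.S m)) :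
    lpt (sp.cv' a) (sp.ev a) (g ≫ x) = (c * sp.d m / sp.d v) • 𝟙 (F.S v) := by
  rw [lpt_scalar sp hd, tr_rank sp g x h]

theorem rpt_scalar {F : Fus K B ι} (sp : Sph F) (hd : ∀ {p q : B} (i : ι p q), sp.d i ≠ 0) {p q r : B} {a : ι r q} {i : ι p q}
    (T : F.S a ≫ F.S (sp.st i) ⟶ F.S a ≫ F.S (sp.st i)) :
    rpt (sp.cv' i) (sp.ev i) T = (sp.tr _ T / sp.d a) • 𝟙 (F.S a) := by
  obtain ⟨c, hc⟩ := F.schur a (rpt (sp.cv' i) (sp.ev i) T)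
  have h1 := sp.tr_right i (F.S a) T
  rw [hc, map_smul] at h1
  have h2 : sp.tr _ T = c * sp.d a := h1
  rw [hc, h2, mul_div_assoc, div_self (hd a), mul_one]

end Pool.Agent.WGT
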