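import Pool.Agent.WGT.TfD
import Pool.Agent.WGT.HatB
import Pool.Agent.WGT.Dua
import Pool.Agent.WGT.Tra
import Pool.Agent.WGT.SemB

/-!
# WGT/TfH: bent dual lattices

`exists_sc`: for `β` with `st β ∈ J` the lattice `R (st β) β o` (`(h.st β).lat`) lives in `Hom (S o, S (st β) ≫ S β)`, which is spanned by
`(F.u x).hom ≫ sp.cv' β` (`hom_cv'`, Dua), nonzero since `cv' ≫ ev = d • 𝟙` (`loop'`, Tra): `lat_rank_one`.  Choice; `s β = 1` else.
`bd_lat`: `f ↦ sh (sp.ev β) f` is a `K`-linear bijection with inverse `fl (sp.cv β)` (`sh_fl`, `fl_sh` with `sp.zig β`, `sp.zag β`);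
`dl_lat`, `IsLat.scl`; lattices correspond under linear equivalences (`Module.Basis.map`, or `lat_of_fg` with `IsLat.fg`, `IsLat.span`).
-/

set_option autoImplicit false
set_option linter.unusedSectionVars false

noncomputable section

open CategoryTheory Bicategory

namespace Pool.Agent.WGT

open Pool.Agent.NFG

universe w₂ w₁ w₀ w

variable {K : Type w} [Field K] {B : Type w₀} [Bicategory.{w₂, w₁} B] [∀ a b : B, Preadditive (a ⟶ b)]
  [∀ a b : B, Linear K (a ⟶ b)] [AddBi B] [LinBi K B] {ι : B → B → Type} [∀ a b, Fintype (ι a b)]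
  [∀ a b, DecidableEq (ι a b)] {O : Subring K}

/-- The bent dual lattices. -/
def bd {F : Fus K B ι} (sp : Sph F) {x y : B} (s : ι y x → K) (R : F.Sys O x y) : F.Sys O y x := fun β _ m v =>
  { carrier := {f | sh (sp.ev β) f ∈ scl (s β) (F.dl (R (sp.st β) v m))}
    add_mem' := by
      intro f f' hf hf'
      show sh (sp.ev β) (f + f') ∈ scl (s β) (F.dl (R (sp.st β) v m))
      rw [sh_add]
      exact Submodule.add_mem _ hf hf'
    zero_mem' := by
      show sh (sp.ev β) (0 : F.S v ⟶ F.S β ≫ F.S m) ∈ scl (s β) (F.dl (R (sp.st β) v m))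
      have h0 : sh (sp.ev β) (0 : F.S v ⟶ F.S β ≫ F.S m) = 0 := by
        have h1 := sh_smul (sp.ev β) (0 : K) (0 : F.S v ⟶ F.S β ≫ F.S m)
        rwa [zero_smul, zero_smul] at h1
      rw [h0]
      exact Submodule.zero_mem _
    smul_mem' := by
      intro t f hf
      have h1 : (t • f : F.S v ⟶ F.S β ≫ F.S m) = (t : K) • f := rfl
      show sh (sp.ev β) (t • f) ∈ scl (s β) (F.dl (R (sp.st β) v m))
      rw [h1, sh_smul]
      exact Submodule.smul_mem _ t hf }

theorem mem_bd {F : Fus K B ι} {sp : Sph F} {x y : B} {s : ι y x → K} {R : F.Sys O x y} {β : ι y x} {c : B}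
    {m : ι x c} {v : ι y c} {f : F.S v ⟶ F.S β ≫ F.S m} :
    f ∈ bd sp s R β m v ↔ sh (sp.ev β) f ∈ scl (s β) (F.dl (R (sp.st β) v m)) := Iff.rfl

/-- The scalars `s β`: `R (st β) β o` is spanned by the multiple `s β` of the coevaluation. -/
def IsSc {F : Fus K B ι} (sp : Sph F) {x y : B} (J : Set (ι x y)) (R : F.Sys O x y) (s : ι y x → K) : Prop :=
  ∀ β, sp.st β ∈ J → s β ≠ 0 ∧
    R (sp.st β) β (F.o x) = Submodule.span O {s β • ((F.u x).hom ≫ sp.cv' β)}

theorem exists_sc {F : Fus K B ι} {sp : Sph F} {x y : B} {E : Set (ι x x)} {J : Set (ι x y)}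
    {L : F.Sys O x x} {R : F.Sys O x y} (h : Mix sp O E J L R) : ∃ s : ι y x → K, IsSc sp J R s := by
  have hex : ∀ β : ι y x, ∃ c : K, sp.st β ∈ J → c ≠ 0 ∧
      R (sp.st β) β (F.o x) = Submodule.span O {c • ((F.u x).hom ≫ sp.cv' β)} := by
    intro β
    by_cases hβ : sp.st β ∈ J
    · have hne : (F.u x).hom ≫ sp.cv' β ≠ 0 := by
        intro h0
        have h1 : ((F.u x).hom ≫ sp.cv' β) ≫ sp.ev β ≫ (F.u x).inv = sp.d β • 𝟙 (F.S (F.o x)) := by
          rw [Category.assoc, ← Category.assoc (sp.cv' β), loop', Linear.smul_comp, Linear.comp_smul, Category.id_comp,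
            Iso.hom_inv_id]
        rw [h0, Limits.zero_comp] at h1
        rcases smul_eq_zero.1 h1.symm with h2 | h2
        · exact (h.ctx.du β).1 h2
        · exact F.one_ne _ h2
      obtain ⟨t, ht, h2⟩ := lat_rank_one ((h.st β).lat _ hβ (F.o x)) hne (fun f => hom_cv' sp β f)
      exact ⟨t, fun _ => ⟨ht, h2⟩⟩
    · exact ⟨1, fun h0 => absurd h0 hβ⟩
  choose s hs using hex
  exact ⟨s, hs⟩

private theorem tfh_equiv {M M' : Type*} [AddCommGroup M] [Module K M] [AddCommGroup M'] [Module K M'] (Θ : M ≃ₗ[K] M')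
    {L' : Submodule O M'} (hL' : IsLat O L') {L : Submodule O M} (h : ∀ f, f ∈ L ↔ Θ f ∈ L') : IsLat O L := by
  obtain ⟨n, b, rfl⟩ := hL'
  refine ⟨n, b.map Θ.symm, ?_⟩
  ext f
  rw [h, Submodule.mem_span_range_iff_exists_fun, Submodule.mem_span_range_iff_exists_fun]
  have key : ∀ c : Fin n → O, Θ (∑ i, c i • (b.map Θ.symm) i) = ∑ i, c i • b i := by
    intro c
    rw [map_sum]
    refine Finset.sum_congr rfl fun i _ => ?_
    have h1 : c i • (b.map Θ.symm) i = (c i : K) • Θ.symm (b i) := rfl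
    rw [h1, map_smul, LinearEquiv.apply_symm_apply]
    rfl
  constructor
  · rintro ⟨c, hc⟩
    exact ⟨c, Θ.injective (by rw [key, hc])⟩
  · rintro ⟨c, hc⟩
    exact ⟨c, by rw [← key, hc]⟩

theorem bd_lat {F : Fus K B ι} {sp : Sph F} {x y : B} {s : ι y x → K} {R : F.Sys O x y} {β : ι y x} (hs : s β ≠ 0)
    {c : B} {m : ι x c} {v : ι y c} (hR : IsLat O (R (sp.st β) v m)) : IsLat O (bd sp s R β m v) := by
  let Θ : (F.S v ⟶ F.S β ≫ F.S m) ≃ₗ[K] (F.S (sp.st β) ≫ F.S v ⟶ F.S m) :=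
    { toFun := sh (sp.ev β)
      invFun := fl (sp.cv β)
      map_add' := sh_add _
      map_smul' := sh_smul _
      left_inv := fun f => fl_sh _ _ (sp.zag β) f
      right_inv := fun g => sh_fl _ _ (sp.zig β) g }
  exact tfh_equiv Θ ((dl_lat F hR).scl hs) fun f => mem_bd

end Pool.Agent.WGT
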