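import Pool.Agent.WGT.TfD
import Pool.Agent.WGT.FroB
import Pool.Agent.WGT.Mul
import Pool.Agent.WGT.NlB
import Pool.Agent.WGT.StA

/-!
# WGT/TfK: two forms with the same stable system, on the orbit

`occ_o_left`, `occ_o_right`: `mult_left`, `mult_right`, `one_mult`, `mult_one`, `st_st` (Mul).
`same_orb`: `L_i z (st z) o = span {c_i • (u.hom ≫ cv z)}`, `c_i ≠ 0` (`frob_const` in FroB), so `L₂ z m' o = scl γ (L₁ z m' o)` for all `m'`,
`γ = c₂ / c₁` (for `m' ≠ st z` the space is zero, `occ_o_left`, `eq_of_zero`).  Let `a, a' ∈ J`.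
`R a' (st a') o = span {s • (u.hom ≫ cv a')}`, `s ≠ 0` (`hom_cv`, `lat_rank_one`, `h₁.st`).  Claim `L₂ z a a' ≤ scl γ (L₁ z a a')`; by symmetry
(`h₁, h₂` exchanged, `γ⁻¹`) equality.  Let `x₀ ∈ L₂ z a a'`.  `(s • (u.hom ≫ cv a')) ≫ hat x₀ (S (st a')) ∈ N1 L₂ z a (fun k => R k (st a')) o
= N2 L₂ z (R a (st a')) o` (`stab_eq h₂.ctx h₂.orb.act (h₂.st _) hz ha`) `= scl γ (N2 L₁ z (R a (st a')) o) = scl γ (N1 L₁ z a (fun k => R k (st a')) o)`
(`N2_scl`, `stab_eq h₁.ctx ..`).  For `b ∈ dl (L₁ z a a')`: `N1_dl` (after `γ⁻¹`): `(s • (u.hom ≫ cv a')) ≫ hat x₀ _ ≫ hab b _ ∈ scl γ (R a' (st a') o)`;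
`hat x₀ _ ≫ hab b _ = (x₀ ≫ b) ▷ _` (`hat_hab`), and `x₀ ≫ b = c • 𝟙` (`schur`), so `c ∈ γ O`.  `mem_of_dl` for `γ⁻¹ • x₀`.
-/

set_option autoImplicit false
set_option linter.unusedSectionVars false

noncomputable section

open CategoryTheory Bicategory

namespace Pool.Agent.WGT

open Pool.Agent.NFG

universe w₂ w₁ w₀ w

variable {K : Type w} [Field K] {B : Type w₀} [Bicategory.{w₂, w₁} B] [∀ a b : B, Preadditive (a ⟶ b)]
  [∀ a b : B, Linear K (a ⟶ b)] [AddBi B] [LinBi K B] {ι : B → B → Type} [∀ a b, Fintype (ι a b)]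
  [∀ a b, DecidableEq (ι a b)] {O : Subring K}

/-- `F.S (F.o x)` occurs in `F.S z ≫ F.S m` only for `m = st z` -/
theorem occ_o_left {F : Fus K B ι} (sp : Sph F) {x y : B} {z : ι x y} {m : ι y x} (h : F.Occ z m (F.o x)) :
    m = sp.st z := by
  have h1 := mult_ne.2 h
  rw [mult_left sp, mult_one] at h1
  by_contra h2
  rw [if_neg (fun h3 => h2 h3.symm)] at h1
  exact h1 rfl

theorem occ_o_right {F : Fus K B ι} (sp : Sph F) {x y : B} {a : ι x y} {k : ι x y}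
    (h : F.Occ k (sp.st a) (F.o x)) : k = a := by
  have h1 := mult_ne.2 h
  rw [mult_right sp, st_st, one_mult] at h1
  by_contra h2
  rw [if_neg (fun h3 => h2 h3.symm)] at h1
  exact h1 rfl

private theorem tk_back {M : Type*} [AddCommGroup M] [Module K M] {c : K} (hc : c ≠ 0) {L L' : Submodule O M}
    (h : L' = scl c L) : L = scl c⁻¹ L' := by
  rw [h, scl_scl, inv_mul_cancel₀ hc, scl_one]

private theorem tk_osmul (c : O) {p q : B} {V W : p ⟶ q} (f : V ⟶ W) : (c • f : V ⟶ W) = (c : K) • f := rfl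

private theorem tk_cv_ne {F : Fus K B ι} (sp : Sph F) {x y : B} (a : ι x y) : (F.u x).hom ≫ sp.cv a ≠ 0 := by
  intro h
  obtain ⟨f, hf⟩ := occ_ev sp (d_ne sp) a
  obtain ⟨c, hc⟩ := hom_cv sp a f
  rw [h, smul_zero] at hc
  exact hf hc

private theorem tk_orb {F : Fus K B ι} {sp : Sph F} {x : B} {E : Set (ι x x)} {L₁ L₂ : F.Sys O x x}
    (h₁ : Ctx sp O E L₁) (h₂ : Ctx sp O E L₂) {z : ι x x} (hz : z ∈ E) :
    ∃ γ : K, γ ≠ 0 ∧ ∀ m' : ι x x, L₂ z m' (F.o x) = scl γ (L₁ z m' (F.o x)) := by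
  obtain ⟨t1, -, ht1, -, e1, -, -⟩ := frob_const h₁ hz
  obtain ⟨s1, -, hs1, -, e2, -, -⟩ := frob_const h₂ hz
  refine ⟨s1 / t1, div_ne_zero hs1 ht1, fun m' => ?_⟩
  by_cases hm : m' = sp.st z
  · subst hm
    rw [e1, e2, scl_span_singleton, smul_smul, div_mul_cancel₀ _ ht1]
  · exact eq_of_zero (fun f => not_occ F (fun h => hm (occ_o_left sp h)) f) _ _

private theorem tk_le {F : Fus K B ι} {sp : Sph F} {x y : B} {E : Set (ι x x)} {J : Set (ι x y)} {L₁ L₂ : F.Sys O x x}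
    {R : F.Sys O x y} (h₁ : Mix sp O E J L₁ R) (h₂ : Mix sp O E J L₂ R) {z : ι x x} (hz : z ∈ E) {γ : K} (hγ : γ ≠ 0)
    (hL : ∀ m' : ι x x, L₂ z m' (F.o x) = scl γ (L₁ z m' (F.o x))) {a a' : ι x y} (ha : a ∈ J) (ha' : a' ∈ J) :
    L₂ z a a' ≤ scl γ (L₁ z a a') := by
  intro x₀ hx₀
  rw [mem_scl_iff hγ]
  refine mem_of_dl F (h₁.ctx.int.lat z hz a a') fun b hb => ?_
  obtain ⟨c, hc⟩ := F.schur a' (x₀ ≫ b)
  obtain ⟨s, hs, e1⟩ := lat_rank_one ((h₁.st (sp.st a')).lat a' ha' (F.o x)) (tk_cv_ne sp a') (hom_cv sp a')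
  have hf0 : s • ((F.u x).hom ≫ sp.cv a') ≠ 0 := smul_ne_zero hs (tk_cv_ne sp a')
  have hf : s • ((F.u x).hom ≫ sp.cv a') ∈ R a' (sp.st a') (F.o x) := by
    rw [e1]
    exact Submodule.mem_span_singleton_self _
  have m1 := mem_N1 (F := F) (L := L₂) (n := fun k => R k (sp.st a')) hx₀ hf
  rw [stab_eq h₂.ctx h₂.orb.act (h₂.st (sp.st a')) hz ha] at m1
  have e2 : F.N2 L₂ z (R a (sp.st a')) (F.o x) = scl γ (F.N2 L₁ z (R a (sp.st a')) (F.o x)) := by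
    refine N2_scl (s := fun _ => γ) (t := fun _ => 1) hγ (fun _ => hγ) (fun _ => one_ne_zero) hL
      (fun m' => (scl_one _).symm) fun m' _ _ => ?_
    rw [mul_one, div_self hγ]
    exact ⟨one_ne_zero, O.one_mem, by rw [inv_one]; exact O.one_mem⟩
  rw [e2] at m1
  have e3 := stab_eq h₁.ctx h₁.orb.act (h₁.st (sp.st a')) hz ha
  rw [← e3] at m1
  obtain ⟨g, hg, hg1⟩ := m1
  have m2 := N1_dl hg hb
  rw [e1] at m2
  obtain ⟨r, hr⟩ := Submodule.mem_span_singleton.1 m2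
  refine ⟨(r : K), r.2, ?_⟩
  have e4 : (s • ((F.u x).hom ≫ sp.cv a')) ≫ hat x₀ (F.S (sp.st a')) ≫ hab b (F.S (sp.st a')) =
      c • (s • ((F.u x).hom ≫ sp.cv a')) := by
    rw [hat_hab, hc, wr_smul, Bicategory.id_whiskerRight, Linear.comp_smul, Category.comp_id]
  rw [← Category.assoc, hg1, Linear.smul_comp, ← hr, tk_osmul, smul_smul] at e4
  have e5 : γ * (r : K) = c := by
    have h6 : (γ * (r : K) - c) • (s • ((F.u x).hom ≫ sp.cv a')) = 0 := by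
      rw [sub_smul, e4, sub_self]
    rcases smul_eq_zero.1 h6 with h7 | h7
    · exact sub_eq_zero.1 h7
    · exact absurd h7 hf0
  rw [Linear.smul_comp, hc, smul_smul, ← e5, ← mul_assoc, inv_mul_cancel₀ hγ, one_mul]

theorem same_orb {F : Fus K B ι} {sp : Sph F} {x y : B} {E : Set (ι x x)} {J : Set (ι x y)} {L₁ L₂ : F.Sys O x x}
    {R : F.Sys O x y} (h₁ : Mix sp O E J L₁ R) (h₂ : Mix sp O E J L₂ R) {z : ι x x} (hz : z ∈ E) :
    ∃ γ : K, γ ≠ 0 ∧ ∀ a ∈ J, ∀ a' ∈ J, L₂ z a a' = scl γ (L₁ z a a') := by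
  obtain ⟨γ, hγ, hL⟩ := tk_orb h₁.ctx h₂.ctx hz
  refine ⟨γ, hγ, fun a ha a' ha' => le_antisymm (tk_le h₁ h₂ hz hγ hL ha ha') ?_⟩
  have h3 := tk_le h₂ h₁ hz (inv_ne_zero hγ) (fun m' => tk_back hγ (hL m')) ha ha'
  have h4 := scl_mono (c := γ) h3
  rwa [scl_scl, mul_inv_cancel₀ hγ, scl_one] at h4

end Pool.Agent.WGT
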