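import Pool.Agent.WGT.TfD
import Pool.Agent.WGT.StA
import Pool.Agent.WGT.NlB

/-!
# WGT/TfM: gauge transformations of stable systems

`ctx`: `gau_int` (Gau).  `uR`: the scalar is `t a * (t a)⁻¹ = 1`.  `st`: lattices `IsLat.scl`; stability: `b ∈ dl (scl r (L e a a'))`,
`r = t e * t a * (t a')⁻¹`, is `r⁻¹ • b₀` (`dl_scl`), `f = (t a * (t m)⁻¹) • f₀`, `z = (t e * t m * (t m')⁻¹) • z₀`; the product of the scalars is
`t a' * (t m')⁻¹`; `h.st`.
-/

set_option autoImplicit false
set_option linter.unusedSectionVars false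

noncomputable section

open CategoryTheory Bicategory

namespace Pool.Agent.WGT

open Pool.Agent.NFG

universe w₂ w₁ w₀ w

variable {K : Type w} [Field K] {B : Type w₀} [Bicategory.{w₂, w₁} B] [∀ a b : B, Preadditive (a ⟶ b)]
  [∀ a b : B, Linear K (a ⟶ b)] [AddBi B] [LinBi K B] {ι : B → B → Type} [∀ a b, Fintype (ι a b)]
  [∀ a b, DecidableEq (ι a b)] {O : Subring K}

private theorem tm_int {F : Fus K B ι} {x : B} {E : Set (ι x x)} {L : F.Sys O x x} (hL : LInt F O E L)
    {t : ∀ ⦃c : B⦄, ι x c → K} (ht : ∀ (c : B) (m : ι x c), t m ≠ 0) (ho : IsU O (t (F.o x))) :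
    LInt F O E (fun e _ v m => scl (t e * t v * (t m)⁻¹) (L e v m)) := by
  refine ⟨?_, ?_, ?_, ?_⟩
  · intro y hy c v m
    exact IsLat.scl (hL.lat y hy v m) (mul_ne_zero (mul_ne_zero (ht _ y) (ht _ v)) (inv_ne_zero (ht _ m)))
  · intro c v
    have h1 : IsU O (t (F.o x) * t v * (t v)⁻¹) := by
      rw [mul_assoc, mul_inv_cancel₀ (ht _ v), mul_one]
      exact ho
    change scl (t (F.o x) * t v * (t v)⁻¹) (L (F.o x) v v) = _
    rw [scl_unit h1]
    exact hL.unitL v
  · intro y hy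
    have h1 : IsU O (t y * t (F.o x) * (t y)⁻¹) := by
      rw [mul_comm (t y), mul_assoc, mul_inv_cancel₀ (ht _ y), mul_one]
      exact ho
    change scl (t y * t (F.o x) * (t y)⁻¹) (L y (F.o x) y) = _
    rw [scl_unit h1]
    exact hL.unitR y hy
  · intro y hy y' hy' c v
    funext m
    have hr : t y * t y' * t v * (t m)⁻¹ ≠ 0 :=
      mul_ne_zero (mul_ne_zero (mul_ne_zero (ht _ y) (ht _ y')) (ht _ v)) (inv_ne_zero (ht _ m))
    have e1 : F.N1 (fun e _ v m => scl (t e * t v * (t m)⁻¹) (L e v m)) y y'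
        (fun k m => scl (t k * t v * (t m)⁻¹) (L k v m)) m
        = scl (t y * t y' * t v * (t m)⁻¹) (F.N1 L y y' (fun k => L k v) m) := by
      refine N1_scl (s := fun k => t y * t y' * (t k)⁻¹) (t := fun k => t k * t v * (t m)⁻¹) hr ?_ ?_ ?_ ?_ ?_
      · intro k
        exact mul_ne_zero (mul_ne_zero (ht _ y) (ht _ y')) (inv_ne_zero (ht _ k))
      · intro k
        exact mul_ne_zero (mul_ne_zero (ht _ k) (ht _ v)) (inv_ne_zero (ht _ m))
      · intro k
        rfl
      · intro k _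
        rfl
      · intro k _
        have h1 : t y * t y' * (t k)⁻¹ * (t k * t v * (t m)⁻¹) / (t y * t y' * t v * (t m)⁻¹) = 1 := by
          have a1 := ht _ y
          have a2 := ht _ y'
          have a3 := ht _ k
          have a4 := ht _ v
          have a5 := ht _ m
          field_simp
        rw [h1]
        exact isU_one
    have e2 : F.N2 (fun e _ v m => scl (t e * t v * (t m)⁻¹) (L e v m)) y
        (fun m => scl (t y' * t v * (t m)⁻¹) (L y' v m)) m
        = scl (t y * t y' * t v * (t m)⁻¹) (F.N2 L y (L y' v) m) := by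
      refine N2_scl (s := fun k => t y * t k * (t m)⁻¹) (t := fun k => t y' * t v * (t k)⁻¹) hr ?_ ?_ ?_ ?_ ?_
      · intro k
        exact mul_ne_zero (mul_ne_zero (ht _ y) (ht _ k)) (inv_ne_zero (ht _ m))
      · intro k
        exact mul_ne_zero (mul_ne_zero (ht _ y') (ht _ v)) (inv_ne_zero (ht _ k))
      · intro k
        rfl
      · intro k
        rfl
      · intro k _ _
        have h1 : t y * t k * (t m)⁻¹ * (t y' * t v * (t k)⁻¹) / (t y * t y' * t v * (t m)⁻¹) = 1 := by
          have a1 := ht _ y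
          have a2 := ht _ y'
          have a3 := ht _ k
          have a4 := ht _ v
          have a5 := ht _ m
          field_simp
        rw [h1]
        exact isU_one
    exact (e1.trans (by rw [hL.assoc y hy y' hy' v])).trans e2.symm

theorem mix_gau {F : Fus K B ι} {sp : Sph F} {x y : B} {E : Set (ι x x)} {J : Set (ι x y)} {L : F.Sys O x x}
    {R : F.Sys O x y} (h : Mix sp O E J L R) {t : ∀ ⦃c : B⦄, ι x c → K} (ht : ∀ (c : B) (m : ι x c), t m ≠ 0)
    (ho : IsU O (t (F.o x))) :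
    Mix sp O E J (fun e _ v m => scl (t e * t v * (t m)⁻¹) (L e v m))
      (fun a _ v m => scl (t a * (t m)⁻¹) (R a v m)) := by
  refine ⟨⟨h.ctx.val, h.ctx.du, h.ctx.sub, tm_int h.ctx.int ht ho⟩, h.orb, ?_, ?_⟩
  · intro a ha
    change scl (t a * (t a)⁻¹) (R a (F.o y) a) = _
    rw [mul_inv_cancel₀ (ht _ a), scl_unit isU_one]
    exact h.uR a ha
  · intro c v
    refine ⟨?_, ?_⟩
    · intro a ha m
      exact IsLat.scl ((h.st v).lat a ha m) (mul_ne_zero (ht _ a) (inv_ne_zero (ht _ m)))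
    · intro e he a ha a' ha' b hb m m' f hf z hz
      have hr : t e * t a * (t a')⁻¹ ≠ 0 :=
        mul_ne_zero (mul_ne_zero (ht _ e) (ht _ a)) (inv_ne_zero (ht _ a'))
      have hb' : b ∈ scl (t e * t a * (t a')⁻¹)⁻¹ (F.dl (L e a a')) := by
        rw [← dl_scl F (L e a a') hr]
        exact hb
      obtain ⟨b0, hb0, rfl⟩ := hb'
      obtain ⟨f0, hf0, rfl⟩ := hf
      obtain ⟨z0, hz0, rfl⟩ := hz
      have h1 := (h.st v).stab e he a ha a' ha' b0 hb0 m m' f0 hf0 z0 hz0
      have h2 : ((t e * t m * (t m')⁻¹) • z0) ≫ (F.S e ◁ ((t a * (t m)⁻¹) • f0)) ≫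
          hab ((t e * t a * (t a')⁻¹)⁻¹ • b0) (F.S v) =
          (t a' * (t m')⁻¹) • (z0 ≫ (F.S e ◁ f0) ≫ hab b0 (F.S v)) := by
        rw [hab_smul, wl_smul, Linear.smul_comp, Linear.comp_smul, Linear.comp_smul, Linear.smul_comp,
          Linear.comp_smul, smul_smul, smul_smul]
        congr 1
        have a1 := ht _ e
        have a2 := ht _ a
        have a3 := ht _ a'
        have a4 := ht _ m
        have a5 := ht _ m'
        field_simp
      change ((t e * t m * (t m')⁻¹) • z0) ≫ (F.S e ◁ ((t a * (t m)⁻¹) • f0)) ≫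
          hab ((t e * t a * (t a')⁻¹)⁻¹ • b0) (F.S v) ∈ scl (t a' * (t m')⁻¹) (R a' v m')
      rw [h2]
      exact smul_mem_scl _ h1

end Pool.Agent.WGT
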